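import Pool.Agent.Lib.MP_9e8926_ag_DP.Pre
import Pool.Agent.Lib.MP_9e8926_ag_CX.SumL

/-!
# Lattice points in simplices

`#sx a W` is the number of `γ` with `∑ a_v γ_v < W` (all `a_v ≥ 1`, so `γ_v < W` is automatic).
Reduce to `υ = Fin n` (`Fintype.equivFin`) and induct on `n` (first coordinate `γ_0 = j`, remaining
coordinates in the simplex of size `W - a_0 j`): `#sx a W = ∑_{j, a_0 j < W} #sx a' (W - a_0 j)`.
* upper bound: `n! ∏ a' #sx a' (W - a_0 j) ≤ (W - a_0 j + |a'|)^n`, and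
  `(n+1) a_0 ∑_{j ≥ 0, a_0 j < W} (c - a_0 j)^n ≤ (c + a_0)^{n+1}`, `c = W + |a'|` (comparison with an
  integral or telescoping: `CX.one_up'` in `Pool/Agent/Lib/MP_9e8926_ag_CX/SumL.lean`, also
  `CX.step_up`, `CX.bern_up`).
* lower bound: `(n+1) a_0 ∑_{j ≥ 0, a_0 j < W} (W - a_0 j)^n ≥ W^{n+1}`
  (`(n+1) a u^n ≥ u^{n+1} - max(0, u - a)^{n+1}`, `CX.step_low`); start the induction at `n = 1`:
  `W ≤ a ⌈W/a⌉`.
* first moments (`mom_up`): `∑_{γ ∈ sx a W} γ_v = ∑_{j ≥ 1, a_v j < W} #sx a (W - a_v j)` (count the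
  pairs `(γ, j)` with `1 ≤ j ≤ γ_v`; `γ ↦ γ - j e_v`), so by the upper bound it is at most
  `(n! ∏ a)⁻¹ ∑_{j ≥ 1, a_v j < W} (c - a_v j)^n`, `c = W + |a|`, and
  `(n+1) a_v ∑_{j ≥ 1} max(0, c - a_v j)^n ≤ c^{n+1}`.
-/

set_option autoImplicit false

noncomputable section

namespace DP

variable {υ : Type*} [Fintype υ]

theorem mem_sx {a : υ → ℕ} (ha : ∀ v, 1 ≤ a v) {W : ℕ} {γ : υ → ℕ} :
    γ ∈ sx a W ↔ ∑ v, a v * γ v < W := by
  classical
  unfold sx
  rw [Finset.mem_filter, Fintype.mem_piFinset]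
  refine ⟨fun h => h.2, fun h => ⟨fun v => ?_, h⟩⟩
  rw [Finset.mem_range]
  refine lt_of_le_of_lt ?_ h
  refine (Nat.le_mul_of_pos_left (γ v) (ha v)).trans ?_
  exact Finset.single_le_sum (f := fun v => a v * γ v) (fun _ _ => Nat.zero_le _)
    (Finset.mem_univ v)

/-- Telescoping upper bound. -/
theorem tele_up (n k : ℕ) {d : ℝ} (hd : 0 ≤ d) (c : ℝ) (p : ℕ → Prop) [DecidablePred p]
    (hp : ∀ j, p j → 0 ≤ c - d * j) :
    ∑ j ∈ Finset.range k, (if p j then ((n : ℝ) + 1) * d * (c - d * j) ^ n else 0) ≤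
      max 0 (c + d) ^ (n + 1) := by
  have key : ∑ j ∈ Finset.range k, (if p j then ((n : ℝ) + 1) * d * (c - d * j) ^ n else 0) +
      max 0 (c + d - d * k) ^ (n + 1) ≤ max 0 (c + d) ^ (n + 1) := by
    induction k with
    | zero => simp
    | succ k ih =>
      rw [Finset.sum_range_succ]
      have h1 : c + d - d * ((k + 1 : ℕ) : ℝ) = c - d * k := by push_cast; ring
      have h2 : c + d - d * (k : ℝ) = c - d * k + d := by ring
      rw [h1]
      rw [h2] at ih
      have h3 : (if p k then ((n : ℝ) + 1) * d * (c - d * k) ^ n else 0) +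
          max 0 (c - d * k) ^ (n + 1) ≤ max 0 (c - d * k + d) ^ (n + 1) := by
        split_ifs with hk
        · have h4 := hp k hk
          rw [max_eq_right h4, max_eq_right (add_nonneg h4 hd)]
          have := CX.SumL.bern_up n h4 hd
          linarith
        · rw [zero_add]
          exact pow_le_pow_left₀ (le_max_left _ _) (max_le_max le_rfl (by linarith)) _
      linarith
  have h0 : (0 : ℝ) ≤ max 0 (c + d - d * k) ^ (n + 1) := pow_nonneg (le_max_left _ _) _
  linarith

theorem tele_low (n : ℕ) {d : ℕ} (hd : 1 ≤ d) (W : ℕ) :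
    (W : ℝ) ^ (n + 1) ≤ ∑ j ∈ Finset.range W,
      (if d * j < W then ((n : ℝ) + 1) * d * ((W : ℝ) - d * j) ^ n else 0) := by
  have hd0 : (0 : ℝ) < d := by exact_mod_cast hd
  have key : ∀ k : ℕ, (W : ℝ) ^ (n + 1) ≤ ∑ j ∈ Finset.range k,
      (if d * j < W then ((n : ℝ) + 1) * d * ((W : ℝ) - d * j) ^ n else 0) +
      max 0 ((W : ℝ) - d * k) ^ (n + 1) := by
    intro k
    induction k with
    | zero =>
      simp only [Finset.range_zero, Finset.sum_empty, Nat.cast_zero, mul_zero, sub_zero, zero_add]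
      rw [max_eq_right (Nat.cast_nonneg W)]
    | succ k ih =>
      rw [Finset.sum_range_succ]
      have h3 : max 0 ((W : ℝ) - d * k) ^ (n + 1) ≤
          (if d * k < W then ((n : ℝ) + 1) * d * ((W : ℝ) - d * k) ^ n else 0) +
          max 0 ((W : ℝ) - d * ((k + 1 : ℕ) : ℝ)) ^ (n + 1) := by
        have h4 := CX.SumL.step_low n (u := (W : ℝ) - d * k) hd0
        have h5 : (W : ℝ) - d * ((k + 1 : ℕ) : ℝ) = (W : ℝ) - d * k - d := by push_cast; ring
        rw [h5]
        split_ifs with hk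
        · have h6 : (0 : ℝ) ≤ (W : ℝ) - d * k := by
            have : ((d * k : ℕ) : ℝ) < W := by exact_mod_cast hk
            push_cast at this
            linarith
          rw [max_eq_right h6] at h4 ⊢
          linarith
        · have h6 : (W : ℝ) - d * k ≤ 0 := by
            have : (W : ℝ) ≤ ((d * k : ℕ) : ℝ) := by exact_mod_cast not_lt.1 hk
            push_cast at this
            linarith
          rw [max_eq_left h6, zero_pow (Nat.succ_ne_zero n), zero_add]
          exact pow_nonneg (le_max_left _ _) _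
      linarith
  have h1 := key W
  have h2 : (W : ℝ) - d * W ≤ 0 := by
    have : (1 : ℝ) ≤ d := by exact_mod_cast hd
    have hW : (0 : ℝ) ≤ W := Nat.cast_nonneg _
    nlinarith
  rw [max_eq_left h2, zero_pow (Nat.succ_ne_zero n), add_zero] at h1
  exact h1

theorem card_sx_equiv {υ' : Type*} [Fintype υ'] (e : υ' ≃ υ) (a : υ → ℕ) (ha : ∀ v, 1 ≤ a v)
    (W : ℕ) : (sx (fun v => a (e v)) W).card = (sx a W).card := by
  have key : ∀ γ : υ' → ℕ, ∑ v, a v * γ (e.symm v) = ∑ v, a (e v) * γ v := by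
    intro γ
    rw [← Equiv.sum_comp e (fun v => a v * γ (e.symm v))]
    simp
  refine Finset.card_nbij' (fun γ v => γ (e.symm v)) (fun γ v => γ (e v)) ?_ ?_ ?_ ?_
  · intro γ hγ
    rw [Finset.mem_coe, mem_sx (fun v => ha _)] at hγ
    rw [Finset.mem_coe, mem_sx ha, key]
    exact hγ
  · intro γ hγ
    rw [Finset.mem_coe, mem_sx ha] at hγ
    rw [Finset.mem_coe, mem_sx (fun v => ha _), ← key]
    simpa using hγ
  · intro γ _
    simp
  · intro γ _
    simp

theorem sx_zero (a : υ → ℕ) : sx a 0 = ∅ := by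
  classical
  ext γ
  unfold sx
  simp

theorem card_sx_succ {n : ℕ} (a : Fin (n + 1) → ℕ) (ha : ∀ v, 1 ≤ a v) (W : ℕ) :
    (sx a W).card = ∑ j ∈ Finset.range W, (sx (fun v => a (Fin.succ v)) (W - a 0 * j)).card := by
  rw [← Finset.card_sigma]
  refine Finset.card_nbij' (fun γ => ⟨γ 0, fun v => γ v.succ⟩)
    (fun u => Fin.cons u.1 u.2) ?_ ?_ ?_ ?_
  · intro γ hγ
    rw [Finset.mem_coe, mem_sx ha, Fin.sum_univ_succ] at hγ
    rw [Finset.mem_coe, Finset.mem_sigma, mem_sx (fun v => ha _), Finset.mem_range]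
    refine ⟨?_, ?_⟩
    · have := Nat.le_mul_of_pos_left (γ 0) (ha 0)
      simp only
      omega
    · simp only
      omega
  · intro u hu
    rw [Finset.mem_coe, Finset.mem_sigma, mem_sx (fun v => ha _)] at hu
    rw [Finset.mem_coe, mem_sx ha, Fin.sum_univ_succ]
    simp only [Fin.cons_zero, Fin.cons_succ]
    have := hu.2
    omega
  · intro γ _
    simp only
    exact Fin.cons_self_tail γ
  · intro u _
    simp only [Fin.cons_zero, Fin.cons_succ]

theorem card_up_fin (n : ℕ) (a : Fin n → ℕ) (ha : ∀ v, 1 ≤ a v) (W : ℕ) :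
    (n.factorial : ℝ) * (∏ v, (a v : ℝ)) * ((sx a W).card : ℝ) ≤
      ((W : ℝ) + ∑ v, (a v : ℝ)) ^ n := by
  induction n generalizing W with
  | zero =>
    have h1 : (sx a W).card ≤ 1 := Finset.card_le_one.2 fun x _ y _ => Subsingleton.elim x y
    have h2 : ((sx a W).card : ℝ) ≤ 1 := by exact_mod_cast h1
    simpa using h2
  | succ n ih =>
    rw [card_sx_succ a ha W]
    set A : ℝ := ∑ v : Fin n, (a v.succ : ℝ) with hA
    have hA0 : 0 ≤ A := Finset.sum_nonneg fun _ _ => Nat.cast_nonneg _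
    have ha0 : (0 : ℝ) ≤ a 0 := Nat.cast_nonneg _
    have hW0 : (0 : ℝ) ≤ W := Nat.cast_nonneg _
    have h1 := tele_up n W ha0 ((W : ℝ) + A) (fun j => a 0 * j < W) (fun j hj => by
      have : ((a 0 * j : ℕ) : ℝ) < W := by exact_mod_cast hj
      push_cast at this
      linarith)
    have h2 : ∀ j ∈ Finset.range W, ((n + 1).factorial : ℝ) * (∏ v, (a v : ℝ)) *
        ((sx (fun v => a (Fin.succ v)) (W - a 0 * j)).card : ℝ) ≤
        (if a 0 * j < W then ((n : ℝ) + 1) * a 0 * ((W : ℝ) + A - a 0 * j) ^ n else 0) := by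
      intro j _
      split_ifs with hj
      · have h3 := ih (fun v => a v.succ) (fun v => ha _) (W - a 0 * j)
        rw [Nat.cast_sub hj.le] at h3
        rw [Nat.factorial_succ, Fin.prod_univ_succ]
        push_cast at h3 ⊢
        have h4 := mul_le_mul_of_nonneg_left h3
          (show (0 : ℝ) ≤ ((n : ℝ) + 1) * a 0 by positivity)
        have h5 : (W : ℝ) - a 0 * j + A = (W : ℝ) + A - a 0 * j := by ring
        rw [← h5]
        refine le_trans (le_of_eq ?_) h4
        ring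
      · rw [Nat.sub_eq_zero_of_le (not_lt.1 hj), sx_zero]
        simp
    rw [Nat.cast_sum, Finset.mul_sum]
    refine (Finset.sum_le_sum h2).trans (h1.trans (le_of_eq ?_))
    rw [max_eq_right (by positivity), Fin.sum_univ_succ]
    congr 1
    ring

theorem card_low_fin (n : ℕ) (a : Fin n → ℕ) (ha : ∀ v, 1 ≤ a v) (W : ℕ) (hW : 0 < W) :
    (W : ℝ) ^ n ≤ (n.factorial : ℝ) * (∏ v, (a v : ℝ)) * ((sx a W).card : ℝ) := by
  induction n generalizing W with
  | zero =>
    have h1 : 1 ≤ (sx a W).card := by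
      rw [Nat.one_le_iff_ne_zero, ← Nat.pos_iff_ne_zero, Finset.card_pos]
      refine ⟨fun _ => 0, ?_⟩
      rw [mem_sx ha]
      simpa using hW
    have h2 : (1 : ℝ) ≤ ((sx a W).card : ℝ) := by exact_mod_cast h1
    simpa using h2
  | succ n ih =>
    rw [card_sx_succ a ha W]
    have h1 := tele_low n (ha 0) W
    have h2 : ∀ j ∈ Finset.range W,
        (if a 0 * j < W then ((n : ℝ) + 1) * a 0 * ((W : ℝ) - a 0 * j) ^ n else 0) ≤
        ((n + 1).factorial : ℝ) * (∏ v, (a v : ℝ)) *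
        ((sx (fun v => a (Fin.succ v)) (W - a 0 * j)).card : ℝ) := by
      intro j _
      split_ifs with hj
      · have h3 := ih (fun v => a v.succ) (fun v => ha _) (W - a 0 * j) (by omega)
        rw [Nat.cast_sub hj.le] at h3
        rw [Nat.factorial_succ, Fin.prod_univ_succ]
        push_cast at h3 ⊢
        have h4 := mul_le_mul_of_nonneg_left h3
          (show (0 : ℝ) ≤ ((n : ℝ) + 1) * a 0 by positivity)
        refine h4.trans (le_of_eq ?_)
        ring
      · positivity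
    rw [Nat.cast_sum, Finset.mul_sum]
    exact h1.trans (Finset.sum_le_sum h2)

theorem card_low (hn : 1 ≤ Fintype.card υ) (a : υ → ℕ) (ha : ∀ v, 1 ≤ a v) (W : ℕ) :
    (W : ℝ) ^ Fintype.card υ ≤
      ((Fintype.card υ).factorial : ℝ) * (∏ v, (a v : ℝ)) * ((sx a W).card : ℝ) := by
  rcases Nat.eq_zero_or_pos W with h | h
  · subst h
    rw [Nat.cast_zero, zero_pow (by omega)]
    positivity
  · have e := (Fintype.equivFin υ).symm
    have h1 := card_low_fin (Fintype.card υ) (fun v => a (e v)) (fun v => ha _) W h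
    rw [card_sx_equiv e a ha W, Equiv.prod_comp e (fun v => (a v : ℝ))] at h1
    exact h1

theorem card_up (a : υ → ℕ) (ha : ∀ v, 1 ≤ a v) (W : ℕ) :
    ((Fintype.card υ).factorial : ℝ) * (∏ v, (a v : ℝ)) * ((sx a W).card : ℝ) ≤
      ((W : ℝ) + ∑ v, (a v : ℝ)) ^ Fintype.card υ := by
  have e := (Fintype.equivFin υ).symm
  have h1 := card_up_fin (Fintype.card υ) (fun v => a (e v)) (fun v => ha _) W
  rw [card_sx_equiv e a ha W, Equiv.prod_comp e (fun v => (a v : ℝ)),
    Equiv.sum_comp e (fun v => (a v : ℝ))] at h1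
  exact h1

end DP
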