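import Pool.Agent.Lib.MP_9e8926_ag_DP.InQ

/-!
# Products of leading forms

`innIso`: choose `h t ∈ I t` with `Ge κ (s t) (h t)`, `comp (s t) (h t) = u t`.  Then
`f^{q-1} Y_q ∏ h t ∈ J q`, and its part of bidegree `(q-1) (2,0) + (bidegree of Y_q) + ∑ s t` is
`Q^{q-1} Y_q ∏ u t` by `comp_pow`, `comp_of_mem`, `comp_prod`, `comp_mul`; it is in `J q` by
`comp_mem_J`.
-/

set_option autoImplicit false

noncomputable section

namespace DP

open MvPolynomial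

variable {σ τ : Type*} [Fintype σ] [Fintype τ] {k : Type*} [Field k]
  {Γ : Type*} [AddCommGroup Γ] [LinearOrder Γ] [IsOrderedAddMonoid Γ]
  (κ : ℕ × (τ → ℕ) →+ Γ)

theorem innIso (hκ : Function.Injective κ) (f Q : MvPolynomial (σ ⊕ τ) k)
    (hf1 : Ge κ (2, 0) f) (hf2 : comp (2, 0) f = Q) (b : τ → ℚ) (q : ℕ) {T : Type*} [Fintype T]
    (s : T → ℕ × (τ → ℕ)) (I : T → Ideal (MvPolynomial (σ ⊕ τ) k))
    (u : T → MvPolynomial (σ ⊕ τ) k) (hu : ∀ t, u t ∈ inn κ (I t) (s t))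
    (hiso : ∀ v ∈ ∏ t, I t, f ^ (q - 1) * Yq b q * v ∈ J (σ ⊕ τ) k q) :
    Q ^ (q - 1) * Yq b q * ∏ t, u t ∈ J (σ ⊕ τ) k q := by
  choose h h1 h2 h3 using hu
  have hmem := hiso (∏ t, h t) (Ideal.prod_mem_prod fun t _ => h1 t)
  have hf := ge_pow κ hf1 (q - 1)
  have hY : Ge κ ((0, fun j => ⌈(b j : ℝ) * ((q : ℝ) - 1)⌉₊) : ℕ × (τ → ℕ))
      (Yq b q : MvPolynomial (σ ⊕ τ) k) := ge_of_mem κ (Yq_mem b q)
  have hH := ge_prod κ Finset.univ s h (fun t _ => h2 t)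
  have e1 := comp_mul κ hκ (ge_mul κ hf hY) hH
  rw [comp_mul κ hκ hf hY, comp_pow κ hκ hf1, hf2, comp_of_mem (Yq_mem b q),
    comp_prod κ hκ Finset.univ s h (fun t _ => h2 t)] at e1
  simp only [h3] at e1
  rw [← e1]
  exact comp_mem_J hmem _

end DP
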