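import Pool.Agent.Lib.MP_9e8926_ag_DP.Pre

/-!
# A total order on the bidegrees

`κ (d, β) = toLex (L1 (d, β), -d, β_0, …, β_{N-1})` (`Fin.cons`).  It is additive and injective;
`L1 s < L1 s'` gives `κ s < κ s'` (first coordinate; `Pi.Lex` order on functions on `Fin`).
If `2 ax ≤ L1 s` and `s ≠ (2,0)`: if `2 ax < L1 s` then `κ (2,0) < κ s`.  Otherwise
`ax d + ∑ ay_j β_j = 2 ax`, so `d ≤ 2`; `d = 2` would give `β = 0` (all `ay_j > 0`); so `d < 2` and
`-2 < -d` decides in the second coordinate.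
-/

set_option autoImplicit false

noncomputable section

namespace DP

private def Gam_fun {N : ℕ} (ax : ℕ) (ay : Fin N → ℕ) (s : ℕ × (Fin N → ℕ)) :
    Fin (N + 2) → ℤ :=
  Fin.cons (L1 ax ay s : ℤ) (Fin.cons (-(s.1 : ℤ)) fun j => (s.2 j : ℤ))

private theorem Gam_zero {N : ℕ} (ax : ℕ) (ay : Fin N → ℕ) (s : ℕ × (Fin N → ℕ)) :
    Gam_fun ax ay s 0 = L1 ax ay s := rfl

private theorem Gam_one {N : ℕ} (ax : ℕ) (ay : Fin N → ℕ) (s : ℕ × (Fin N → ℕ)) :
    Gam_fun ax ay s 1 = -(s.1 : ℤ) := rfl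

private theorem Gam_succ {N : ℕ} (ax : ℕ) (ay : Fin N → ℕ) (s : ℕ × (Fin N → ℕ)) (j : Fin N) :
    Gam_fun ax ay s j.succ.succ = (s.2 j : ℤ) := rfl

private theorem Gam_L1 {N : ℕ} (ax : ℕ) (ay : Fin N → ℕ) (s s' : ℕ × (Fin N → ℕ)) :
    L1 ax ay (s + s') = L1 ax ay s + L1 ax ay s' := by
  simp only [L1, Prod.fst_add, Prod.snd_add, Pi.add_apply, mul_add, Finset.sum_add_distrib]
  omega

private theorem Gam_add {N : ℕ} (ax : ℕ) (ay : Fin N → ℕ) (s s' : ℕ × (Fin N → ℕ)) :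
    Gam_fun ax ay (s + s') = Gam_fun ax ay s + Gam_fun ax ay s' := by
  funext i
  refine Fin.cases ?_ (fun i => Fin.cases ?_ (fun j => ?_) i) i
  · rw [Pi.add_apply, Gam_zero, Gam_zero, Gam_zero, Gam_L1]
    push_cast
    rfl
  · change Gam_fun ax ay (s + s') 1 = Gam_fun ax ay s 1 + Gam_fun ax ay s' 1
    rw [Gam_one, Gam_one, Gam_one, Prod.fst_add]
    push_cast
    ring
  · rw [Pi.add_apply, Gam_succ, Gam_succ, Gam_succ, Prod.snd_add, Pi.add_apply]
    push_cast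
    rfl

theorem exists_kappa (N : ℕ) (ax : ℕ) (ay : Fin N → ℕ) (hax : 0 < ax) (hay : ∀ j, 0 < ay j) :
    ∃ κ : ℕ × (Fin N → ℕ) →+ Lex (Fin (N + 2) → ℤ), Function.Injective κ ∧
      (∀ s s', L1 ax ay s < L1 ax ay s' → κ s < κ s') ∧
      (∀ s, 2 * ax ≤ L1 ax ay s → s ≠ (2, 0) → κ (2, 0) < κ s) := by
  have hz : Gam_fun ax ay (0 : ℕ × (Fin N → ℕ)) = 0 := by
    have h := Gam_add ax ay (0 : ℕ × (Fin N → ℕ)) 0
    rw [add_zero] at h
    exact left_eq_add.1 h
  have hlt : ∀ s s' : ℕ × (Fin N → ℕ), L1 ax ay s < L1 ax ay s' →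
      toLex (Gam_fun ax ay s) < toLex (Gam_fun ax ay s') := by
    intro s s' h
    refine ⟨0, fun j hj => absurd hj (Fin.not_lt_zero j), ?_⟩
    change (L1 ax ay s : ℤ) < L1 ax ay s'
    exact_mod_cast h
  refine ⟨⟨⟨fun s => toLex (Gam_fun ax ay s), congrArg toLex hz⟩,
    fun s s' => congrArg toLex (Gam_add ax ay s s')⟩, ?_, hlt, ?_⟩
  · intro s s' h
    have h1 : Gam_fun ax ay s = Gam_fun ax ay s' := toLex.injective h
    refine Prod.ext ?_ ?_
    · have h2 : Gam_fun ax ay s 1 = Gam_fun ax ay s' 1 := by rw [h1]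
      rw [Gam_one, Gam_one] at h2
      omega
    · funext j
      have h2 : Gam_fun ax ay s j.succ.succ = Gam_fun ax ay s' j.succ.succ := by rw [h1]
      rw [Gam_succ, Gam_succ] at h2
      exact_mod_cast h2
  · rintro ⟨d, β⟩ h1 h2
    have h3 : L1 ax ay ((2, 0) : ℕ × (Fin N → ℕ)) = 2 * ax := by
      simp only [L1, Pi.zero_apply, mul_zero, Finset.sum_const_zero, add_zero]
      ring
    rcases h1.lt_or_eq with h4 | h4
    · exact hlt _ _ (by rwa [h3])
    · have h5 : 2 * ax = ax * d + ∑ j, ay j * β j := h4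
      have h6 : d < 2 := by
        by_contra h7
        have h8 : ax * 2 ≤ ax * d := Nat.mul_le_mul_left _ (by omega)
        have h9 : ∑ j, ay j * β j = 0 := by omega
        have h10 : ax * d = ax * 2 := by omega
        have h11 : d = 2 := Nat.eq_of_mul_eq_mul_left hax h10
        apply h2
        rw [h11]
        refine Prod.ext rfl ?_
        funext j
        have h12 := (Finset.sum_eq_zero_iff.1 h9) j (Finset.mem_univ j)
        exact (Nat.mul_eq_zero.1 h12).resolve_left (hay j).ne'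
      refine ⟨1, fun j hj => ?_, ?_⟩
      · have h7 : j = 0 := by
          have h8 : (j : ℕ) < 1 := hj
          exact Fin.ext (by change (j : ℕ) = 0; omega)
        rw [h7]
        change ((L1 ax ay ((2, 0) : ℕ × (Fin N → ℕ)) : ℕ) : ℤ) = (L1 ax ay (d, β) : ℕ)
        rw [h3, h4]
      · change -((2 : ℕ) : ℤ) < -(d : ℤ)
        omega

end DP
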