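import Pool.Agent.Lib.MP_9e8926_ag_DP.KemQ
import Pool.Agent.Lib.MP_9e8926_ag_DP.Gam

/-!
# The inequality for colengths

`κ` from `exists_kappa`; `Hyp ax ay g` gives `κ (2,0) < κ (md m)` for all monomials `m` of `g`, so
`Ge κ (2,0) f` and `comp (2,0) f = Qs` (`comp_of_mem`, `Qs_mem`; `comp (2,0) g = 0` by
`coeff_comp`).
By `sum_finrank_VV` for `I = Jc n` and `finrank_VV` (`card (Sg M ε) = 2 M + ε`):
`S0 - ℓ_n ≤ ∑_{s ∈ FW} finrank innQ (Jc n) s`, `ℓ_n = finrank (P/Jc n)`.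
So with `kemQ`: `2 M R ∑_{n=1}^{Nm} (S0 - ℓ_n) ≤ t p^e` whenever `hx`, `hy` hold.
Let `η = 1 - 2/(p-1) > 0`, `R_e = ⌊η (p^e - 1)/(2 M B)⌋`.  Then `2 M R_e B ≤ η (p^e-1)`;
`hx`: `2 M R Sx ≤ (2M+ε-2) η (p^e-1)` and
`(2M+ε-2) (1 - 2/(p-1)) ≤ (2M+ε-2) - 2M/(p-1)` because `2 (2M+ε-2) ≥ 2M` (`M ≥ 2` or
`M = ε = 1`); `hy`: `2 M R Sj ≤ (1-b_j) η (p^e-1)`.
Divide by `p^e` and let `e → ∞`: `2 M R_e/p^e → η/B`, so `(η/B) ∑ (S0 - ℓ_n) ≤ t`.
-/

set_option autoImplicit false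

noncomputable section

namespace DP

open MvPolynomial

/-- The leading form of `f = Q + g`. -/
theorem lead_f {σ : Type*} [Fintype σ] {N : ℕ} {K : Type*} [Field K] {Γ : Type*}
    [AddCommGroup Γ] [LinearOrder Γ] [IsOrderedAddMonoid Γ] (κ : ℕ × (Fin N → ℕ) →+ Γ)
    (ax : ℕ) (ay : Fin N → ℕ)
    (hL : ∀ s, 2 * ax ≤ L1 ax ay s → s ≠ (2, 0) → κ (2, 0) < κ s)
    (Q g : MvPolynomial (σ ⊕ Fin N) K) (hQ : Q ∈ PP K (2, 0)) (hg : Hyp ax ay g) :
    Ge κ (2, 0) (Q + g) ∧ comp (2, 0) (Q + g) = Q := by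
  classical
  refine ⟨fun m hm => ?_, ?_⟩
  · rcases Finset.mem_union.1 (support_add hm) with h | h
    · rw [hQ m h]
    · exact (hL _ (hg m h).1 (hg m h).2).le
  · have h0 : comp (2, 0) g = 0 := by
      ext m
      rw [coeff_comp, coeff_zero]
      split_ifs with h
      · by_contra hne
        exact (hg m (mem_support_iff.2 hne)).2 h
      · rfl
    rw [map_add, comp_of_mem hQ, h0, add_zero]

private theorem LowK_Qs_ne {K : Type*} [Field K] (p : ℕ) [CharP K p] (hp : 5 ≤ p)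
    (M ε N : ℕ) (hr : 3 ≤ 2 * M + ε) :
    (Qs K iv : MvPolynomial (Sg M ε ⊕ Fin N) K) ≠ 0 := by
  classical
  intro h
  by_cases hM : 0 < M
  · let i0 : Fin M := ⟨0, hM⟩
    let c : Sg M ε ⊕ Fin N → K := fun v =>
      if v = Sum.inl (Sum.inl i0) ∨ v = Sum.inl (Sum.inr (Sum.inl i0)) then 1 else 0
    have h1 := congrArg (eval c) h
    rw [map_zero, Qs, map_sum, Fintype.sum_sum_type, Fintype.sum_sum_type] at h1
    simp only [map_mul, eval_X, iv, Sum.elim_inl, Sum.elim_inr, c] at h1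
    simp at h1
    have h2 : ((2 : ℕ) : K) = 0 := by
      push_cast
      linear_combination h1
    rw [CharP.cast_eq_zero_iff K p] at h2
    exact absurd (Nat.le_of_dvd (by norm_num) h2) (by omega)
  · have hε : 0 < ε := by omega
    let i0 : Fin ε := ⟨0, hε⟩
    let c : Sg M ε ⊕ Fin N → K := fun v => if v = Sum.inl (Sum.inr (Sum.inr i0)) then 1 else 0
    have h1 := congrArg (eval c) h
    rw [map_zero, Qs, map_sum, Fintype.sum_sum_type, Fintype.sum_sum_type] at h1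
    simp only [map_mul, eval_X, iv, Sum.elim_inl, Sum.elim_inr, c] at h1
    simp at h1

private theorem LowK_low (η B S t M p : ℝ) (hB : 0 < B) (hM : 1 ≤ M) (ht : 0 ≤ t)
    (hη : 0 < η) (q : ℕ → ℝ) (hq : ∀ C : ℝ, ∃ e, C < q e)
    (h : ∀ e, ∀ R : ℕ, 2 * M * R * B ≤ η * (q e - 1) → 2 * M * R * S ≤ t * q e) :
    η * S ≤ t * B := by
  rcases le_or_gt S 0 with hS | hS
  · exact (mul_nonpos_of_nonneg_of_nonpos hη.le hS).trans (mul_nonneg ht hB.le)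
  · by_contra hcon
    push Not at hcon
    have hδ : 0 < η * S - t * B := by linarith
    obtain ⟨e, he⟩ := hq (max 1 ((η + 2 * M * B) * S / (η * S - t * B)))
    have he1 : 1 < q e := lt_of_le_of_lt (le_max_left _ _) he
    have he2 : (η + 2 * M * B) * S / (η * S - t * B) < q e := lt_of_le_of_lt (le_max_right _ _) he
    rw [div_lt_iff₀ hδ] at he2
    have hMB : 0 < 2 * M * B := by positivity
    set x := η * (q e - 1) / (2 * M * B) with hx
    have hx0 : 0 ≤ x := div_nonneg (mul_nonneg hη.le (by linarith)) hMB.le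
    have h1 : (⌊x⌋₊ : ℝ) ≤ x := Nat.floor_le hx0
    have h2 : x < ⌊x⌋₊ + 1 := Nat.lt_floor_add_one x
    have h3 : x * (2 * M * B) = η * (q e - 1) := by
      rw [hx]
      field_simp
    have h4 := h e ⌊x⌋₊ (by
      have := mul_le_mul_of_nonneg_right h1 hMB.le
      nlinarith)
    have h5 : η * (q e - 1) < 2 * M * B * (⌊x⌋₊ + 1) := by
      have := mul_lt_mul_of_pos_right h2 hMB
      nlinarith
    have h6 : η * (q e - 1) * S < 2 * M * B * (⌊x⌋₊ + 1) * S := mul_lt_mul_of_pos_right h5 hS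
    have h7 := mul_le_mul_of_nonneg_right h4 hB.le
    nlinarith

theorem lowK {K : Type*} [Field K] [Infinite K] [PerfectField K] (p : ℕ) [Fact p.Prime]
    [CharP K p] (hp : 5 ≤ p) (M ε N : ℕ) (hε : ε ≤ 1) (hr : 3 ≤ 2 * M + ε) (b : Fin N → ℚ)
    (hb : ∀ j, 0 ≤ b j ∧ b j < 1) (ax : ℕ) (ay : Fin N → ℕ) (hax : 0 < ax) (hay : ∀ j, 0 < ay j)
    (g : MvPolynomial (Sg M ε ⊕ Fin N) K) (hg : Hyp ax ay g)
    (Jc : ℕ → Ideal (MvPolynomial (Sg M ε ⊕ Fin N) K)) (h0 : Jc 0 = ⊤) (hanti : Antitone Jc)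
    (hmul : ∀ i j, Jc i * Jc j ≤ Jc (i + j)) (hfJ : ∀ n, Qs K iv + g ∈ Jc n)
    (hfin : ∀ n, Module.Finite K (MvPolynomial (Sg M ε ⊕ Fin N) K ⧸ Jc n)) (t : ℝ) (ht : 0 ≤ t)
    (hiso : ∀ e n : ℕ, t * (p : ℝ) ^ e ≤ n → ∀ u ∈ Jc n,
      (Qs K iv + g) ^ (p ^ e - 1) * Yq b (p ^ e) * u ∈ J (Sg M ε ⊕ Fin N) K (p ^ e))
    (W Nm : ℕ) (B : ℝ) (hB : 0 < B) (hBx : (Sx (2 * M + ε) ax ay W : ℝ) ≤ (2 * M + ε - 2) * B)
    (hBj : ∀ j, (Sj (2 * M + ε) ax ay W j : ℝ) ≤ (1 - b j) * B) :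
    (1 - 2 / ((p : ℝ) - 1)) * ∑ n ∈ Finset.Icc 1 Nm, ((S0 (2 * M + ε) ax ay W : ℝ) -
      Module.finrank K (MvPolynomial (Sg M ε ⊕ Fin N) K ⧸ Jc n)) ≤ t * B := by
  classical
  obtain ⟨κ, hκ, hκ1, hκ2⟩ := exists_kappa N ax ay hax hay
  have hQ : (Qs K iv : MvPolynomial (Sg M ε ⊕ Fin N) K) ∈ PP K (2, 0) := Qs_mem iv
  obtain ⟨hf1, hf2⟩ := lead_f κ ax ay hκ2 (Qs K iv) g hQ hg
  have hcard : Fintype.card (Sg M ε) = 2 * M + ε := by
    rw [Fintype.card_sum, Fintype.card_sum, Fintype.card_fin, Fintype.card_fin]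
    omega
  have hQ0 : (Qs K iv : MvPolynomial (Sg M ε ⊕ Fin N) K) ≠ 0 := LowK_Qs_ne p hp M ε N hr
  have hp' : (5 : ℝ) ≤ p := by exact_mod_cast hp
  have hM1 : (1 : ℝ) ≤ M := by
    have : 1 ≤ M := by omega
    exact_mod_cast this
  have hMε : (2 : ℝ) ≤ M + ε := by
    have : 2 ≤ M + ε := by omega
    exact_mod_cast this
  have hp1 : (0 : ℝ) < p - 1 := by linarith
  have hη : 0 < 1 - 2 / ((p : ℝ) - 1) := by
    rw [sub_pos, div_lt_one hp1]
    linarith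
  have hη1 : 1 - 2 / ((p : ℝ) - 1) ≤ 1 := by
    have : 0 ≤ 2 / ((p : ℝ) - 1) := by positivity
    linarith
  -- colengths
  have hcol : ∀ n, (S0 (2 * M + ε) ax ay W : ℝ) -
      Module.finrank K (MvPolynomial (Sg M ε ⊕ Fin N) K ⧸ Jc n) ≤
      ∑ s ∈ FW ax ay W, (Module.finrank K (innQ κ (Qs K iv) (Jc n) s) : ℝ) := by
    intro n
    have := hfin n
    have h1 := sum_finrank_VV κ hκ (Qs K iv) hQ (Jc n) (Qs K iv + g) (hfJ n) hf1 hf2
      (FW ax ay W)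
    have h2 : ∑ s ∈ FW ax ay W, Module.finrank K
        (VV (Qs K iv : MvPolynomial (Sg M ε ⊕ Fin N) K) s) = S0 (2 * M + ε) ax ay W := by
      unfold S0
      exact Finset.sum_congr rfl fun s _ => finrank_VV hr hcard _ hQ hQ0 s
    rw [h2] at h1
    have h3 : (S0 (2 * M + ε) ax ay W : ℝ) ≤
        (Module.finrank K (MvPolynomial (Sg M ε ⊕ Fin N) K ⧸ Jc n) : ℝ) +
        ∑ s ∈ FW ax ay W, (Module.finrank K (innQ κ (Qs K iv) (Jc n) s) : ℝ) := by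
      exact_mod_cast h1
    linarith
  refine LowK_low (1 - 2 / ((p : ℝ) - 1)) B _ t M p hB hM1 ht hη (fun e => (p : ℝ) ^ e) ?_ ?_
  · intro C
    obtain ⟨e, he⟩ := exists_nat_gt C
    refine ⟨e, he.trans ?_⟩
    have := Nat.lt_pow_self (n := e) (show 1 < p by omega)
    exact_mod_cast this
  · intro e R hR
    have hq1 : (1 : ℝ) ≤ (p : ℝ) ^ e := one_le_pow₀ (by linarith)
    have hMR : 0 ≤ 2 * (M : ℝ) * R := by positivity
    have key := kemQ p hp M ε N hε hr b hb κ hκ ax ay (Qs K iv + g) hf1 hf2 Jc h0 hanti hmul t e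
      (hiso e) W Nm R ?_ ?_
    · refine le_trans ?_ key
      rw [Finset.sum_comm]
      exact mul_le_mul_of_nonneg_left (Finset.sum_le_sum fun n _ => hcol n) hMR
    · push_cast
      have h1 : 2 * (M : ℝ) * (R * (Sx (2 * M + ε) ax ay W : ℝ)) ≤
          2 * M * R * ((2 * M + ε - 2) * B) := by
        rw [← mul_assoc]
        exact mul_le_mul_of_nonneg_left hBx hMR
      have h2 : 2 * (M : ℝ) * R * ((2 * M + ε - 2) * B) ≤
          (2 * M + ε - 2) * ((1 - 2 / ((p : ℝ) - 1)) * ((p : ℝ) ^ e - 1)) := by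
        have h3 : (0 : ℝ) ≤ 2 * M + ε - 2 := by linarith
        have := mul_le_mul_of_nonneg_left hR h3
        nlinarith
      refine h1.trans (h2.trans ?_)
      rw [← mul_assoc]
      refine mul_le_mul_of_nonneg_right ?_ (by linarith)
      have h3 : (2 * (M : ℝ) + ε - 2) * (2 / (p - 1)) - 2 * M / (p - 1) =
          (2 * (M + ε - 2)) / (p - 1) := by
        field_simp
        ring
      have h4 : 0 ≤ (2 * ((M : ℝ) + ε - 2)) / (p - 1) := div_nonneg (by linarith) hp1.le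
      nlinarith
    · intro j
      push_cast
      have hbj : (0 : ℝ) < 1 - b j := by
        have : (b j : ℝ) < 1 := by exact_mod_cast (hb j).2
        linarith
      have h1 : 2 * (M : ℝ) * R * (Sj (2 * M + ε) ax ay W j : ℝ) ≤
          2 * M * R * ((1 - b j) * B) := mul_le_mul_of_nonneg_left (hBj j) hMR
      refine h1.trans ?_
      have h2 := mul_le_mul_of_nonneg_left hR hbj.le
      have h3 : (1 - 2 / ((p : ℝ) - 1)) * ((p : ℝ) ^ e - 1) ≤ 1 * ((p : ℝ) ^ e - 1) :=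
        mul_le_mul_of_nonneg_right hη1 (by linarith)
      have h4 := mul_le_mul_of_nonneg_left h3 hbj.le
      nlinarith

end DP
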