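import Pool.Agent.Lib.MP_9e8926_ag_DP.GrM

/-!
# Reduction of leading forms

Let `S`, `E` be subspaces of `P` such that the leading form of every `h ∈ S` whose bidegree has
weight less than `C` can be removed by an element of `E`, staying in `S`.  Then
`S ≤ E + (weight ≥ C)`.

Proof.  For `h ∈ S` let `rank h` be the number of `s ∈ FW ax ay C` such that `κ (md m) ≤ κ s` for some
`m ∈ h.support`; induct on `rank h`.  If `h ∈ Wt C` (no monomial of weight `< C`) done.  Otherwise let
`s0` be the element of `md '' h.support` with smallest `κ`; `L1 s0 < C`, because some `m ∈ h.support`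
has `L1 (md m) < C` and `L1 (md m) < L1 s0` would give `κ (md m) < κ s0`.  `Ge κ s0 h`; take `h' ∈ E`
with `h - h' ∈ S`, `Ge κ s0 (h - h')`, `comp s0 (h - h') = 0`: all monomials `m` of `h - h'` satisfy
`κ s0 < κ (md m)` (`κ` injective), so `s0` is not counted in `rank (h - h')`, and everything counted
there is counted in `rank h`.
-/

set_option autoImplicit false

noncomputable section

namespace DP

open MvPolynomial

variable {σ : Type*} [Fintype σ] {N : ℕ} {k : Type*} [Field k]
  {Γ : Type*} [AddCommGroup Γ] [LinearOrder Γ] [IsOrderedAddMonoid Γ]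
  (κ : ℕ × (Fin N → ℕ) →+ Γ)

theorem red (hκ : Function.Injective κ) (ax : ℕ) (ay : Fin N → ℕ) (hax : 0 < ax)
    (hay : ∀ j, 0 < ay j) (hL : ∀ s s', L1 ax ay s < L1 ax ay s' → κ s < κ s')
    (S E : Submodule k (MvPolynomial (σ ⊕ Fin N) k)) (C : ℕ)
    (h : ∀ s, L1 ax ay s < C → ∀ u ∈ S, Ge κ s u →
      ∃ v ∈ E, u - v ∈ S ∧ Ge κ s (u - v) ∧ comp s (u - v) = 0)
    (u : MvPolynomial (σ ⊕ Fin N) k) (hu : u ∈ S) :
    ∃ v ∈ E, u - v ∈ Wt k ax ay C := by
  classical
  have key : ∀ (n : ℕ) (u : MvPolynomial (σ ⊕ Fin N) k), u ∈ S →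
      ((FW ax ay C).filter fun s => ∃ m ∈ u.support, κ (md m) ≤ κ s).card = n →
      ∃ v ∈ E, u - v ∈ Wt k ax ay C := by
    intro n
    induction n using Nat.strong_induction_on with
    | _ n ih =>
      intro u hu hn
      by_cases hW : u ∈ Wt k ax ay C
      · exact ⟨0, E.zero_mem, by rwa [sub_zero]⟩
      · have h1 : ∃ m ∈ u.support, L1 ax ay (md m) < C := by
          by_contra hc
          push Not at hc
          exact hW hc
        obtain ⟨m1, hm1, hm1C⟩ := h1
        obtain ⟨m0, hm0, hmin⟩ := Finset.exists_min_image u.support (fun m => κ (md m)) ⟨m1, hm1⟩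
        have hC : L1 ax ay (md m0) < C := by
          by_contra hc
          have h2 := hL (md m1) (md m0) (lt_of_lt_of_le hm1C (not_lt.1 hc))
          exact absurd (hmin m1 hm1) (not_le.2 h2)
        obtain ⟨v, hv, hvS, hge, hcomp⟩ := h (md m0) hC u hu (fun m hm => hmin m hm)
        have hsub : ((FW ax ay C).filter fun s => ∃ m ∈ (u - v).support, κ (md m) ≤ κ s) ⊂
            ((FW ax ay C).filter fun s => ∃ m ∈ u.support, κ (md m) ≤ κ s) := by
          rw [Finset.ssubset_iff_of_subset]
          · refine ⟨md m0, Finset.mem_filter.2 ⟨(mem_FW hax hay).2 hC, m0, hm0, le_rfl⟩, ?_⟩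
            intro h2
            obtain ⟨-, m, hm, h3⟩ := Finset.mem_filter.1 h2
            have h4 : md m = md m0 := hκ (le_antisymm h3 (hge m hm))
            have h5 := coeff_comp (md m0) (u - v) m
            rw [hcomp, if_pos h4, coeff_zero] at h5
            exact (mem_support_iff.1 hm) h5.symm
          · intro s hs
            obtain ⟨hsF, m, hm, h3⟩ := Finset.mem_filter.1 hs
            exact Finset.mem_filter.2 ⟨hsF, m0, hm0, (hge m hm).trans h3⟩
        obtain ⟨v', hv', hW'⟩ := ih _ (hn ▸ Finset.card_lt_card hsub) (u - v) hvS rfl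
        refine ⟨v + v', E.add_mem hv hv', ?_⟩
        rwa [← sub_sub]
  exact key _ u hu rfl

end DP
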