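import Pool.Agent.Lib.MP_9e8926_ag_DP.RegL
import Pool.Agent.Lib.MP_9e8926_ag_DP.RedA
import Pool.Agent.Lib.MP_9e8926_ag_DP.InI
import Pool.Agent.Lib.MP_9e8926_ag_DP.LowK

/-!
# Strong `F`-regularity, over an infinite field

Let `κ` be as in `exists_kappa`, `f = Qs + g`; `lead_f`.  Apply `red` with
`S = {u | ∀ e ≥ 1, f^{q-1} Y_q u ∈ J q}` (an ideal, in particular a subspace) and `E = (f)`.
For `u ∈ S` with `Ge κ s u`: `comp s u ∈ jq Q b (p^e)` for all `e ≥ 1` (`innIso` with one factor, or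
`comp_pow`, `comp_mul`, `comp_mem_J`), so `Q ∣ comp s u` (`regL`).  If `comp s u = 0` take `v = 0`;
otherwise `comp s u = Q v'` with `v' ∈ PP s'`, `s = s' + (2,0)` (`exists_of_dvd`), and `v = f v'`:
`Ge κ s (f v')` and `comp s (f v') = Q v'` (`ge_mul`, `comp_mul`), and `f v' ∈ S` because
`f^{q-1} f = f^q ∈ J q` (`f` has no constant term: all its monomials are nonconstant; `f^q` is the
combination of the `q`-th powers of its monomials, `sum_pow_char_pow` / `map_J_le`).
-/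

set_option autoImplicit false

noncomputable section

namespace DP

open MvPolynomial

/-- `f^q ∈ J q` if `f` has no constant term. -/
theorem pow_mem_J {σ : Type*} [Finite σ] {K : Type*} [Field K] (p : ℕ) [Fact p.Prime] [CharP K p]
    (f : MvPolynomial σ K) (hf : constantCoeff f = 0) (e : ℕ) : f ^ p ^ e ∈ J σ K (p ^ e) := by
  cases nonempty_fintype σ
  have h2 : f ∈ m0 σ K := mem_m0.2 hf
  rw [m0_eq_span, Ideal.mem_span_range_iff_exists_fun] at h2
  obtain ⟨c, hc⟩ := h2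
  rw [← hc, sum_pow_char_pow]
  refine Ideal.sum_mem _ fun w _ => ?_
  rw [mul_pow]
  exact Ideal.mul_mem_left _ _ (Ideal.subset_span ⟨w, rfl⟩)

/-- The ideal of the `u` with `f^{q-1} Y_q u ∈ J q` for all `q = p^e`, `e ≥ 1`. -/
private def RegK_S {K : Type*} [Field K] (p : ℕ) {σ : Type*} {N : ℕ} (b : Fin N → ℚ)
    (f : MvPolynomial (σ ⊕ Fin N) K) : Ideal (MvPolynomial (σ ⊕ Fin N) K) where
  carrier := {u | ∀ e : ℕ, 1 ≤ e → f ^ (p ^ e - 1) * Yq b (p ^ e) * u ∈
    J (σ ⊕ Fin N) K (p ^ e)}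
  zero_mem' := by
    intro e _
    rw [mul_zero]
    exact Ideal.zero_mem _
  add_mem' := by
    intro u v hu hv e he
    rw [mul_add]
    exact Ideal.add_mem _ (hu e he) (hv e he)
  smul_mem' := by
    intro c u hu e he
    rw [smul_eq_mul, mul_left_comm]
    exact Ideal.mul_mem_left _ _ (hu e he)

private theorem RegK_ge_sub {σ τ : Type*} [Fintype σ] [Fintype τ] {k : Type*} [Field k]
    {Γ : Type*} [AddCommGroup Γ] [LinearOrder Γ] [IsOrderedAddMonoid Γ]
    (κ : ℕ × (τ → ℕ) →+ Γ) {s : ℕ × (τ → ℕ)} {u v : MvPolynomial (σ ⊕ τ) k}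
    (hu : Ge κ s u) (hv : Ge κ s v) : Ge κ s (u - v) := by
  classical
  intro m hm
  rcases Finset.mem_union.1 (support_sub _ u v hm) with h | h
  · exact hu m h
  · exact hv m h

theorem regK {K : Type*} [Field K] [Infinite K] [PerfectField K] (p : ℕ) [Fact p.Prime]
    [CharP K p] (hp : 5 ≤ p) (M ε N : ℕ) (hε : ε ≤ 1) (hr : 3 ≤ 2 * M + ε) (b : Fin N → ℚ)
    (hb : ∀ j, 0 ≤ b j ∧ b j < 1) (ax : ℕ) (ay : Fin N → ℕ) (hax : 0 < ax) (hay : ∀ j, 0 < ay j)
    (g : MvPolynomial (Sg M ε ⊕ Fin N) K) (hg : Hyp ax ay g)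
    (u : MvPolynomial (Sg M ε ⊕ Fin N) K)
    (h : ∀ e : ℕ, 1 ≤ e → (Qs K iv + g) ^ (p ^ e - 1) * Yq b (p ^ e) * u ∈
      J (Sg M ε ⊕ Fin N) K (p ^ e)) (C : ℕ) :
    u ∈ Ideal.span {Qs K iv + g} ⊔ Wt K ax ay C := by
  classical
  obtain ⟨κ, hκ, hκ1, hκ2⟩ := exists_kappa N ax ay hax hay
  have hQ : (Qs K iv : MvPolynomial (Sg M ε ⊕ Fin N) K) ∈ PP K (2, 0) := Qs_mem iv
  obtain ⟨hf1, hf2⟩ := lead_f κ ax ay hκ2 (Qs K iv) g hQ hg
  obtain ⟨f, hf⟩ : ∃ f, f = Qs K iv + g := ⟨_, rfl⟩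
  rw [← hf] at hf1 hf2 h ⊢
  have hf0 : constantCoeff f = 0 := by
    rw [constantCoeff_eq]
    by_contra hc
    have h1 := hf1 0 (mem_support_iff.2 hc)
    have h2 : md (0 : Sg M ε ⊕ Fin N →₀ ℕ) = 0 := by
      refine Prod.ext ?_ (funext fun j => rfl)
      change ∑ i, (0 : Sg M ε ⊕ Fin N →₀ ℕ) (Sum.inl i) = 0
      exact Finset.sum_eq_zero fun i _ => rfl
    rw [h2] at h1
    have h3 : L1 ax ay (0 : ℕ × (Fin N → ℕ)) < L1 ax ay ((2, 0) : ℕ × (Fin N → ℕ)) := by
      simp only [L1, Prod.fst_zero, Prod.snd_zero, Pi.zero_apply, mul_zero,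
        Finset.sum_const_zero, add_zero]
      omega
    exact absurd h1 (not_le.2 (hκ1 _ _ h3))
  have huS : u ∈ (RegK_S p b f).restrictScalars K := h
  have hred : ∃ v ∈ (Ideal.span {f}).restrictScalars K, u - v ∈ Wt K ax ay C := by
    refine red κ hκ ax ay hax hay hκ1 ((RegK_S p b f).restrictScalars K) _ C ?_ u huS
    intro s _ u hu hge
    have hu' : u ∈ RegK_S p b f := hu
    have hjq : ∀ e : ℕ, 1 ≤ e → comp s u ∈ jq (Qs K iv) b (p ^ e) := by
      intro e he
      have h1 := innIso κ hκ f (Qs K iv) hf1 hf2 b (p ^ e) (T := Unit) (fun _ => s)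
        (fun _ => RegK_S p b f) (fun _ => comp s u) (fun _ => ⟨u, hu', hge, rfl⟩) ?_
      · rw [Finset.univ_unique, Finset.prod_singleton] at h1
        exact h1
      · intro v hv
        rw [Finset.univ_unique, Finset.prod_singleton] at hv
        exact hv e he
    by_cases hw0 : comp s u = 0
    · refine ⟨0, Submodule.zero_mem _, ?_, ?_, ?_⟩
      · rw [sub_zero]
        exact hu
      · rw [sub_zero]
        exact hge
      · rw [sub_zero]
        exact hw0
    · have hdvd := regL p hp M ε N hε hr b hb s (comp s u) (comp_mem s u) hjq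
      obtain ⟨s', v', hs, hv', hw⟩ := exists_of_dvd hQ (comp_mem s u) hdvd hw0
      have hgv : Ge κ s (f * v') := by
        rw [hs, add_comm s' (2, 0)]
        exact ge_mul κ hf1 (ge_of_mem κ hv')
      refine ⟨f * v', ?_, ?_, RegK_ge_sub κ hge hgv, ?_⟩
      · exact Ideal.mul_mem_right _ _ (Ideal.mem_span_singleton_self f)
      · refine Submodule.sub_mem _ hu ?_
        intro e _
        have h1 : f ^ (p ^ e - 1) * Yq b (p ^ e) * (f * v') =
            Yq b (p ^ e) * v' * f ^ p ^ e := by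
          have h2 : p ^ e = p ^ e - 1 + 1 := by
            have := Nat.pos_of_ne_zero (pow_ne_zero e (Fact.out : p.Prime).ne_zero)
            omega
          have h3 : f ^ p ^ e = f ^ (p ^ e - 1) * f := by
            rw [← pow_succ, ← h2]
          rw [h3]
          ring
        rw [h1]
        exact Ideal.mul_mem_left _ _ (pow_mem_J p f hf0 e)
      · rw [map_sub, hw, hs, add_comm s' (2, 0), comp_mul κ hκ hf1 (ge_of_mem κ hv'), hf2,
          comp_of_mem hv', sub_self]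
  obtain ⟨v, hv, hw⟩ := hred
  rw [show u = v + (u - v) from (add_sub_cancel v u).symm]
  exact Submodule.add_mem_sup hv hw

end DP
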