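import Pool.Agent.Lib.MP_9e8926_ag_DP.Pre

/-!
# Base change of ideals

* `mem_of_map_mem`: there is a `k`-linear map `ρ : K → k` with `ρ 1 = 1`
  (`LinearMap.exists_leftInverse_of_injective`).  Applied to the coefficients it gives an additive
  map `ρ' : MvPolynomial σ K → MvPolynomial σ k` (`Finsupp.mapRange`) with
  `ρ' (u * map v) = ρ' u * v` (check on monomials) and `ρ' (map v) = v`.  If `map u ∈ I.map map`
  then `map u = ∑ u_i * map g_i`, `g_i ∈ I` (or `Submodule.span_induction` for the predicate
  `∀ x, x ∈ I.map → ρ' x ∈ I`, with `x = c * map g`), so `u = ρ' (map u) ∈ I`.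
* `finrank_map`: if the classes of `b_1, …, b_l` span `P/I` over `k` then their images span
  `P_K/I_K` over `K` (every monomial is a `k`-combination of the `b_i` modulo `I`).
-/

set_option autoImplicit false

noncomputable section

namespace DP

open MvPolynomial

variable {σ : Type*} {k K : Type*} [Field k] [Field K] [Algebra k K]

/-- a `k`-linear retraction applied to the coefficients -/
private def BCa_rho (ρ : K →ₗ[k] k) (u : MvPolynomial σ K) : MvPolynomial σ k :=
  ∑ m ∈ u.support, monomial m (ρ (coeff m u))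

private theorem BCa_coeff (ρ : K →ₗ[k] k) (u : MvPolynomial σ K) (m : σ →₀ ℕ) :
    coeff m (BCa_rho ρ u) = ρ (coeff m u) := by
  classical
  unfold BCa_rho
  rw [coeff_sum]
  simp only [coeff_monomial]
  rw [Finset.sum_ite_eq' u.support m]
  split_ifs with h
  · rfl
  · rw [notMem_support_iff.1 h, map_zero]

private theorem BCa_add (ρ : K →ₗ[k] k) (u v : MvPolynomial σ K) :
    BCa_rho ρ (u + v) = BCa_rho ρ u + BCa_rho ρ v := by
  ext m
  rw [coeff_add, BCa_coeff, BCa_coeff, BCa_coeff, coeff_add, map_add]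

private theorem BCa_zero (ρ : K →ₗ[k] k) : BCa_rho ρ (0 : MvPolynomial σ K) = 0 := by
  ext m
  rw [BCa_coeff, coeff_zero, coeff_zero, map_zero]

private theorem BCa_mul (ρ : K →ₗ[k] k) (u : MvPolynomial σ K) (v : MvPolynomial σ k) :
    BCa_rho ρ (u * MvPolynomial.map (algebraMap k K) v) = BCa_rho ρ u * v := by
  classical
  ext m
  rw [BCa_coeff, coeff_mul, coeff_mul, map_sum]
  refine Finset.sum_congr rfl fun x _ => ?_
  rw [BCa_coeff, coeff_map, mul_comm, ← Algebra.smul_def, map_smul, smul_eq_mul, mul_comm]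

theorem mem_of_map_mem (I : Ideal (MvPolynomial σ k)) (u : MvPolynomial σ k)
    (h : MvPolynomial.map (algebraMap k K) u ∈ I.map (MvPolynomial.map (algebraMap k K))) :
    u ∈ I := by
  obtain ⟨ρ, hρ⟩ := LinearMap.exists_leftInverse_of_injective (Algebra.linearMap k K)
    (LinearMap.ker_eq_bot.2 (FaithfulSMul.algebraMap_injective k K))
  have h1 : ρ 1 = 1 := by
    have h2 := LinearMap.congr_fun hρ 1
    simpa using h2
  have key : ∀ x ∈ I.map (MvPolynomial.map (algebraMap k K)), ∀ c, BCa_rho ρ (c * x) ∈ I := by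
    intro x hx
    refine Submodule.span_induction (p := fun x _ => ∀ c, BCa_rho ρ (c * x) ∈ I)
      ?_ ?_ ?_ ?_ hx
    · rintro _ ⟨g, hg, rfl⟩ c
      have h3 := BCa_mul ρ c g
      rw [show (c * (MvPolynomial.map (algebraMap k K)) g) =
        c * MvPolynomial.map (algebraMap k K) g from rfl] at h3
      rw [h3]
      exact Ideal.mul_mem_left _ _ hg
    · intro c
      rw [mul_zero, BCa_zero]
      exact Ideal.zero_mem _
    · intro x y _ _ hx hy c
      rw [mul_add, BCa_add]
      exact Ideal.add_mem _ (hx c) (hy c)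
    · intro a x _ hx c
      rw [smul_eq_mul, ← mul_assoc]
      exact hx (c * a)
  have h4 := key _ h 1
  rw [BCa_mul] at h4
  have h5 : BCa_rho ρ (1 : MvPolynomial σ K) = 1 := by
    classical
    ext m
    rw [BCa_coeff, coeff_one, coeff_one]
    split_ifs
    · exact h1
    · exact map_zero ρ
  rwa [h5, one_mul] at h4

theorem finrank_map (I : Ideal (MvPolynomial σ k)) [Module.Finite k (MvPolynomial σ k ⧸ I)] :
    Module.Finite K (MvPolynomial σ K ⧸ I.map (MvPolynomial.map (algebraMap k K))) ∧
    Module.finrank K (MvPolynomial σ K ⧸ I.map (MvPolynomial.map (algebraMap k K))) ≤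
      Module.finrank k (MvPolynomial σ k ⧸ I) := by
  obtain ⟨J, hJ⟩ : ∃ J, J = I.map (MvPolynomial.map (algebraMap k K) :
    MvPolynomial σ k →+* MvPolynomial σ K) := ⟨_, rfl⟩
  rw [← hJ]
  let f : (MvPolynomial σ k ⧸ I) →+* (MvPolynomial σ K ⧸ J) :=
    Ideal.quotientMap J (MvPolynomial.map (algebraMap k K)) (by rw [hJ]; exact Ideal.le_comap_map)
  have hf : ∀ p, f (Ideal.Quotient.mk I p) =
      Ideal.Quotient.mk J (MvPolynomial.map (algebraMap k K) p) := fun p =>
    Ideal.quotientMap_mk
  have hsm : ∀ (c : K) (p : MvPolynomial σ K), Ideal.Quotient.mk J (C c * p) =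
      c • Ideal.Quotient.mk J p := by
    intro c p
    rw [← smul_eq_C_mul]
    rfl
  have hfs : ∀ (a : k) (x : MvPolynomial σ k ⧸ I), f (a • x) = algebraMap k K a • f x := by
    intro a x
    obtain ⟨p, rfl⟩ := Ideal.Quotient.mk_surjective x
    have e1 : a • Ideal.Quotient.mk I p = Ideal.Quotient.mk I (C a * p) := by
      rw [← smul_eq_C_mul]
      rfl
    rw [e1, hf, hf, map_mul, map_C, hsm]
  let b := Module.finBasis k (MvPolynomial σ k ⧸ I)
  have hspan : Submodule.span K (Set.range (fun i => f (b i))) = ⊤ := by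
    have h1 : ∀ x : MvPolynomial σ k ⧸ I,
        f x ∈ Submodule.span K (Set.range (fun i => f (b i))) := by
      intro x
      rw [← b.sum_repr x, map_sum]
      refine Submodule.sum_mem _ fun i _ => ?_
      rw [hfs]
      exact Submodule.smul_mem _ _ (Submodule.subset_span ⟨i, rfl⟩)
    rw [eq_top_iff]
    rintro y -
    obtain ⟨p, rfl⟩ := Ideal.Quotient.mk_surjective y
    refine MvPolynomial.induction_on' (P := fun p => Ideal.Quotient.mk J p ∈
      Submodule.span K (Set.range (fun i => f (b i)))) p ?_ ?_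
    · intro m c
      have e1 : (monomial m c : MvPolynomial σ K) =
          C c * MvPolynomial.map (algebraMap k K) (monomial m 1) := by
        rw [map_monomial, map_one, C_mul_monomial, mul_one]
      rw [e1, hsm, ← hf]
      exact Submodule.smul_mem _ _ (h1 _)
    · intro p q hp hq
      rw [map_add]
      exact Submodule.add_mem _ hp hq
  have hfin : Module.Finite K (MvPolynomial σ K ⧸ J) := by
    refine ⟨⟨Set.Finite.toFinset (Set.finite_range (fun i => f (b i))), ?_⟩⟩
    rw [Set.Finite.coe_toFinset]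
    exact hspan
  refine ⟨hfin, ?_⟩
  have h2 := finrank_range_le_card (R := K) (fun i => f (b i))
  rw [Set.finrank, hspan, finrank_top, Fintype.card_fin] at h2
  exact h2

end DP
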