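import Mathlib

/-!
# A lower bound for the volume of a tube

For `z ∈ U` let `λ` be as in `hU`.  Among the grid points `λ' = s (m + n i)`, `|m|, |n| ≤ R/s`, there
is one with `‖λ' - λ‖ ≤ 2 s` and `‖λ'‖ ≤ ‖λ‖ ≤ R` (round the real and the imaginary part of `λ/s`
towards 0).  So `z ∈ D - λ' e` with `D = {z ∈ U' | F z ≤ 2 L s}`.  The number of grid points is at
most `(2 ⌊R/s⌋ + 1)² ≤ (3 R/s)² = 9 R²/s²`; each translate of `D` has the volume of `D`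
(`measure_preimage_add_right`); `measure_biUnion_finset_le`.
-/

set_option autoImplicit false

noncomputable section

namespace DP

open MeasureTheory

private theorem cover_rd0 (R s : ℝ) (hs : 0 < s) (x : ℝ) (hx0 : 0 ≤ x) (hx : x ≤ R) :
    ∃ m : ℕ, m ≤ ⌊R / s⌋₊ ∧ s * m ≤ x ∧ x - s * m ≤ s := by
  refine ⟨⌊x / s⌋₊, Nat.floor_mono (div_le_div_of_nonneg_right hx hs.le), ?_, ?_⟩
  · have := Nat.floor_le (div_nonneg hx0 hs.le)
    calc s * (⌊x / s⌋₊ : ℝ) ≤ s * (x / s) := by gcongr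
      _ = x := by field_simp
  · have := (Nat.lt_floor_add_one (x / s)).le
    have h1 : s * (x / s) ≤ s * (⌊x / s⌋₊ + 1 : ℝ) := by gcongr
    have h2 : s * (x / s) = x := by field_simp
    linarith

private theorem cover_rd (R s : ℝ) (hs : 0 < s) (x : ℝ) (hx : |x| ≤ R) :
    ∃ m : ℤ, m ∈ Finset.Icc (-(⌊R / s⌋₊ : ℤ)) (⌊R / s⌋₊ : ℤ) ∧ |s * m| ≤ |x| ∧
      |s * m - x| ≤ s := by
  obtain ⟨n, hn1, hn2, hn3⟩ := cover_rd0 R s hs |x| (abs_nonneg x) hx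
  have hn0 : 0 ≤ s * (n : ℝ) := by positivity
  rcases le_total 0 x with h0 | h0
  · refine ⟨n, Finset.mem_Icc.2 ⟨by omega, by omega⟩, ?_, ?_⟩
    · rw [abs_of_nonneg (by exact_mod_cast hn0)]
      exact_mod_cast hn2
    · rw [abs_of_nonneg h0] at hn2 hn3
      rw [Int.cast_natCast, abs_sub_comm, abs_of_nonneg (by linarith)]
      exact hn3
  · refine ⟨-n, Finset.mem_Icc.2 ⟨by omega, by omega⟩, ?_, ?_⟩
    · rw [Int.cast_neg, Int.cast_natCast, mul_neg, abs_neg, abs_of_nonneg hn0]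
      exact hn2
    · rw [abs_of_nonpos h0] at hn2 hn3
      rw [Int.cast_neg, Int.cast_natCast, mul_neg, abs_of_nonneg (by linarith)]
      linarith

private theorem cover_pre {υ : Type*} [Fintype υ] [DecidableEq υ] (w : υ → ℂ)
    (D : Set (υ → ℂ)) : volume ((fun z => z + w) ⁻¹' D) = volume D :=
  measure_preimage_add_right volume w D

private theorem cover_card (R s : ℝ) (hs : 0 < s) (hsR : s ≤ R) :
    (((Finset.Icc (-(⌊R / s⌋₊ : ℤ)) (⌊R / s⌋₊ : ℤ) ×ˢ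
      Finset.Icc (-(⌊R / s⌋₊ : ℤ)) (⌊R / s⌋₊ : ℤ)).card : ℕ) : ENNReal) ≤
      ENNReal.ofReal (9 * R ^ 2 / s ^ 2) := by
  generalize hN : ⌊R / s⌋₊ = N
  have hcard : (Finset.Icc (-(N : ℤ)) (N : ℤ) ×ˢ
      Finset.Icc (-(N : ℤ)) (N : ℤ)).card = (2 * N + 1) ^ 2 := by
    have h1 : ((N : ℤ) + 1 - -(N : ℤ)).toNat = 2 * N + 1 := by omega
    rw [Finset.card_product, Int.card_Icc, h1, sq]
  rw [hcard, ← ENNReal.ofReal_natCast]
  refine ENNReal.ofReal_le_ofReal ?_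
  have hR : 1 ≤ R / s := by rwa [one_le_div hs]
  have hN1 : (N : ℝ) ≤ R / s := by
    rw [← hN]
    exact Nat.floor_le (by linarith)
  have h9 : 9 * R ^ 2 / s ^ 2 = (3 * (R / s)) ^ 2 := by
    rw [mul_pow, div_pow]
    ring
  rw [h9]
  push_cast
  gcongr
  linarith

private theorem cover_grid (R s : ℝ) (hs : 0 < s) (l : ℂ) (hl : ‖l‖ ≤ R) :
    ∃ t ∈ Finset.Icc (-(⌊R / s⌋₊ : ℤ)) (⌊R / s⌋₊ : ℤ) ×ˢ
      Finset.Icc (-(⌊R / s⌋₊ : ℤ)) (⌊R / s⌋₊ : ℤ),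
      ‖((⟨s * t.1, s * t.2⟩ : ℂ))‖ ≤ R ∧ ‖((⟨s * t.1, s * t.2⟩ : ℂ)) - l‖ ≤ 2 * s := by
  obtain ⟨m, hm1, hm2, hm3⟩ := cover_rd R s hs l.re ((Complex.abs_re_le_norm l).trans hl)
  obtain ⟨n, hn1, hn2, hn3⟩ := cover_rd R s hs l.im ((Complex.abs_im_le_norm l).trans hl)
  refine ⟨(m, n), Finset.mem_product.2 ⟨hm1, hn1⟩, ?_, ?_⟩
  · refine le_trans ?_ hl
    refine le_of_sq_le_sq ?_ (norm_nonneg _)
    rw [Complex.sq_norm, Complex.sq_norm, Complex.normSq_apply, Complex.normSq_apply]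
    have h3 := sq_le_sq.2 hm2
    have h4 := sq_le_sq.2 hn2
    simp only
    nlinarith
  · refine (Complex.norm_le_abs_re_add_abs_im _).trans ?_
    rw [Complex.sub_re, Complex.sub_im]
    simp only
    linarith

theorem cover {υ : Type*} [Fintype υ] [DecidableEq υ] (v0 : υ) (U U' : Set (υ → ℂ))
    (F : (υ → ℂ) → ℝ) (R L s : ℝ) (hs : 0 < s) (hsR : s ≤ R) (hL : 0 ≤ L)
    (hU : ∀ z ∈ U, ∃ l : ℂ, ‖l‖ ≤ R ∧ ∀ l' : ℂ, ‖l'‖ ≤ R →
      z + Pi.single v0 l' ∈ U' ∧ F (z + Pi.single v0 l') ≤ L * ‖l' - l‖) :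
    volume U ≤ ENNReal.ofReal (9 * R ^ 2 / s ^ 2) * volume {z ∈ U' | F z ≤ 2 * L * s} := by
  have hsub : U ⊆ ⋃ t ∈ Finset.Icc (-(⌊R / s⌋₊ : ℤ)) (⌊R / s⌋₊ : ℤ) ×ˢ
      Finset.Icc (-(⌊R / s⌋₊ : ℤ)) (⌊R / s⌋₊ : ℤ),
      (fun z => z + Pi.single v0 (⟨s * t.1, s * t.2⟩ : ℂ)) ⁻¹' {z ∈ U' | F z ≤ 2 * L * s} := by
    intro z hz
    obtain ⟨l, hl, hl'⟩ := hU z hz
    obtain ⟨t, ht, h1, h3⟩ := cover_grid R s hs l hl
    refine Set.mem_iUnion₂.2 ⟨t, ht, ?_⟩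
    have h2 := hl' _ h1
    refine ⟨h2.1, h2.2.trans ?_⟩
    refine (mul_le_mul_of_nonneg_left h3 hL).trans (le_of_eq ?_)
    ring
  refine (measure_mono hsub).trans ?_
  refine (measure_biUnion_finset_le _ _).trans ?_
  refine (Finset.sum_le_sum fun t _ => (cover_pre (Pi.single v0 (⟨s * t.1, s * t.2⟩ : ℂ))
    {z ∈ U' | F z ≤ 2 * L * s}).le).trans ?_
  rw [Finset.sum_const, nsmul_eq_mul]
  exact mul_le_mul_left (cover_card R s hs hsR) _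

end DP
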