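import Mathlib
import Pool.Agent.Lib.MP_9e8926_ag_LP.ZeroN

/-!
# Volumes of polydiscs and of zero sets

* `vol_box`: the set is `Set.pi univ (fun v => closedBall (c v) (R v))`;
  `volume_pi`/`Measure.pi_pi`,
  `Complex.volume_closedBall` (`volume (closedBall c R) = ofReal R ^ 2 * π`).
* `vol_zero`: transport `LP.volume_zero` (`Pool/Agent/Lib/MP_9e8926_ag_LP/ZeroN.lean`, may be
  imported)
  along a bijection of `υ` with `Fin n` (`rename`,
  `MeasureTheory.volume_measurePreserving_piCongrLeft`).
-/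

set_option autoImplicit false

noncomputable section

namespace DP

open MvPolynomial MeasureTheory

theorem vol_box {υ : Type*} [Fintype υ] (c : υ → ℂ) (R : υ → ℝ) (hR : ∀ v, 0 ≤ R v) :
    volume {z : υ → ℂ | ∀ v, ‖z v - c v‖ ≤ R v} = ENNReal.ofReal (∏ v, (Real.pi * R v ^ 2)) := by
  have h1 : {z : υ → ℂ | ∀ v, ‖z v - c v‖ ≤ R v} =
      Set.pi Set.univ (fun v => Metric.closedBall (c v) (R v)) := by
    ext z
    simp only [Set.mem_ofPred_eq, Set.mem_pi, Set.mem_univ, true_implies, Metric.mem_closedBall,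
      dist_eq_norm]
  rw [h1, volume_pi_pi, ENNReal.ofReal_prod_of_nonneg (fun v _ => by positivity)]
  refine Finset.prod_congr rfl fun v _ => ?_
  rw [Complex.volume_closedBall, mul_comm, ENNReal.ofReal_mul Real.pi_pos.le,
    ENNReal.ofReal_pow (hR v)]
  congr 1
  exact (ENNReal.ofReal_coe_nnreal (p := NNReal.pi)).symm

theorem vol_zero {υ : Type*} [Fintype υ] (f : MvPolynomial υ ℂ) (hf : f ≠ 0) :
    volume {z : υ → ℂ | eval z f = 0} = 0 := by
  set e : Fin (Fintype.card υ) ≃ υ := (Fintype.equivFin υ).symm with he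
  have h1 := volume_measurePreserving_piCongrLeft (fun _ : υ => ℂ) e
  rw [← h1.measure_preimage_equiv]
  have h2 : (MeasurableEquiv.piCongrLeft (fun _ : υ => ℂ) e) ⁻¹'
      {z : υ → ℂ | eval z f = 0} =
      {w : Fin (Fintype.card υ) → ℂ | eval w (rename e.symm f) = 0} := by
    ext w
    simp only [Set.mem_ofPred_eq, Set.mem_preimage]
    rw [eval_rename]
    have h3 : MeasurableEquiv.piCongrLeft (fun _ : υ => ℂ) e w = w ∘ e.symm := by
      funext x
      obtain ⟨a, rfl⟩ := e.surjective x
      rw [Function.comp_apply, e.symm_apply_apply]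
      exact Equiv.piCongrLeft_apply_apply (fun _ : υ => ℂ) e w a
    rw [h3]
  rw [h2]
  refine LP.volume_zero _ fun h => hf ?_
  exact rename_injective _ e.symm.injective (h.trans (map_zero _).symm)

end DP
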