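import Pool.Agent.Lib.MP_9e8926_ag_DP.Pre

/-!
# Frobenius on a polynomial ring with variables indexed by a finite type

These statements are proved for `Fin n` in `Pool/Agent/Lib/MP_9e8926_ag_LP/{Bas,FrobN}.lean`
(`LP.mem_J`, `LP.map_J_m0`, `LP.exists_psi_unit`, `LP.flat`): copy the proofs, replacing `Fin n` by
`σ`.  `map_J_le`: `s (X v) ∈ m0` is a combination `∑ c_w X_w`, its `p^e`-th power is
`∑ c_w^{p^e} X_w^{p^e}`.
-/

set_option autoImplicit false

noncomputable section

namespace DP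

open MvPolynomial

variable {σ σ' : Type*} {k : Type*} [Field k]

theorem mem_m0 {u : MvPolynomial σ k} : u ∈ m0 σ k ↔ constantCoeff u = 0 := RingHom.mem_ker

private theorem Frb_mem_J0 {q : ℕ} {f : MvPolynomial σ k} :
    f ∈ J σ k q ↔ ∀ m ∈ f.support, ∃ i, q ≤ m i := by
  have h := @mem_ideal_span_monomial_image σ k _ f (Set.range fun i => Finsupp.single i q)
  have e : ((fun s => monomial s (1 : k)) '' (Set.range fun i : σ => Finsupp.single i q)) =
      Set.range fun i : σ => (X i : MvPolynomial σ k) ^ q := by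
    rw [← Set.range_comp]
    congr 1
    funext i
    simp only [Function.comp_apply]
    rw [X_pow_eq_monomial]
  rw [e] at h
  unfold J
  rw [h]
  refine forall₂_congr fun m _ => ?_
  simp [Finsupp.single_le_iff]

private theorem Frb_m0_eq : m0 σ k = Ideal.span (Set.range fun v => (X v : MvPolynomial σ k)) := by
  have h0 : m0 σ k = idealOfVars σ k := by
    ext f
    have h := mem_pow_idealOfVars_iff (σ := σ) (R := k) 1 f
    rw [pow_one] at h
    rw [h, mem_m0]
    constructor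
    · intro h0 x hx
      rw [Nat.one_le_iff_ne_zero]
      intro hd
      rw [Finsupp.degree_eq_zero_iff] at hd
      subst hd
      rw [mem_support_iff] at hx
      exact hx (by rw [← constantCoeff_eq]; exact h0)
    · intro h0
      rw [constantCoeff_eq]
      by_contra hc
      have := h0 0 (mem_support_iff.2 hc)
      simp at this
  exact h0

private theorem Frb_mem_J_of_mul {q : ℕ} {z v : MvPolynomial σ k} (hv : constantCoeff v ≠ 0)
    (h : z * v ∈ J σ k q) : z ∈ J σ k q := by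
  classical
  rw [Frb_mem_J0] at h ⊢
  by_contra hc
  push Not at hc
  obtain ⟨m1, hm1, hq0⟩ := hc
  obtain ⟨m, hm, hmin⟩ := Finset.exists_min_image
    (z.support.filter (fun m => ∀ i, m i < q)) (fun m => m.degree)
    ⟨m1, Finset.mem_filter.2 ⟨hm1, hq0⟩⟩
  rw [Finset.mem_filter] at hm
  obtain ⟨hmz, hm0⟩ := hm
  have h1 : coeff m (z * v) = coeff m z * coeff 0 v := by
    rw [coeff_mul]
    rw [Finset.sum_eq_single (m, 0)]
    · rintro ⟨a, b⟩ hab hne
      rw [Finset.HasAntidiagonal.mem_antidiagonal] at hab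
      simp only at hab ⊢
      have hna : a ≠ m := by
        intro e
        subst e
        apply hne
        have : b = 0 := by
          simpa using hab
        rw [this]
      have hz : coeff a z = 0 := by
        by_contra hz
        have e0 : ∀ i, a i + b i = m i := fun i => by rw [← hab]; rfl
        have h2 := hmin a (Finset.mem_filter.2 ⟨mem_support_iff.2 hz, fun i => by
          have := e0 i
          have := hm0 i
          omega⟩)
        apply hna
        have h3 : m.degree = a.degree + b.degree := by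
          rw [← hab, map_add]
        have h4 : b.degree = 0 := by
          omega
        rw [Finsupp.degree_eq_zero_iff] at h4
        rw [← hab, h4, add_zero]
      rw [hz, zero_mul]
    · intro hh
      exfalso
      apply hh
      rw [Finset.HasAntidiagonal.mem_antidiagonal]
      exact add_zero m
  have h2 : m ∈ (z * v).support := by
    rw [mem_support_iff, h1]
    exact mul_ne_zero (mem_support_iff.1 hmz) (by rw [← constantCoeff_eq]; exact hv)
  obtain ⟨i, hi⟩ := h m h2
  have := hm0 i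
  omega

theorem m0_eq_span [Finite σ] : m0 σ k = Ideal.span (Set.range fun v => (X v : MvPolynomial σ k)) := by
  exact Frb_m0_eq

theorem mem_J [Finite σ] {q : ℕ} {u : MvPolynomial σ k} :
    u ∈ J σ k q ↔ ∀ m ∈ u.support, ∃ v, q ≤ m v := by
  exact Frb_mem_J0

variable (p : ℕ) [Fact p.Prime] [CharP k p]

theorem map_J_m0 (e : ℕ) (ψ : MvPolynomial σ k →+ MvPolynomial σ k)
    (hψ : ∀ a b, ψ (a ^ p ^ e * b) = a * ψ b) {u : MvPolynomial σ k}
    (hu : u ∈ J σ k (p ^ e)) : ψ u ∈ m0 σ k := by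
  have h1 : ∀ c, ψ (c * u) ∈ m0 σ k := by
    unfold J at hu
    induction hu using Submodule.span_induction with
    | mem x hx =>
      obtain ⟨v, rfl⟩ := hx
      intro c
      simp only
      rw [mul_comm, hψ]
      refine Ideal.mul_mem_right _ _ ?_
      rw [mem_m0]
      exact constantCoeff_X _ v
    | zero =>
      intro c
      rw [mul_zero, map_zero]
      exact Ideal.zero_mem _
    | add x y _ _ hx hy =>
      intro c
      rw [mul_add, map_add]
      exact Ideal.add_mem _ (hx c) (hy c)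
    | smul a x _ hx =>
      intro c
      rw [smul_eq_mul, ← mul_assoc]
      exact hx _
  have h2 := h1 1
  rwa [one_mul] at h2

private def Frb_exp (q : ℕ) (μ : σ →₀ ℕ) (m : σ →₀ ℕ) : σ →₀ ℕ := q • m + μ

private theorem Frb_exp_apply (q : ℕ) (μ m : σ →₀ ℕ) (a : σ) :
    Frb_exp q μ m a = q * m a + μ a := by
  simp [Frb_exp]

private theorem Frb_exp_inj {q : ℕ} (μ : σ →₀ ℕ) (hq : 0 < q) :
    Function.Injective (Frb_exp q μ) := by
  intro m m' h
  ext a
  have h0 : Frb_exp q μ m a = Frb_exp q μ m' a := by rw [h]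
  rw [Frb_exp_apply, Frb_exp_apply] at h0
  exact Nat.eq_of_mul_eq_mul_left hq (Nat.add_right_cancel h0)

private theorem Frb_exp_le {q : ℕ} {μ : σ →₀ ℕ} (hμ : ∀ a, μ a < q) (s m : σ →₀ ℕ) :
    q • s ≤ Frb_exp q μ m ↔ s ≤ m := by
  have key : ∀ a b c : ℕ, c < q → (q * a ≤ q * b + c ↔ a ≤ b) := by
    intro a b c hc
    constructor
    · intro h
      by_contra hcon
      have h1 : b + 1 ≤ a := by omega
      have h2 : q * (b + 1) ≤ q * a := Nat.mul_le_mul_left q h1
      rw [mul_add, mul_one] at h2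
      omega
    · intro h
      exact le_trans (Nat.mul_le_mul_left q h) (Nat.le_add_right _ _)
  constructor
  · intro h a
    have ha := h a
    rw [Finsupp.smul_apply, smul_eq_mul, Frb_exp_apply] at ha
    exact (key _ _ _ (hμ a)).1 ha
  · intro h a
    have ha := h a
    rw [Finsupp.smul_apply, smul_eq_mul, Frb_exp_apply]
    exact (key _ _ _ (hμ a)).2 ha

private theorem Frb_exp_sub {q : ℕ} {μ : σ →₀ ℕ} (s m : σ →₀ ℕ) (h : s ≤ m) :
    Frb_exp q μ m - q • s = Frb_exp q μ (m - s) := by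
  have key : ∀ a b c : ℕ, a ≤ b → q * b + c - q * a = q * (b - a) + c := by
    intro a b c hab
    obtain ⟨d, rfl⟩ := Nat.exists_eq_add_of_le hab
    rw [Nat.add_sub_cancel_left, mul_add]
    omega
  ext a
  rw [Finsupp.tsub_apply, Frb_exp_apply, Frb_exp_apply, Finsupp.smul_apply, smul_eq_mul,
    Finsupp.tsub_apply]
  exact key _ _ _ (h a)

private def Frb_psi0 (r : k ≃+* k) (q : ℕ) (μ : σ →₀ ℕ) (hq : 0 < q)
    (u : MvPolynomial σ k) : MvPolynomial σ k :=
  AddMonoidAlgebra.ofCoeff ((Finsupp.comapDomain (Frb_exp q μ) (AddMonoidAlgebra.coeff u)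
    (Frb_exp_inj μ hq).injOn).mapRange r (map_zero r))

private theorem Frb_coeff_psi0 (r : k ≃+* k) (q : ℕ) (μ : σ →₀ ℕ) (hq : 0 < q)
    (u : MvPolynomial σ k) (m : σ →₀ ℕ) :
    coeff m (Frb_psi0 r q μ hq u) = r (coeff (Frb_exp q μ m) u) := rfl

private def Frb_psi1 (r : k ≃+* k) (q : ℕ) (μ : σ →₀ ℕ) (hq : 0 < q) :
    MvPolynomial σ k →+ MvPolynomial σ k where
  toFun := Frb_psi0 r q μ hq
  map_zero' := by
    ext m
    rw [Frb_coeff_psi0, coeff_zero, coeff_zero, map_zero]
  map_add' u v := by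
    ext m
    rw [Frb_coeff_psi0, coeff_add, coeff_add, Frb_coeff_psi0, Frb_coeff_psi0, map_add]

private theorem Frb_coeff_psi1 (r : k ≃+* k) (q : ℕ) (μ : σ →₀ ℕ) (hq : 0 < q)
    (u : MvPolynomial σ k) (m : σ →₀ ℕ) :
    coeff m (Frb_psi1 r q μ hq u) = r (coeff (Frb_exp q μ m) u) := rfl

private theorem Frb_map_J [Finite σ] (e q : ℕ) (ψ : MvPolynomial σ k →+ MvPolynomial σ k)
    (hψ : ∀ a b, ψ (a ^ p ^ e * b) = a * ψ b) {u : MvPolynomial σ k}
    (hu : u ∈ J σ k (p ^ e * q)) : ψ u ∈ J σ k q := by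
  cases nonempty_fintype σ
  unfold J at hu
  rw [Ideal.mem_span_range_iff_exists_fun] at hu
  obtain ⟨c, rfl⟩ := hu
  rw [map_sum]
  refine Ideal.sum_mem _ fun i _ => ?_
  have h1 : c i * X i ^ (p ^ e * q) = (X i ^ q) ^ p ^ e * c i := by
    rw [← pow_mul, mul_comm q, mul_comm]
  rw [h1, hψ]
  exact Ideal.mul_mem_right _ _ (Ideal.subset_span ⟨i, rfl⟩)

/-- The `p^{-e}`-linear maps `ψ_μ`: the coefficient of `x^m` in `ψ_μ u` is the `p^e`-th root of the
coefficient of `x^(p^e m + μ)` in `u`. -/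
theorem exists_psi [Finite σ] [PerfectField k] (e : ℕ) (μ : σ →₀ ℕ) (hμ : ∀ v, μ v < p ^ e) :
    ∃ ψ : MvPolynomial σ k →+ MvPolynomial σ k, (∀ a b, ψ (a ^ p ^ e * b) = a * ψ b) ∧
      ∀ (u : MvPolynomial σ k) (m : σ →₀ ℕ), coeff m (ψ u) ^ p ^ e = coeff (p ^ e • m + μ) u := by
  have hq : 0 < p ^ e := pow_pos (Fact.out : p.Prime).pos e
  have hr' : ∀ x : k, (iterateFrobeniusEquiv k p e).symm (x ^ p ^ e) = x := fun x =>
    (iterateFrobeniusEquiv k p e).symm_apply_apply x
  refine ⟨Frb_psi1 (iterateFrobeniusEquiv k p e).symm (p ^ e) μ hq, fun a b => ?_,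
    fun u m => ?_⟩
  · induction a using MvPolynomial.induction_on' with
    | monomial s c =>
      rw [monomial_pow]
      ext m
      rw [Frb_coeff_psi1, coeff_monomial_mul', coeff_monomial_mul', Frb_coeff_psi1]
      by_cases hsm : s ≤ m
      · rw [if_pos hsm, if_pos ((Frb_exp_le hμ s m).2 hsm), map_mul, hr',
          Frb_exp_sub s m hsm]
      · rw [if_neg hsm, if_neg (fun h => hsm ((Frb_exp_le hμ s m).1 h)), map_zero]
    | add a a' ha ha' =>
      rw [add_pow_char_pow, add_mul, map_add, ha, ha', add_mul]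
  · rw [Frb_coeff_psi1]
    exact (iterateFrobeniusEquiv k p e).apply_symm_apply (coeff (p ^ e • m + μ) u)

theorem exists_psi_unit [Finite σ] [PerfectField k] (e : ℕ) (u : MvPolynomial σ k)
    (hu : u ∉ J σ k (p ^ e)) :
    ∃ ψ : MvPolynomial σ k →+ MvPolynomial σ k,
      (∀ a b, ψ (a ^ p ^ e * b) = a * ψ b) ∧ ψ u ∉ m0 σ k := by
  rw [Frb_mem_J0] at hu
  push Not at hu
  obtain ⟨μ, hμ, hμl⟩ := hu
  obtain ⟨ψ, h1, h2⟩ := exists_psi (k := k) p e μ hμl
  refine ⟨ψ, h1, fun h3 => ?_⟩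
  rw [mem_m0, constantCoeff_eq] at h3
  have h4 := h2 u 0
  rw [h3, smul_zero, zero_add, zero_pow (pow_pos (Fact.out : p.Prime).pos e).ne'] at h4
  exact (mem_support_iff.1 hμ) h4.symm

theorem flat [Finite σ] [PerfectField k] (e q : ℕ) (u z : MvPolynomial σ k)
    (hu : u ∉ J σ k (p ^ e)) (h : u * z ^ p ^ e ∈ J σ k (p ^ e * q)) : z ∈ J σ k q := by
  obtain ⟨ψ, hψ1, hψ2⟩ := exists_psi_unit p e u hu
  have h1 := Frb_map_J p e q ψ hψ1 h
  rw [mul_comm u, hψ1] at h1
  exact Frb_mem_J_of_mul (fun h0 => hψ2 (mem_m0.2 h0)) h1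

/-- Substitutions preserving the origin preserve the ideals `J (p^e)`. -/
theorem map_J_le [Finite σ] [Finite σ'] (s : MvPolynomial σ k →ₐ[k] MvPolynomial σ' k)
    (hs : ∀ v, s (X v) ∈ m0 σ' k) (e : ℕ) {u : MvPolynomial σ k} (hu : u ∈ J σ k (p ^ e)) :
    s u ∈ J σ' k (p ^ e) := by
  cases nonempty_fintype σ'
  have h1 : J σ k (p ^ e) ≤ (J σ' k (p ^ e)).comap s := by
    unfold J
    rw [Ideal.span_le]
    rintro _ ⟨v, rfl⟩
    have h2 := hs v
    rw [Frb_m0_eq, Ideal.mem_span_range_iff_exists_fun] at h2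
    obtain ⟨c, hc⟩ := h2
    rw [SetLike.mem_coe, Ideal.mem_comap, map_pow, ← hc, sum_pow_char_pow]
    refine Ideal.sum_mem _ fun w _ => ?_
    rw [mul_pow]
    exact Ideal.mul_mem_left _ _ (Ideal.subset_span ⟨w, rfl⟩)
  exact h1 hu

end DP
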