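import Pool.Agent.Lib.MP_9e8926_ag_DP.Srt

/-!
# The common basis lemma

Two weighted bases `(B, w)`, `(B', w')` of the same space `V` have the same filtrations as `(Z, ω)`,
`(Z, ω')` for one basis `Z`.

Proof.  Replace `(B, w)` by a sorted one (`exists_sorted`), so `w` is monotone, `ω := w`.
For `0 ≠ v = ∑ c i • B i` let `lead v` be the smallest `i` with `c i ≠ 0`.  For `v ≠ 0` in `V`,
`v = ∑ c' i • B' i`, let `val' v = min {w' i | c' i ≠ 0}`; by `mem_lev_iff`,
`v ∈ lev B' w' x ↔ x ≤ val' v`.  For every `i` choose `z i` with `lead (z i) = i` and `val' (z i)`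
maximal (the values of `val'` are among the finitely many `w' j`; `B i` has lead `i`).  Put
`ω' i = val' (z i)`.
* `Z = (z i)` is a basis: the leads are distinct, so the family is triangular with respect to `B`.
* `lev Z w x = lev B w x`: `w` is monotone, `z i ∈ span {B j : j ≥ i}`, so `⊆`; equality by
  `finrank_lev`.
* `lev Z ω' x = lev B' w' x`: `⊆` because `z i ∈ lev B' w' (ω' i)`.  `⊇`: let `v = ∑ c i • z i` be in
  `lev B' w' x` and suppose some `i` has `c i ≠ 0` and `ω' i < x`; let `m` be the smallest value of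
  `ω' i` over `c i ≠ 0`, `I = {i | c i ≠ 0, ω' i = m}`, `v' = ∑_{i ∈ I} c i • z i`.  Then
  `v - v'` and `v` are in `lev B' w' m'` for some `m' > m` (`m'` the minimum of `x` and of the other
  values), so `val' v' > m`, while `lead v' = min I = i0` and `ω' i0 = m`: contradiction with the
  choice of `z i0`.
-/

set_option autoImplicit false

noncomputable section

namespace DP

variable {K A : Type*} [Field K] [AddCommGroup A] [Module K A] {V : Submodule K A} {D : ℕ}

/-- the span of the last basis vectors -/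
private def CBa_U (K : Type*) {A : Type*} [Field K] [AddCommGroup A] [Module K A] {D : ℕ}
    (B : Fin D → A) (n : ℕ) : Submodule K A :=
  Submodule.span K (B '' {j | n ≤ j.val})

private theorem CBa_U_le {B : Fin D → A} (hB : IsBas V B) (n : ℕ) : CBa_U K B n ≤ V := by
  rw [← hB.2]
  exact Submodule.span_mono (Set.image_subset_range _ _)

private theorem CBa_U_zero {B : Fin D → A} (hB : IsBas V B) {v : A} (hv : v ∈ V) :
    v ∈ CBa_U K B 0 := by
  rw [← hB.2] at hv
  refine Submodule.span_mono ?_ hv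
  rintro _ ⟨j, rfl⟩
  exact ⟨j, Nat.zero_le _, rfl⟩

private theorem CBa_U_step {B : Fin D → A} (i : Fin D) {v : A} (hv : v ∈ CBa_U K B i.val) :
    ∃ c : K, v - c • B i ∈ CBa_U K B (i.val + 1) := by
  have h1 : B '' {j | i.val ≤ j.val} = insert (B i) (B '' {j | i.val + 1 ≤ j.val}) := by
    rw [← Set.image_insert_eq]
    congr 1
    ext j
    simp only [Set.mem_ofPred_eq, Set.mem_insert_iff, Fin.ext_iff]
    omega
  rw [CBa_U, h1, Submodule.mem_span_insert] at hv
  obtain ⟨c, u, hu, rfl⟩ := hv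
  refine ⟨c, ?_⟩
  rw [add_sub_cancel_left]
  exact hu

private theorem CBa_desc {B : Fin D → A} {F G : Submodule K A}
    (H : ∀ i : Fin D, ∀ v ∈ F, v ∈ CBa_U K B i.val →
      ∃ u ∈ G, v - u ∈ F ∧ v - u ∈ CBa_U K B (i.val + 1)) :
    ∀ v ∈ F, v ∈ CBa_U K B 0 → v ∈ G := by
  have key : ∀ m n : ℕ, n + m = D → ∀ v ∈ F, v ∈ CBa_U K B n → v ∈ G := by
    intro m
    induction m with
    | zero =>
      intro n hn v _ hv
      have h1 : (B '' {j : Fin D | n ≤ j.val}) = ∅ := by
        rw [Set.image_eq_empty]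
        ext j
        simp only [Set.mem_ofPred_eq, Set.mem_empty_iff_false, iff_false]
        have := j.2
        omega
      rw [CBa_U, h1, Submodule.span_empty, Submodule.mem_bot] at hv
      rw [hv]
      exact G.zero_mem
    | succ m ih =>
      intro n hn v hvF hv
      obtain ⟨u, hu, h1, h2⟩ := H ⟨n, by omega⟩ v hvF hv
      have h3 := G.add_mem (ih (n + 1) (by omega) _ h1 h2) hu
      rwa [sub_add_cancel] at h3
  exact key D 0 (Nat.zero_add D)

private theorem CBa_choose {B B' : Fin D → A} (hB : IsBas V B) (hB' : IsBas V B')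
    (w' : Fin D → ℝ) (i : Fin D) : ∃ (z : A) (y : ℝ), z - B i ∈ CBa_U K B (i.val + 1) ∧
      z ∈ lev K B' w' y ∧
      ∀ (z' : A) (x : ℝ), z' - B i ∈ CBa_U K B (i.val + 1) → z' ∈ lev K B' w' x → x ≤ y := by
  classical
  have hBi : B i ∈ V := by
    rw [← hB.2]
    exact Submodule.subset_span ⟨i, rfl⟩
  set s : Finset (Fin D) := Finset.univ.filter
    (fun j => ∃ z, z - B i ∈ CBa_U K B (i.val + 1) ∧ z ∈ lev K B' w' (w' j)) with hs
  have hne : s.Nonempty := by
    obtain ⟨j, -, hj⟩ := Finset.exists_min_image (Finset.univ : Finset (Fin D)) w' ⟨i, by simp⟩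
    refine ⟨j, Finset.mem_filter.2 ⟨Finset.mem_univ _, B i, ?_, ?_⟩⟩
    · rw [sub_self]
      exact Submodule.zero_mem _
    · obtain ⟨c, hc⟩ := exists_coeff hB' hBi
      rw [hc, mem_lev_iff hB']
      exact fun l _ => hj l (Finset.mem_univ _)
  obtain ⟨j, hjs, hj⟩ := Finset.exists_max_image s w' hne
  obtain ⟨-, z, hz, hz'⟩ := Finset.mem_filter.1 hjs
  refine ⟨z, w' j, hz, hz', fun z' x h1 h2 => ?_⟩
  have hzV : z' ∈ V := by
    have h3 := V.add_mem (CBa_U_le hB _ h1) hBi
    rwa [sub_add_cancel] at h3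
  have hz0 : z' ≠ 0 := by
    rintro rfl
    rw [zero_sub, Submodule.neg_mem_iff] at h1
    refine hB.1.notMem_span_image (s := {j | i.val + 1 ≤ j.val}) (x := i) ?_ h1
    simp
  obtain ⟨c, hc⟩ := exists_coeff hB' hzV
  have h3 := h2
  rw [hc, mem_lev_iff hB'] at h3
  have hT : (Finset.univ.filter (fun l => c l ≠ 0)).Nonempty := by
    by_contra hT
    rw [Finset.not_nonempty_iff_eq_empty] at hT
    apply hz0
    rw [hc]
    refine Finset.sum_eq_zero fun l _ => ?_
    have h4 : l ∉ Finset.univ.filter (fun l => c l ≠ 0) := by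
      rw [hT]
      exact Finset.notMem_empty _
    rw [Finset.mem_filter, not_and, not_not] at h4
    rw [h4 (Finset.mem_univ _), zero_smul]
  obtain ⟨l, hl, hl'⟩ := Finset.exists_min_image _ w' hT
  have h4 : l ∈ s := by
    refine Finset.mem_filter.2 ⟨Finset.mem_univ _, z', h1, ?_⟩
    rw [hc, mem_lev_iff hB']
    exact fun a ha => hl' a (Finset.mem_filter.2 ⟨Finset.mem_univ _, ha⟩)
  exact (h3 l (Finset.mem_filter.1 hl).2).trans (hj l h4)

theorem common_basis {B B' : Fin D → A} (hB : IsBas V B) (hB' : IsBas V B') (w w' : Fin D → ℝ) :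
    ∃ (Z : Fin D → A) (ω ω' : Fin D → ℝ), IsBas V Z ∧ (∀ x, lev K Z ω x = lev K B w x) ∧
      (∀ x, lev K Z ω' x = lev K B' w' x) := by
  obtain ⟨B1, w1, hB1, hw1, hlev⟩ := exists_sorted hB w
  choose z y hz hzy hmax using CBa_choose hB1 hB' w'
  have hB1V : ∀ i, B1 i ∈ V := fun i => by
    rw [← hB1.2]
    exact Submodule.subset_span ⟨i, rfl⟩
  have hzV : ∀ i, z i ∈ V := by
    intro i
    have h3 := V.add_mem (CBa_U_le hB1 _ (hz i)) (hB1V i)
    rwa [sub_add_cancel] at h3
  have hsub : ∀ (i : Fin D) (v : A) (c : K), v - c • B1 i ∈ CBa_U K B1 (i.val + 1) →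
      v - c • z i ∈ CBa_U K B1 (i.val + 1) := by
    intro i v c hv
    have h3 := Submodule.sub_mem _ hv (Submodule.smul_mem _ c (hz i))
    rwa [smul_sub, sub_sub_sub_cancel_right] at h3
  have hspan : Submodule.span K (Set.range z) = V := by
    apply le_antisymm
    · rw [Submodule.span_le]
      rintro _ ⟨i, rfl⟩
      exact hzV i
    · intro v hv
      refine CBa_desc (B := B1) (F := V) ?_ v hv (CBa_U_zero hB1 hv)
      intro i v hvV hvU
      obtain ⟨c, hc⟩ := CBa_U_step i hvU
      exact ⟨c • z i, Submodule.smul_mem _ _ (Submodule.subset_span ⟨i, rfl⟩),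
        V.sub_mem hvV (V.smul_mem _ (hzV i)), hsub i v c hc⟩
  have hZ : IsBas V z := by
    refine ⟨?_, hspan⟩
    rw [linearIndependent_iff_card_eq_finrank_span, Fintype.card_fin, Set.finrank, hspan,
      finrank_bas hB]
  refine ⟨z, w1, y, hZ, fun x => ?_, fun x => ?_⟩
  · rw [← hlev x]
    have hfin : Module.Finite K (lev K B1 w1 x) :=
      FiniteDimensional.span_of_finite K (Set.toFinite _)
    refine Submodule.eq_of_le_of_finrank_eq ?_ (by rw [finrank_lev hZ, finrank_lev hB1])
    refine Submodule.span_le.2 ?_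
    rintro _ ⟨i, hi, rfl⟩
    have h1 : CBa_U K B1 (i.val + 1) ≤ lev K B1 w1 x := by
      refine Submodule.span_mono (Set.image_mono fun j hj => ?_)
      have hij : i ≤ j := by
        rw [Fin.le_def]
        have : i.val + 1 ≤ j.val := hj
        omega
      exact le_trans hi (hw1 hij)
    have h2 : B1 i ∈ lev K B1 w1 x := Submodule.subset_span ⟨i, hi, rfl⟩
    have h3 := Submodule.add_mem _ (h1 (hz i)) h2
    rwa [sub_add_cancel] at h3
  · apply le_antisymm
    · refine Submodule.span_le.2 ?_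
      rintro _ ⟨i, hi, rfl⟩
      exact lev_anti B' w' hi (hzy i)
    · intro v hv
      refine CBa_desc (B := B1) (F := lev K B' w' x) ?_ v hv
        (CBa_U_zero hB1 (lev_le hB' w' x hv))
      intro i v hvF hvU
      obtain ⟨c, hc⟩ := CBa_U_step i hvU
      by_cases hc0 : c = 0
      · refine ⟨0, Submodule.zero_mem _, ?_, ?_⟩
        · rwa [sub_zero]
        · rw [hc0, zero_smul] at hc
          exact hc
      · have hx : x ≤ y i := by
          refine hmax i (c⁻¹ • v) x ?_ (Submodule.smul_mem _ _ hvF)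
          have h3 := Submodule.smul_mem _ c⁻¹ hc
          rwa [smul_sub, smul_smul, inv_mul_cancel₀ hc0, one_smul] at h3
        exact ⟨c • z i, Submodule.smul_mem _ _ (Submodule.subset_span ⟨i, hx, rfl⟩),
          Submodule.sub_mem _ hvF (Submodule.smul_mem _ _ (lev_anti B' w' hx (hzy i))),
          hsub i v c hc⟩

end DP
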