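import Pool.Agent.Lib.MP_9e8926_ag_DP.Srt

/-!
# Bases adapted to a decreasing chain of subspaces

Proof by induction on `Nm` (for all chains).  `Nm = 0`: any basis of `F 0`, weights 0.
Step: apply the induction hypothesis to the chain `N ↦ F (N + 1)`: a basis `B'` of `F 1` with weights
`w' ≤ Nm`, `B' i ∈ F (1 + w' i)`, `∑ w' i = ∑_{N=2}^{Nm+1} dim F N`.  Extend `B'` to a basis of `F 0`
(`exists_linearIndependent...extend`, or choose a complement of `F 1` in `F 0` and a basis of it, and
use `Fin.append`); give the new vectors weight 0 and the vectors of `B'` weight `w' + 1`: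
`∑ w = ∑ w' + dim F 1`.
-/

set_option autoImplicit false

noncomputable section

namespace DP

variable {K A : Type*} [Field K] [AddCommGroup A] [Module K A]

private theorem Chn_extend {W V : Submodule K A} (hWV : W ≤ V) (hfin : Module.Finite K V)
    {D D' : ℕ} (hD : Module.finrank K V = D) {B' : Fin D' → A}
    (hB' : IsBas W B') :
    ∃ (m : ℕ) (B'' : Fin m → A) (e : Fin D' ⊕ Fin m ≃ Fin D), (∀ i, B'' i ∈ V) ∧
      IsBas V (Sum.elim B' B'' ∘ e.symm) := by
  obtain ⟨C', hC'⟩ := (W.comap V.subtype).exists_isCompl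
  have hmapW : (W.comap V.subtype).map V.subtype = W := by
    rw [Submodule.map_comap_subtype]
    exact inf_eq_right.2 hWV
  have hfC : Module.Finite K (C'.map V.subtype) := inferInstance
  obtain ⟨B'', hB''⟩ := exists_isBas (C'.map V.subtype) rfl
  have hsup : W ⊔ C'.map V.subtype = V := by
    conv_lhs => rw [← hmapW]
    rw [← Submodule.map_sup, hC'.sup_eq_top, Submodule.map_top, Submodule.range_subtype]
  have hdis : Disjoint W (C'.map V.subtype) := by
    rw [Submodule.disjoint_def]
    rintro x hx ⟨y, hy, rfl⟩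
    have h1 : y ∈ W.comap V.subtype := hx
    have h2 := (Submodule.disjoint_def.1 hC'.disjoint) y h1 hy
    rw [h2, map_zero]
  have hli : LinearIndependent K (Sum.elim B' B'') := by
    refine hB'.1.sum_type hB''.1 ?_
    rw [hB'.2, hB''.2]
    exact hdis
  have hspan : Submodule.span K (Set.range (Sum.elim B' B'')) = V := by
    rw [Set.Sum.elim_range, Submodule.span_union, hB'.2, hB''.2, hsup]
  have hcard : D' + Module.finrank K (C'.map V.subtype) = D := by
    have h1 := finrank_span_eq_card hli
    rw [hspan, hD, Fintype.card_sum, Fintype.card_fin, Fintype.card_fin] at h1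
    exact h1.symm
  refine ⟨_, B'', finSumFinEquiv.trans (finCongr hcard), fun i => ?_, ?_, ?_⟩
  · have h1 : B'' i ∈ C'.map V.subtype :=
      hB''.2.le (Submodule.subset_span ⟨i, rfl⟩)
    obtain ⟨y, -, hy⟩ := h1
    rw [← hy]
    exact y.2
  · exact hli.comp _ (Equiv.injective _)
  · rw [EquivLike.range_comp, hspan]

theorem exists_adapted (F : ℕ → Submodule K A) (hF : Antitone F) (hfin : Module.Finite K (F 0))
    {D : ℕ} (hD : Module.finrank K (F 0) = D) (Nm : ℕ) :
    ∃ (B : Fin D → A) (w : Fin D → ℕ), IsBas (F 0) B ∧ (∀ i, w i ≤ Nm) ∧ (∀ i, B i ∈ F (w i)) ∧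
      ∑ i, w i = ∑ N ∈ Finset.Icc 1 Nm, Module.finrank K (F N) := by
  induction Nm generalizing F D with
  | zero =>
    obtain ⟨B, hB⟩ := exists_isBas (F 0) hD
    refine ⟨B, fun _ => 0, hB, fun _ => le_rfl, fun i => ?_, by simp⟩
    rw [← hB.2]
    exact Submodule.subset_span ⟨i, rfl⟩
  | succ Nm ih =>
    have hF1 : F 1 ≤ F 0 := hF (Nat.zero_le 1)
    have hfin1 : Module.Finite K (F 1) := Submodule.finiteDimensional_of_le hF1
    obtain ⟨B', w', hB', h1, h2, h3⟩ := ih (fun N => F (N + 1))
      (fun a b hab => hF (Nat.succ_le_succ hab)) hfin1 rfl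
    obtain ⟨m, B'', e, h4, h5⟩ := Chn_extend hF1 hfin hD hB'
    refine ⟨Sum.elim B' B'' ∘ e.symm, Sum.elim (fun i => w' i + 1) (fun _ => 0) ∘ e.symm, h5,
      fun i => ?_, fun i => ?_, ?_⟩
    · rw [Function.comp_apply]
      rcases e.symm i with j | j
      · exact Nat.succ_le_succ (h1 j)
      · exact Nat.zero_le _
    · rw [Function.comp_apply, Function.comp_apply]
      rcases e.symm i with j | j
      · exact h2 j
      · exact h4 j
    · have h6 : ∑ i, (Sum.elim (fun i => w' i + 1) (fun _ => 0) ∘ e.symm) i =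
          ∑ x : Fin (Module.finrank K (F 1)) ⊕ Fin m,
            (Sum.elim (fun i => w' i + 1) (fun _ => 0) : _ → ℕ) x :=
        Equiv.sum_comp e.symm _
      rw [h6, Fintype.sum_sum_type]
      simp only [Sum.elim_inl, Sum.elim_inr, Finset.sum_const_zero, add_zero]
      rw [Finset.sum_add_distrib, h3, Finset.sum_const, Finset.card_univ, Fintype.card_fin,
        smul_eq_mul, mul_one]
      have h7 : ∑ N ∈ Finset.Icc 1 (Nm + 1), Module.finrank K (F N) =
          Module.finrank K (F 1) + ∑ N ∈ Finset.Icc 2 (Nm + 1), Module.finrank K (F N) := by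
        rw [← Finset.add_sum_Ioc_eq_sum_Icc (by omega)]
        rfl
      have h8 : ∑ N ∈ Finset.Icc 2 (Nm + 1), Module.finrank K (F N) =
          ∑ N ∈ Finset.Icc 1 Nm, Module.finrank K (F (N + 1)) := by
        rw [← Finset.sum_image (s := Finset.Icc 1 Nm) (g := fun N => N + 1)
          (f := fun N => Module.finrank K (F N)) (fun a _ b _ h => Nat.succ_injective h)]
        refine Finset.sum_congr ?_ fun _ _ => rfl
        ext x
        simp only [Finset.mem_Icc, Finset.mem_image]
        constructor
        · rintro ⟨hx1, hx2⟩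
          exact ⟨x - 1, by omega, by omega⟩
        · rintro ⟨y, hy, rfl⟩
          omega
      rw [h7, h8, add_comm]

end DP
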