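import Pool.Agent.Lib.MP_9e8926_ag_DP.CntA

/-!
# Sums over bidegrees as sums over lattice points

`hh r d` is the number of `γ : Fin (r-1) → ℕ` with sum `d` plus the number of those with sum `d - 1`
(the latter only if `d ≥ 1`): the number of `γ : Fin (r-1) → ℕ` with sum `d` is
`(d + r - 2).choose (r - 2)` (`r ≥ 3`; stars and bars).  Group the points `γ` of `sx a W`
(`a = (ax,…,ax; ay)`) according to `(∑ γ_x, γ_y) = s`, `∑ a γ = L1 s`; in the second sum according to
`(∑ γ_x + 1, γ_y) = s`.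
-/

set_option autoImplicit false

noncomputable section

namespace DP

theorem card_piA (m d : ℕ) :
    (Finset.piAntidiag (Finset.univ : Finset (Fin m)) d).card = (m + d - 1).choose d := by
  classical
  have e : {x : Fin m → ℕ // x ∈ Finset.piAntidiag (Finset.univ : Finset (Fin m)) d} ≃
      Sym (Fin m) d :=
    (Equiv.subtypeEquivRight (fun x => by simp)).trans (Sym.equivNatSumOfFintype (Fin m) d).symm
  have h := Fintype.card_congr e
  rw [Fintype.card_coe, Sym.card_sym_eq_choose, Fintype.card_fin] at h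
  exact h

/-- Stars and bars, in the form needed. -/
theorem card_piA' {r : ℕ} (hr : 3 ≤ r) (d : ℕ) :
    (Finset.piAntidiag (Finset.univ : Finset (Fin (r - 1))) d).card =
      (d + r - 2).choose (r - 2) := by
  rw [card_piA, show r - 1 + d - 1 = d + (r - 2) by omega, show d + r - 2 = d + (r - 2) by omega]
  exact Nat.choose_symm_add

/-- Points with prescribed bidegree. -/
theorem card_fib {r : ℕ} {N : ℕ} (ax : ℕ) (ay : Fin N → ℕ) (hax : 0 < ax)
    (hay : ∀ j, 0 < ay j) (W d : ℕ) (β : Fin N → ℕ) (h : L1 ax ay (d, β) < W) :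
    ((sx (Sum.elim (fun _ : Fin (r - 1) => ax) ay) W).filter fun γ =>
      ∑ i, γ (Sum.inl i) = d ∧ (fun j => γ (Sum.inr j)) = β).card =
      (Finset.piAntidiag (Finset.univ : Finset (Fin (r - 1))) d).card := by
  have ha : ∀ v, 1 ≤ (Sum.elim (fun _ : Fin (r - 1) => ax) ay) v := by
    rintro (i | j)
    · exact hax
    · exact hay j
  refine Finset.card_nbij' (fun γ i => γ (Sum.inl i)) (fun P => Sum.elim P β) ?_ ?_ ?_ ?_
  · intro γ hγ
    rw [Finset.mem_coe, Finset.mem_filter] at hγ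
    rw [Finset.mem_coe, Finset.mem_piAntidiag]
    exact ⟨hγ.2.1, fun i _ => Finset.mem_univ i⟩
  · intro P hP
    rw [Finset.mem_coe, Finset.mem_piAntidiag] at hP
    rw [Finset.mem_coe, Finset.mem_filter, mem_sx ha]
    refine ⟨?_, hP.1, rfl⟩
    rw [Fintype.sum_sum_type]
    simp only [Sum.elim_inl, Sum.elim_inr, ← Finset.mul_sum]
    have h1 : ∑ i, P i = d := hP.1
    rw [h1]
    exact h
  · intro γ hγ
    rw [Finset.mem_coe, Finset.mem_filter] at hγ
    funext v
    rcases v with i | j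
    · rfl
    · exact congrFun hγ.2.2.symm j
  · intro P _
    rfl

theorem sum_FW {r : ℕ} (hr : 3 ≤ r) {N : ℕ} (ax : ℕ) (ay : Fin N → ℕ) (hax : 0 < ax)
    (hay : ∀ j, 0 < ay j) (W : ℕ) (F : ℕ → (Fin N → ℕ) → ℕ) :
    ∑ s ∈ FW ax ay W, F s.1 s.2 * hh r s.1 =
      (∑ γ ∈ sx (Sum.elim (fun _ : Fin (r - 1) => ax) ay) W,
        F (∑ i, γ (Sum.inl i)) fun j => γ (Sum.inr j)) +
      ∑ γ ∈ sx (Sum.elim (fun _ : Fin (r - 1) => ax) ay) (W - ax),
        F (∑ i, γ (Sum.inl i) + 1) fun j => γ (Sum.inr j) := by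
  classical
  have ha : ∀ v, 1 ≤ (Sum.elim (fun _ : Fin (r - 1) => ax) ay) v := by
    rintro (i | j)
    · exact hax
    · exact hay j
  have hsum : ∀ γ : Fin (r - 1) ⊕ Fin N → ℕ,
      ∑ v, (Sum.elim (fun _ : Fin (r - 1) => ax) ay) v * γ v =
      ax * (∑ i, γ (Sum.inl i)) + ∑ j, ay j * γ (Sum.inr j) := by
    intro γ
    rw [Fintype.sum_sum_type]
    simp only [Sum.elim_inl, Sum.elim_inr, ← Finset.mul_sum]
  -- first sum
  have h1 : ∑ γ ∈ sx (Sum.elim (fun _ : Fin (r - 1) => ax) ay) W,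
      F (∑ i, γ (Sum.inl i)) (fun j => γ (Sum.inr j)) =
      ∑ s ∈ FW ax ay W, F s.1 s.2 * (s.1 + r - 2).choose (r - 2) := by
    rw [← Finset.sum_fiberwise_of_maps_to (t := FW ax ay W)
      (g := fun γ : Fin (r - 1) ⊕ Fin N → ℕ => (∑ i, γ (Sum.inl i), fun j => γ (Sum.inr j)))]
    · refine Finset.sum_congr rfl fun s hs => ?_
      rw [mem_FW hax hay] at hs
      have h2 : ∀ γ ∈ (sx (Sum.elim (fun _ : Fin (r - 1) => ax) ay) W).filter
          (fun γ => (∑ i, γ (Sum.inl i), fun j => γ (Sum.inr j)) = s),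
          F (∑ i, γ (Sum.inl i)) (fun j => γ (Sum.inr j)) = F s.1 s.2 := by
        intro γ hγ
        have := (Finset.mem_filter.1 hγ).2
        rw [← this]
      rw [Finset.sum_congr rfl h2, Finset.sum_const, smul_eq_mul, mul_comm]
      congr 1
      rw [← card_piA' hr, ← card_fib ax ay hax hay W s.1 s.2 hs]
      congr 1
      ext γ
      rw [Finset.mem_filter, Finset.mem_filter, Prod.ext_iff]
    · intro γ hγ
      rw [mem_sx ha, hsum] at hγ
      rw [mem_FW hax hay]
      exact hγ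
  have h2 : ∑ γ ∈ sx (Sum.elim (fun _ : Fin (r - 1) => ax) ay) (W - ax),
      F (∑ i, γ (Sum.inl i) + 1) (fun j => γ (Sum.inr j)) =
      ∑ s ∈ FW ax ay W, F s.1 s.2 * (if s.1 = 0 then 0 else (s.1 + r - 3).choose (r - 2)) := by
    rw [← Finset.sum_fiberwise_of_maps_to (t := FW ax ay W)
      (g := fun γ : Fin (r - 1) ⊕ Fin N → ℕ => (∑ i, γ (Sum.inl i) + 1, fun j => γ (Sum.inr j)))]
    · refine Finset.sum_congr rfl fun s hs => ?_
      rw [mem_FW hax hay] at hs
      have h2 : ∀ γ ∈ (sx (Sum.elim (fun _ : Fin (r - 1) => ax) ay) (W - ax)).filter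
          (fun γ => (∑ i, γ (Sum.inl i) + 1, fun j => γ (Sum.inr j)) = s),
          F (∑ i, γ (Sum.inl i) + 1) (fun j => γ (Sum.inr j)) = F s.1 s.2 := by
        intro γ hγ
        have := (Finset.mem_filter.1 hγ).2
        rw [← this]
      rw [Finset.sum_congr rfl h2, Finset.sum_const, smul_eq_mul, mul_comm]
      congr 1
      split_ifs with h0
      · rw [Finset.card_eq_zero, Finset.filter_eq_empty_iff]
        intro γ _ h
        have := congrArg Prod.fst h
        simp only at this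
        omega
      · obtain ⟨d, hd⟩ : ∃ d, s.1 = d + 1 := ⟨s.1 - 1, by omega⟩
        have h3 : L1 ax ay (d, s.2) < W - ax := by
          have h4 : L1 ax ay s = L1 ax ay (d, s.2) + ax := by
            simp only [L1, hd]
            ring
          omega
        rw [hd, show d + 1 + r - 3 = d + r - 2 by omega, ← card_piA' hr,
          ← card_fib ax ay hax hay (W - ax) d s.2 h3]
        congr 1
        ext γ
        rw [Finset.mem_filter, Finset.mem_filter, Prod.ext_iff, hd]
        simp only [Nat.add_right_cancel_iff]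
    · intro γ hγ
      rw [mem_sx ha, hsum] at hγ
      rw [mem_FW hax hay]
      simp only [L1]
      rw [mul_add, mul_one]
      omega
  rw [h1, h2, ← Finset.sum_add_distrib]
  refine Finset.sum_congr rfl fun s _ => ?_
  rw [← mul_add]
  rfl

end DP
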