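import Pool.Agent.Lib.MP_9e8926_ag_DP.CntA

/-!
# First moments of lattice points in simplices

`∑_{γ ∈ sx a W} γ_v = ∑_{j ≥ 1, a_v j < W} #sx a (W - a_v j)` (count the pairs `(γ, j)` with
`1 ≤ j ≤ γ_v`; `γ ↦ γ - j e_v`), so by `card_up` it is at most
`(n! ∏ a)⁻¹ ∑_{j ≥ 1, a_v j < W} (c - a_v j)^n`, `c = W + |a|`, and
`(n+1) a_v ∑_{1 ≤ j ≤ J} max(0, c - a_v j)^n ≤ c^{n+1}` (telescoping:
`(n+1) d u^n ≤ (u + d)^{n+1} - u^{n+1}`; `CX.step_up`, `CX.one_up'` in
`Pool/Agent/Lib/MP_9e8926_ag_CX/SumL.lean`).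
-/

set_option autoImplicit false

noncomputable section

namespace DP

variable {υ : Type*} [Fintype υ]

/-- Points with `γ_v > j`. -/
theorem card_gt (a : υ → ℕ) (ha : ∀ v, 1 ≤ a v) (W : ℕ) (v : υ) (j : ℕ) :
    ((sx a W).filter fun γ => j < γ v).card = (sx a (W - a v * (j + 1))).card := by
  classical
  have key : ∀ γ : υ → ℕ, ∑ w, a w * (γ w + if w = v then j + 1 else 0) =
      ∑ w, a w * γ w + a v * (j + 1) := by
    intro γ
    simp only [mul_add, Finset.sum_add_distrib]
    congr 1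
    rw [Finset.sum_eq_single v]
    · simp [mul_add]
    · intro w _ hw
      simp [hw]
    · intro h
      exact absurd (Finset.mem_univ v) h
  have hsub : ∀ γ : υ → ℕ, j < γ v → ∀ w, (γ w - if w = v then j + 1 else 0) +
      (if w = v then j + 1 else 0) = γ w := by
    intro γ hγ w
    split_ifs with h
    · subst h; omega
    · omega
  refine Finset.card_nbij' (fun γ w => γ w - if w = v then j + 1 else 0)
    (fun γ w => γ w + if w = v then j + 1 else 0) ?_ ?_ ?_ ?_
  · intro γ hγ
    rw [Finset.mem_coe, Finset.mem_filter, mem_sx ha] at hγ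
    rw [Finset.mem_coe, mem_sx ha]
    have h1 := key (fun w => γ w - if w = v then j + 1 else 0)
    have h2 : ∑ w, a w * ((γ w - if w = v then j + 1 else 0) + if w = v then j + 1 else 0) =
        ∑ w, a w * γ w := Finset.sum_congr rfl fun w _ => by rw [hsub γ hγ.2 w]
    have h3 := hγ.1
    have h4 : ∑ w, a w * γ w = ∑ w, a w * (γ w - if w = v then j + 1 else 0) +
        a v * (j + 1) := h2.symm.trans h1
    show ∑ w, a w * (γ w - if w = v then j + 1 else 0) < W - a v * (j + 1)
    omega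
  · intro γ hγ
    rw [Finset.mem_coe, mem_sx ha] at hγ
    rw [Finset.mem_coe, Finset.mem_filter, mem_sx ha, key]
    refine ⟨by omega, ?_⟩
    simp only [if_true]
    omega
  · intro γ hγ
    rw [Finset.mem_coe, Finset.mem_filter] at hγ
    funext w
    exact hsub γ hγ.2 w
  · intro γ _
    funext w
    simp

theorem mom_up (a : υ → ℕ) (ha : ∀ v, 1 ≤ a v) (W : ℕ) (v : υ) :
    (((Fintype.card υ + 1).factorial : ℕ) : ℝ) * (∏ v, (a v : ℝ)) * (a v : ℝ) *
      (∑ γ ∈ sx a W, (γ v : ℝ)) ≤ ((W : ℝ) + ∑ v, (a v : ℝ)) ^ (Fintype.card υ + 1) := by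
  classical
  set n := Fintype.card υ with hn
  set A : ℝ := ∑ v, (a v : ℝ) with hA
  have hA1 : (a v : ℝ) ≤ A := Finset.single_le_sum (f := fun v => (a v : ℝ))
    (fun _ _ => Nat.cast_nonneg _) (Finset.mem_univ v)
  have hav : (0 : ℝ) ≤ a v := Nat.cast_nonneg _
  have hW0 : (0 : ℝ) ≤ W := Nat.cast_nonneg _
  -- the sum as a double sum
  have h1 : ∑ γ ∈ sx a W, γ v = ∑ j ∈ Finset.range W, (sx a (W - a v * (j + 1))).card := by
    have h2 : ∀ γ ∈ sx a W, γ v = ∑ j ∈ Finset.range W, if j < γ v then 1 else 0 := by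
      intro γ hγ
      have h3 : γ v ≤ W := by
        rw [mem_sx ha] at hγ
        have h4 := Finset.single_le_sum (f := fun v => a v * γ v) (fun _ _ => Nat.zero_le _)
          (Finset.mem_univ v)
        have h5 := Nat.le_mul_of_pos_left (γ v) (ha v)
        exact (h5.trans h4).trans hγ.le
      rw [← Finset.card_filter]
      have h4 : (Finset.range W).filter (fun j => j < γ v) = Finset.range (γ v) := by
        ext j
        rw [Finset.mem_filter, Finset.mem_range, Finset.mem_range]
        omega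
      rw [h4, Finset.card_range]
    rw [Finset.sum_congr rfl h2, Finset.sum_comm]
    refine Finset.sum_congr rfl fun j _ => ?_
    rw [← Finset.card_filter, card_gt a ha W v j]
  have h2 : (∑ γ ∈ sx a W, (γ v : ℝ)) =
      ∑ j ∈ Finset.range W, ((sx a (W - a v * (j + 1))).card : ℝ) := by
    exact_mod_cast h1
  rw [h2, Finset.mul_sum]
  have h3 := tele_up n W hav ((W : ℝ) + A - a v) (fun j => a v * (j + 1) < W) (fun j hj => by
    have : ((a v * (j + 1) : ℕ) : ℝ) < W := by exact_mod_cast hj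
    push_cast at this
    linarith)
  have h4 : ∀ j ∈ Finset.range W, (((n + 1).factorial : ℕ) : ℝ) * (∏ v, (a v : ℝ)) * (a v : ℝ) *
      ((sx a (W - a v * (j + 1))).card : ℝ) ≤
      (if a v * (j + 1) < W then
        ((n : ℝ) + 1) * a v * ((W : ℝ) + A - a v - a v * j) ^ n else 0) := by
    intro j _
    split_ifs with hj
    · have h5 := card_up a ha (W - a v * (j + 1))
      rw [Nat.cast_sub hj.le] at h5
      rw [Nat.factorial_succ]
      push_cast at h5 ⊢
      have h6 := mul_le_mul_of_nonneg_left h5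
        (show (0 : ℝ) ≤ ((n : ℝ) + 1) * a v by positivity)
      have h7 : (W : ℝ) + A - a v - a v * j = (W : ℝ) - a v * (j + 1) + A := by ring
      rw [h7]
      refine le_trans (le_of_eq ?_) h6
      ring
    · rw [Nat.sub_eq_zero_of_le (not_lt.1 hj), sx_zero]
      simp
  refine (Finset.sum_le_sum h4).trans (h3.trans (le_of_eq ?_))
  rw [sub_add_cancel, max_eq_right (by linarith)]

end DP
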