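import Pool.Agent.Lib.MP_9e8926_ag_DP.CntB
import Pool.Agent.Lib.MP_9e8926_ag_DP.CntM

/-!
# The numbers `S0`, `Sx`, `Sj`

With `a = (ax,…,ax; ay)` on `υ = Fin (r-1) ⊕ Fin N`, `n = card υ = r - 1 + N`,
`∏ a = ax^(r-1) ∏ ay_j`, `∑ a = (r-1) ax + ∑ ay_j`; `sum_FW` with `F = 1`, `F = d`, `F = β_j`;
`card_low`, `card_up`, `mom_up`, with `W - ax ≤ W` in the second sum (`sx a 0 = ∅`).
`S0_low`: both cardinalities are at least `max(0, W-ax)^n/(n! ∏ a)`.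
-/

set_option autoImplicit false

noncomputable section

namespace DP

/-- The leading coefficient of `S0`. -/
def c0 (r : ℕ) {N : ℕ} (ax : ℕ) (ay : Fin N → ℕ) : ℝ :=
  2 / (((r - 1 + N).factorial : ℝ) * (ax : ℝ) ^ (r - 1) * ∏ j, (ay j : ℝ))

/-- The sum of the weights. -/
def sA (r : ℕ) {N : ℕ} (ax : ℕ) (ay : Fin N → ℕ) : ℝ := ((r - 1 : ℕ) : ℝ) * ax + ∑ j, (ay j : ℝ)

/-- the weights -/
abbrev wE (r : ℕ) {N : ℕ} (ax : ℕ) (ay : Fin N → ℕ) : Fin (r - 1) ⊕ Fin N → ℕ :=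
  Sum.elim (fun _ => ax) ay

theorem wE_prod (r : ℕ) {N : ℕ} (ax : ℕ) (ay : Fin N → ℕ) :
    ∏ v, (wE r ax ay v : ℝ) = (ax : ℝ) ^ (r - 1) * ∏ j, (ay j : ℝ) := by
  rw [Fintype.prod_sum_type]
  simp

theorem wE_sum (r : ℕ) {N : ℕ} (ax : ℕ) (ay : Fin N → ℕ) :
    ∑ v, (wE r ax ay v : ℝ) = sA r ax ay := by
  rw [Fintype.sum_sum_type]
  simp [sA]

theorem wE_card (r N : ℕ) : Fintype.card (Fin (r - 1) ⊕ Fin N) = r - 1 + N := by simp

theorem sA_nonneg (r : ℕ) {N : ℕ} (ax : ℕ) (ay : Fin N → ℕ) : 0 ≤ sA r ax ay := by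
  unfold sA
  positivity

/-- the denominator of `c0 / 2` -/
def dE (r : ℕ) {N : ℕ} (ax : ℕ) (ay : Fin N → ℕ) : ℝ :=
  ((r - 1 + N).factorial : ℝ) * ((ax : ℝ) ^ (r - 1) * ∏ j, (ay j : ℝ))

theorem c0_eq (r : ℕ) {N : ℕ} (ax : ℕ) (ay : Fin N → ℕ) : c0 r ax ay = 2 / dE r ax ay := by
  unfold c0 dE
  rw [mul_assoc]

theorem dE_pos (r : ℕ) {N : ℕ} (ax : ℕ) (ay : Fin N → ℕ) (hax : 0 < ax)
    (hay : ∀ j, 0 < ay j) : 0 < dE r ax ay := by
  unfold dE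
  have h1 : (0 : ℝ) < ∏ j, (ay j : ℝ) := Finset.prod_pos fun j _ => by exact_mod_cast hay j
  have h2 : (0 : ℝ) < ax := by exact_mod_cast hax
  positivity

variable {r : ℕ} (hr : 3 ≤ r) {N : ℕ} (ax : ℕ) (ay : Fin N → ℕ) (hax : 0 < ax)
  (hay : ∀ j, 0 < ay j) (W : ℕ)

include hr hax hay

theorem c0_pos : 0 < c0 r ax ay := by
  have := dE_pos r ax ay hax hay
  rw [c0_eq]
  positivity

theorem wE_pos : ∀ v, 1 ≤ wE r ax ay v := by
  rintro (i | j)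
  · exact hax
  · exact hay j

theorem S0_eq : S0 r ax ay W = (sx (wE r ax ay) W).card + (sx (wE r ax ay) (W - ax)).card := by
  have h := sum_FW hr ax ay hax hay W (fun _ _ => 1)
  simp only [one_mul, Finset.sum_const, smul_eq_mul, mul_one] at h
  exact h

theorem cE_up (W' : ℕ) (hW : W' ≤ W) : dE r ax ay * ((sx (wE r ax ay) W').card : ℝ) ≤
    ((W : ℝ) + sA r ax ay) ^ (r - 1 + N) := by
  have h := card_up (wE r ax ay) (wE_pos hr ax ay hax hay) W'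
  rw [wE_prod, wE_sum, wE_card] at h
  refine h.trans ?_
  have h1 := sA_nonneg r ax ay
  have h2 : (W' : ℝ) ≤ W := by exact_mod_cast hW
  exact pow_le_pow_left₀ (by positivity) (by linarith) _

theorem mE_up (W' : ℕ) (hW : W' ≤ W) (v : Fin (r - 1) ⊕ Fin N) :
    (wE r ax ay v : ℝ) * (∑ γ ∈ sx (wE r ax ay) W', (γ v : ℝ)) ≤
    ((W : ℝ) + sA r ax ay) ^ (r - 1 + N + 1) / (((r - 1 + N : ℕ) + 1) * dE r ax ay) := by
  have hd := dE_pos r ax ay hax hay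
  have h := mom_up (wE r ax ay) (wE_pos hr ax ay hax hay) W' v
  rw [wE_prod, wE_sum, wE_card] at h
  have h1 := sA_nonneg r ax ay
  have h2 : (W' : ℝ) ≤ W := by exact_mod_cast hW
  have h3 : ((W' : ℝ) + sA r ax ay) ^ (r - 1 + N + 1) ≤
      ((W : ℝ) + sA r ax ay) ^ (r - 1 + N + 1) :=
    pow_le_pow_left₀ (by positivity) (by linarith) _
  rw [le_div_iff₀ (by positivity)]
  refine le_trans (le_of_eq ?_) (h.trans h3)
  rw [Nat.factorial_succ]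
  unfold dE
  push_cast
  ring

theorem S0_low : c0 r ax ay * max 0 ((W : ℝ) - ax) ^ (r - 1 + N) ≤ (S0 r ax ay W : ℝ) := by
  have hd := dE_pos r ax ay hax hay
  have hn : 1 ≤ Fintype.card (Fin (r - 1) ⊕ Fin N) := by rw [wE_card]; omega
  have h1 := card_low hn (wE r ax ay) (wE_pos hr ax ay hax hay) W
  have h2 := card_low hn (wE r ax ay) (wE_pos hr ax ay hax hay) (W - ax)
  rw [wE_prod, wE_card] at h1 h2
  have h3 : (((W - ax : ℕ) : ℕ) : ℝ) = max 0 ((W : ℝ) - ax) := by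
    rcases le_total ax W with h | h
    · rw [Nat.cast_sub h, max_eq_right]
      have : (ax : ℝ) ≤ W := by exact_mod_cast h
      linarith
    · rw [Nat.sub_eq_zero_of_le h, Nat.cast_zero, max_eq_left]
      have : (W : ℝ) ≤ ax := by exact_mod_cast h
      linarith
  have h4 : max 0 ((W : ℝ) - ax) ^ (r - 1 + N) ≤ (W : ℝ) ^ (r - 1 + N) := by
    apply pow_le_pow_left₀ (le_max_left _ _)
    apply max_le (Nat.cast_nonneg _)
    have : (0 : ℝ) ≤ ax := Nat.cast_nonneg _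
    linarith
  rw [h3] at h2
  rw [S0_eq hr ax ay hax hay, c0_eq, div_mul_eq_mul_div, div_le_iff₀ hd]
  push_cast
  unfold dE
  linarith

theorem S0_up : (S0 r ax ay W : ℝ) ≤ c0 r ax ay * ((W : ℝ) + sA r ax ay) ^ (r - 1 + N) := by
  have hd := dE_pos r ax ay hax hay
  have h1 := cE_up hr ax ay hax hay W W le_rfl
  have h2 := cE_up hr ax ay hax hay W (W - ax) (Nat.sub_le _ _)
  rw [S0_eq hr ax ay hax hay, c0_eq, div_mul_eq_mul_div, le_div_iff₀ hd]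
  push_cast
  linarith

theorem Sx_up : (ax : ℝ) * (Sx r ax ay W : ℝ) ≤ ((r - 1 : ℕ) : ℝ) *
    (c0 r ax ay * ((W : ℝ) + sA r ax ay) ^ (r - 1 + N + 1) / ((r - 1 + N : ℕ) + 1)) +
      ax * (S0 r ax ay W : ℝ) := by
  have hd := dE_pos r ax ay hax hay
  set M : ℝ := ((W : ℝ) + sA r ax ay) ^ (r - 1 + N + 1) / (((r - 1 + N : ℕ) + 1) * dE r ax ay)
    with hM
  have hM2 : c0 r ax ay * ((W : ℝ) + sA r ax ay) ^ (r - 1 + N + 1) / ((r - 1 + N : ℕ) + 1) =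
      2 * M := by
    rw [c0_eq, hM]
    field_simp
  have h := sum_FW hr ax ay hax hay W (fun d _ => d)
  have hSx : (Sx r ax ay W : ℝ) =
      (∑ γ ∈ sx (wE r ax ay) W, ∑ i, (γ (Sum.inl i) : ℝ)) +
      ((∑ γ ∈ sx (wE r ax ay) (W - ax), ∑ i, (γ (Sum.inl i) : ℝ)) +
        ((sx (wE r ax ay) (W - ax)).card : ℝ)) := by
    have h1 : (Sx r ax ay W : ℝ) = ((∑ s ∈ FW ax ay W, s.1 * hh r s.1 : ℕ) : ℝ) := rfl
    rw [h1, h]
    push_cast
    rw [Finset.sum_add_distrib]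
    simp
  have hx : ∀ W' : ℕ, W' ≤ W → (ax : ℝ) * (∑ γ ∈ sx (wE r ax ay) W',
      ∑ i, (γ (Sum.inl i) : ℝ)) ≤ ((r - 1 : ℕ) : ℝ) * M := by
    intro W' hW'
    rw [Finset.sum_comm, Finset.mul_sum]
    have h1 : ∀ i ∈ (Finset.univ : Finset (Fin (r - 1))), (ax : ℝ) *
        (∑ γ ∈ sx (wE r ax ay) W', (γ (Sum.inl i) : ℝ)) ≤ M := fun i _ =>
      mE_up hr ax ay hax hay W W' hW' (Sum.inl i)
    refine (Finset.sum_le_sum h1).trans (le_of_eq ?_)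
    rw [Finset.sum_const, Finset.card_univ, Fintype.card_fin, nsmul_eq_mul]
  have h1 := hx W le_rfl
  have h2 := hx (W - ax) (Nat.sub_le _ _)
  have h3 : ((sx (wE r ax ay) (W - ax)).card : ℝ) ≤ (S0 r ax ay W : ℝ) := by
    rw [S0_eq hr ax ay hax hay]
    push_cast
    have : (0 : ℝ) ≤ ((sx (wE r ax ay) W).card : ℝ) := Nat.cast_nonneg _
    linarith
  have h4 : (ax : ℝ) * ((sx (wE r ax ay) (W - ax)).card : ℝ) ≤ ax * (S0 r ax ay W : ℝ) :=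
    mul_le_mul_of_nonneg_left h3 (Nat.cast_nonneg _)
  rw [hM2, hSx]
  linarith

theorem Sj_up (j : Fin N) : (ay j : ℝ) * (Sj r ax ay W j : ℝ) ≤
    c0 r ax ay * ((W : ℝ) + sA r ax ay) ^ (r - 1 + N + 1) / ((r - 1 + N : ℕ) + 1) := by
  have hd := dE_pos r ax ay hax hay
  set M : ℝ := ((W : ℝ) + sA r ax ay) ^ (r - 1 + N + 1) / (((r - 1 + N : ℕ) + 1) * dE r ax ay)
    with hM
  have hM2 : c0 r ax ay * ((W : ℝ) + sA r ax ay) ^ (r - 1 + N + 1) / ((r - 1 + N : ℕ) + 1) =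
      2 * M := by
    rw [c0_eq, hM]
    field_simp
  have h := sum_FW hr ax ay hax hay W (fun _ β => β j)
  have hSj : (Sj r ax ay W j : ℝ) =
      (∑ γ ∈ sx (wE r ax ay) W, (γ (Sum.inr j) : ℝ)) +
      (∑ γ ∈ sx (wE r ax ay) (W - ax), (γ (Sum.inr j) : ℝ)) := by
    have h1 : (Sj r ax ay W j : ℝ) = ((∑ s ∈ FW ax ay W, s.2 j * hh r s.1 : ℕ) : ℝ) := rfl
    rw [h1, h]
    push_cast
    rfl
  have h1 := mE_up hr ax ay hax hay W W le_rfl (Sum.inr j)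
  have h2 := mE_up hr ax ay hax hay W (W - ax) (Nat.sub_le _ _) (Sum.inr j)
  simp only [wE, Sum.elim_inr] at h1 h2
  rw [hM2, hSj]
  simp only [wE]
  linarith

end DP
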