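import Mathlib

/-!
# Frobenius volumes and normalized volumes of hypersurface singularities with boundary

The ambient space has two groups of coordinates, indexed by `σ` and `τ`; the boundary is supported
on the coordinate hyperplanes of the second group.
-/

set_option autoImplicit false

noncomputable section

namespace DP

open MvPolynomial Filter MeasureTheory

/-! ## Ideals -/

/-- An ideal `I` which is primary to the maximal ideal `𝔪`. -/
def IsPrim {R : Type*} [CommRing R] (𝔪 I : Ideal R) : Prop := I ≤ 𝔪 ∧ ∃ N : ℕ, 𝔪 ^ N ≤ I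

/-- The Hilbert-Samuel multiplicity of an ideal in a ring of dimension `n` over `k`. -/
def emult (k : Type*) [CommRing k] (n : ℕ) {R : Type*} [CommRing R] [Algebra k R]
    (I : Ideal R) : ℝ :=
  limsup (fun N : ℕ => (n.factorial : ℝ) * (Module.finrank k (R ⧸ I ^ N) : ℝ) / (N : ℝ) ^ n) atTop

variable {σ τ : Type*}

/-- The coordinate ring of the hypersurface `f = 0`. -/
abbrev Rg {k : Type*} [CommRing k] (f : MvPolynomial (σ ⊕ τ) k) : Type _ :=
  MvPolynomial (σ ⊕ τ) k ⧸ Ideal.span {f}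

/-- The maximal ideal of the origin in the coordinate ring of `f = 0`. -/
def mX {k : Type*} [CommRing k] (f : MvPolynomial (σ ⊕ τ) k) : Ideal (Rg f) :=
  Ideal.span (Set.range fun v => Ideal.Quotient.mk (Ideal.span {f}) (X v))

/-! ## Characteristic `p` -/

/-- The monomial `∏ y_j ^ ⌈b_j (q - 1)⌉`. -/
def Yq {k : Type*} [CommRing k] [Fintype τ] (b : τ → ℚ) (q : ℕ) : MvPolynomial (σ ⊕ τ) k :=
  ∏ j, X (Sum.inr j) ^ ⌈(b j : ℝ) * ((q : ℝ) - 1)⌉₊

/-- Strong `F`-regularity of the triple `(f = 0, ∑ b_j div y_j, I^t)` at the origin: for every `d`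
which is not zero in the local ring at the origin there are `e ≥ 1`, a `p^{-e}`-linear map `φ` and
`a ∈ I ^ ⌈t (p^e - 1)⌉` such that `φ (d ∏ y_j ^ ⌈b_j (p^e - 1)⌉ a)` does not vanish at the
origin. -/
def SFR {k : Type*} [CommRing k] [Fintype τ] (p : ℕ) (f : MvPolynomial (σ ⊕ τ) k) (b : τ → ℚ)
    (I : Ideal (Rg f)) (t : ℝ) : Prop :=
  ∀ d : Rg f, (∀ s : Rg f, s ∉ mX f → s * d ≠ 0) → ∃ e : ℕ, 1 ≤ e ∧ ∃ φ : Rg f →+ Rg f,
    (∀ a u, φ (a ^ p ^ e * u) = a * φ u) ∧
    ∃ a ∈ I ^ ⌈t * ((p ^ e : ℕ) - 1 : ℝ)⌉₊,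
      φ (d * Ideal.Quotient.mk (Ideal.span {f}) (Yq b (p ^ e)) * a) ∉ mX f

/-- The `F`-pure threshold of `I` at the origin with respect to `(f = 0, ∑ b_j div y_j)`. -/
def fpt {k : Type*} [CommRing k] [Fintype τ] (p : ℕ) (f : MvPolynomial (σ ⊕ τ) k) (b : τ → ℚ)
    (I : Ideal (Rg f)) : ℝ := sSup {t : ℝ | 0 ≤ t ∧ SFR p f b I t}

/-- The Frobenius volume at the origin of the pair `(f = 0, ∑ b_j div y_j)` of dimension `n`. -/
def Fvol {k : Type*} [CommRing k] [Fintype τ] (p n : ℕ) (f : MvPolynomial (σ ⊕ τ) k)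
    (b : τ → ℚ) : ℝ :=
  sInf {v : ℝ | ∃ I : Ideal (Rg f), IsPrim (mX f) I ∧ v = emult k n I * fpt p f b I ^ n}

/-! ## Characteristic zero -/

/-- The log canonical threshold of an ideal `I` at the origin with respect to
`(f = 0, ∑ b_j div y_j)`: the supremum of all `t ≥ 0` such that, for polynomials `h` whose classes
generate `I`, and all `c < 1`, the function `|f|^{-2c} ∏ |y_j|^{-2 b_j} (∑ |h|²)^{-t}` is integrable
near the origin of the ambient space (inversion of adjunction). -/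
def lct [Fintype σ] [Fintype τ] (f : MvPolynomial (σ ⊕ τ) ℂ) (b : τ → ℚ) (I : Ideal (Rg f)) : ℝ :=
  sSup {t : ℝ | 0 ≤ t ∧ ∃ Γ : Finset (MvPolynomial (σ ⊕ τ) ℂ),
    Ideal.span (Ideal.Quotient.mk (Ideal.span {f}) '' (Γ : Set (MvPolynomial (σ ⊕ τ) ℂ))) = I ∧
    ∀ c : ℝ, 0 ≤ c → c < 1 → ∃ ρ : ℝ, 0 < ρ ∧ IntegrableOn
      (fun z : σ ⊕ τ → ℂ => ‖eval z f‖ ^ (-(2 * c)) *
        (∏ j, ‖z (Sum.inr j)‖ ^ (-(2 * (b j : ℝ)))) * (∑ h ∈ Γ, ‖eval z h‖ ^ 2) ^ (-t))
      (Metric.ball (0 : σ ⊕ τ → ℂ) ρ)}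

/-- The normalized volume at the origin of the pair `(f = 0, ∑ b_j div y_j)` of dimension `n`
(Liu's formula). -/
def volhat [Fintype σ] [Fintype τ] (n : ℕ) (f : MvPolynomial (σ ⊕ τ) ℂ) (b : τ → ℚ) : ℝ :=
  sInf {v : ℝ | ∃ I : Ideal (Rg f), IsPrim (mX f) I ∧ v = emult ℂ n I * lct f b I ^ n}

/-! ## Auxiliary notions used in the proofs -/

/-- The maximal ideal of the origin in a polynomial ring. -/
def m0 (σ : Type*) (k : Type*) [CommRing k] : Ideal (MvPolynomial σ k) :=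
  RingHom.ker (constantCoeff : MvPolynomial σ k →+* k)

/-- The ideal `(X_v^q)`. -/
def J (σ : Type*) (k : Type*) [CommRing k] (q : ℕ) : Ideal (MvPolynomial σ k) :=
  Ideal.span (Set.range fun v => X v ^ q)

/-- The bidegree of a variable: degree in the variables `σ`, exponents in the variables `τ`. -/
def wt : σ ⊕ τ → ℕ × (τ → ℕ) :=
  Sum.elim (fun _ => (1, 0)) (fun j => (0, fun j' => open Classical in if j' = j then 1 else 0))

/-- The bidegree of a monomial. -/
def md [Fintype σ] (m : σ ⊕ τ →₀ ℕ) : ℕ × (τ → ℕ) :=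
  (∑ i, m (Sum.inl i), fun j => m (Sum.inr j))

/-- The polynomials all of whose monomials have bidegree `s`. -/
def PP (k : Type*) [CommRing k] [Fintype σ] (s : ℕ × (τ → ℕ)) :
    Submodule k (MvPolynomial (σ ⊕ τ) k) where
  carrier := {u | ∀ m ∈ u.support, md m = s}
  zero_mem' := by simp
  add_mem' := by
    classical
    intro a b ha hb m hm
    rcases Finset.mem_union.1 (support_add hm) with h | h
    · exact ha m h
    · exact hb m h
  smul_mem' := by
    intro c u hu m hm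
    exact hu m (support_smul hm)

/-- The part of bidegree `s` of a polynomial. -/
def comp {k : Type*} [CommRing k] (s : ℕ × (τ → ℕ)) :
    MvPolynomial (σ ⊕ τ) k →ₗ[k] MvPolynomial (σ ⊕ τ) k :=
  weightedHomogeneousComponent wt s

/-- The polynomials all of whose monomials have order at least that of `s`. -/
def Ge {Γ : Type*} [AddCommMonoid Γ] [LE Γ] {k : Type*} [CommRing k] [Fintype σ]
    (κ : ℕ × (τ → ℕ) →+ Γ) (s : ℕ × (τ → ℕ)) (h : MvPolynomial (σ ⊕ τ) k) : Prop :=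
  ∀ m ∈ h.support, κ s ≤ κ (md m)

/-- The leading forms of bidegree `s` of the elements of an ideal. -/
def inn {Γ : Type*} [AddCommMonoid Γ] [LE Γ] {k : Type*} [CommRing k] [Fintype σ]
    (κ : ℕ × (τ → ℕ) →+ Γ) (I : Ideal (MvPolynomial (σ ⊕ τ) k)) (s : ℕ × (τ → ℕ)) :
    Submodule k (MvPolynomial (σ ⊕ τ) k) where
  carrier := {u | ∃ h ∈ I, Ge κ s h ∧ comp s h = u}
  zero_mem' := ⟨0, I.zero_mem, by simp [Ge], map_zero _⟩
  add_mem' := by
    classical
    rintro a b ⟨h, h1, h2, rfl⟩ ⟨g, g1, g2, rfl⟩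
    refine ⟨h + g, I.add_mem h1 g1, ?_, map_add _ _ _⟩
    intro m hm
    rcases Finset.mem_union.1 (support_add hm) with h | h
    · exact h2 m h
    · exact g2 m h
  smul_mem' := by
    rintro c u ⟨h, h1, h2, rfl⟩
    refine ⟨c • h, ?_, ?_, map_smul _ _ _⟩
    · rw [MvPolynomial.smul_eq_C_mul]
      exact I.mul_mem_left _ h1
    · intro m hm
      exact h2 m (support_smul hm)

/-- The weight of a bidegree. -/
def L1 [Fintype τ] (ax : ℕ) (ay : τ → ℕ) (s : ℕ × (τ → ℕ)) : ℕ := ax * s.1 + ∑ j, ay j * s.2 j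

/-- All monomials have weight at least `2 ax`, and none is quadratic in the variables `σ` and free
of the variables `τ`. -/
def Hyp {k : Type*} [CommRing k] [Fintype σ] [Fintype τ] (ax : ℕ) (ay : τ → ℕ)
    (g : MvPolynomial (σ ⊕ τ) k) : Prop :=
  ∀ m ∈ g.support, 2 * ax ≤ L1 ax ay (md m) ∧ md m ≠ (2, 0)

/-- The dimension of the space of forms of degree `d` in `r` variables modulo a quadratic form. -/
def hh (r d : ℕ) : ℕ := (d + r - 2).choose (r - 2) + (if d = 0 then 0 else (d + r - 3).choose (r - 2))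

end DP
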