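import Pool.Agent.Lib.MP_9e8926_ag_DP.Frb

/-!
# Fedder's criterion for a hypersurface

`P = k[x]`, `R = P/(f)`, `q = p^e`.

* `fed_down`: `φ (mk r) = mk (ψ (f^{q-1} r))` is well defined: `ψ (f^{q-1} (f h)) = ψ (f^q h) = f
  ψ h`
  (use `QuotientAddGroup.lift` / `Submodule.liftQ`, or define `φ` with representatives).
* `fed_up`: let `ψ_μ` (`0 ≤ μ < q`) be the maps of `exists_psi` and `E_μ = x^μ`, so that
  `u = ∑_μ (ψ_μ u)^q x^μ`.  Choose `c_μ ∈ P` with `mk c_μ = φ (mk x^μ)` and put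
  `ψ u = ∑_μ (ψ_μ u) c_μ`; then `mk (ψ u) = φ (mk u)` and `ψ` is `q^{-1}`-linear.  Put
  `h = ∑_μ c_μ^q x^{q-1-μ}` (`q-1-μ` coordinatewise) and `T = ψ_{(q-1,…,q-1)}`: then
  `ψ u = T (h u)` (check on `u = a^q x^ν`: `T (a^q c_μ^q x^{q-1-μ+ν}) = a c_μ T (x^{q-1-μ+ν})`,
  which is `a c_μ` for `μ = ν` and `0` otherwise).
  For all `g`: `mk (ψ (f g)) = φ (mk f mk g) = 0`, so `T (h f g) ∈ (f)` for all `g`; the coefficient
  maps are `ψ_μ w = T (x^{q-1-μ} w)`, so `h f = ∑_μ (ψ_μ (h f))^q x^μ ∈ (f^q)`, `h f = f^q h'`,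
  `h = f^{q-1} h'`.  If `f^{q-1} r ∈ J q` then `ψ r = T (h' f^{q-1} r) ∈ m0` (`map_J_m0`) and
  `φ (mk r) = mk (ψ r) ∈ mX`.
* `mem_mX`: `m0` is generated by the variables (`m0_eq_span`) and contains `f`.
-/

set_option autoImplicit false

noncomputable section

namespace DP

open MvPolynomial

variable {σ τ : Type*} {k : Type*} [Field k]

theorem mem_mX [Finite σ] [Finite τ] {f : MvPolynomial (σ ⊕ τ) k} (hf0 : constantCoeff f = 0)
    (r : MvPolynomial (σ ⊕ τ) k) :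
    Ideal.Quotient.mk (Ideal.span {f}) r ∈ mX f ↔ r ∈ m0 (σ ⊕ τ) k := by
  have h1 : mX f = (m0 (σ ⊕ τ) k).map (Ideal.Quotient.mk (Ideal.span {f})) := by
    unfold mX
    rw [m0_eq_span, Ideal.map_span, ← Set.range_comp]
    rfl
  have h2 : Ideal.span {f} ≤ m0 (σ ⊕ τ) k := by
    rw [Ideal.span_le, Set.singleton_subset_iff]
    exact mem_m0.2 hf0
  rw [h1]
  exact Ideal.mem_quotient_iff_mem h2

variable (p : ℕ) [Fact p.Prime] [CharP k p]

private theorem Fed_lift {A : Type*} [CommRing A] (I : Ideal A) {B : Type*} [AddCommGroup B]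
    (g : A →+ B) (hg : ∀ r ∈ I, g r = 0) :
    ∃ φ : A ⧸ I →+ B, ∀ r, φ (Ideal.Quotient.mk I r) = g r := by
  have hs : Function.Surjective (Ideal.Quotient.mk I).toAddMonoidHom :=
    Ideal.Quotient.mk_surjective
  have hk : (Ideal.Quotient.mk I).toAddMonoidHom.ker ≤ g.ker := by
    intro r hr
    exact hg r (Ideal.Quotient.eq_zero_iff_mem.1 hr)
  refine ⟨AddMonoidHom.liftOfRightInverse (Ideal.Quotient.mk I).toAddMonoidHom
    (Function.surjInv hs) (Function.rightInverse_surjInv hs) ⟨g, hk⟩, fun r => ?_⟩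
  exact AddMonoidHom.liftOfRightInverse_comp_apply _ _ _ ⟨g, hk⟩ r

theorem fed_down (f : MvPolynomial (σ ⊕ τ) k) (e : ℕ)
    (ψ : MvPolynomial (σ ⊕ τ) k →+ MvPolynomial (σ ⊕ τ) k)
    (hψ : ∀ a b, ψ (a ^ p ^ e * b) = a * ψ b) :
    ∃ φ : Rg f →+ Rg f, (∀ a u, φ (a ^ p ^ e * u) = a * φ u) ∧
      ∀ r, φ (Ideal.Quotient.mk (Ideal.span {f}) r) =
        Ideal.Quotient.mk (Ideal.span {f}) (ψ (f ^ (p ^ e - 1) * r)) := by
  have hq : 0 < p ^ e := pow_pos (Fact.out : p.Prime).pos e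
  obtain ⟨φ, hφ⟩ := Fed_lift (Ideal.span {f}) (((Ideal.Quotient.mk
    (Ideal.span {f})).toAddMonoidHom).comp (ψ.comp (AddMonoidHom.mulLeft (f ^ (p ^ e - 1)))))
    (by
      intro r hr
      obtain ⟨h, rfl⟩ := Ideal.mem_span_singleton'.1 hr
      change Ideal.Quotient.mk (Ideal.span {f}) (ψ (f ^ (p ^ e - 1) * (h * f))) = 0
      have e1 : f ^ (p ^ e - 1) * (h * f) = f ^ p ^ e * h := by
        have e2 : f ^ p ^ e = f ^ (p ^ e - 1) * f := by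
          rw [← pow_succ, Nat.sub_add_cancel hq]
        rw [e2]
        ring
      rw [e1, hψ, Ideal.Quotient.eq_zero_iff_mem]
      exact Ideal.mul_mem_right _ _ (Ideal.subset_span rfl))
  refine ⟨φ, fun a u => ?_, fun r => hφ r⟩
  obtain ⟨a, rfl⟩ := Ideal.Quotient.mk_surjective a
  obtain ⟨u, rfl⟩ := Ideal.Quotient.mk_surjective u
  rw [← map_pow, ← map_mul, hφ, hφ]
  change Ideal.Quotient.mk (Ideal.span {f}) (ψ (f ^ (p ^ e - 1) * (a ^ p ^ e * u))) =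
    Ideal.Quotient.mk (Ideal.span {f}) a *
      Ideal.Quotient.mk (Ideal.span {f}) (ψ (f ^ (p ^ e - 1) * u))
  rw [← map_mul, mul_left_comm, hψ]

private theorem Fed_data {ι : Type*} [Finite ι] [PerfectField k] (e : ℕ) :
    ∃ (κ : ι →₀ ℕ) (Ψ : (ι →₀ ℕ) → (MvPolynomial ι k →+ MvPolynomial ι k)),
      (∀ v, κ v + 1 = p ^ e) ∧ ∀ μ ≤ κ, (∀ a b, Ψ μ (a ^ p ^ e * b) = a * Ψ μ b) ∧
        ∀ (u : MvPolynomial ι k) (m : ι →₀ ℕ),
          coeff m (Ψ μ u) ^ p ^ e = coeff (p ^ e • m + μ) u := by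
  have hq : 0 < p ^ e := pow_pos (Fact.out : p.Prime).pos e
  have h := fun (μ : ι →₀ ℕ) (hμ : ∀ v, μ v < p ^ e) => exists_psi (k := k) p e μ hμ
  choose! Ψ h1 h2 using h
  refine ⟨Finsupp.equivFunOnFinite.symm fun _ => p ^ e - 1, Ψ, fun v => ?_, fun μ hμ => ?_⟩
  · change p ^ e - 1 + 1 = p ^ e
    omega
  · have h3 : ∀ v, μ v < p ^ e := by
      intro v
      have h4 : μ v ≤ p ^ e - 1 := hμ v
      omega
    exact ⟨h1 μ h3, h2 μ h3⟩

variable {ι : Type*} {κ : ι →₀ ℕ} {e : ℕ}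
  {Ψ : (ι →₀ ℕ) → (MvPolynomial ι k →+ MvPolynomial ι k)}

private theorem Fed_inj {x y : k} (h : x ^ p ^ e = y ^ p ^ e) : x = y :=
  iterateFrobenius_inj k p e h

private theorem Fed_delta (hκ : ∀ v, κ v + 1 = p ^ e) (hΨ : ∀ μ ≤ κ,
      (∀ a b, Ψ μ (a ^ p ^ e * b) = a * Ψ μ b) ∧ ∀ (u : MvPolynomial ι k) (m : ι →₀ ℕ),
        coeff m (Ψ μ u) ^ p ^ e = coeff (p ^ e • m + μ) u) {μ ν : ι →₀ ℕ} (hμ : μ ≤ κ)
    (hν : ν ≤ κ) : Ψ μ (monomial ν 1) = open Classical in if μ = ν then 1 else 0 := by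
  classical
  have hq : 0 < p ^ e := pow_pos (Fact.out : p.Prime).pos e
  ext m
  refine Fed_inj p (e := e) ?_
  rw [(hΨ μ hμ).2, coeff_monomial]
  by_cases h : ν = p ^ e • m + μ
  · have h1 : m = 0 := by
      ext v
      have h2 : ν v = p ^ e * m v + μ v := by
        rw [h]
        simp
      have h3 : ν v ≤ κ v := hν v
      have h4 := hκ v
      by_contra h5
      have h6 : 1 ≤ m v := Nat.one_le_iff_ne_zero.2 h5
      have h7 : p ^ e * 1 ≤ p ^ e * m v := Nat.mul_le_mul_left _ h6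
      omega
    subst h1
    rw [smul_zero, zero_add] at h
    rw [if_pos (by rw [h]; simp), if_pos h.symm, coeff_zero_one, one_pow]
  · rw [if_neg h]
    split_ifs with h1
    · subst h1
      rw [coeff_one, if_neg, zero_pow hq.ne']
      rintro rfl
      exact h (by simp)
    · rw [coeff_zero, zero_pow hq.ne']

private theorem Fed_exp [Finite ι] [DecidableEq ι] [PerfectField k] (hκ : ∀ v, κ v + 1 = p ^ e)
    (hΨ : ∀ μ ≤ κ,
      (∀ a b, Ψ μ (a ^ p ^ e * b) = a * Ψ μ b) ∧ ∀ (u : MvPolynomial ι k) (m : ι →₀ ℕ),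
        coeff m (Ψ μ u) ^ p ^ e = coeff (p ^ e • m + μ) u) (u : MvPolynomial ι k) :
    ∑ μ ∈ Finset.Icc 0 κ, Ψ μ u ^ p ^ e * monomial μ 1 = u := by
  classical
  have hq : 0 < p ^ e := pow_pos (Fact.out : p.Prime).pos e
  induction u using MvPolynomial.induction_on' with
  | monomial n c =>
    obtain ⟨d, rfl⟩ : ∃ d : k, d ^ p ^ e = c :=
      ⟨(iterateFrobeniusEquiv k p e).symm c, (iterateFrobeniusEquiv k p e).apply_symm_apply c⟩
    obtain ⟨m, ν, hν, hn⟩ : ∃ m ν : ι →₀ ℕ, ν ≤ κ ∧ n = p ^ e • m + ν := by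
      refine ⟨Finsupp.equivFunOnFinite.symm fun v => n v / p ^ e,
        Finsupp.equivFunOnFinite.symm fun v => n v % p ^ e, fun v => ?_, ?_⟩
      · change n v % p ^ e ≤ κ v
        have h1 := Nat.mod_lt (n v) hq
        have h2 := hκ v
        omega
      · ext v
        change n v = p ^ e * (n v / p ^ e) + n v % p ^ e
        exact (Nat.div_add_mod _ _).symm
    have h1 : monomial n (d ^ p ^ e) = monomial m d ^ p ^ e * monomial ν 1 := by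
      rw [monomial_pow, monomial_mul, mul_one, hn]
    rw [h1]
    rw [Finset.sum_eq_single ν]
    · rw [(hΨ ν hν).1, Fed_delta p hκ hΨ hν hν, if_pos rfl, mul_one]
    · intro μ hμ hne
      rw [(hΨ μ (Finset.mem_Icc.1 hμ).2).1, Fed_delta p hκ hΨ (Finset.mem_Icc.1 hμ).2 hν,
        if_neg hne, mul_zero, zero_pow hq.ne', zero_mul]
    · intro h2
      exact absurd (Finset.mem_Icc.2 ⟨zero_le, hν⟩) h2
  | add u v hu hv =>
    conv_rhs => rw [← hu, ← hv]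
    rw [← Finset.sum_add_distrib]
    refine Finset.sum_congr rfl fun μ _ => ?_
    rw [map_add, add_pow_char_pow, add_mul]

private theorem Fed_tr (hκ : ∀ v, κ v + 1 = p ^ e) (hΨ : ∀ μ ≤ κ,
      (∀ a b, Ψ μ (a ^ p ^ e * b) = a * Ψ μ b) ∧ ∀ (u : MvPolynomial ι k) (m : ι →₀ ℕ),
        coeff m (Ψ μ u) ^ p ^ e = coeff (p ^ e • m + μ) u) {μ : ι →₀ ℕ} (hμ : μ ≤ κ)
    (w : MvPolynomial ι k) : Ψ κ (monomial (κ - μ) 1 * w) = Ψ μ w := by
  ext m
  refine Fed_inj p (e := e) ?_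
  rw [(hΨ κ le_rfl).2, (hΨ μ hμ).2]
  have h1 : p ^ e • m + κ = (κ - μ) + (p ^ e • m + μ) := by
    rw [add_left_comm, tsub_add_cancel_of_le hμ]
  rw [h1, coeff_monomial_mul, one_mul]

theorem fed_up [Finite σ] [Finite τ] [PerfectField k] (f : MvPolynomial (σ ⊕ τ) k) (hf : f ≠ 0)
    (hf0 : constantCoeff f = 0) (e : ℕ) (φ : Rg f →+ Rg f)
    (hφ : ∀ a u, φ (a ^ p ^ e * u) = a * φ u) (r : MvPolynomial (σ ⊕ τ) k)
    (h : φ (Ideal.Quotient.mk (Ideal.span {f}) r) ∉ mX f) :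
    f ^ (p ^ e - 1) * r ∉ J (σ ⊕ τ) k (p ^ e) := by
  classical
  have hq : 0 < p ^ e := pow_pos (Fact.out : p.Prime).pos e
  obtain ⟨κ, Ψ, hκ, hΨ⟩ := Fed_data (k := k) (ι := σ ⊕ τ) p e
  intro hJ
  apply h
  have hc := fun μ : (σ ⊕ τ) →₀ ℕ => Ideal.Quotient.mk_surjective
    (φ (Ideal.Quotient.mk (Ideal.span {f}) (monomial μ 1)))
  choose c hc using hc
  have hφ0 : ∀ u, φ (Ideal.Quotient.mk (Ideal.span {f}) u) =
      Ideal.Quotient.mk (Ideal.span {f}) (∑ μ ∈ Finset.Icc 0 κ, Ψ μ u * c μ) := by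
    intro u
    conv_lhs => rw [← Fed_exp p hκ hΨ u]
    rw [map_sum, map_sum, map_sum]
    refine Finset.sum_congr rfl fun μ _ => ?_
    rw [map_mul, map_pow, hφ, ← hc, ← map_mul]
  set h0 : MvPolynomial (σ ⊕ τ) k :=
    ∑ μ ∈ Finset.Icc 0 κ, c μ ^ p ^ e * monomial (κ - μ) 1 with hh0
  have hT : ∀ w, Ψ κ (h0 * w) = ∑ μ ∈ Finset.Icc 0 κ, Ψ μ w * c μ := by
    intro w
    rw [hh0, Finset.sum_mul, map_sum]
    refine Finset.sum_congr rfl fun μ hμ => ?_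
    rw [mul_assoc, (hΨ κ le_rfl).1, Fed_tr p hκ hΨ (Finset.mem_Icc.1 hμ).2, mul_comm]
  have hdiv : ∀ g, f ∣ Ψ κ (h0 * (f * g)) := by
    intro g
    rw [hT, ← Ideal.mem_span_singleton, ← Ideal.Quotient.eq_zero_iff_mem, ← hφ0]
    have h1 : Ideal.Quotient.mk (Ideal.span {f}) (f * g) = 0 := by
      rw [Ideal.Quotient.eq_zero_iff_mem]
      exact Ideal.mul_mem_right _ _ (Ideal.subset_span rfl)
    rw [h1, map_zero]
  have hdiv2 : f ^ p ^ e ∣ h0 * f := by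
    rw [← Fed_exp p hκ hΨ (h0 * f)]
    refine Finset.dvd_sum fun μ hμ => Dvd.dvd.mul_right (pow_dvd_pow_of_dvd ?_ _) _
    rw [← Fed_tr p hκ hΨ (Finset.mem_Icc.1 hμ).2]
    have h1 := hdiv (monomial (κ - μ) 1)
    have e1 : h0 * (f * monomial (κ - μ) 1) = monomial (κ - μ) 1 * (h0 * f) := by ring
    rwa [e1] at h1
  obtain ⟨h', hh'⟩ := hdiv2
  have hh2 : h0 = f ^ (p ^ e - 1) * h' := by
    refine mul_right_cancel₀ hf ?_
    rw [hh']
    have e2 : f ^ p ^ e = f ^ (p ^ e - 1) * f := by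
      rw [← pow_succ, Nat.sub_add_cancel hq]
    rw [e2]
    ring
  rw [hφ0, mem_mX hf0, ← hT, hh2]
  refine map_J_m0 p e (Ψ κ) (hΨ κ le_rfl).1 ?_
  have e3 : f ^ (p ^ e - 1) * h' * r = h' * (f ^ (p ^ e - 1) * r) := by ring
  rw [e3]
  exact Ideal.mul_mem_left _ _ hJ

end DP
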