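import Pool.Agent.Lib.MP_9e8926_ag_DP.SubP

/-!
# Isotropic points where a form does not vanish

Let `y0 = ι x0 ≠ x0`; then `Qs ι = 2 X_{x0} X_{y0} + Q'`, `Q' = ∑_{v ≠ x0, y0} X_v X_{ι v}` (`ι`
permutes the `v ≠ x0, y0`).

* `X_{x0}` is a nonzerodivisor modulo `Q = Qs ι` (`two_x0`): if `Q ∣ X_{x0} w`, `X_{x0} w = Q v`, then
  setting `X_{x0} = 0` gives `0 = Q' v|_{x0 = 0}`, and `Q' ≠ 0` because of `v1`: the coefficient of
  `X_{v1} X_{ι v1}` is 1 (if `ι v1 = v1`) or 2.  So `v|_{x0=0} = 0`, `X_{x0} ∣ v`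
  (`X_dvd_iff...`/`MvPolynomial.X_dvd_iff_modMonomial_eq_zero`), `v = X_{x0} v'`, `w = Q v'`.
* Let `u ∈ PP K (d, β)`, `¬ Q ∣ u`.  Let `θ` be the substitution `X_{x0} ↦ 2 X_{x0}²`,
  `X_{y0} ↦ -Q'`, `X_v ↦ 2 X_{x0} X_v` otherwise, `y_j ↦ y_j`.  Modulo `Q` we have
  `-Q' ≡ 2 X_{x0} X_{y0}`, so `θ X_v ≡ 2 X_{x0} X_v` for all `v` and `θ u ≡ (2 X_{x0})^d u mod Q`
  (on monomials).  So `¬ Q ∣ θ u`, in particular `X_{x0} θ u ≠ 0`; as `K` is infinite there is a
  point `c` with `c_{x0} ≠ 0`, `(θ u)(c) ≠ 0` (`MvPolynomial.funext`).  `(θ u)(c) = u(b, c_τ)` with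
  `b_v = (θ X_v)(c)`, `b_{x0} = 2 c_{x0}² ≠ 0` and `∑ b_v b_{ι v} = 2 b_{x0} b_{y0} + Q'(b)
  = -4 c_{x0}² Q'(c) + 4 c_{x0}² Q'(c) = 0`.  `u(b, c_τ) = c_τ^β u(b, 1) ≠ 0`.  Take
  `a = b / b_{x0}`: `u(a, 1) = b_{x0}^{-d} u(b, 1) ≠ 0`.
-/

set_option autoImplicit false

noncomputable section

namespace DP

open MvPolynomial

variable {σ : Type*} [Fintype σ] {τ : Type*} [Fintype τ] {K : Type*} [Field K]

private theorem dvd_aeval_sub {s : Type*} {A : Type*} [CommRing A] [Algebra K A] (Q : A)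
    (f g : s → A) (h : ∀ i, Q ∣ f i - g i) (u : MvPolynomial s K) :
    Q ∣ aeval f u - aeval g u := by
  induction u using MvPolynomial.induction_on with
  | C a => simp
  | add p q hp hq =>
    rw [map_add, map_add, add_sub_add_comm]
    exact dvd_add hp hq
  | mul_X p i hp =>
    rw [map_mul, map_mul, aeval_X, aeval_X]
    have e : aeval f p * f i - aeval g p * g i
        = (aeval f p - aeval g p) * f i + aeval g p * (f i - g i) := by ring
    rw [e]
    exact dvd_add (dvd_mul_of_dvd_left hp _) (dvd_mul_of_dvd_right (h i) _)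

private theorem aeval_PP {A : Type*} [CommRing A] [Algebra K A] (t : A) (f : σ → A) (g : τ → A)
    {d : ℕ} {β : τ → ℕ} {u : MvPolynomial (σ ⊕ τ) K} (hu : u ∈ PP K (d, β)) :
    aeval (Sum.elim (fun v => t * f v) g) u
      = t ^ d * (∏ j, g j ^ β j) * aeval (Sum.elim f fun _ => 1) u := by
  rw [aeval_def, aeval_def, eval₂_eq', eval₂_eq', Finset.mul_sum]
  refine Finset.sum_congr rfl fun m hm => ?_
  have h1 : md m = (d, β) := hu m hm
  have h2 : ∑ i, m (Sum.inl i) = d := congrArg Prod.fst h1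
  have h3 : ∀ j, m (Sum.inr j) = β j := fun j => congrFun (congrArg Prod.snd h1) j
  rw [Fintype.prod_sum_type, Fintype.prod_sum_type]
  simp only [Sum.elim_inl, Sum.elim_inr, one_pow, Finset.prod_const_one, mul_one, mul_pow,
    Finset.prod_mul_distrib, h3]
  rw [Finset.prod_pow_eq_pow_sum, h2]
  ring

private theorem aeval_PP' {A : Type*} [CommRing A] [Algebra K A] (t : A) (f : σ → A) (g : τ → A)
    {d : ℕ} {β : τ → ℕ} {u : MvPolynomial (σ ⊕ τ) K} (hu : u ∈ PP K (d, β)) :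
    aeval (Sum.elim (fun v => t * f v) g) u = t ^ d * aeval (Sum.elim f g) u := by
  have e1 := aeval_PP t f g hu
  have e2 := aeval_PP 1 f g hu
  simp only [one_mul, one_pow] at e2
  rw [e1, e2, mul_assoc]

omit [Fintype σ] [Fintype τ] in
private theorem eval_aeval_sum (c : σ ⊕ τ → K) (F : σ ⊕ τ → MvPolynomial (σ ⊕ τ) K)
    (u : MvPolynomial (σ ⊕ τ) K) :
    eval c (aeval F u) = aeval (fun s => eval c (F s)) u := by
  induction u using MvPolynomial.induction_on with
  | C a => simp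
  | add p q hp hq => rw [map_add, map_add, map_add, hp, hq]
  | mul_X p i hp => rw [map_mul, map_mul, map_mul, hp, aeval_X, aeval_X]

omit [Fintype τ] in
private theorem eval_Qs (c : σ ⊕ τ → K) (ι : σ → σ) :
    eval c (Qs K ι) = ∑ v, c (Sum.inl v) * c (Sum.inl (ι v)) := by
  rw [Qs, map_sum]
  refine Finset.sum_congr rfl fun v _ => ?_
  rw [map_mul, eval_X, eval_X]

private theorem sum_ind_ne [DecidableEq σ] (ι : σ → σ) (hι : Function.Involutive ι)
    (h2 : (2 : K) ≠ 0) (v1 : σ) :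
    ∑ v, (if v = v1 ∨ v = ι v1 then (1 : K) else 0) * (if ι v = v1 ∨ ι v = ι v1 then (1 : K) else 0)
      ≠ 0 := by
  have e : ∀ v, (if v = v1 ∨ v = ι v1 then (1 : K) else 0)
      * (if ι v = v1 ∨ ι v = ι v1 then (1 : K) else 0)
      = if v ∈ ({v1, ι v1} : Finset σ) then 1 else 0 := by
    intro v
    have i1 : (ι v = v1 ∨ ι v = ι v1) ↔ (v = v1 ∨ v = ι v1) := by
      constructor
      · rintro (h | h)
        · right; rw [← h, hι v]
        · left; exact hι.injective h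
      · rintro (h | h)
        · right; rw [h]
        · left; rw [h, hι v1]
    simp only [i1, Finset.mem_insert, Finset.mem_singleton]
    by_cases hv : v = v1 ∨ v = ι v1
    · rw [if_pos hv]; ring
    · rw [if_neg hv]; ring
  rw [Finset.sum_congr rfl fun v _ => e v, Finset.sum_ite_mem, Finset.univ_inter,
    Finset.sum_const, nsmul_eq_mul, mul_one]
  by_cases h : v1 = ι v1
  · rw [← h]
    simp
  · rw [Finset.card_pair h]
    exact_mod_cast h2

theorem two_x0 (ι : σ → σ) (hι : Function.Involutive ι) (h2 : (2 : K) ≠ 0) (x0 : σ)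
    (hx0 : ι x0 ≠ x0) (v1 : σ) (hv1 : v1 ≠ x0) (hv2 : v1 ≠ ι x0)
    (w : MvPolynomial (σ ⊕ τ) K) (h : Qs K ι ∣ X (Sum.inl x0) * w) : Qs K ι ∣ w := by
  classical
  obtain ⟨v, hv⟩ := h
  set φ : MvPolynomial (σ ⊕ τ) K →ₐ[K] MvPolynomial (σ ⊕ τ) K :=
    aeval (fun s => if s = Sum.inl x0 then 0 else X s) with hφ
  have hφX : ∀ s, φ (X s) = if s = Sum.inl x0 then 0 else X s := fun s => by rw [hφ, aeval_X]
  have h0 : φ (Qs K ι) * φ v = 0 := by
    rw [← map_mul, ← hv, map_mul, hφX, if_pos rfl, zero_mul]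
  have hQ : φ (Qs K ι) ≠ 0 := by
    intro h0
    apply sum_ind_ne (K := K) ι hι h2 v1
    have e := congrArg (eval (Sum.elim (fun v => if v = v1 ∨ v = ι v1 then (1 : K) else 0)
      fun _ => 0)) h0
    rw [map_zero, Qs, map_sum, map_sum] at e
    refine Eq.trans (Finset.sum_congr rfl fun v _ => ?_) e
    have hx : ∀ v, eval (Sum.elim (fun v => if v = v1 ∨ v = ι v1 then (1 : K) else 0)
        fun _ : τ => 0) (φ (X (Sum.inl v))) = if v = v1 ∨ v = ι v1 then (1 : K) else 0 := by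
      intro v
      rw [hφX]
      by_cases hvx : v = x0
      · rw [if_pos (by rw [hvx]), map_zero, if_neg]
        rintro (h | h)
        · exact hv1 (by rw [← h, hvx])
        · apply hv2
          rw [← hvx, h, hι v1]
      · rw [if_neg (by simpa using hvx), eval_X, Sum.elim_inl]
    rw [map_mul, map_mul, hx, hx]
  have h1 : φ v = 0 := by
    rcases mul_eq_zero.1 h0 with h | h
    · exact absurd h hQ
    · exact h
  have h3 : X (Sum.inl x0) ∣ aeval (X : σ ⊕ τ → MvPolynomial (σ ⊕ τ) K) v - φ v := by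
    apply dvd_aeval_sub
    intro s
    by_cases hs : s = Sum.inl x0
    · rw [if_pos hs, sub_zero, hs]
    · rw [if_neg hs, sub_self]
      exact dvd_zero _
  rw [h1, sub_zero, aeval_X_left_apply] at h3
  obtain ⟨v', hv'⟩ := h3
  refine ⟨v', ?_⟩
  have h4 : X (Sum.inl x0) * w = X (Sum.inl x0) * (Qs K ι * v') := by
    rw [hv, hv']
    ring
  exact mul_left_cancel₀ (X_ne_zero _) h4

theorem exists_point [Infinite K] (ι : σ → σ) (hι : Function.Involutive ι) (h2 : (2 : K) ≠ 0)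
    (x0 : σ) (hx0 : ι x0 ≠ x0) (v1 : σ) (hv1 : v1 ≠ x0) (hv2 : v1 ≠ ι x0) (d : ℕ) (β : τ → ℕ)
    (u : MvPolynomial (σ ⊕ τ) K) (hu : u ∈ PP K (d, β)) (hQ : ¬ Qs K ι ∣ u) :
    ∃ a : σ → K, ∑ v, a v * a (ι v) = 0 ∧ a x0 = 1 ∧ eval (Sum.elim a fun _ => 1) u ≠ 0 := by
  classical
  set θ : MvPolynomial (σ ⊕ τ) K →ₐ[K] MvPolynomial (σ ⊕ τ) K :=
    aeval (Sum.elim (fun v => 2 * X (Sum.inl x0) * X (Sum.inl v)
      - (if v = ι x0 then Qs K ι else 0)) fun j => X (Sum.inr j)) with hθ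
  have hθ1 : Qs K ι ∣ θ u - (2 * X (Sum.inl x0)) ^ d * u := by
    have e : (2 * X (Sum.inl x0)) ^ d * u
        = aeval (Sum.elim (fun v => 2 * X (Sum.inl x0) * X (Sum.inl v)) fun j => X (Sum.inr j)) u
        := by
      rw [aeval_PP' (2 * X (Sum.inl x0) : MvPolynomial (σ ⊕ τ) K) (fun v => X (Sum.inl v))
        (fun j => X (Sum.inr j)) hu]
      congr 1
      conv_lhs => rw [← aeval_X_left_apply u]
      congr 1
      congr 1
      funext s
      rcases s with s | s <;> rfl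
    rw [e]
    apply dvd_aeval_sub
    rintro (v | j)
    · simp only [Sum.elim_inl]
      split_ifs
      · exact ⟨-1, by ring⟩
      · simp
    · simp
  have hQn : ∀ n : ℕ, Qs K ι ∣ (2 * X (Sum.inl x0)) ^ n * u → Qs K ι ∣ u := by
    intro n
    induction n with
    | zero => intro h; simpa using h
    | succ n ih =>
      intro h
      apply ih
      have e1 : (2 * X (Sum.inl x0)) ^ (n + 1) * u
          = X (Sum.inl x0) * (C 2 * ((2 * X (Sum.inl x0)) ^ n * u)) := by
        rw [show (C 2 : MvPolynomial (σ ⊕ τ) K) = 2 from map_ofNat C 2]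
        ring
      rw [e1] at h
      have h3 := two_x0 ι hι h2 x0 hx0 v1 hv1 hv2 _ h
      have e2 : (2 * X (Sum.inl x0)) ^ n * u
          = C (2⁻¹ : K) * (C 2 * ((2 * X (Sum.inl x0)) ^ n * u)) := by
        rw [← mul_assoc, ← C_mul, inv_mul_cancel₀ h2, C_1, one_mul]
      rw [e2]
      exact dvd_mul_of_dvd_right h3 _
  have hθu : X (Sum.inl x0) * θ u ≠ 0 := by
    intro h
    rcases mul_eq_zero.1 h with h | h
    · exact X_ne_zero _ h
    · apply hQ
      apply hQn d
      rw [h, zero_sub, dvd_neg] at hθ1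
      exact hθ1
  obtain ⟨c, hc⟩ : ∃ c : σ ⊕ τ → K, eval c (X (Sum.inl x0) * θ u) ≠ 0 := by
    by_contra hcon
    push Not at hcon
    exact hθu (MvPolynomial.funext fun c => by rw [hcon c, map_zero])
  rw [map_mul, eval_X] at hc
  have hc0 : c (Sum.inl x0) ≠ 0 := left_ne_zero_of_mul hc
  have hc1 : eval c (θ u) ≠ 0 := right_ne_zero_of_mul hc
  set q : K := ∑ v, c (Sum.inl v) * c (Sum.inl (ι v)) with hq
  set b : σ → K := fun v => 2 * c (Sum.inl x0) * c (Sum.inl v) - (if v = ι x0 then q else 0)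
    with hb
  have hb0 : b x0 = 2 * c (Sum.inl x0) * c (Sum.inl x0) := by
    rw [hb]
    simp only
    rw [if_neg (Ne.symm hx0), sub_zero]
  have hb0' : b x0 ≠ 0 := by
    rw [hb0]
    exact mul_ne_zero (mul_ne_zero h2 hc0) hc0
  have hbb : ∑ v, b v * b (ι v) = 0 := by
    have e : ∀ v, b v * b (ι v) = 4 * c (Sum.inl x0) ^ 2 * (c (Sum.inl v) * c (Sum.inl (ι v)))
        - (if v = ι x0 then 2 * c (Sum.inl x0) * q * c (Sum.inl (ι v)) else 0)
        - (if v = x0 then 2 * c (Sum.inl x0) * q * c (Sum.inl v) else 0) := by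
      intro v
      rw [hb]
      simp only
      have i1 : ι v = ι x0 ↔ v = x0 := hι.injective.eq_iff
      by_cases hv : v = x0
      · have hv' : v ≠ ι x0 := by
          rw [hv]; exact Ne.symm hx0
        rw [if_pos (i1.2 hv), if_neg hv', if_neg hv', if_pos hv]
        ring
      · rw [if_neg (fun h => hv (i1.1 h)), if_neg hv]
        by_cases hv' : v = ι x0
        · rw [if_pos hv', if_pos hv']
          ring
        · rw [if_neg hv', if_neg hv']
          ring
    rw [Finset.sum_congr rfl fun v _ => e v, Finset.sum_sub_distrib, Finset.sum_sub_distrib,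
      ← Finset.mul_sum, ← hq, Finset.sum_ite_eq', Finset.sum_ite_eq', if_pos (Finset.mem_univ _),
      if_pos (Finset.mem_univ _), hι x0]
    ring
  have hval : eval c (θ u) = (b x0) ^ d * (∏ j, c (Sum.inr j) ^ β j)
      * aeval (Sum.elim (fun v => b v / b x0) fun _ => (1 : K)) u := by
    rw [hθ, eval_aeval_sum, ← aeval_PP (b x0) (fun v => b v / b x0) (fun j => c (Sum.inr j)) hu]
    congr 1
    congr 1
    funext s
    rcases s with v | j
    · simp only [Sum.elim_inl]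
      rw [mul_div_cancel₀ _ hb0', map_sub, map_mul, map_mul, eval_X, eval_X, map_ofNat, hb]
      simp only
      congr 1
      split_ifs
      · rw [eval_Qs]
      · rw [map_zero]
    · simp only [Sum.elim_inr, eval_X]
  refine ⟨fun v => b v / b x0, ?_, div_self hb0', ?_⟩
  · have e : ∀ v, b v / b x0 * (b (ι v) / b x0) = (b v * b (ι v)) * (b x0 * b x0)⁻¹ := by
      intro v
      rw [mul_inv, div_eq_mul_inv, div_eq_mul_inv]
      ring
    rw [Finset.sum_congr rfl fun v _ => e v, ← Finset.sum_mul, hbb, zero_mul]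
  · intro h0
    apply hc1
    rw [hval]
    have h0' : aeval (Sum.elim (fun v => b v / b x0) fun _ => (1 : K)) u = 0 := by
      rw [← h0, MvPolynomial.aeval_eq_eval]
    rw [h0', mul_zero]

end DP
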