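import Pool.Agent.Lib.MP_9e8926_ag_DP.TSb
import Pool.Agent.Lib.MP_9e8926_ag_DP.Pts
import Pool.Agent.Lib.MP_9e8926_ag_DP.Fed

/-!
# The orbit of a form under the isometries

* `ext`: `exists_point` and `span_top`.
* `jq_gs`: `γ` preserves `J (p^e)` (`map_J_le`: `γ X_v ∈ PP (1,0)` has no constant term), `Qs ι` and
  `Yq`.
* `mem_qq`: `jq Q b q` contains `Q` (`Q^q ∈ J q` for `Q = Qs ι`: Frobenius
  `(∑ X_v X_{ι v})^q = ∑ X_v^q X_{ι v}^q`, `sum_pow_char_pow`), so `mk u ∈ map mk (jq) ↔ u ∈ jq`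
  (`Ideal.mem_map_iff_of_surjective`, or `Ideal.comap_map_of_surjective`).
* `Gq`: the maps induced on `Rg (Qs K ι)` by the elements of `Gs` (`Ideal.quotientMapₐ`); they are
  injective because of the inverse, preserve `VV` (`sub_mem`) and `qq` (`jq_gs`, `mem_qq`).
-/

set_option autoImplicit false

noncomputable section

namespace DP

open MvPolynomial

variable {σ : Type*} [Fintype σ] {τ : Type*} [Fintype τ] {K : Type*} [Field K]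

theorem ext [Infinite K] (ι : σ → σ) (hι : Function.Involutive ι) (h2 : (2 : K) ≠ 0)
    (x0 : σ) (hx0 : ι x0 ≠ x0) (v1 : σ) (hv1 : v1 ≠ x0) (hv2 : v1 ≠ ι x0) (d : ℕ) (β : τ → ℕ)
    (u : MvPolynomial (σ ⊕ τ) K) (hu : u ∈ PP K (d, β)) (hQ : ¬ Qs K ι ∣ u) :
    (X (Sum.inl x0) ^ d * ∏ j, X (Sum.inr j) ^ β j : MvPolynomial (σ ⊕ τ) K) ∈
      Submodule.span K {v | ∃ γ ∈ Gs K τ ι, v = γ u} := by
  obtain ⟨a, ha, hax, hua⟩ := exists_point ι hι h2 x0 hx0 v1 hv1 hv2 d β u hu hQ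
  exact span_top ι hι a ha x0 hx0 hax d β u hu hua

variable (p : ℕ) [Fact p.Prime] [CharP K p]

theorem jq_gs (ι : σ → σ) (γ : MvPolynomial (σ ⊕ τ) K →ₐ[K] MvPolynomial (σ ⊕ τ) K)
    (hγ : IsGs ι γ) (b : τ → ℚ) (e : ℕ) {u : MvPolynomial (σ ⊕ τ) K}
    (hu : u ∈ jq (Qs K ι) b (p ^ e)) : γ u ∈ jq (Qs K ι) b (p ^ e) := by
  have h1 : Qs K ι ^ (p ^ e - 1) * Yq b (p ^ e) * u ∈ J (σ ⊕ τ) K (p ^ e) := hu
  have hs : ∀ v, γ (X v) ∈ m0 (σ ⊕ τ) K := by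
    rintro (v | j)
    · exact mem_m0_of_PP (hγ.1 v)
    · rw [hγ.2.1 j, mem_m0]
      exact constantCoeff_X _ _
  have h2 := map_J_le p γ hs e h1
  rw [map_mul, map_mul, map_pow, hγ.2.2, sub_Yq γ hγ.2.1 b (p ^ e)] at h2
  exact h2

private theorem Ext_Qs_mem_jq (ι : σ → σ) (b : τ → ℚ) (e : ℕ) :
    (Qs K ι : MvPolynomial (σ ⊕ τ) K) ∈ jq (Qs K ι) b (p ^ e) := by
  have hq : 0 < p ^ e := pow_pos (Fact.out : p.Prime).pos e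
  have h1 : (Qs K ι : MvPolynomial (σ ⊕ τ) K) ^ (p ^ e) ∈ J (σ ⊕ τ) K (p ^ e) := by
    unfold Qs J
    rw [sum_pow_char_pow]
    refine Ideal.sum_mem _ fun v _ => ?_
    rw [mul_pow]
    exact Ideal.mul_mem_right _ _ (Ideal.subset_span ⟨Sum.inl v, rfl⟩)
  have h2 : Qs K ι ^ (p ^ e - 1) * Yq b (p ^ e) * Qs K ι ∈ J (σ ⊕ τ) K (p ^ e) := by
    have h3 : Qs K ι ^ (p ^ e - 1) * Yq b (p ^ e) * Qs K ι =
        Yq b (p ^ e) * (Qs K ι : MvPolynomial (σ ⊕ τ) K) ^ (p ^ e) := by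
      have h4 : (Qs K ι : MvPolynomial (σ ⊕ τ) K) ^ (p ^ e) =
          Qs K ι ^ (p ^ e - 1) * Qs K ι := by
        rw [← pow_succ, Nat.sub_add_cancel hq]
      rw [h4]
      ring
    rw [h3]
    exact Ideal.mul_mem_left _ _ h1
  exact h2

theorem mem_qq (ι : σ → σ) (b : τ → ℚ) (e : ℕ) (u : MvPolynomial (σ ⊕ τ) K) :
    Ideal.Quotient.mk (Ideal.span {Qs K ι}) u ∈ qq (Qs K ι) b (p ^ e) ↔
      u ∈ jq (Qs K ι) b (p ^ e) := by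
  unfold qq
  constructor
  · intro h
    rw [Ideal.mem_map_iff_of_surjective _ Ideal.Quotient.mk_surjective] at h
    obtain ⟨x, hx, hxu⟩ := h
    rw [Ideal.Quotient.eq, Ideal.mem_span_singleton] at hxu
    obtain ⟨c, hc⟩ := hxu
    have h1 : u = x - Qs K ι * c := by
      rw [← hc]
      ring
    rw [h1]
    exact Ideal.sub_mem _ hx (Ideal.mul_mem_right _ _ (Ext_Qs_mem_jq p ι b e))
  · intro h
    exact Ideal.mem_map_of_mem _ h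

/-- The automorphisms of the coordinate ring of the quadric used below. -/
theorem exists_Gq (ι : σ → σ) : ∃ G : Set (Rg (Qs K ι : MvPolynomial (σ ⊕ τ) K) →ₐ[K]
      Rg (Qs K ι : MvPolynomial (σ ⊕ τ) K)),
    (∀ γ ∈ G, Function.Injective γ) ∧ (∀ γ ∈ G, ∀ s, ∀ v ∈ VV (Qs K ι) s, γ v ∈ VV (Qs K ι) s) ∧
    (∀ γ ∈ G, ∀ (b : τ → ℚ) (e : ℕ), ∀ v ∈ qq (Qs K ι) b (p ^ e), γ v ∈ qq (Qs K ι) b (p ^ e)) ∧
    ∀ γ ∈ Gs K τ ι, ∃ γ' ∈ G, ∀ u, γ' (Ideal.Quotient.mk _ u) = Ideal.Quotient.mk _ (γ u) := by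
  refine ⟨{γ' | ∃ γ ∈ Gs K τ ι, ∀ u, γ' (Ideal.Quotient.mk _ u) = Ideal.Quotient.mk _ (γ u)},
    ?_, ?_, ?_, ?_⟩
  · rintro γ' ⟨γ, hγ, hγ'⟩
    rw [injective_iff_map_eq_zero]
    intro v hv
    obtain ⟨u, rfl⟩ := Ideal.Quotient.mk_surjective v
    rw [hγ', Ideal.Quotient.eq_zero_iff_mem, Ideal.mem_span_singleton] at hv
    rw [Ideal.Quotient.eq_zero_iff_mem, Ideal.mem_span_singleton]
    obtain ⟨c, hc⟩ := hv
    obtain ⟨_, γi, hγi, hinv⟩ := hγ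
    refine ⟨γi c, ?_⟩
    rw [← hinv u, hc, map_mul, hγi.2.2]
  · rintro γ' ⟨γ, hγ, hγ'⟩ s v hv
    obtain ⟨u, hu, rfl⟩ := hv
    exact ⟨γ u, sub_mem γ hγ.1.1 hγ.1.2.1 hu, (hγ' u).symm⟩
  · rintro γ' ⟨γ, hγ, hγ'⟩ b e v hv
    obtain ⟨u, rfl⟩ := Ideal.Quotient.mk_surjective v
    rw [mem_qq] at hv
    rw [hγ', mem_qq]
    exact jq_gs p ι γ hγ.1 b e hv
  · intro γ hγ
    have hker : ∀ a ∈ Ideal.span {(Qs K ι : MvPolynomial (σ ⊕ τ) K)},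
        ((Ideal.Quotient.mkₐ K (Ideal.span {(Qs K ι : MvPolynomial (σ ⊕ τ) K)})).comp γ) a = 0 := by
      intro a ha
      rw [Ideal.mem_span_singleton] at ha
      obtain ⟨c, rfl⟩ := ha
      rw [AlgHom.comp_apply, map_mul, hγ.1.2.2, Ideal.Quotient.mkₐ_eq_mk,
        Ideal.Quotient.eq_zero_iff_mem]
      exact Ideal.mul_mem_right _ _ (Ideal.subset_span rfl)
    refine ⟨Ideal.Quotient.liftₐ _
      ((Ideal.Quotient.mkₐ K (Ideal.span {(Qs K ι : MvPolynomial (σ ⊕ τ) K)})).comp γ) hker,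
      ⟨γ, hγ, fun u => rfl⟩, fun u => rfl⟩

end DP
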