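import Pool.Agent.Lib.MP_9e8926_ag_DP.FptB

/-!
# The threshold and the ideals `J q`

* `sfr_of`: let `d` with `s d ≠ 0` for `s ∉ mX f`.  By `kru`, `d ∉ mX^M` for some `M`; a lift `d'`
  is not in `span {f} ⊔ m0^M` (whose image is `mX^M`).  `regR`: `e1 ≥ 1`, `q1 = p^{e1}`,
  `f^{q1-1} Y_{q1} d' ∉ J q1`.  With `q = p^e`, by `flat` (`z = f^{q-1} Y_q u ∉ J q`),
  `f^{q1-1} Y_{q1} d' (f^{q-1} Y_q u)^{q1} ∉ J (q1 q)`.  The exponent of `f` is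
  `q1 - 1 + q1 (q-1) = q1 q - 1`; that of `y_j` is `⌈b(q1-1)⌉ + q1 ⌈b(q-1)⌉ ≥ ⌈b(q1 q-1)⌉`; so
  `f^{q1 q-1} (Y_{q1 q} d' u^{q1}) ∉ J (q1 q)`.  `exists_psi_unit` and `fed_down` with exponent
  `e1 + e` give `φ` with `φ (d mk(Y) mk(u)^{q1}) ∉ mX` (`mem_mX`); and
  `mk(u)^{q1} ∈ I^{q1 ⌈t q⌉} ≤ I^{⌈t (q1 q - 1)⌉}`.
* `iso_of_lt`: otherwise `sfr_of` (`n ≥ ⌈t q⌉`) shows `SFR t`, so `t ≤ fpt` (`le_csSup`,
  `sfr_bdd`).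
-/

set_option autoImplicit false

noncomputable section

namespace DP

open MvPolynomial

variable {k : Type*} [Field k] {r N : ℕ}

private theorem FptA_exp (c : ℚ) (q₁ q : ℕ) :
    ⌈(c : ℝ) * (((q₁ * q : ℕ) : ℝ) - 1)⌉₊ ≤
      ⌈(c : ℝ) * ((q₁ : ℝ) - 1)⌉₊ + ⌈(c : ℝ) * ((q : ℝ) - 1)⌉₊ * q₁ := by
  rw [Nat.ceil_le]
  push_cast
  have h1 := Nat.le_ceil ((c : ℝ) * ((q₁ : ℝ) - 1))
  have h2 := Nat.le_ceil ((c : ℝ) * ((q : ℝ) - 1))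
  have h3 : (0 : ℝ) ≤ (q₁ : ℝ) := Nat.cast_nonneg _
  have h4 := mul_le_mul_of_nonneg_right h2 h3
  have h5 : (c : ℝ) * ((q₁ : ℝ) * (q : ℝ) - 1) =
      (c : ℝ) * ((q₁ : ℝ) - 1) + (c : ℝ) * ((q : ℝ) - 1) * (q₁ : ℝ) := by ring
  rw [h5]
  exact add_le_add h1 h4

private theorem FptA_Yq (b : Fin N → ℚ) (q₁ q : ℕ) :
    (Yq b (q₁ * q) : MvPolynomial (Fin r ⊕ Fin N) k) ∣ Yq b q₁ * Yq b q ^ q₁ := by
  unfold Yq
  rw [← Finset.prod_pow, ← Finset.prod_mul_distrib]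
  refine Finset.prod_dvd_prod_of_dvd _ _ fun j _ => ?_
  rw [← pow_mul, ← pow_add]
  exact pow_dvd_pow _ (FptA_exp (b j) q₁ q)

private theorem FptA_mX (f : MvPolynomial (Fin r ⊕ Fin N) k) :
    mX f = (m0 (Fin r ⊕ Fin N) k).map (Ideal.Quotient.mk (Ideal.span {f})) := by
  unfold mX
  rw [m0_eq_span, Ideal.map_span, ← Set.range_comp]
  rfl

private theorem FptA_notMem (f d : MvPolynomial (Fin r ⊕ Fin N) k) (M : ℕ)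
    (h : Ideal.Quotient.mk (Ideal.span {f}) d ∉ mX f ^ M) :
    d ∉ Ideal.span {f} ⊔ m0 (Fin r ⊕ Fin N) k ^ M := by
  intro hd
  apply h
  obtain ⟨x, hx, y, hy, rfl⟩ := Submodule.mem_sup.1 hd
  rw [map_add, Ideal.Quotient.eq_zero_iff_mem.2 hx, zero_add, FptA_mX, ← Ideal.map_pow]
  exact Ideal.mem_map_of_mem _ hy

variable (p : ℕ) [Fact p.Prime] [CharP k p] [PerfectField k] (hp : 5 ≤ p) (hr : 3 ≤ r)
  (ax : ℕ) (ay : Fin N → ℕ) (hax : 0 < ax) (hay : ∀ j, 0 < ay j)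
  (a : Fin r → k) (ha : ∀ i, a i ≠ 0) (g : MvPolynomial (Fin r ⊕ Fin N) k)
  (hg : Hyp ax ay g) (b : Fin N → ℚ) (hb : ∀ j, 0 ≤ b j ∧ b j < 1)

include hp hr hax hay ha hg hb

theorem sfr_of (I : Ideal (Rg (ff a g))) (t : ℝ) (ht : 0 ≤ t) (e : ℕ)
    (u : MvPolynomial (Fin r ⊕ Fin N) k)
    (hu : Ideal.Quotient.mk _ u ∈ I ^ ⌈t * (p : ℝ) ^ e⌉₊)
    (h : ff a g ^ (p ^ e - 1) * Yq b (p ^ e) * u ∉ J (Fin r ⊕ Fin N) k (p ^ e)) :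
    SFR p (ff a g) b I t := by
  intro d hd
  have hp0 : 0 < p := (Fact.out : p.Prime).pos
  have hf0 : constantCoeff (ff a g) = 0 := ff_const ax ay hax a g hg
  obtain ⟨M, hM⟩ := kru hf0 d hd
  obtain ⟨d', rfl⟩ := Ideal.Quotient.mk_surjective d
  obtain ⟨e₁, he₁, hreg⟩ := regR p hp hr ax ay hax hay a ha g hg b hb d' M
    (FptA_notMem _ d' M hM)
  have hflat : ff a g ^ (p ^ e₁ - 1) * Yq b (p ^ e₁) * d' *
      (ff a g ^ (p ^ e - 1) * Yq b (p ^ e) * u) ^ p ^ e₁ ∉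
        J (Fin r ⊕ Fin N) k (p ^ e₁ * p ^ e) :=
    fun hmem => h (flat p e₁ (p ^ e) _ _ hreg hmem)
  obtain ⟨y, hy⟩ := exists_eq_mul_right_of_dvd
    (FptA_Yq (k := k) (r := r) b (p ^ e₁) (p ^ e))
  have hpow : ff a g ^ (p ^ e₁ - 1) * (ff a g ^ (p ^ e - 1)) ^ p ^ e₁ =
      ff a g ^ (p ^ (e₁ + e) - 1) := by
    rw [← pow_mul, ← pow_add]
    congr 1
    have h1 : 1 ≤ p ^ e₁ := Nat.one_le_pow _ _ hp0
    have h2 : 1 ≤ p ^ e := Nat.one_le_pow _ _ hp0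
    rw [pow_add]
    obtain ⟨x, hx⟩ := Nat.exists_eq_add_of_le h1
    obtain ⟨z, hz⟩ := Nat.exists_eq_add_of_le h2
    rw [hx, hz, Nat.add_sub_cancel_left, Nat.add_sub_cancel_left]
    have h3 : (1 + x) * (1 + z) = 1 + (x + z * (1 + x)) := by ring
    rw [h3, Nat.add_sub_cancel_left]
  have hnot : ff a g ^ (p ^ (e₁ + e) - 1) * (Yq b (p ^ (e₁ + e)) * d' * u ^ p ^ e₁) ∉
      J (Fin r ⊕ Fin N) k (p ^ (e₁ + e)) := by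
    intro hmem
    apply hflat
    rw [← pow_add]
    have h1 : ff a g ^ (p ^ e₁ - 1) * Yq b (p ^ e₁) * d' *
        (ff a g ^ (p ^ e - 1) * Yq b (p ^ e) * u) ^ p ^ e₁ =
        y * (ff a g ^ (p ^ (e₁ + e) - 1) * (Yq b (p ^ (e₁ + e)) * d' * u ^ p ^ e₁)) := by
      rw [← hpow, mul_pow, mul_pow, pow_add]
      linear_combination (ff a g ^ (p ^ e₁ - 1) * (ff a g ^ (p ^ e - 1)) ^ p ^ e₁ * d' *
        u ^ p ^ e₁) * hy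
    rw [h1]
    exact Ideal.mul_mem_left _ _ hmem
  obtain ⟨ψ, hψ1, hψ2⟩ := exists_psi_unit p (e₁ + e) _ hnot
  obtain ⟨φ, hφ1, hφ2⟩ := fed_down p (ff a g) (e₁ + e) ψ hψ1
  refine ⟨e₁ + e, by omega, φ, hφ1, Ideal.Quotient.mk _ u ^ p ^ e₁, ?_, ?_⟩
  · have h1 : Ideal.Quotient.mk _ u ^ p ^ e₁ ∈ I ^ (⌈t * (p : ℝ) ^ e⌉₊ * p ^ e₁) := by
      have h0 := Ideal.pow_mem_pow hu (p ^ e₁)
      have h6 : (I ^ ⌈t * (p : ℝ) ^ e⌉₊) ^ p ^ e₁ = I ^ (⌈t * (p : ℝ) ^ e⌉₊ * p ^ e₁) :=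
        (pow_mul I _ _).symm
      rwa [h6] at h0
    refine Ideal.pow_le_pow_right ?_ h1
    rw [Nat.ceil_le]
    have h2 := Nat.le_ceil (t * (p : ℝ) ^ e)
    have h3 : (0 : ℝ) ≤ (p : ℝ) ^ e₁ := by positivity
    have h4 := mul_le_mul_of_nonneg_right h2 h3
    push_cast
    refine le_trans ?_ h4
    rw [pow_add]
    nlinarith
  · have h1 : Ideal.Quotient.mk (Ideal.span {ff a g}) d' *
        Ideal.Quotient.mk (Ideal.span {ff a g}) (Yq b (p ^ (e₁ + e))) *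
          Ideal.Quotient.mk (Ideal.span {ff a g}) u ^ p ^ e₁ =
        Ideal.Quotient.mk (Ideal.span {ff a g})
          (Yq b (p ^ (e₁ + e)) * d' * u ^ p ^ e₁) := by
      rw [map_mul, map_mul, map_pow]
      ring
    rw [h1, hφ2, mem_mX hf0]
    exact hψ2

theorem iso_of_lt (I : Ideal (Rg (ff a g))) (hI : I ≤ mX (ff a g)) (t : ℝ)
    (ht : fpt p (ff a g) b I < t) (e n : ℕ) (hn : t * (p : ℝ) ^ e ≤ n)
    (u : MvPolynomial (Fin r ⊕ Fin N) k) (hu : Ideal.Quotient.mk _ u ∈ I ^ n) :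
    ff a g ^ (p ^ e - 1) * Yq b (p ^ e) * u ∈ J (Fin r ⊕ Fin N) k (p ^ e) := by
  by_contra hcon
  have ht0 : 0 ≤ t := le_trans (Real.sSup_nonneg fun _ hx => hx.1) ht.le
  have hu' : Ideal.Quotient.mk _ u ∈ I ^ ⌈t * (p : ℝ) ^ e⌉₊ :=
    Ideal.pow_le_pow_right (Nat.ceil_le.2 hn) hu
  have h1 := sfr_of p hp hr ax ay hax hay a ha g hg b hb I t ht0 e u hu' hcon
  have h2 : t ≤ fpt p (ff a g) b I :=
    le_csSup ⟨(r : ℝ) + N, fun s hs => sfr_bdd p hr ax ay hax a ha g hg b I hI s hs.2⟩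
      ⟨ht0, h1⟩
  linarith

end DP
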