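import Pool.Agent.Lib.MP_9e8926_ag_DP.Fed

/-!
# Krull's intersection theorem

If `d ∈ ⋂ mX^M` then, by `Ideal.mem_iInf_smul_pow_eq_bot_iff` (for the ring `Rg f` as a module over
itself), there is `r ∈ mX f` with `r d = d`, so `(1 - r) d = 0` and `1 - r ∉ mX f` because
`mX f ≠ ⊤` (`mem_mX` for the constant 1).
-/

set_option autoImplicit false

noncomputable section

namespace DP

open MvPolynomial

variable {σ τ : Type*} {k : Type*} [Field k]

theorem kru [Finite σ] [Finite τ] {f : MvPolynomial (σ ⊕ τ) k} (hf0 : constantCoeff f = 0)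
    (d : Rg f) (hd : ∀ s : Rg f, s ∉ mX f → s * d ≠ 0) : ∃ M : ℕ, d ∉ mX f ^ M := by
  by_contra h
  push Not at h
  have hx : d ∈ (⨅ i : ℕ, mX f ^ i • ⊤ : Submodule (Rg f) (Rg f)) := by
    rw [Submodule.mem_iInf]
    intro i
    rw [smul_eq_mul, Ideal.mul_top]
    exact h i
  obtain ⟨r, hr⟩ := (Ideal.mem_iInf_smul_pow_eq_bot_iff (mX f) d).1 hx
  refine hd (1 - r) ?_ ?_
  · intro h1
    have h2 : (1 : Rg f) ∈ mX f := by
      have := (mX f).add_mem h1 r.2
      rwa [sub_add_cancel] at this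
    have h3 : Ideal.Quotient.mk (Ideal.span {f}) 1 ∈ mX f := by rwa [map_one]
    rw [mem_mX hf0, m0, RingHom.mem_ker, map_one] at h3
    exact one_ne_zero h3
  · rw [sub_mul, one_mul, ← smul_eq_mul, hr, sub_self]

end DP
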