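import Pool.Agent.Lib.MP_9e8926_ag_DP.RegR
import Pool.Agent.Lib.MP_9e8926_ag_DP.Kru
import Pool.Agent.Lib.MP_9e8926_ag_DP.Fed

/-!
# Elementary facts about `f`, boundedness of the thresholds

* `ff_const`, `ff_ne`: all monomials of `g` have weight `≥ 2 ax > 0`, so no constant term; the
  coefficient of `x_i²` in `f` is `a_i ≠ 0` (`md ≠ (2,0)` for the monomials of `g`).
* `sfr_bdd`: `d = 1` (`s 1 = 0` would give `s = 0 ∈ mX`): `e ≥ 1`, `φ (mk(Y_q) a) ∉ mX`,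
  `a ∈ I^T ≤ mX^T`, `T = ⌈t (q-1)⌉`; `a = mk a'` with `a' ∈ m0^T`; by `fed_up`
  `f^{q-1} Y_q a' ∉ J q`, so `a'` has a monomial with all exponents `≤ q - 1` and total degree
  `≥ T`: `T ≤ (r + N) (q-1)`.
-/

set_option autoImplicit false

noncomputable section

namespace DP

open MvPolynomial

variable {k : Type*} [Field k] {r N : ℕ}

theorem ff_const (ax : ℕ) (ay : Fin N → ℕ) (hax : 0 < ax) (a : Fin r → k)
    (g : MvPolynomial (Fin r ⊕ Fin N) k) (hg : Hyp ax ay g) : constantCoeff (ff a g) = 0 := by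
  have h1 : constantCoeff g = 0 := by
    by_contra h
    have h2 := (hg 0 (mem_support_iff.2 (by rwa [constantCoeff_eq] at h))).1
    have h3 : L1 ax ay (md (0 : Fin r ⊕ Fin N →₀ ℕ)) = 0 := by
      simp [L1, md]
    omega
  rw [ff, map_add, h1, add_zero, map_sum]
  refine Finset.sum_eq_zero fun i _ => ?_
  simp

theorem ff_ne (hr : 3 ≤ r) (ax : ℕ) (ay : Fin N → ℕ) (a : Fin r → k) (ha : ∀ i, a i ≠ 0)
    (g : MvPolynomial (Fin r ⊕ Fin N) k) (hg : Hyp ax ay g) : ff a g ≠ 0 := by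
  classical
  intro h0
  set i0 : Fin r := ⟨0, by omega⟩ with hi0
  set m : Fin r ⊕ Fin N →₀ ℕ := Finsupp.single (Sum.inl i0) 2 with hm
  have h1 : coeff m (ff a g) = 0 := by rw [h0, coeff_zero]
  have hmd : md m = (2, 0) := by
    ext
    · simp [md, hm, Finsupp.single_apply]
    · simp [md, hm]
  have h2 : coeff m g = 0 := by
    by_contra h
    exact (hg m (mem_support_iff.2 h)).2 hmd
  rw [ff, coeff_add, h2, add_zero, coeff_sum, Finset.sum_eq_single i0] at h1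
  · rw [coeff_C_mul, coeff_X_pow, if_pos rfl, mul_one] at h1
    exact ha i0 h1
  · intro i _ hi
    rw [coeff_C_mul, coeff_X_pow, if_neg, mul_zero]
    intro h
    rw [hm] at h
    have h3 := (Finsupp.single_left_inj (two_ne_zero)).1 h
    exact hi (Sum.inl_injective h3)
  · intro h
    exact absurd (Finset.mem_univ _) h

private theorem FptB_mX {f : MvPolynomial (Fin r ⊕ Fin N) k} :
    mX f = (m0 (Fin r ⊕ Fin N) k).map (Ideal.Quotient.mk (Ideal.span {f})) := by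
  unfold mX
  rw [m0_eq_span, Ideal.map_span, ← Set.range_comp]
  rfl

theorem sfr_bdd (p : ℕ) [Fact p.Prime] [CharP k p] [PerfectField k] (hr : 3 ≤ r)
    (ax : ℕ) (ay : Fin N → ℕ) (hax : 0 < ax)
    (a : Fin r → k) (ha : ∀ i, a i ≠ 0) (g : MvPolynomial (Fin r ⊕ Fin N) k)
    (hg : Hyp ax ay g) (b : Fin N → ℚ) (I : Ideal (Rg (ff a g))) (hI : I ≤ mX (ff a g)) (t : ℝ)
    (h : SFR p (ff a g) b I t) : t ≤ r + N := by
  obtain ⟨e, he, φ, hφ, c, hc, hφc⟩ := h 1 (by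
    intro s hs h1
    rw [mul_one] at h1
    exact hs (h1 ▸ (mX (ff a g)).zero_mem))
  set T : ℕ := ⌈t * ((p ^ e : ℕ) - 1 : ℝ)⌉₊ with hT
  have h1 : c ∈ mX (ff a g) ^ T := Ideal.pow_right_mono hI T hc
  rw [FptB_mX, ← Ideal.map_pow,
    Ideal.mem_map_iff_of_surjective _ Ideal.Quotient.mk_surjective] at h1
  obtain ⟨c', hc', rfl⟩ := h1
  rw [one_mul, ← map_mul] at hφc
  have h2 := fed_up p (ff a g) (ff_ne hr ax ay a ha g hg) (ff_const ax ay hax a g hg) e φ hφ _ hφc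
  have h3 : c' ∉ J (Fin r ⊕ Fin N) k (p ^ e) := fun h4 =>
    h2 (Ideal.mul_mem_left _ _ (Ideal.mul_mem_left _ _ h4))
  rw [mem_J] at h3
  push Not at h3
  obtain ⟨m, hm, hmq⟩ := h3
  have h4 : T ≤ L1 1 (fun _ : Fin N => 1) (md m) :=
    pow_le_Wt 1 (fun _ => 1) one_pos (fun _ => one_pos) T hc' m hm
  have hq : 2 ≤ p ^ e := by
    calc 2 ≤ p := (Fact.out : p.Prime).two_le
      _ = p ^ 1 := (pow_one p).symm
      _ ≤ p ^ e := Nat.pow_le_pow_right (Fact.out : p.Prime).pos he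
  have h5 : L1 1 (fun _ : Fin N => 1) (md m) ≤ (r + N) * (p ^ e - 1) := by
    simp only [L1, md, one_mul, add_mul]
    refine Nat.add_le_add ?_ ?_
    · refine (Finset.sum_le_card_nsmul _ _ (p ^ e - 1) fun i _ => ?_).trans (by simp)
      have := hmq (Sum.inl i)
      omega
    · refine (Finset.sum_le_card_nsmul _ _ (p ^ e - 1) fun i _ => ?_).trans (by simp)
      have := hmq (Sum.inr i)
      omega
  have h6 : t * ((p ^ e : ℕ) - 1 : ℝ) ≤ T := Nat.le_ceil _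
  have h7 : (T : ℝ) ≤ (r + N) * ((p ^ e : ℕ) - 1 : ℝ) := by
    have h8 : ((T : ℕ) : ℝ) ≤ (((r + N) * (p ^ e - 1) : ℕ) : ℝ) := by exact_mod_cast h4.trans h5
    rw [Nat.cast_mul, Nat.cast_add, Nat.cast_sub (by omega), Nat.cast_one] at h8
    exact h8
  have h9 : (0 : ℝ) < (p ^ e : ℕ) - 1 := by
    have : (2 : ℝ) ≤ (p ^ e : ℕ) := by exact_mod_cast hq
    linarith
  exact le_of_mul_le_mul_right (h6.trans h7) h9

end DP
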