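import Pool.Agent.Lib.MP_9e8926_ag_DP.Pre

/-!
# The bigrading

`comp s` is `weightedHomogeneousComponent wt s`; `coeff_comp` follows from
`coeff_weightedHomogeneousComponent` and `Finsupp.weight wt m = md m` (`Finsupp.weight_apply`,
`Finsupp.sum_fintype`, `Fintype.sum_sum_type`).  Everything else is comparison of coefficients
(`coeff_mul`, antidiagonal; `support_mul`).  In `comp_mul`: if `md (m + m') = s + s'`,
`κ s ≤ κ (md m)` and `κ s' ≤ κ (md m')` then both are equalities and `md m = s`, `md m' = s'` by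
injectivity.
-/

set_option autoImplicit false

noncomputable section

namespace DP

open MvPolynomial

variable {σ τ : Type*} [Fintype σ] [Fintype τ] {k : Type*} [Field k]

theorem md_add (m m' : σ ⊕ τ →₀ ℕ) : md (m + m') = md m + md m' := by
  refine Prod.ext ?_ (funext fun j => ?_)
  · show ∑ i, (m + m') (Sum.inl i) = ∑ i, m (Sum.inl i) + ∑ i, m' (Sum.inl i)
    rw [← Finset.sum_add_distrib]
    rfl
  · rfl

open Classical in
theorem coeff_comp (s : ℕ × (τ → ℕ)) (u : MvPolynomial (σ ⊕ τ) k) (m : σ ⊕ τ →₀ ℕ) :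
    coeff m (comp s u) = if md m = s then coeff m u else 0 := by
  have h1 : Finsupp.weight (wt : σ ⊕ τ → ℕ × (τ → ℕ)) m = md m := by
    rw [Finsupp.weight_apply, Finsupp.sum_fintype m (fun i c => c • (wt i : ℕ × (τ → ℕ)))
      (fun i => zero_nsmul _), Fintype.sum_sum_type]
    refine Prod.ext ?_ (funext fun j' => ?_)
    · rw [Prod.fst_add, Prod.fst_sum, Prod.fst_sum]
      simp [wt, md]
    · rw [Prod.snd_add, Prod.snd_sum, Prod.snd_sum, Pi.add_apply, Finset.sum_apply,
        Finset.sum_apply]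
      simp [wt, md]
  unfold comp
  rw [coeff_weightedHomogeneousComponent, h1]

theorem comp_mem (s : ℕ × (τ → ℕ)) (u : MvPolynomial (σ ⊕ τ) k) : comp s u ∈ PP k s := by
  classical
  intro m hm
  rw [mem_support_iff, coeff_comp] at hm
  by_contra h
  exact hm (if_neg h)

theorem comp_of_mem {s : ℕ × (τ → ℕ)} {u : MvPolynomial (σ ⊕ τ) k} (hu : u ∈ PP k s) :
    comp s u = u := by
  classical
  ext m
  rw [coeff_comp]
  by_cases h : md m = s
  · rw [if_pos h]
  · rw [if_neg h]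
    by_contra h1
    exact h (hu m (mem_support_iff.2 (Ne.symm h1)))

theorem comp_of_ne {s s' : ℕ × (τ → ℕ)} {u : MvPolynomial (σ ⊕ τ) k} (hu : u ∈ PP k s)
    (h : s ≠ s') : comp s' u = 0 := by
  classical
  ext m
  rw [coeff_comp, coeff_zero]
  by_cases h1 : md m = s'
  · rw [if_pos h1]
    by_contra h2
    exact h ((hu m (mem_support_iff.2 h2)).symm.trans h1)
  · rw [if_neg h1]

theorem PP_mul {s s' : ℕ × (τ → ℕ)} {u v : MvPolynomial (σ ⊕ τ) k} (hu : u ∈ PP k s)
    (hv : v ∈ PP k s') : u * v ∈ PP k (s + s') := by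
  classical
  intro m hm
  obtain ⟨m1, hm1, m2, hm2, rfl⟩ := Finset.mem_add.1 (support_mul u v hm)
  rw [md_add, hu m1 hm1, hv m2 hm2]

private theorem Gr_mono (m : σ ⊕ τ →₀ ℕ) (c : k) :
    (monomial m c : MvPolynomial (σ ⊕ τ) k) ∈ PP k (md m) := by
  classical
  intro m' hm'
  rw [mem_support_iff, coeff_monomial] at hm'
  by_contra h
  refine hm' (if_neg ?_)
  rintro rfl
  exact h rfl

theorem PP_one : (1 : MvPolynomial (σ ⊕ τ) k) ∈ PP k 0 := by
  have h1 := Gr_mono (σ := σ) (τ := τ) (k := k) 0 1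
  have h2 : md (0 : σ ⊕ τ →₀ ℕ) = 0 := by
    refine Prod.ext ?_ (funext fun j => rfl)
    show ∑ i, (0 : σ ⊕ τ →₀ ℕ) (Sum.inl i) = 0
    simp
  rwa [h2] at h1

theorem PP_pow {s : ℕ × (τ → ℕ)} {u : MvPolynomial (σ ⊕ τ) k} (hu : u ∈ PP k s) (n : ℕ) :
    u ^ n ∈ PP k (n • s) := by
  induction n with
  | zero =>
    rw [pow_zero, zero_smul]
    exact PP_one
  | succ n ih =>
    rw [pow_succ, succ_nsmul]
    exact PP_mul ih hu

theorem PP_X (v : σ) : (X (Sum.inl v) : MvPolynomial (σ ⊕ τ) k) ∈ PP k (1, 0) := by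
  classical
  have h1 := Gr_mono (k := k) (Finsupp.single (Sum.inl v : σ ⊕ τ) 1) 1
  have h2 : md (Finsupp.single (Sum.inl v : σ ⊕ τ) 1) = (1, 0) := by
    refine Prod.ext ?_ (funext fun j => ?_)
    · show ∑ i, (Finsupp.single (Sum.inl v : σ ⊕ τ) 1) (Sum.inl i) = 1
      simp [Finsupp.single_apply]
    · show (Finsupp.single (Sum.inl v : σ ⊕ τ) 1) (Sum.inr j) = 0
      simp
  rwa [h2] at h1

/-- The monomials `X_v^d y^β`. -/
theorem PP_mono (v : σ) (d : ℕ) (β : τ → ℕ) :
    (X (Sum.inl v) ^ d * ∏ j, X (Sum.inr j) ^ β j : MvPolynomial (σ ⊕ τ) k) ∈ PP k (d, β) := by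
  classical
  have h1 := Gr_mono (k := k) (Finsupp.single (Sum.inl v : σ ⊕ τ) d +
    ∑ j, Finsupp.single (Sum.inr j : σ ⊕ τ) (β j)) 1
  have h2 : md (Finsupp.single (Sum.inl v : σ ⊕ τ) d +
      ∑ j, Finsupp.single (Sum.inr j : σ ⊕ τ) (β j)) = (d, β) := by
    refine Prod.ext ?_ (funext fun j => ?_)
    · show ∑ i, (Finsupp.single (Sum.inl v : σ ⊕ τ) d +
        ∑ j, Finsupp.single (Sum.inr j : σ ⊕ τ) (β j)) (Sum.inl i) = d
      simp [Finsupp.single_apply]
    · show (Finsupp.single (Sum.inl v : σ ⊕ τ) d +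
        ∑ j, Finsupp.single (Sum.inr j : σ ⊕ τ) (β j)) (Sum.inr j) = β j
      simp [Finsupp.single_apply]
  have h3 : (monomial (Finsupp.single (Sum.inl v : σ ⊕ τ) d +
      ∑ j, Finsupp.single (Sum.inr j : σ ⊕ τ) (β j)) (1 : k)) =
      X (Sum.inl v) ^ d * ∏ j, X (Sum.inr j) ^ β j := by
    have h4 : (1 : k) = 1 * 1 := (mul_one 1).symm
    rw [h4, ← monomial_mul, monomial_sum_one, X_pow_eq_monomial]
    congr 1
    refine Finset.prod_congr rfl fun j _ => ?_
    rw [X_pow_eq_monomial]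
  rwa [h2, h3] at h1

/-- The bidegree `s` part of `Q u` for `Q` of bidegree `a`. -/
theorem comp_mul_left {a s : ℕ × (τ → ℕ)} {Q : MvPolynomial (σ ⊕ τ) k} (hQ : Q ∈ PP k a)
    (u : MvPolynomial (σ ⊕ τ) k) : comp (s + a) (Q * u) = Q * comp s u := by
  classical
  have h1 : Q * u = Q * comp s u + Q * (u - comp s u) := by ring
  have h2 : Q * comp s u ∈ PP k (s + a) := by
    rw [add_comm s a]
    exact PP_mul hQ (comp_mem s u)
  have h3 : comp (s + a) (Q * (u - comp s u)) = 0 := by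
    ext m
    rw [coeff_comp, coeff_zero]
    by_cases h4 : md m = s + a
    · rw [if_pos h4]
      by_contra h5
      obtain ⟨m1, hm1, m2, hm2, rfl⟩ :=
        Finset.mem_add.1 (support_mul Q (u - comp s u) (mem_support_iff.2 h5))
      rw [md_add, hQ m1 hm1, add_comm s a] at h4
      have h6 : md m2 = s := add_left_cancel h4
      rw [mem_support_iff, coeff_sub, coeff_comp, if_pos h6, sub_self] at hm2
      exact hm2 rfl
    · rw [if_neg h4]
  rw [h1, map_add, h3, add_zero, comp_of_mem h2]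

/-- Divisibility by a form in one bidegree. -/
theorem exists_of_dvd {s : ℕ × (τ → ℕ)} {Q u : MvPolynomial (σ ⊕ τ) k} (hQ : Q ∈ PP k (2, 0))
    (hu : u ∈ PP k s) (h : Q ∣ u) (hu0 : u ≠ 0) :
    ∃ (s' : ℕ × (τ → ℕ)) (v : MvPolynomial (σ ⊕ τ) k), s = s' + (2, 0) ∧ v ∈ PP k s' ∧
      u = Q * v := by
  classical
  obtain ⟨w, rfl⟩ := h
  obtain ⟨m, hm⟩ := support_nonempty.2 hu0
  have hms := hu m hm
  obtain ⟨m1, hm1, m2, hm2, rfl⟩ := Finset.mem_add.1 (support_mul Q w hm)
  rw [md_add, hQ m1 hm1, add_comm] at hms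
  refine ⟨md m2, comp (md m2) w, hms.symm, comp_mem _ _, ?_⟩
  rw [← comp_mul_left hQ w, hms, comp_of_mem hu]

theorem PP_finite (s : ℕ × (τ → ℕ)) :
    Module.Finite k (PP k s : Submodule k (MvPolynomial (σ ⊕ τ) k)) := by
  classical
  have hfin : {m : σ ⊕ τ →₀ ℕ | md m = s}.Finite := by
    refine (Set.finite_Iic (Finsupp.equivFunOnFinite.symm (Sum.elim (fun _ => s.1) s.2 :
      σ ⊕ τ → ℕ))).subset ?_
    intro m hm
    have hm' : md m = s := hm
    rw [Set.mem_Iic]
    intro v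
    rw [Finsupp.coe_equivFunOnFinite_symm]
    rcases v with i | j
    · show m (Sum.inl i) ≤ s.1
      rw [← hm']
      exact Finset.single_le_sum (f := fun i => m (Sum.inl i)) (fun _ _ => Nat.zero_le _)
        (Finset.mem_univ i)
    · show m (Sum.inr j) ≤ s.2 j
      rw [← hm']
      exact le_rfl
  have hle : (PP k s : Submodule k (MvPolynomial (σ ⊕ τ) k)) ≤
      Submodule.span k ((fun m => monomial m (1 : k)) '' {m : σ ⊕ τ →₀ ℕ | md m = s}) := by
    intro u hu
    rw [← support_sum_monomial_coeff u]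
    refine Submodule.sum_mem _ fun m hm => ?_
    have h1 : monomial m (coeff m u) = coeff m u • monomial m (1 : k) := by
      rw [smul_monomial, smul_eq_mul, mul_one]
    rw [h1]
    exact Submodule.smul_mem _ _ (Submodule.subset_span ⟨m, hu m hm, rfl⟩)
  have h2 := FiniteDimensional.span_of_finite k (hfin.image fun m => monomial m (1 : k))
  exact Submodule.finiteDimensional_of_le hle

end DP
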