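import Pool.Agent.Lib.MP_9e8926_ag_DP.Gr
import Pool.Agent.Lib.MP_9e8926_ag_DP.Frb

/-!
# Leading forms of products

In `comp_mul`: the coefficient of `m` with `md m = s + s'` in `h h'` is the sum over `m = a + a'` of
`coeff a h * coeff a' h'`; if both are nonzero then `κ s ≤ κ (md a)`, `κ s' ≤ κ (md a')` and
`κ (md a) + κ (md a') = κ s + κ s'`, so equality holds in both and `md a = s`, `md a' = s'` by
injectivity.  Powers and products by induction.  `comp_mem_J`: `J q` is a monomial ideal (`mem_J`).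
-/

set_option autoImplicit false

noncomputable section

namespace DP

open MvPolynomial

variable {σ τ : Type*} [Fintype σ] [Fintype τ] {k : Type*} [Field k]
  {Γ : Type*} [AddCommGroup Γ] [LinearOrder Γ] [IsOrderedAddMonoid Γ]
  (κ : ℕ × (τ → ℕ) →+ Γ)

theorem ge_of_mem {s : ℕ × (τ → ℕ)} {u : MvPolynomial (σ ⊕ τ) k} (hu : u ∈ PP k s) :
    Ge κ s u := fun m hm => le_of_eq (by rw [hu m hm])

theorem ge_mul {s s' : ℕ × (τ → ℕ)} {h h' : MvPolynomial (σ ⊕ τ) k} (hh : Ge κ s h)
    (hh' : Ge κ s' h') : Ge κ (s + s') (h * h') := by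
  classical
  intro m hm
  obtain ⟨a, ha, a', ha', rfl⟩ := Finset.mem_add.1 (support_mul h h' hm)
  rw [md_add, map_add, map_add]
  exact add_le_add (hh a ha) (hh' a' ha')

theorem comp_mul (hκ : Function.Injective κ) {s s' : ℕ × (τ → ℕ)} {h h' : MvPolynomial (σ ⊕ τ) k}
    (hh : Ge κ s h) (hh' : Ge κ s' h') : comp (s + s') (h * h') = comp s h * comp s' h' := by
  classical
  ext m
  rw [coeff_comp, coeff_mul, coeff_mul]
  have key : ∀ x ∈ Finset.HasAntidiagonal.antidiagonal m,
      (if md m = s + s' then coeff x.1 h * coeff x.2 h' else 0) =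
        coeff x.1 (comp s h) * coeff x.2 (comp s' h') := by
    rintro ⟨a, a'⟩ hx
    rw [Finset.HasAntidiagonal.mem_antidiagonal] at hx
    simp only at hx ⊢
    rw [coeff_comp, coeff_comp, ← hx, md_add]
    by_cases h1 : md a = s ∧ md a' = s'
    · rw [if_pos h1.1, if_pos h1.2, h1.1, h1.2, if_pos rfl]
    · have h2 : (if md a = s then coeff a h else 0) * (if md a' = s' then coeff a' h' else 0) = 0 := by
        by_cases h3 : md a = s
        · have h4 : md a' ≠ s' := fun h4 => h1 ⟨h3, h4⟩
          rw [if_neg h4, mul_zero]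
        · rw [if_neg h3, zero_mul]
      rw [h2]
      by_cases h3 : md a + md a' = s + s'
      · rw [if_pos h3]
        by_contra h4
        have h5 := hh a (mem_support_iff.2 (left_ne_zero_of_mul h4))
        have h6 := hh' a' (mem_support_iff.2 (right_ne_zero_of_mul h4))
        have h7 : κ (md a) + κ (md a') = κ s + κ s' := by
          rw [← map_add, ← map_add, h3]
        have h8 : κ s = κ (md a) := by
          refine le_antisymm h5 ?_
          by_contra h9
          rw [not_le] at h9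
          exact absurd h7.symm (add_lt_add_of_lt_of_le h9 h6).ne
        have h9 : κ s' = κ (md a') := by
          rw [← h8] at h7
          exact (add_left_cancel h7).symm
        exact h1 ⟨(hκ h8).symm, (hκ h9).symm⟩
      · rw [if_neg h3]
  rw [← Finset.sum_congr rfl key]
  by_cases h1 : md m = s + s'
  · simp only [if_pos h1]
  · simp only [if_neg h1, Finset.sum_const_zero]

theorem ge_pow {s : ℕ × (τ → ℕ)} {h : MvPolynomial (σ ⊕ τ) k} (hh : Ge κ s h) (n : ℕ) :
    Ge κ (n • s) (h ^ n) := by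
  induction n with
  | zero =>
    rw [zero_smul, pow_zero]
    exact ge_of_mem κ PP_one
  | succ n ih =>
    rw [succ_nsmul, pow_succ]
    exact ge_mul κ ih hh

theorem comp_pow (hκ : Function.Injective κ) {s : ℕ × (τ → ℕ)} {h : MvPolynomial (σ ⊕ τ) k}
    (hh : Ge κ s h) (n : ℕ) : comp (n • s) (h ^ n) = comp s h ^ n := by
  induction n with
  | zero =>
    rw [zero_smul, pow_zero, pow_zero]
    exact comp_of_mem PP_one
  | succ n ih =>
    rw [succ_nsmul, pow_succ, pow_succ, comp_mul κ hκ (ge_pow κ hh n) hh, ih]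

theorem ge_prod {T : Type*} (F : Finset T) (s : T → ℕ × (τ → ℕ)) (h : T → MvPolynomial (σ ⊕ τ) k)
    (hh : ∀ t ∈ F, Ge κ (s t) (h t)) : Ge κ (∑ t ∈ F, s t) (∏ t ∈ F, h t) := by
  classical
  induction F using Finset.induction with
  | empty =>
    rw [Finset.sum_empty, Finset.prod_empty]
    exact ge_of_mem κ PP_one
  | insert a F ha ih =>
    rw [Finset.sum_insert ha, Finset.prod_insert ha]
    exact ge_mul κ (hh a (Finset.mem_insert_self a F))
      (ih fun t ht => hh t (Finset.mem_insert_of_mem ht))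

theorem comp_prod (hκ : Function.Injective κ) {T : Type*} (F : Finset T) (s : T → ℕ × (τ → ℕ))
    (h : T → MvPolynomial (σ ⊕ τ) k) (hh : ∀ t ∈ F, Ge κ (s t) (h t)) :
    comp (∑ t ∈ F, s t) (∏ t ∈ F, h t) = ∏ t ∈ F, comp (s t) (h t) := by
  classical
  induction F using Finset.induction with
  | empty =>
    rw [Finset.sum_empty, Finset.prod_empty, Finset.prod_empty]
    exact comp_of_mem PP_one
  | insert a F ha ih =>
    rw [Finset.sum_insert ha, Finset.prod_insert ha, Finset.prod_insert ha,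
      comp_mul κ hκ (hh a (Finset.mem_insert_self a F))
        (ge_prod κ F s h fun t ht => hh t (Finset.mem_insert_of_mem ht)),
      ih fun t ht => hh t (Finset.mem_insert_of_mem ht)]

theorem comp_mem_J {q : ℕ} {u : MvPolynomial (σ ⊕ τ) k} (hu : u ∈ J (σ ⊕ τ) k q)
    (s : ℕ × (τ → ℕ)) : comp s u ∈ J (σ ⊕ τ) k q := by
  classical
  rw [mem_J] at hu ⊢
  intro m hm
  refine hu m ?_
  rw [mem_support_iff, coeff_comp] at hm
  rw [mem_support_iff]
  intro h
  rw [h, ite_self] at hm
  exact hm rfl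

/-- `Y_q` has one bidegree. -/
theorem Yq_mem (b : τ → ℚ) (q : ℕ) : (Yq b q : MvPolynomial (σ ⊕ τ) k) ∈
    PP k ((0, fun j => ⌈(b j : ℝ) * ((q : ℝ) - 1)⌉₊) : ℕ × (τ → ℕ)) := by
  classical
  have h1 : (Yq b q : MvPolynomial (σ ⊕ τ) k) = monomial
      (∑ j, Finsupp.single (Sum.inr j : σ ⊕ τ) ⌈(b j : ℝ) * ((q : ℝ) - 1)⌉₊) 1 := by
    unfold Yq
    rw [monomial_sum_one]
    refine Finset.prod_congr rfl fun j _ => ?_
    rw [X_pow_eq_monomial]
  intro m hm
  rw [h1] at hm
  have h2 := Finset.mem_singleton.1 (support_monomial_subset hm)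
  have h3 : ∀ x : σ ⊕ τ, m x = ∑ j, (Finsupp.single (Sum.inr j : σ ⊕ τ)
      ⌈(b j : ℝ) * ((q : ℝ) - 1)⌉₊) x := by
    intro x
    rw [h2]
    exact Finsupp.finsetSum_apply _ _ _
  refine Prod.ext ?_ (funext fun j => ?_)
  · change ∑ i, m (Sum.inl i) = 0
    refine Finset.sum_eq_zero fun i _ => ?_
    rw [h3]
    refine Finset.sum_eq_zero fun j _ => ?_
    rw [Finsupp.single_eq_of_ne]
    exact Sum.inl_ne_inr
  · change m (Sum.inr j) = _
    rw [h3, Finset.sum_eq_single j]
    · rw [Finsupp.single_eq_same]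
    · intro i _ hi
      rw [Finsupp.single_eq_of_ne]
      exact fun h => hi (Sum.inr_injective h).symm
    · intro h
      exact absurd (Finset.mem_univ j) h

end DP
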