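import Pool.Agent.Lib.MP_9e8926_ag_DP.GrM

/-!
# Colength and leading forms

Model: `CX.sum_finrank_le` in `Pool/Agent/Lib/MP_9e8926_ag_CX/LexD.lean`.

For every `s ∈ F` choose a complement `C s` of `inn κ I s` in `PP k s` (both finite-dimensional,
`PP_finite`; `inn_le`).  The map `∏_{s ∈ F} C s → P/I`, `(c_s) ↦ ∑ c_s` is injective: if `∑ c_s ∈ I`
and not all `c_s` are zero, let `s0` be the one with `c_{s0} ≠ 0` and smallest `κ s0`; then
`Ge κ s0 (∑ c_s)` and `comp s0 (∑ c_s) = c_{s0}`, so `c_{s0} ∈ inn κ I s0 ∩ C s0 = 0`.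
So `∑_{s ∈ F} (dim PP s - dim inn s) ≤ dim P/I`.
-/

set_option autoImplicit false

noncomputable section

namespace DP

open MvPolynomial

variable {σ τ : Type*} [Fintype σ] [Fintype τ] {k : Type*} [Field k]
  {Γ : Type*} [AddCommGroup Γ] [LinearOrder Γ] [IsOrderedAddMonoid Γ]
  (κ : ℕ × (τ → ℕ) →+ Γ)

theorem inn_le (I : Ideal (MvPolynomial (σ ⊕ τ) k)) (s : ℕ × (τ → ℕ)) :
    inn κ I s ≤ PP k s := by
  rintro u ⟨h, -, -, rfl⟩
  exact comp_mem s h

theorem inn_mono {I I' : Ideal (MvPolynomial (σ ⊕ τ) k)} (h : I ≤ I') (s : ℕ × (τ → ℕ)) :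
    inn κ I s ≤ inn κ I' s := by
  rintro u ⟨g, hg, h1, h2⟩
  exact ⟨g, h hg, h1, h2⟩

theorem inn_top (s : ℕ × (τ → ℕ)) :
    inn κ (⊤ : Ideal (MvPolynomial (σ ⊕ τ) k)) s = PP k s := by
  refine le_antisymm (inn_le κ ⊤ s) fun u hu => ⟨u, trivial, ge_of_mem κ hu, comp_of_mem hu⟩

theorem sum_finrank (hκ : Function.Injective κ) (I : Ideal (MvPolynomial (σ ⊕ τ) k))
    [Module.Finite k (MvPolynomial (σ ⊕ τ) k ⧸ I)] (F : Finset (ℕ × (τ → ℕ))) :
    ∑ s ∈ F, Module.finrank k (PP k s : Submodule k (MvPolynomial (σ ⊕ τ) k)) ≤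
      Module.finrank k (MvPolynomial (σ ⊕ τ) k ⧸ I) +
        ∑ s ∈ F, Module.finrank k (inn κ I s) := by
  classical
  let W : ∀ s : ℕ × (τ → ℕ), Submodule k (PP k s : Submodule k (MvPolynomial (σ ⊕ τ) k)) :=
    fun s => (inn κ I s).comap (PP k s).subtype
  have hW : ∀ s, Module.finrank k (W s) = Module.finrank k (inn κ I s) := fun s =>
    (Submodule.comapSubtypeEquivOfLe (inn_le κ I s)).finrank_eq
  have hsec : ∀ s, ∃ c : ((PP k s : Submodule k (MvPolynomial (σ ⊕ τ) k)) ⧸ W s) →ₗ[k]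
      (PP k s : Submodule k (MvPolynomial (σ ⊕ τ) k)), ∀ x, (W s).mkQ (c x) = x := by
    intro s
    obtain ⟨c, hc⟩ := LinearMap.exists_rightInverse_of_surjective (W s).mkQ (W s).range_mkQ
    exact ⟨c, fun x => LinearMap.congr_fun hc x⟩
  choose c hc using hsec
  let Ψ : (∀ s : F, (PP k s.1 : Submodule k (MvPolynomial (σ ⊕ τ) k)) ⧸ W s.1) →ₗ[k]
      (MvPolynomial (σ ⊕ τ) k ⧸ I) :=
    ∑ s : F, ((Ideal.Quotient.mkₐ k I).toLinearMap ∘ₗ (PP k s.1).subtype ∘ₗ (c s.1)) ∘ₗ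
      LinearMap.proj s
  have hΨ : ∀ x, Ψ x = Ideal.Quotient.mk I (∑ s : F, (c s.1 (x s) : MvPolynomial (σ ⊕ τ) k)) := by
    intro x
    rw [map_sum, LinearMap.sum_apply]
    rfl
  have hinj : Function.Injective Ψ := by
    rw [injective_iff_map_eq_zero]
    intro x hx
    rw [hΨ, Ideal.Quotient.eq_zero_iff_mem] at hx
    by_contra hne
    obtain ⟨ν', hν'⟩ := Function.ne_iff.mp hne
    obtain ⟨s0, hs0, hmin⟩ := Finset.exists_min_image
      (Finset.univ.filter fun s : F => x s ≠ 0) (fun s => κ s.1)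
      ⟨ν', Finset.mem_filter.2 ⟨Finset.mem_univ _, hν'⟩⟩
    have hx0 : x s0 ≠ 0 := (Finset.mem_filter.1 hs0).2
    apply hx0
    rw [← hc s0.1 (x s0), Submodule.mkQ_apply, Submodule.Quotient.mk_eq_zero]
    change (c s0.1 (x s0) : MvPolynomial (σ ⊕ τ) k) ∈ inn κ I s0.1
    refine ⟨_, hx, ?_, ?_⟩
    · intro m hm
      obtain ⟨s, hs, hms⟩ := Finset.mem_biUnion.1 (support_sum hm)
      have h1 : md m = s.1 := (c s.1 (x s)).2 m hms
      rw [h1]
      refine hmin s (Finset.mem_filter.2 ⟨Finset.mem_univ _, fun h2 => ?_⟩)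
      rw [h2, map_zero] at hms
      simp at hms
    · rw [map_sum, Finset.sum_eq_single s0]
      · exact comp_of_mem (c s0.1 (x s0)).2
      · intro s _ hs
        exact comp_of_ne (c s.1 (x s)).2 fun h1 => hs (Subtype.ext h1)
      · intro h1
        exact absurd (Finset.mem_univ _) h1
  have hfin : ∀ s, Module.Finite k (PP k s : Submodule k (MvPolynomial (σ ⊕ τ) k)) := PP_finite
  have h1 : ∑ s ∈ F, Module.finrank k ((PP k s : Submodule k (MvPolynomial (σ ⊕ τ) k)) ⧸ W s) ≤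
      Module.finrank k (MvPolynomial (σ ⊕ τ) k ⧸ I) := by
    have hfree : ∀ s : F, Module.Free k
        ((PP k s.1 : Submodule k (MvPolynomial (σ ⊕ τ) k)) ⧸ W s.1) := fun s =>
      Module.Free.of_divisionRing k _
    have hfi : ∀ s : F, Module.Finite k
        ((PP k s.1 : Submodule k (MvPolynomial (σ ⊕ τ) k)) ⧸ W s.1) := fun s =>
      Module.Finite.quotient k (W s.1)
    rw [← Finset.sum_coe_sort, ← Module.finrank_pi_fintype]
    exact LinearMap.finrank_le_finrank_of_injective hinj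
  have h2 : ∑ s ∈ F, Module.finrank k (PP k s : Submodule k (MvPolynomial (σ ⊕ τ) k)) =
      ∑ s ∈ F, Module.finrank k ((PP k s : Submodule k (MvPolynomial (σ ⊕ τ) k)) ⧸ W s) +
        ∑ s ∈ F, Module.finrank k (inn κ I s) := by
    rw [← Finset.sum_add_distrib]
    refine Finset.sum_congr rfl fun s _ => ?_
    rw [← hW s, Submodule.finrank_quotient_add_finrank]
  rw [h2]
  exact Nat.add_le_add_right h1 _

end DP
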