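import Pool.Agent.Lib.MP_9e8926_ag_DP.InD

/-!
# Leading forms modulo `Q`

If `f ∈ I` has leading form `Q` then `Q v ∈ inn κ I s` for `v ∈ PP k s'`, `s = s' + (2,0)` (take
`f v`, `comp_mul`).  The kernel of `PP k s → VV Q s` consists of the multiples of `Q` in `PP k s`,
which are the `Q v` (`exists_of_dvd`) and lie in `inn κ I s`; so the kernel of
`inn κ I s → (inn κ I s).map mk` is the same and
`dim PP s - dim VV s = dim inn s - dim (inn s).map mk`.  Insert into `sum_finrank`.
-/

set_option autoImplicit false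

noncomputable section

namespace DP

open MvPolynomial

variable {σ τ : Type*} [Fintype σ] [Fintype τ] {k : Type*} [Field k]
  {Γ : Type*} [AddCommGroup Γ] [LinearOrder Γ] [IsOrderedAddMonoid Γ]
  (κ : ℕ × (τ → ℕ) →+ Γ)

/-- The classes modulo `Q` of the leading forms of bidegree `s` of `I`. -/
def innQ {k : Type*} [Field k] (κ : ℕ × (τ → ℕ) →+ Γ) (Q : MvPolynomial (σ ⊕ τ) k)
    (I : Ideal (MvPolynomial (σ ⊕ τ) k)) (s : ℕ × (τ → ℕ)) : Submodule k (Rg Q) :=
  (inn κ I s).map (Ideal.Quotient.mkₐ k (Ideal.span {Q})).toLinearMap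

theorem innQ_le (Q : MvPolynomial (σ ⊕ τ) k) (I : Ideal (MvPolynomial (σ ⊕ τ) k))
    (s : ℕ × (τ → ℕ)) : innQ κ Q I s ≤ VV Q s := by
  exact Submodule.map_mono (inn_le κ I s)

theorem innQ_mono (Q : MvPolynomial (σ ⊕ τ) k) {I I' : Ideal (MvPolynomial (σ ⊕ τ) k)}
    (h : I ≤ I') (s : ℕ × (τ → ℕ)) : innQ κ Q I s ≤ innQ κ Q I' s := by
  exact Submodule.map_mono (inn_mono κ h s)

theorem innQ_top (Q : MvPolynomial (σ ⊕ τ) k) (s : ℕ × (τ → ℕ)) : innQ κ Q ⊤ s = VV Q s := by
  unfold innQ VV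
  rw [inn_top]

private theorem InQ_rn {K A B : Type*} [Field K] [AddCommGroup A] [Module K A] [AddCommGroup B]
    [Module K B] (L : A →ₗ[K] B) {W W' : Submodule K A} (h : W' ≤ W) [Module.Finite K W] :
    Module.finrank K (W.map L) + Module.finrank K W' ≤
      Module.finrank K W + Module.finrank K (W'.map L) := by
  have : Module.Finite K W' := Submodule.finiteDimensional_of_le h
  have h1 := LinearMap.finrank_range_add_finrank_ker (L.domRestrict W)
  have h2 := LinearMap.finrank_range_add_finrank_ker (L.domRestrict W')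
  rw [LinearMap.range_domRestrict] at h1 h2
  have h3 : Module.finrank K (LinearMap.ker (L.domRestrict W')) ≤
      Module.finrank K (LinearMap.ker (L.domRestrict W)) := by
    have hf : ∀ x ∈ LinearMap.ker (L.domRestrict W'),
        Submodule.inclusion h x ∈ LinearMap.ker (L.domRestrict W) := by
      intro x hx
      rw [LinearMap.mem_ker] at hx ⊢
      exact hx
    refine LinearMap.finrank_le_finrank_of_injective (f := (Submodule.inclusion h).restrict hf) ?_
    intro x y hxy
    have h4 : Submodule.inclusion h x.1 = Submodule.inclusion h y.1 :=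
      congrArg (fun z : LinearMap.ker (L.domRestrict W) => z.1) hxy
    exact Subtype.ext (Submodule.inclusion_injective h h4)
  omega

theorem sum_finrank_VV (hκ : Function.Injective κ) (Q : MvPolynomial (σ ⊕ τ) k)
    (hQ : Q ∈ PP k (2, 0)) (I : Ideal (MvPolynomial (σ ⊕ τ) k))
    [Module.Finite k (MvPolynomial (σ ⊕ τ) k ⧸ I)] (f : MvPolynomial (σ ⊕ τ) k) (hf : f ∈ I)
    (hf1 : Ge κ (2, 0) f) (hf2 : comp (2, 0) f = Q) (F : Finset (ℕ × (τ → ℕ))) :
    ∑ s ∈ F, Module.finrank k (VV Q s) ≤ Module.finrank k (MvPolynomial (σ ⊕ τ) k ⧸ I) +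
      ∑ s ∈ F, Module.finrank k (innQ κ Q I s) := by
  have h1 := sum_finrank κ hκ I F
  have h2 : ∑ s ∈ F, (Module.finrank k (VV Q s) + Module.finrank k (inn κ I s)) ≤
      ∑ s ∈ F, (Module.finrank k (PP k s : Submodule k (MvPolynomial (σ ⊕ τ) k)) +
        Module.finrank k (innQ κ Q I s)) := by
    refine Finset.sum_le_sum fun s _ => ?_
    have : Module.Finite k (PP k s : Submodule k (MvPolynomial (σ ⊕ τ) k)) := PP_finite s
    exact InQ_rn (Ideal.Quotient.mkₐ k (Ideal.span {Q})).toLinearMap (inn_le κ I s)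
  rw [Finset.sum_add_distrib, Finset.sum_add_distrib] at h2
  omega

end DP
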