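import Pool.Agent.Lib.MP_9e8926_ag_DP.KemA

/-!
# The Kempf type inequality

Proof.  Fix `m i = ∑ j, w i j` and let `𝒲` be the set of all weighted families of bases `(B, w)` with
`Iso` and `∑ j, w i j = m i`; it contains the given one.  The second moments `∑ i, ∑ j, w i j ^ 2` are
bounded below by 0; for `ε > 0` choose `(B, w) ∈ 𝒲` whose second moment is at most the infimum plus
`ε`.  For `γ ∈ G` the family `(γ ∘ B, w)` is in `𝒲` (`γ` is injective and maps `V i` into itself,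
`V i` is finite-dimensional, so `γ ∘ B i` is a basis of `V i`; `Iso` because `γ` preserves `𝔮`).  By
`average` (with `B' = γ ∘ B`), `γ (lev B w x) = lev (γ ∘ B) w x ≤ lev B w (x - 2 √ε)`.
For `t : T` let `W t = max_j w (s t) j` (`D (s t) ≠ 0`, since otherwise `V (s t) = 0`, `e t = 0` and
`∏ e = 0 ∈ 𝔮`), attained at `j`, and `u = B (s t) j ≠ 0`: all `γ u` (`γ ∈ G`) are in
`lev B w (W t - 2 √ε)`, so `e t` is.  If `∑ (W t - 2 √ε) > T0` then `∏ e t ∈ 𝔮` by `iso_lev`: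
contradiction.  So `∑ W t ≤ T0 + 2 |T| √ε`; finally `(∑ j, w (s t) j) / D (s t) ≤ W t` and the left
hand sides do not depend on `ε`; `ε → 0`.
-/

set_option autoImplicit false

noncomputable section

namespace DP

variable {K A : Type*} [Field K] [CommRing A] [Algebra K A] {ι T : Type*} [Fintype ι] [Fintype T]

/-- An injective algebra map that maps `V` into itself maps a basis of `V` to a basis of `V`. -/
private theorem Kem_bas {V : Submodule K A} {D : ℕ} {B : Fin D → A} (hB : IsBas V B)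
    (γ : A →ₐ[K] A) (hγ : Function.Injective γ) (hV : ∀ v ∈ V, γ v ∈ V) :
    IsBas V (fun j => γ (B j)) := by
  have hli : LinearIndependent K (fun j => γ (B j)) := by
    have h := hB.1.map' γ.toLinearMap (LinearMap.ker_eq_bot.mpr hγ)
    exact h
  refine ⟨hli, ?_⟩
  have hle : Submodule.span K (Set.range fun j => γ (B j)) ≤ V := by
    rw [Submodule.span_le]
    rintro _ ⟨j, rfl⟩
    refine hV _ ?_
    rw [← hB.2]
    exact Submodule.subset_span ⟨j, rfl⟩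
  have hfin : Module.Finite K V := by
    rw [← hB.2]
    exact Module.Finite.span_of_finite K (Set.finite_range B)
  refine Submodule.eq_of_le_of_finrank_le hle ?_
  rw [finrank_span_eq_card hli, Fintype.card_fin, finrank_bas hB]

private theorem Kem_lev (γ : A →ₐ[K] A) {D : ℕ} (B : Fin D → A) (w : Fin D → ℝ) (x : ℝ) {u : A}
    (hu : u ∈ lev K B w x) : γ u ∈ lev K (fun j => γ (B j)) w x := by
  unfold lev at hu ⊢
  have h : γ.toLinearMap u ∈ Submodule.map γ.toLinearMap (Submodule.span K (B '' {i | x ≤ w i})) :=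
    Submodule.mem_map_of_mem hu
  rw [Submodule.map_span, ← Set.image_comp] at h
  exact h

theorem kempf (V : ι → Submodule K A) (D : ι → ℕ) (𝔮 : Ideal A) (G : Set (A →ₐ[K] A))
    (hGi : ∀ γ ∈ G, Function.Injective γ) (hGV : ∀ γ ∈ G, ∀ i, ∀ v ∈ V i, γ v ∈ V i)
    (hGq : ∀ γ ∈ G, ∀ a ∈ 𝔮, γ a ∈ 𝔮) (s : T → ι) (e : T → A) (heV : ∀ t, e t ∈ V (s t))
    (hspan : ∀ t, ∀ u ∈ V (s t), u ≠ 0 → e t ∈ Submodule.span K {v | ∃ γ ∈ G, v = γ u})
    (he : ∏ t, e t ∉ 𝔮) (B : (i : ι) → Fin (D i) → A) (hB : ∀ i, IsBas (V i) (B i))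
    (w : (i : ι) → Fin (D i) → ℝ) (T0 : ℝ) (h : Iso D 𝔮 s B w T0) :
    ∑ t, (∑ j, w (s t) j) / (D (s t) : ℝ) ≤ T0 := by
  by_contra hcon
  push Not at hcon
  set LH : ℝ := ∑ t, (∑ j, w (s t) j) / (D (s t) : ℝ) with hLH
  have hδ : 0 < LH - T0 := by linarith
  set nT : ℝ := (Fintype.card T : ℝ) with hnT
  have hnT0 : 0 ≤ nT := Nat.cast_nonneg _
  set r : ℝ := (LH - T0) / (2 * nT + 2) with hr
  have hr0 : 0 < r := by positivity
  have hrT : 2 * nT * r < LH - T0 := by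
    have h1 : r * (2 * nT + 2) = LH - T0 := by
      rw [hr]
      field_simp
    nlinarith
  -- the set of second moments
  set S : Set ℝ := {m | ∃ (Z : (i : ι) → Fin (D i) → A) (ω : (i : ι) → Fin (D i) → ℝ),
    (∀ i, IsBas (V i) (Z i)) ∧ Iso D 𝔮 s Z ω T0 ∧ (∀ i, ∑ j, ω i j = ∑ j, w i j) ∧
      m = ∑ i, ∑ j, ω i j ^ 2} with hS
  have hne : S.Nonempty := ⟨_, B, w, hB, h, fun i => rfl, rfl⟩
  have hbd : BddBelow S := by
    refine ⟨0, ?_⟩
    rintro m ⟨Z, ω, _, _, _, rfl⟩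
    exact Finset.sum_nonneg fun i _ => Finset.sum_nonneg fun j _ => sq_nonneg _
  obtain ⟨m, ⟨B1, w1, hB1, hI1, hs1, rfl⟩, hm⟩ := Real.lt_sInf_add_pos hne (pow_pos hr0 2)
  have hmin : ∀ (Z : (i : ι) → Fin (D i) → A) (ω : (i : ι) → Fin (D i) → ℝ),
      (∀ i, IsBas (V i) (Z i)) → Iso D 𝔮 s Z ω T0 → (∀ i, ∑ j, ω i j = ∑ j, w1 i j) →
      ∑ i, ∑ j, w1 i j ^ 2 ≤ r ^ 2 + ∑ i, ∑ j, ω i j ^ 2 := by
    intro Z ω hZ hIZ hsZ
    have h1 : sInf S ≤ ∑ i, ∑ j, ω i j ^ 2 :=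
      csInf_le hbd ⟨Z, ω, hZ, hIZ, fun i => (hsZ i).trans (hs1 i), rfl⟩
    linarith
  have hsq : Real.sqrt (r ^ 2) = r := Real.sqrt_sq hr0.le
  have hav : ∀ γ ∈ G, ∀ i x, lev K (fun j => γ (B1 i j)) (w1 i) x ≤
      lev K (B1 i) (w1 i) (x - 2 * r) := by
    intro γ hγ i x
    have hI' : Iso D 𝔮 s (fun i j => γ (B1 i j)) w1 T0 := by
      intro c hc
      rw [← map_prod]
      exact hGq γ hγ _ (hI1 c hc)
    have h2 := average V D 𝔮 s B1 (fun i j => γ (B1 i j)) hB1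
      (fun i => Kem_bas (hB1 i) γ (hGi γ hγ) (hGV γ hγ i)) w1 T0 hI1 hI' (r ^ 2) (sq_nonneg _)
      hmin i x
    rw [hsq] at h2
    exact h2
  -- `D (s t) ≠ 0`
  have hD : ∀ t, D (s t) ≠ 0 := by
    intro t ht
    apply he
    have h0 : e t = 0 := by
      have h1 := heV t
      rw [← (hB1 (s t)).2] at h1
      have h2 : IsEmpty (Fin (D (s t))) := by
        rw [ht]
        exact Fin.isEmpty
      rw [Set.range_eq_empty, Submodule.span_empty, Submodule.mem_bot] at h1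
      exact h1
    rw [Finset.prod_eq_zero (Finset.mem_univ t) h0]
    exact 𝔮.zero_mem
  have hmax : ∀ t, ∃ j0 : Fin (D (s t)), ∀ j, w1 (s t) j ≤ w1 (s t) j0 := by
    intro t
    haveI : Nonempty (Fin (D (s t))) := ⟨⟨0, Nat.pos_of_ne_zero (hD t)⟩⟩
    obtain ⟨j0, _, hj0⟩ := Finset.exists_max_image Finset.univ (w1 (s t)) Finset.univ_nonempty
    exact ⟨j0, fun j => hj0 j (Finset.mem_univ j)⟩
  choose j0 hj0 using hmax
  have hev : ∀ t, e t ∈ lev K (B1 (s t)) (w1 (s t)) (w1 (s t) (j0 t) - 2 * r) := by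
    intro t
    have hu : B1 (s t) (j0 t) ∈ V (s t) := by
      rw [← (hB1 (s t)).2]
      exact Submodule.subset_span ⟨j0 t, rfl⟩
    have hu0 : B1 (s t) (j0 t) ≠ 0 := (hB1 (s t)).1.ne_zero (j0 t)
    have h1 := hspan t _ hu hu0
    have h2 : Submodule.span K {v | ∃ γ ∈ G, v = γ (B1 (s t) (j0 t))} ≤
        lev K (B1 (s t)) (w1 (s t)) (w1 (s t) (j0 t) - 2 * r) := by
      rw [Submodule.span_le]
      rintro _ ⟨γ, hγ, rfl⟩
      refine hav γ hγ (s t) (w1 (s t) (j0 t)) ?_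
      refine Kem_lev γ _ _ _ ?_
      exact Submodule.subset_span ⟨j0 t, le_refl (w1 (s t) (j0 t)), rfl⟩
    exact h2 h1
  have hsum : ∑ t, (w1 (s t) (j0 t) - 2 * r) ≤ T0 := by
    by_contra hc
    push Not at hc
    exact he (iso_lev (V := V) hI1 _ hc e hev)
  have hle : LH ≤ ∑ t, w1 (s t) (j0 t) := by
    rw [hLH]
    refine Finset.sum_le_sum fun t _ => ?_
    rw [← hs1 (s t)]
    have hDp : (0 : ℝ) < D (s t) := by
      exact_mod_cast Nat.pos_of_ne_zero (hD t)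
    rw [div_le_iff₀ hDp]
    calc ∑ j, w1 (s t) j ≤ ∑ _j : Fin (D (s t)), w1 (s t) (j0 t) :=
          Finset.sum_le_sum fun j _ => hj0 t j
      _ = w1 (s t) (j0 t) * (D (s t) : ℝ) := by
          rw [Finset.sum_const, Finset.card_univ, Fintype.card_fin, nsmul_eq_mul]
          ring
  rw [Finset.sum_sub_distrib, Finset.sum_const, Finset.card_univ, nsmul_eq_mul, ← hnT] at hsum
  linarith

end DP
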