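import Pool.Agent.Lib.MP_9e8926_ag_DP.Pre

/-!
# Weight functions with the same numbers of elements above every level

Proof of `sum_eq_of_card`: for every `y` one has `#{i | ω i = y} = #{i | w i = y}`: if `Y` is the
finite set of all values of `ω` and `w` and `y' ` is the smallest element of `Y` greater than `y` (if
there is none, both numbers `#{> y}` are 0) then `#{i | ω i = y} = #{i | y ≤ ω i} - #{i | y' ≤ ω i}`,
and the same for `w`.  Then `∑ φ (ω i) = ∑_{y ∈ Y} #{ω = y} φ y` (`Finset.sum_fiberwise`,
`Finset.sum_comp`).  (Alternative: the multisets `univ.val.map ω` and `univ.val.map w` are equal, by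
comparison of `Multiset.count`.)
-/

set_option autoImplicit false

noncomputable section

namespace DP

private theorem MSet_key {D : ℕ} (ω w : Fin D → ℝ)
    (h : ∀ x : ℝ, (Finset.univ.filter fun i => x ≤ ω i).card =
      (Finset.univ.filter fun i => x ≤ w i).card) (y : ℝ) :
    (Finset.univ.filter fun i => y = ω i).card = (Finset.univ.filter fun i => y = w i).card := by
  classical
  set Y : Finset ℝ := (Finset.univ.image ω ∪ Finset.univ.image w).filter (fun z => y < z) with hY
  have hω : ∀ i, y < ω i → ω i ∈ Y := fun i hi =>
    Finset.mem_filter.2 ⟨Finset.mem_union_left _ (Finset.mem_image_of_mem _ (Finset.mem_univ i)),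
      hi⟩
  have hw : ∀ i, y < w i → w i ∈ Y := fun i hi =>
    Finset.mem_filter.2 ⟨Finset.mem_union_right _ (Finset.mem_image_of_mem _ (Finset.mem_univ i)),
      hi⟩
  rcases Y.eq_empty_or_nonempty with he | hne
  · have h1 : ∀ v : Fin D → ℝ, (∀ i, y < v i → v i ∈ Y) →
        (Finset.univ.filter fun i => y = v i) = Finset.univ.filter fun i => y ≤ v i := by
      intro v hv
      ext i
      simp only [Finset.mem_filter, Finset.mem_univ, true_and]
      constructor
      · intro h2
        exact h2.le
      · intro h2
        rcases h2.lt_or_eq with h3 | h3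
        · have h4 := hv i h3
          rw [he] at h4
          exact absurd h4 (Finset.notMem_empty _)
        · exact h3
    rw [h1 ω hω, h1 w hw]
    exact h y
  · set y' := Y.min' hne with hy'
    have hyy : y < y' := (Finset.mem_filter.1 (Y.min'_mem hne)).2
    have h1 : ∀ v : Fin D → ℝ, (∀ i, y < v i → v i ∈ Y) →
        (Finset.univ.filter fun i => y ≤ v i).card =
          (Finset.univ.filter fun i => y = v i).card +
            (Finset.univ.filter fun i => y' ≤ v i).card := by
      intro v hv
      rw [← Finset.card_union_of_disjoint]
      · congr 1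
        ext i
        simp only [Finset.mem_filter, Finset.mem_univ, true_and, Finset.mem_union]
        constructor
        · intro h2
          rcases h2.lt_or_eq with h3 | h3
          · exact Or.inr (Y.min'_le _ (hv i h3))
          · exact Or.inl h3
        · rintro (h2 | h2)
          · exact h2.le
          · exact hyy.le.trans h2
      · rw [Finset.disjoint_left]
        intro i h2 h3
        simp only [Finset.mem_filter, Finset.mem_univ, true_and] at h2 h3
        linarith
    have h2 := h1 ω hω
    have h3 := h1 w hw
    have h4 := h y
    have h5 := h y'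
    omega

theorem sum_eq_of_card {D : ℕ} (ω w : Fin D → ℝ)
    (h : ∀ x : ℝ, (Finset.univ.filter fun i => x ≤ ω i).card =
      (Finset.univ.filter fun i => x ≤ w i).card) (φ : ℝ → ℝ) :
    ∑ i, φ (ω i) = ∑ i, φ (w i) := by
  classical
  have hm : Multiset.map ω Finset.univ.val = Multiset.map w Finset.univ.val := by
    ext y
    rw [Multiset.count_map, Multiset.count_map]
    exact MSet_key ω w h y
  have h1 : ∀ v : Fin D → ℝ, ∑ i, φ (v i) =
      (Multiset.map φ (Multiset.map v Finset.univ.val)).sum := by
    intro v
    rw [Multiset.map_map]
    rfl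
  rw [h1 ω, h1 w, hm]

end DP
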