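import Pool.Agent.Lib.MP_9e8926_ag_DP.CBa
import Pool.Agent.Lib.MP_9e8926_ag_DP.MSet

/-!
# Averaging two weighted bases

For every `s` of a finite index set let `V s` be a subspace with two weighted bases `(B s, w s)`,
`(B' s, w' s)` with the same sums and sums of squares of weights.  By `common_basis` choose
`Z s, ω s, ω' s`; by `finrank_lev` and `sum_eq_of_card` (`φ = id` and `φ = (·)^2`) the sums and the
sums of squares of the weights are preserved.  The new weights are `(ω + ω')/2`: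
* `hprod`: if `∑ (ω_i + ω'_i)/2 > T0` then `∑ ω_i > T0` or `∑ ω'_i > T0`; in the first case
  `Z_i ∈ lev (B s) (w s) (ω_i)`, so `∏ Z_i` is a combination of products `∏ B_j` with
  `w_j ≥ ω_i` (expand the product, `Finset.prod_univ_sum` / `MultilinearMap`, or use
  `Submodule.span_induction` in one factor at a time), each in `𝔮`.
* sum of the weights: `(∑ ω + ∑ ω')/2 = ∑ w`.
* `∑ ((ω + ω')/2)^2 = (∑ ω^2 + ∑ ω'^2)/2 - ∑ (ω - ω')^2/4 = ∑ w^2 - ∑ (ω - ω')^2/4`.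
* If the total second moment cannot drop by more than `ε`, then `(ω - ω')^2 ≤ 4 ε`, so
  `|ω - ω'| ≤ 2 √ε` and `lev B' w' x = lev Z ω' x ≤ lev Z ω (x - 2 √ε) = lev B w (x - 2 √ε)`.
-/

set_option autoImplicit false

noncomputable section

namespace DP

variable {K A : Type*} [Field K] [CommRing A] [Algebra K A] {ι T : Type*} [Fintype ι] [Fintype T]

/-- The products of basis vectors of total weight greater than `T0` are in `𝔮`. -/
def Iso (D : ι → ℕ) (𝔮 : Ideal A) (s : T → ι) (B : (i : ι) → Fin (D i) → A)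
    (w : (i : ι) → Fin (D i) → ℝ) (T0 : ℝ) : Prop :=
  ∀ c : (t : T) → Fin (D (s t)), T0 < ∑ t, w (s t) (c t) → ∏ t, B (s t) (c t) ∈ 𝔮

/-- In terms of the filtrations. -/
theorem iso_lev {V : ι → Submodule K A} {D : ι → ℕ} {𝔮 : Ideal A} {s : T → ι}
    {B : (i : ι) → Fin (D i) → A} {w : (i : ι) → Fin (D i) → ℝ} {T0 : ℝ}
    (h : Iso D 𝔮 s B w T0) (x : T → ℝ) (hx : T0 < ∑ t, x t) (v : T → A)
    (hv : ∀ t, v t ∈ lev K (B (s t)) (w (s t)) (x t)) : ∏ t, v t ∈ 𝔮 := by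
  classical
  have h1 : ∀ t, ∃ c : Fin (D (s t)) → K,
      ∑ j ∈ (Finset.univ.filter fun j => x t ≤ w (s t) j), c j • B (s t) j = v t := by
    intro t
    have h2 := hv t
    unfold lev at h2
    have h3 : {j | x t ≤ w (s t) j} =
        ((Finset.univ.filter fun j => x t ≤ w (s t) j : Finset (Fin (D (s t)))) :
          Set (Fin (D (s t)))) := by
      ext j
      simp
    rw [h3] at h2
    exact (Submodule.mem_span_image_finset_iff_exists_fun' K).1 h2
  choose c hc using h1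
  have h2 : ∏ t, v t = ∏ t, ∑ j ∈ (Finset.univ.filter fun j => x t ≤ w (s t) j),
      c t j • B (s t) j := Finset.prod_congr rfl fun t _ => (hc t).symm
  rw [h2, Finset.prod_univ_sum]
  refine Ideal.sum_mem _ fun p hp => ?_
  rw [Fintype.mem_piFinset] at hp
  have h3 : T0 < ∑ t, w (s t) (p t) := by
    refine lt_of_lt_of_le hx (Finset.sum_le_sum fun t _ => ?_)
    exact (Finset.mem_filter.1 (hp t)).2
  rw [Finset.prod_smul]
  exact Submodule.smul_of_tower_mem 𝔮 _ (h p h3)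

theorem average (V : ι → Submodule K A) (D : ι → ℕ) (𝔮 : Ideal A) (s : T → ι)
    (B B' : (i : ι) → Fin (D i) → A) (hB : ∀ i, IsBas (V i) (B i)) (hB' : ∀ i, IsBas (V i) (B' i))
    (w : (i : ι) → Fin (D i) → ℝ) (T0 : ℝ) (h : Iso D 𝔮 s B w T0) (h' : Iso D 𝔮 s B' w T0)
    (ε : ℝ) (hε : 0 ≤ ε)
    (hmin : ∀ (Z : (i : ι) → Fin (D i) → A) (ω : (i : ι) → Fin (D i) → ℝ),
      (∀ i, IsBas (V i) (Z i)) → Iso D 𝔮 s Z ω T0 → (∀ i, ∑ j, ω i j = ∑ j, w i j) →
      ∑ i, ∑ j, w i j ^ 2 ≤ ε + ∑ i, ∑ j, ω i j ^ 2) (i : ι) (x : ℝ) :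
    lev K (B' i) (w i) x ≤ lev K (B i) (w i) (x - 2 * Real.sqrt ε) := by
  classical
  have h0 : ∀ i, ∃ (Z : Fin (D i) → A) (ω ω' : Fin (D i) → ℝ), IsBas (V i) Z ∧
      (∀ x, lev K Z ω x = lev K (B i) (w i) x) ∧ (∀ x, lev K Z ω' x = lev K (B' i) (w i) x) :=
    fun i => common_basis (hB i) (hB' i) (w i) (w i)
  choose Z ω ω' hZ hω hω' using h0
  have hs : ∀ (φ : ℝ → ℝ) i, ∑ j, φ (ω i j) = ∑ j, φ (w i j) := by
    intro φ i
    refine sum_eq_of_card (ω i) (w i) (fun y => ?_) φ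
    rw [← finrank_lev (hZ i) (ω i) y, ← finrank_lev (hB i) (w i) y, hω]
  have hs' : ∀ (φ : ℝ → ℝ) i, ∑ j, φ (ω' i j) = ∑ j, φ (w i j) := by
    intro φ i
    refine sum_eq_of_card (ω' i) (w i) (fun y => ?_) φ
    rw [← finrank_lev (hZ i) (ω' i) y, ← finrank_lev (hB' i) (w i) y, hω']
  obtain ⟨η, hη⟩ : ∃ η : (i : ι) → Fin (D i) → ℝ, η = fun i j => (ω i j + ω' i j) / 2 :=
    ⟨_, rfl⟩
  have hiso : Iso D 𝔮 s Z η T0 := by
    intro c hc
    have h1 : ∑ t, η (s t) (c t) = (∑ t, ω (s t) (c t) + ∑ t, ω' (s t) (c t)) / 2 := by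
      rw [← Finset.sum_add_distrib, Finset.sum_div, hη]
    rw [h1] at hc
    by_cases h2 : T0 < ∑ t, ω (s t) (c t)
    · refine iso_lev (V := V) h (fun t => ω (s t) (c t)) h2 (fun t => Z (s t) (c t)) fun t => ?_
      rw [← hω]
      have h5 : ω (s t) (c t) ≤ ω (s t) (c t) := le_rfl
      exact Submodule.subset_span ⟨c t, h5, rfl⟩
    · have h3 : T0 < ∑ t, ω' (s t) (c t) := by
        have h4 := not_lt.1 h2
        linarith
      refine iso_lev (V := V) h' (fun t => ω' (s t) (c t)) h3 (fun t => Z (s t) (c t)) fun t => ?_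
      rw [← hω']
      have h5 : ω' (s t) (c t) ≤ ω' (s t) (c t) := le_rfl
      exact Submodule.subset_span ⟨c t, h5, rfl⟩
  have hsum : ∀ i, ∑ j, η i j = ∑ j, w i j := by
    intro i
    have h1 : ∑ j, η i j = (∑ j, ω i j + ∑ j, ω' i j) / 2 := by
      rw [← Finset.sum_add_distrib, Finset.sum_div, hη]
    rw [h1, hs (fun y => y) i, hs' (fun y => y) i]
    ring
  have hmin' := hmin Z η hZ hiso hsum
  have hsq : ∀ i, ∑ j, η i j ^ 2 = ∑ j, w i j ^ 2 - ∑ j, (ω i j - ω' i j) ^ 2 / 4 := by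
    intro i
    have h1 : ∑ j, η i j ^ 2 = (∑ j, ω i j ^ 2 + ∑ j, ω' i j ^ 2) / 2 -
        ∑ j, (ω i j - ω' i j) ^ 2 / 4 := by
      rw [← Finset.sum_add_distrib, Finset.sum_div, ← Finset.sum_sub_distrib, hη]
      refine Finset.sum_congr rfl fun j _ => ?_
      ring
    rw [h1, hs (fun y => y ^ 2) i, hs' (fun y => y ^ 2) i]
    ring
  have htot : ∑ i, ∑ j, (ω i j - ω' i j) ^ 2 / 4 ≤ ε := by
    have h1 : ∑ i, ∑ j, η i j ^ 2 = ∑ i, ∑ j, w i j ^ 2 -
        ∑ i, ∑ j, (ω i j - ω' i j) ^ 2 / 4 := by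
      rw [← Finset.sum_sub_distrib]
      exact Finset.sum_congr rfl fun i _ => hsq i
    linarith
  have hone : ∀ j, |ω i j - ω' i j| ≤ 2 * Real.sqrt ε := by
    intro j
    have h1 : (ω i j - ω' i j) ^ 2 / 4 ≤ ∑ j, (ω i j - ω' i j) ^ 2 / 4 :=
      Finset.single_le_sum (f := fun j => (ω i j - ω' i j) ^ 2 / 4)
        (fun j _ => by positivity) (Finset.mem_univ j)
    have h2 : ∑ j, (ω i j - ω' i j) ^ 2 / 4 ≤ ∑ i, ∑ j, (ω i j - ω' i j) ^ 2 / 4 :=
      Finset.single_le_sum (f := fun i => ∑ j, (ω i j - ω' i j) ^ 2 / 4)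
        (fun i _ => Finset.sum_nonneg fun j _ => by positivity) (Finset.mem_univ i)
    refine abs_le_of_sq_le_sq ?_ (by positivity)
    rw [mul_pow, Real.sq_sqrt hε]
    linarith
  rw [← hω', ← hω]
  unfold lev
  refine Submodule.span_mono (Set.image_mono fun j hj => ?_)
  have h1 := abs_le.1 (hone j)
  have h2 : x ≤ ω' i j := hj
  change x - 2 * Real.sqrt ε ≤ ω i j
  linarith [h1.1]

end DP
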