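import Pool.Agent.Lib.MP_9e8926_ag_DP.Frb

/-!
# Digits

* `pow_notMem`: induction on `e`: `e = 0`: `J 1 = m0`, the exponent is 0 and `1 ∉ J 1` (`mem_J`).
  Step: `∑_{i ≤ e} p^i = 1 + p ∑_{i < e} p^i`, so `W^{...} = W (W^{g_e})^p`; if it were in
  `J (p^(e+1)) = J (p^1 p^e)`, then `W^{g_e} ∈ J (p^e)` by `flat` (with exponent 1, `u = W`,
  `z = W^{g_e}`), contradiction.
* `exists_digits`: `c i = m / M + (if i < m % M then 1 else 0)`.
* `geom`: `(p - 1) ∑_{i<e} p^i = p^e - 1` (`Nat.geomSum_eq`, `Nat.pred_mul_geom_sum_le`, or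
  `mul_geom_sum`).
-/

set_option autoImplicit false

noncomputable section

namespace DP

open MvPolynomial

theorem geom (p : ℕ) (hp : 1 ≤ p) (e : ℕ) :
    (p - 1) * ∑ i ∈ Finset.range e, p ^ i = p ^ e - 1 := by
  obtain ⟨q, rfl⟩ := Nat.exists_eq_add_of_le' hp
  rw [Nat.add_sub_cancel]
  induction e with
  | zero => simp
  | succ e ih =>
    rw [Finset.sum_range_succ, mul_add, ih, pow_succ, mul_add, mul_one, mul_comm q]
    have h1 : 1 ≤ (q + 1) ^ e := Nat.one_le_pow _ _ (Nat.succ_pos q)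
    omega

theorem exists_digits (M m : ℕ) (hM : 1 ≤ M) :
    ∃ c : Fin M → ℕ, ∑ i, c i = m ∧ ∀ i, c i ≤ m / M + 1 := by
  refine ⟨fun i => m / M + (if (i : ℕ) < m % M then 1 else 0), ?_, fun i => ?_⟩
  · rw [Finset.sum_add_distrib, Finset.sum_const, Finset.card_univ, Fintype.card_fin,
      smul_eq_mul, Finset.sum_boole, Nat.cast_id]
    have h1 : (Finset.univ.filter fun i : Fin M => (i : ℕ) < m % M).card = m % M := by
      have h2 : m % M < M := Nat.mod_lt m hM
      rw [Fin.card_filter_val_lt]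
      exact min_eq_right h2.le
    rw [h1]
    exact Nat.div_add_mod m M
  · show m / M + (if (i : ℕ) < m % M then 1 else 0) ≤ m / M + 1
    split_ifs <;> omega

theorem pow_notMem {σ : Type*} [Finite σ] {K : Type*} [Field K] [PerfectField K] (p : ℕ)
    [Fact p.Prime] [CharP K p] (W : MvPolynomial σ K) (hW : W ∉ J σ K p) (e : ℕ) :
    W ^ (∑ i ∈ Finset.range e, p ^ i) ∉ J σ K (p ^ e) := by
  induction e with
  | zero =>
    rw [Finset.sum_range_zero, pow_zero, pow_zero, mem_J]
    intro h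
    obtain ⟨v, hv⟩ := h 0 (by
      rw [mem_support_iff, coeff_zero_one]
      exact one_ne_zero)
    simp at hv
  | succ e ih =>
    intro h
    apply ih
    refine flat p 1 (p ^ e) W _ (by rwa [pow_one]) ?_
    rw [pow_one, ← pow_succ']
    have e1 : ∑ i ∈ Finset.range (e + 1), p ^ i = (∑ i ∈ Finset.range e, p ^ i) * p + 1 := by
      rw [Finset.sum_range_succ', pow_zero, Finset.sum_mul]
      rfl
    rw [e1, pow_succ' W, pow_mul] at h
    exact h

end DP
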