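import Pool.Agent.Lib.MP_9e8926_ag_DP.NVa
import Pool.Agent.Lib.MP_9e8926_ag_DP.NVb

/-!
# Nonvanishing for the split quadratic form

Let `m = p - 1` if `ε = 0` and `m = (p-1)/2` if `ε = 1` (`p` is odd).  `M ≥ 1`.  `exists_digits`:
`c : Fin M → ℕ` with sum `m`, `c i ≤ m / M + 1 ≤ p - 1` (`ε = 0`: `M ≥ 2`, `(p-1)/2 + 1 ≤ p - 1`;
`ε = 1`: `m + 1 ≤ p - 1`), and `c' = (p-1)/2` (so `2 c' = p - 1`) if `ε = 1`.  `∑ c + ∑ c' = p - 1`.
Let `W` be the product in `nv1`, `g = ∑_{i<e} p^i`, `(p-1) g = p^e - 1` (`geom`).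
`W^g ∉ J (p^e)` (`pow_notMem`).  `W^g` is a multiple of the product in the theorem: the exponents of
`W^g` are: `Qs`: `(p-1) g = p^e - 1`; `x_i, y_i`: `(p-1-c_i) g ≥ D`, because
`2 M (p-1-c_i) ≥ 2M(p-1) - 2m - 2M = (2M+ε-2)(p-1) - 2M` (as `M c_i ≤ m + M`), so
`2 M D ≤ ((2M+ε-2) - 2M/(p-1)) (p-1) g ≤ 2 M (p-1-c_i) g`; the variables `inr j`:
`(p-1) g = p^e - 1 ≥ B_j + ⌈b_j (p^e-1)⌉` because `B_j + b_j (p^e - 1) ≤ p^e - 1` and the ceiling of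
`b_j (p^e-1) ≤ p^e - 1 - B_j` is at most the integer on the right; `z`: exponent 0 at least.
So if the product were in `J (p^e)`, `W^g` would be.
-/

set_option autoImplicit false

noncomputable section

namespace DP

open MvPolynomial

theorem nv {K : Type*} [Field K] [PerfectField K] (p : ℕ) [Fact p.Prime] [CharP K p]
    (hp : 5 ≤ p) (M ε N : ℕ) (hε : ε ≤ 1) (hr : 3 ≤ 2 * M + ε) (b : Fin N → ℚ)
    (hb : ∀ j, 0 ≤ b j ∧ b j < 1) (e : ℕ) (D : ℕ) (B : Fin N → ℕ)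
    (hD : 2 * (M : ℝ) * D ≤ ((2 * M + ε - 2 : ℝ) - 2 * M / (p - 1)) * ((p : ℝ) ^ e - 1))
    (hB : ∀ j, (B j : ℝ) ≤ (1 - b j) * ((p : ℝ) ^ e - 1)) :
    (Qs K iv ^ (p ^ e - 1) * Yq b (p ^ e) * ((∏ l : Fin M ⊕ Fin M, X (Sum.inl (lv ε l)) ^ D) *
      ∏ j, X (Sum.inr j) ^ B j) : MvPolynomial (Sg M ε ⊕ Fin N) K) ∉
      J (Sg M ε ⊕ Fin N) K (p ^ e) := by
  classical
  obtain ⟨m, hm2, hc'⟩ : ∃ m : ℕ, 2 * m + ε * (p - 1) = 2 * (p - 1) ∧
      ∃ c' : Fin ε → ℕ, (∀ i, 2 * c' i ≤ p - 1) ∧ m + ∑ i, c' i = p - 1 := by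
    rcases Nat.le_one_iff_eq_zero_or_eq_one.1 hε with rfl | rfl
    · exact ⟨p - 1, by simp, fun _ => 0, by simp, by simp⟩
    · have hodd : p % 2 = 1 := (Fact.out : p.Prime).eq_two_or_odd.resolve_left (by omega)
      exact ⟨(p - 1) / 2, by omega, fun _ => (p - 1) / 2, fun _ => by dsimp only; omega, by
        simp only [Finset.univ_unique, Finset.sum_singleton]
        omega⟩
  obtain ⟨c', hc'1, hc'2⟩ := hc'
  have hM : 1 ≤ M := by omega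
  obtain ⟨c, hcs, hcb⟩ := exists_digits M m hM
  have hMc : ∀ i, M * c i ≤ m + M := fun i =>
    calc M * c i ≤ M * (m / M + 1) := Nat.mul_le_mul_left _ (hcb i)
      _ = M * (m / M) + M := by ring
      _ ≤ m + M := Nat.add_le_add_right (Nat.mul_div_le m M) M
  have hcp : ∀ i, c i ≤ p - 1 := by
    intro i
    refine (hcb i).trans ?_
    have h1 : m / M ≤ (p - 1) / 2 := by
      rcases Nat.le_one_iff_eq_zero_or_eq_one.1 hε with rfl | rfl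
      · have hm' : m = p - 1 := by omega
        rw [hm']
        exact Nat.div_le_div_left (by omega) (by omega)
      · have hm' : m ≤ (p - 1) / 2 := by omega
        exact (Nat.div_le_self m M).trans hm'
    omega
  set g : ℕ := ∑ i ∈ Finset.range e, p ^ i with hg
  have hgeo : (p - 1) * g = p ^ e - 1 := geom p (by omega) e
  have hW := pow_notMem p _ (nv1 (K := K) p (by omega) M ε N c c' hcp hc'1
    (by rw [hcs]; exact hc'2)) e
  rw [← hg] at hW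
  intro hmem
  apply hW
  refine Ideal.mem_of_dvd _ ?_ hmem
  have hpe : 1 ≤ p ^ e := Nat.one_le_pow _ _ (by omega)
  have hp1 : ((p - 1 : ℕ) : ℝ) = (p : ℝ) - 1 := by
    rw [Nat.cast_sub (by omega)]
    simp
  have hgR : ((p : ℝ) - 1) * g = (p : ℝ) ^ e - 1 := by
    have h := congrArg (Nat.cast : ℕ → ℝ) hgeo
    rw [Nat.cast_mul, hp1, Nat.cast_sub hpe] at h
    simpa using h
  have hp0 : (0 : ℝ) < (p : ℝ) - 1 := by
    have : (5 : ℝ) ≤ p := by exact_mod_cast hp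
    linarith
  have hMR : (1 : ℝ) ≤ M := by exact_mod_cast hM
  have hxe : ∀ i, D ≤ (p - 1 - c i) * g := by
    intro i
    have h1 : (2 * (M : ℝ)) * D ≤ (2 * (M : ℝ)) * ((((p : ℝ) - 1) - c i) * g) := by
      refine hD.trans ?_
      rw [← hgR]
      have h2 : ((2 * M + ε - 2 : ℝ) - 2 * M / (p - 1)) * (((p : ℝ) - 1) * g) =
          ((2 * M + ε - 2 : ℝ) * ((p : ℝ) - 1) - 2 * M) * g := by
        field_simp
      rw [h2, ← mul_assoc]
      refine mul_le_mul_of_nonneg_right ?_ (Nat.cast_nonneg g)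
      have h3 : (M : ℝ) * c i ≤ m + M := by exact_mod_cast hMc i
      have h4 : 2 * (m : ℝ) + ε * ((p : ℝ) - 1) = 2 * ((p : ℝ) - 1) := by
        rw [← hp1]
        exact_mod_cast hm2
      nlinarith
    have h5 : (D : ℝ) ≤ (((p : ℝ) - 1) - c i) * g := le_of_mul_le_mul_left h1 (by positivity)
    have h6 : (((p - 1 - c i : ℕ) * g : ℕ) : ℝ) = (((p : ℝ) - 1) - c i) * g := by
      rw [Nat.cast_mul, Nat.cast_sub (hcp i), hp1]
    rw [← h6] at h5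
    exact_mod_cast h5
  have hye : ∀ j, ⌈(b j : ℝ) * (((p ^ e : ℕ) : ℝ) - 1)⌉₊ + B j ≤ (p - 1) * g := by
    intro j
    rw [hgeo]
    have hb0 : (0 : ℝ) ≤ b j := by exact_mod_cast (hb j).1
    have hq0 : (0 : ℝ) ≤ (p : ℝ) ^ e - 1 := by
      have : (1 : ℝ) ≤ (p : ℝ) ^ e := by exact_mod_cast hpe
      linarith
    have hBj := hB j
    have hB1 : (B j : ℝ) ≤ ((p ^ e - 1 : ℕ) : ℝ) := by
      rw [Nat.cast_sub hpe]
      push_cast
      nlinarith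
    have hB2 : B j ≤ p ^ e - 1 := by exact_mod_cast hB1
    have h : ⌈(b j : ℝ) * (((p ^ e : ℕ) : ℝ) - 1)⌉₊ ≤ p ^ e - 1 - B j := by
      refine Nat.ceil_le.2 ?_
      rw [Nat.cast_sub hB2, Nat.cast_sub hpe]
      push_cast
      nlinarith
    omega
  have e1 : (Qs K iv ^ (p ^ e - 1) * Yq b (p ^ e) *
      ((∏ l : Fin M ⊕ Fin M, X (Sum.inl (lv ε l)) ^ D) *
      ∏ j, X (Sum.inr j) ^ B j) : MvPolynomial (Sg M ε ⊕ Fin N) K) =
      Qs K iv ^ (p ^ e - 1) * ((∏ i : Fin M, (X (Sum.inl (Sum.inl i)) *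
        X (Sum.inl (Sum.inr (Sum.inl i)))) ^ D) * 1 *
      ∏ j, X (Sum.inr j) ^ (⌈(b j : ℝ) * (((p ^ e : ℕ) : ℝ) - 1)⌉₊ + B j)) := by
    rw [Fintype.prod_sum_type]
    simp only [mul_pow, pow_add, Finset.prod_mul_distrib, Yq, lv, Sum.elim_inl, Sum.elim_inr]
    ring
  have e2 : ((Qs K iv ^ (p - 1) * ((∏ i : Fin M, (X (Sum.inl (Sum.inl i)) *
        X (Sum.inl (Sum.inr (Sum.inl i)))) ^ (p - 1 - c i)) *
      (∏ i : Fin ε, X (Sum.inl (Sum.inr (Sum.inr i))) ^ (p - 1 - 2 * c' i)) *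
      ∏ j : Fin N, X (Sum.inr j) ^ (p - 1)) : MvPolynomial (Sg M ε ⊕ Fin N) K)) ^ g =
      Qs K iv ^ (p ^ e - 1) * ((∏ i : Fin M, (X (Sum.inl (Sum.inl i)) *
        X (Sum.inl (Sum.inr (Sum.inl i)))) ^ ((p - 1 - c i) * g)) *
      (∏ i : Fin ε, X (Sum.inl (Sum.inr (Sum.inr i))) ^ (p - 1 - 2 * c' i)) ^ g *
      ∏ j : Fin N, X (Sum.inr j) ^ ((p - 1) * g)) := by
    rw [mul_pow, mul_pow, mul_pow, ← pow_mul, hgeo, ← Finset.prod_pow, ← Finset.prod_pow (n := g)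
      (f := fun j : Fin N => (X (Sum.inr j) : MvPolynomial (Sg M ε ⊕ Fin N) K) ^ (p - 1))]
    simp only [← pow_mul, hgeo]
  rw [e1, e2]
  refine mul_dvd_mul_left _ (mul_dvd_mul (mul_dvd_mul ?_ (one_dvd _)) ?_)
  · exact Finset.prod_dvd_prod_of_dvd _ _ fun i _ => pow_dvd_pow _ (hxe i)
  · exact Finset.prod_dvd_prod_of_dvd _ _ fun j _ => pow_dvd_pow _ (hye j)

end DP
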