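import Mathlib

/-!
# Products and sums over the index set of the tuples

Both identities: `Fintype.prod_sigma`, `Fintype.prod_prod_type`, `Finset.prod_const`,
`Finset.prod_coe_sort`/`Finset.sum_coe_sort`, `Finset.prod_pow_eq_pow_sum`.  In `tup_sum` the case
`h = 0` of the denominator: then both the index set and (by hypothesis) `w s = 0`.
-/

set_option autoImplicit false

noncomputable section

namespace DP

/-- The index set of the tuples: `R * h s.1` indices for every bidegree `s ∈ F` and every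
hyperbolic coordinate. -/
abbrev TT {N : ℕ} (F : Finset (ℕ × (Fin N → ℕ))) (M R : ℕ) (h : ℕ → ℕ) : Type :=
  Σ s : {s // s ∈ F}, (Fin M ⊕ Fin M) × Fin (R * h s.1.1)

theorem tup_prod {A : Type*} [CommMonoid A] {N : ℕ} (F : Finset (ℕ × (Fin N → ℕ))) (M R : ℕ)
    (h : ℕ → ℕ) (x : Fin M ⊕ Fin M → A) (y : Fin N → A) :
    ∏ t : TT F M R h, (x t.2.1 ^ t.1.1.1 * ∏ j, y j ^ t.1.1.2 j) =
      (∏ l, x l ^ (R * ∑ s ∈ F, s.1 * h s.1)) *
        ∏ j, y j ^ (2 * M * R * ∑ s ∈ F, s.2 j * h s.1) := by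
  have h1 : ∀ s : {s // s ∈ F}, ∏ b : (Fin M ⊕ Fin M) × Fin (R * h s.1.1),
      (x b.1 ^ s.1.1 * ∏ j, y j ^ s.1.2 j) =
      (∏ l, x l ^ (R * (s.1.1 * h s.1.1))) *
        ∏ j, y j ^ (2 * M * R * (s.1.2 j * h s.1.1)) := by
    intro s
    rw [Fintype.prod_prod_type]
    have h2 : ∀ l : Fin M ⊕ Fin M, ∏ _i : Fin (R * h s.1.1), (x l ^ s.1.1 * ∏ j, y j ^ s.1.2 j) =
        (x l ^ s.1.1) ^ (R * h s.1.1) * (∏ j, y j ^ s.1.2 j) ^ (R * h s.1.1) := by
      intro l
      rw [Finset.prod_const, Finset.card_univ, Fintype.card_fin, mul_pow]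
    rw [Finset.prod_congr rfl fun l _ => h2 l, Finset.prod_mul_distrib, Finset.prod_const,
      Finset.card_univ, Fintype.card_sum, Fintype.card_fin]
    congr 1
    · refine Finset.prod_congr rfl fun l _ => ?_
      rw [← pow_mul]
      congr 1
      ring
    · rw [← pow_mul, ← Finset.prod_pow]
      refine Finset.prod_congr rfl fun j _ => ?_
      rw [← pow_mul]
      congr 1
      ring
  rw [Fintype.prod_sigma, Finset.prod_congr rfl fun s _ => h1 s, Finset.prod_mul_distrib]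
  congr 1
  · rw [Finset.prod_comm]
    refine Finset.prod_congr rfl fun l _ => ?_
    rw [Finset.prod_pow_eq_pow_sum, ← Finset.mul_sum]
    congr 2
    exact Finset.sum_coe_sort F (fun s => s.1 * h s.1)
  · rw [Finset.prod_comm]
    refine Finset.prod_congr rfl fun j _ => ?_
    rw [Finset.prod_pow_eq_pow_sum, ← Finset.mul_sum]
    congr 2
    exact Finset.sum_coe_sort F (fun s => s.2 j * h s.1)

theorem tup_sum {N : ℕ} (F : Finset (ℕ × (Fin N → ℕ))) (M R : ℕ) (h : ℕ → ℕ)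
    (w : {s // s ∈ F} → ℝ) (hw : ∀ s, h s.1.1 = 0 → w s = 0) :
    ∑ t : TT F M R h, w t.1 / (h t.1.1.1 : ℝ) = 2 * M * R * ∑ s, w s := by
  rw [Fintype.sum_sigma, Finset.mul_sum]
  refine Finset.sum_congr rfl fun s _ => ?_
  change ∑ _y : (Fin M ⊕ Fin M) × Fin (R * h s.1.1), w s / (h s.1.1 : ℝ) = _
  rw [Finset.sum_const, Finset.card_univ, Fintype.card_prod, Fintype.card_sum, Fintype.card_fin,
    Fintype.card_fin, nsmul_eq_mul]
  by_cases h0 : h s.1.1 = 0
  · rw [hw s h0, zero_div, mul_zero, mul_zero]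
  · have h1 : (h s.1.1 : ℝ) ≠ 0 := by exact_mod_cast h0
    push_cast
    field_simp
    ring

end DP
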