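import Pool.Agent.Lib.MP_9e8926_ag_DP.Vdm

/-!
# The dimension of `VV Q s`

`VV Q s = PP k s / {multiples of Q}`.  If `s = s' + (2,0)` the multiples of `Q` in `PP k s` are the
`Q v`, `v ∈ PP k s'` (`exists_of_dvd`), and `v ↦ Q v` is injective; otherwise (`s.1 ≤ 1`) only 0.
`C(d+r-1, r-1) - C(d+r-3, r-1) = C(d+r-2, r-2) + C(d+r-3, r-2)` for `d ≥ 2`, `r ≥ 3` (Pascal twice);
`d = 0, 1`: `1` and `r`.
-/

set_option autoImplicit false

noncomputable section

namespace DP

open MvPolynomial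

variable {σ τ : Type*} [Fintype σ] [Fintype τ] {k : Type*} [Field k]

/-- the reduction modulo `Q` on the forms of bidegree `s` -/
private def Vdim_f (Q : MvPolynomial (σ ⊕ τ) k) (s : ℕ × (τ → ℕ)) :
    (PP k s : Submodule k (MvPolynomial (σ ⊕ τ) k)) →ₗ[k] Rg Q :=
  (Ideal.Quotient.mkₐ k (Ideal.span {Q})).toLinearMap.domRestrict (PP k s)

omit [Fintype τ] in
private theorem Vdim_ker {Q : MvPolynomial (σ ⊕ τ) k} {s : ℕ × (τ → ℕ)}
    (u : (PP k s : Submodule k (MvPolynomial (σ ⊕ τ) k))) :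
    u ∈ LinearMap.ker (Vdim_f Q s) ↔ Q ∣ u.1 := by
  rw [LinearMap.mem_ker, ← Ideal.mem_span_singleton]
  exact Ideal.Quotient.eq_zero_iff_mem

private theorem Vdim_add (Q : MvPolynomial (σ ⊕ τ) k) (s : ℕ × (τ → ℕ)) :
    Module.finrank k (VV Q s) + Module.finrank k (LinearMap.ker (Vdim_f Q s)) =
      Module.finrank k (PP k s : Submodule k (MvPolynomial (σ ⊕ τ) k)) := by
  have hfin := PP_finite (k := k) (σ := σ) s
  have h := LinearMap.finrank_range_add_finrank_ker (Vdim_f Q s)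
  have h1 : LinearMap.range (Vdim_f Q s) = VV Q s := LinearMap.range_domRestrict _ _
  rwa [h1] at h

private theorem Vdim_two {Q : MvPolynomial (σ ⊕ τ) k} (hQ : Q ∈ PP k (2, 0)) (hQ0 : Q ≠ 0)
    (s : ℕ × (τ → ℕ)) :
    Module.finrank k (LinearMap.ker (Vdim_f Q (s + (2, 0)))) =
      Module.finrank k (PP k s : Submodule k (MvPolynomial (σ ⊕ τ) k)) := by
  let g : (PP k s : Submodule k (MvPolynomial (σ ⊕ τ) k)) →ₗ[k]
      (PP k (s + (2, 0)) : Submodule k (MvPolynomial (σ ⊕ τ) k)) :=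
    { toFun := fun v => ⟨Q * v.1, by
        rw [add_comm]
        exact PP_mul hQ v.2⟩
      map_add' := fun u v => Subtype.ext (mul_add Q u.1 v.1)
      map_smul' := fun c v => Subtype.ext (mul_smul_comm c Q v.1) }
  have hg : Function.Injective g := by
    intro u v h
    have h1 : Q * u.1 = Q * v.1 := congrArg Subtype.val h
    exact Subtype.ext (mul_left_cancel₀ hQ0 h1)
  have hr : LinearMap.range g = LinearMap.ker (Vdim_f Q (s + (2, 0))) := by
    ext u
    rw [Vdim_ker]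
    constructor
    · rintro ⟨v, rfl⟩
      exact ⟨v.1, rfl⟩
    · intro h
      by_cases hu : u.1 = 0
      · exact ⟨0, Subtype.ext (by rw [map_zero, hu]; rfl)⟩
      · obtain ⟨s', v, hs, hv, huv⟩ := exists_of_dvd hQ u.2 h hu
        have hss : s = s' := by
          have h1 := congrArg Prod.fst hs
          have h2 := congrArg Prod.snd hs
          simp only [Prod.fst_add, Prod.snd_add, add_zero] at h1 h2
          exact Prod.ext (by omega) h2
        subst hss
        exact ⟨⟨v, hv⟩, Subtype.ext huv.symm⟩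
  rw [← hr]
  exact LinearMap.finrank_range_of_inj hg

private theorem Vdim_small {Q : MvPolynomial (σ ⊕ τ) k} (hQ : Q ∈ PP k (2, 0))
    {s : ℕ × (τ → ℕ)} (hs : s.1 < 2) :
    Module.finrank k (LinearMap.ker (Vdim_f Q s)) = 0 := by
  have h1 : LinearMap.ker (Vdim_f Q s) = ⊥ := by
    rw [Submodule.eq_bot_iff]
    intro u hu
    rw [Vdim_ker] at hu
    by_contra hne
    have hu0 : u.1 ≠ 0 := fun h => hne (Subtype.ext h)
    obtain ⟨s', v, hs', -, -⟩ := exists_of_dvd hQ u.2 hu hu0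
    have h2 := congrArg Prod.fst hs'
    simp only [Prod.fst_add] at h2
    omega
  rw [h1, finrank_bot]

theorem finrank_VV {r : ℕ} (hr : 3 ≤ r) (hcard : Fintype.card σ = r)
    (Q : MvPolynomial (σ ⊕ τ) k) (hQ : Q ∈ PP k (2, 0)) (hQ0 : Q ≠ 0) (s : ℕ × (τ → ℕ)) :
    Module.finrank k (VV Q s) = hh r s.1 := by
  obtain ⟨t, rfl⟩ := Nat.exists_eq_add_of_le' hr
  have h1 := Vdim_add Q s
  rw [finrank_PP (by omega) hcard] at h1
  by_cases hs : s.1 < 2
  · rw [Vdim_small hQ hs, add_zero] at h1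
    rw [h1]
    have h2 : s.1 = 0 ∨ s.1 = 1 := by omega
    rcases h2 with h2 | h2
    · rw [h2]
      simp [hh]
    · rw [h2, hh, if_neg one_ne_zero]
      have e1 : 1 + (t + 3) - 1 = t + 2 + 1 := by omega
      have e2 : t + 3 - 1 = t + 2 := by omega
      have e3 : 1 + (t + 3) - 2 = t + 1 + 1 := by omega
      have e4 : t + 3 - 2 = t + 1 := by omega
      have e5 : 1 + (t + 3) - 3 = t + 1 := by omega
      rw [e1, e2, e3, e4, e5, Nat.choose_succ_self_right, Nat.choose_succ_self_right,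
        Nat.choose_self]
  · obtain ⟨e, he⟩ := Nat.exists_eq_add_of_le' (not_lt.1 hs)
    obtain ⟨d, β⟩ := s
    simp only at he
    subst he
    have h3 := Vdim_two hQ hQ0 (e, β)
    have h4 : ((e, β) : ℕ × (τ → ℕ)) + (2, 0) = (e + 2, β) := by
      rw [Prod.mk_add_mk, add_zero]
    rw [h4, finrank_PP (by omega) hcard] at h3
    rw [h3] at h1
    simp only at h1 ⊢
    rw [hh, if_neg (by omega)]
    have e1 : e + (t + 3) - 1 = e + t + 2 := by omega
    have e2 : t + 3 - 1 = t + 1 + 1 := by omega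
    have e3 : e + 2 + (t + 3) - 1 = e + t + 2 + 1 + 1 := by omega
    have e4 : e + 2 + (t + 3) - 2 = e + t + 2 + 1 := by omega
    have e5 : e + 2 + (t + 3) - 3 = e + t + 2 := by omega
    have e6 : t + 3 - 2 = t + 1 := by omega
    rw [e1, e2, e3, Nat.choose_succ_succ (e + t + 2 + 1) (t + 1),
      Nat.choose_succ_succ (e + t + 2) (t + 1)] at h1
    rw [e4, e5, e6]
    simp only [Nat.succ_eq_add_one] at h1
    omega

end DP
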