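import Pool.Agent.Lib.MP_9e8926_ag_DP.Kem
import Pool.Agent.Lib.MP_9e8926_ag_DP.Chn
import Pool.Agent.Lib.MP_9e8926_ag_DP.Ext
import Pool.Agent.Lib.MP_9e8926_ag_DP.NV
import Pool.Agent.Lib.MP_9e8926_ag_DP.InI
import Pool.Agent.Lib.MP_9e8926_ag_DP.Vdim
import Pool.Agent.Lib.MP_9e8926_ag_DP.Tup

/-!
# The Kempf inequality for chains of ideals containing a double point

Apply `kempf` to `A = Rg (Qs K iv)`, `ι = {s // s ∈ FW ax ay W}`, `V s = VV Q s`,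
`D s = hh r s.1`, `r = 2 M + ε` (`finrank_VV`), `𝔮 = qq Q b (p^e)`, `G` of `exists_Gq`,
`T = TT (FW ax ay W) M R (hh r)` (`Tup`), `e t = mk (X_{lv l}^d y^β)` for `t = (s = (d,β), l, _)`,
`T0 = t p^e`.
* `hspan`: for `0 ≠ ū = mk u ∈ VV Q s`, `u ∈ PP s`, `¬ Q ∣ u`; `ext` gives
  `X^d y^β ∈ span {γ u}`; map to the quotient with the last statement of `exists_Gq`.
  (`card (Sg M ε) = 2 M + ε ≥ 3`, so there is `v1`.)
* `he`: `∏ e t = mk (∏_l X_l^(R Sx) ∏_j y_j^(2 M R Sj))` (`tup_prod`), `mem_qq` and `nv` with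
  `D = R Sx`, `B j = 2 M R Sj`.
* Weighted bases: `exists_adapted` for the chain `n ↦ innQ κ Q (Jc n) s` (`innQ_top` at 0,
  `innQ_mono`): `B s i ∈ innQ κ Q (Jc (w s i)) s`, `∑ i, w s i = ∑_{n=1}^{Nm} finrank (innQ ..)`.
* `Iso`: if `∑ t, w (s t) (c t) > t p^e`, put `n t = w (s t) (c t)` (natural numbers): choose
  `u t ∈ inn κ (Jc (n t)) (s t)` with `mk (u t) = B ..`; `∏ Jc (n t) ≤ Jc (∑ n t)` (induction with
  `hmul`; `Jc 0 = ⊤` for the empty product), so `innIso` and `hiso` give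
  `Q^{q-1} Y_q ∏ u t ∈ J q`, i.e. `∏ B .. ∈ qq`.
* Conclusion of `kempf` and `tup_sum`.
-/

set_option autoImplicit false

noncomputable section

namespace DP

open MvPolynomial

private theorem prod_Jc {R : Type*} [CommRing R] (Jc : ℕ → Ideal R) (h0 : Jc 0 = ⊤)
    (hmul : ∀ i j, Jc i * Jc j ≤ Jc (i + j)) {T : Type*} (F : Finset T) (n : T → ℕ) :
    ∏ t ∈ F, Jc (n t) ≤ Jc (∑ t ∈ F, n t) := by
  classical
  induction F using Finset.induction_on with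
  | empty =>
    rw [Finset.sum_empty, h0]
    exact le_top
  | insert t F ht ih =>
    rw [Finset.prod_insert ht, Finset.sum_insert ht]
    exact (Ideal.mul_mono_right ih).trans (hmul _ _)

private theorem two_ne {K : Type*} [Field K] (p : ℕ) [CharP K p] (hp : 5 ≤ p) : (2 : K) ≠ 0 := by
  intro h
  have h1 : ((2 : ℕ) : K) = 0 := by exact_mod_cast h
  rw [CharP.cast_eq_zero_iff K p] at h1
  exact absurd (Nat.le_of_dvd (by norm_num) h1) (by omega)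

private theorem iv_lv {M ε : ℕ} (l : Fin M ⊕ Fin M) : iv (lv ε l) ≠ lv ε l := by
  rcases l with i | i <;> simp [iv, lv]

private theorem exists_v1 {M ε : ℕ} (hr : 3 ≤ 2 * M + ε) (x : Sg M ε) :
    ∃ v1, v1 ≠ x ∧ v1 ≠ iv x := by
  classical
  have h1 : ({x, iv x} : Finset (Sg M ε)).card < (Finset.univ : Finset (Sg M ε)).card := by
    refine lt_of_le_of_lt Finset.card_le_two ?_
    rw [Finset.card_univ, Fintype.card_sum, Fintype.card_sum, Fintype.card_fin, Fintype.card_fin]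
    omega
  obtain ⟨v, -, hv⟩ := Finset.exists_mem_notMem_of_card_lt_card h1
  rw [Finset.mem_insert, Finset.mem_singleton, not_or] at hv
  exact ⟨v, hv.1, hv.2⟩

private theorem Qs_ne {K : Type*} [Field K] [PerfectField K] (p : ℕ) [Fact p.Prime]
    [CharP K p] (hp : 5 ≤ p) (M ε N : ℕ) (hε : ε ≤ 1) (hr : 3 ≤ 2 * M + ε) (b : Fin N → ℚ)
    (hb : ∀ j, 0 ≤ b j ∧ b j < 1) :
    (Qs K iv : MvPolynomial (Sg M ε ⊕ Fin N) K) ≠ 0 := by
  intro h
  have hp' : (5 : ℝ) ≤ p := by exact_mod_cast hp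
  have hr' : (3 : ℝ) ≤ 2 * M + ε := by exact_mod_cast hr
  have hε' : (ε : ℝ) ≤ 1 := by exact_mod_cast hε
  have h1 := nv (K := K) p hp M ε N hε hr b hb 1 0 (fun _ => 0) (by
    rw [pow_one]
    push_cast
    rw [mul_zero]
    refine mul_nonneg ?_ (by linarith)
    rw [sub_nonneg, div_le_iff₀ (by linarith)]
    have h2 : 0 ≤ ((2 : ℝ) * M + ε - 2) * (p - 1 - 4) := mul_nonneg (by linarith) (by linarith)
    nlinarith) (fun j => by
    have h3 : (b j : ℝ) < 1 := by exact_mod_cast (hb j).2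
    rw [pow_one]
    push_cast
    refine mul_nonneg (by linarith) (by linarith))
  apply h1
  rw [h, zero_pow (by rw [pow_one]; omega), zero_mul, zero_mul]
  exact Ideal.zero_mem _

theorem kemQ {K : Type*} [Field K] [Infinite K] [PerfectField K] (p : ℕ) [Fact p.Prime]
    [CharP K p] (hp : 5 ≤ p) (M ε N : ℕ) (hε : ε ≤ 1) (hr : 3 ≤ 2 * M + ε) (b : Fin N → ℚ)
    (hb : ∀ j, 0 ≤ b j ∧ b j < 1) {Γ : Type*} [AddCommGroup Γ] [LinearOrder Γ]
    [IsOrderedAddMonoid Γ] (κ : ℕ × (Fin N → ℕ) →+ Γ) (hκ : Function.Injective κ) (ax : ℕ)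
    (ay : Fin N → ℕ) (f : MvPolynomial (Sg M ε ⊕ Fin N) K)
    (hf1 : Ge κ (2, 0) f) (hf2 : comp (2, 0) f = Qs K iv)
    (Jc : ℕ → Ideal (MvPolynomial (Sg M ε ⊕ Fin N) K)) (h0 : Jc 0 = ⊤) (hanti : Antitone Jc)
    (hmul : ∀ i j, Jc i * Jc j ≤ Jc (i + j)) (t : ℝ) (e : ℕ)
    (hiso : ∀ n : ℕ, t * (p : ℝ) ^ e ≤ n → ∀ u ∈ Jc n,
      f ^ (p ^ e - 1) * Yq b (p ^ e) * u ∈ J (Sg M ε ⊕ Fin N) K (p ^ e))
    (W Nm R : ℕ)
    (hx : 2 * (M : ℝ) * (R * Sx (2 * M + ε) ax ay W : ℕ) ≤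
      ((2 * M + ε - 2 : ℝ) - 2 * M / (p - 1)) * ((p : ℝ) ^ e - 1))
    (hy : ∀ j, ((2 * M * R * Sj (2 * M + ε) ax ay W j : ℕ) : ℝ) ≤
      (1 - b j) * ((p : ℝ) ^ e - 1)) :
    2 * (M : ℝ) * R * ∑ s ∈ FW ax ay W, ∑ n ∈ Finset.Icc 1 Nm,
      (Module.finrank K (innQ κ (Qs K iv) (Jc n) s) : ℝ) ≤ t * (p : ℝ) ^ e := by
  classical
  set Q : MvPolynomial (Sg M ε ⊕ Fin N) K := Qs K iv with hQdef
  have hQ : Q ∈ PP K (2, 0) := Qs_mem iv
  have hQ0 : Q ≠ 0 := Qs_ne p hp M ε N hε hr b hb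
  have hcard : Fintype.card (Sg M ε) = 2 * M + ε := by
    rw [Fintype.card_sum, Fintype.card_sum, Fintype.card_fin, Fintype.card_fin]
    omega
  set F := FW ax ay W with hF
  set h : ℕ → ℕ := hh (2 * M + ε) with hh'
  have hex : ∀ s : {s // s ∈ F}, ∃ (B : Fin (h s.1.1) → Rg Q) (w : Fin (h s.1.1) → ℕ),
      IsBas (VV Q s.1) B ∧ (∀ i, B i ∈ innQ κ Q (Jc (w i)) s.1) ∧
      ∑ i, w i = ∑ n ∈ Finset.Icc 1 Nm, Module.finrank K (innQ κ Q (Jc n) s.1) := by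
    intro s
    have e0 : innQ κ Q (Jc 0) s.1 = VV Q s.1 := by rw [h0, innQ_top]
    have hfin : Module.Finite K (VV Q s.1) := by
      have := PP_finite (σ := Sg M ε) (k := K) s.1
      unfold VV
      infer_instance
    obtain ⟨B, w, h1, -, h3, h4⟩ := exists_adapted (fun n => innQ κ Q (Jc n) s.1)
      (fun i j hij => innQ_mono κ Q (hanti hij) s.1) (by
        show Module.Finite K (innQ κ Q (Jc 0) s.1)
        rw [e0]
        exact hfin) (D := h s.1.1) (by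
        show Module.finrank K (innQ κ Q (Jc 0) s.1) = _
        rw [e0]
        exact finrank_VV hr hcard Q hQ hQ0 s.1) Nm
    refine ⟨B, w, ?_, h3, h4⟩
    have h5 : IsBas (innQ κ Q (Jc 0) s.1) B := h1
    rwa [e0] at h5
  choose B w hB hBw hsum using hex
  obtain ⟨G, hG1, hG2, hG3, hG4⟩ := exists_Gq (K := K) (τ := Fin N) p (iv : Sg M ε → Sg M ε)
  have hG3' : ∀ γ ∈ G, ∀ a ∈ qq Q b (p ^ e), γ a ∈ qq Q b (p ^ e) := fun γ hγ a ha =>
    hG3 γ hγ b e a ha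
  have key := kempf (T := TT F M R h) (fun s : {s // s ∈ F} => VV Q s.1)
    (fun s => h s.1.1) (qq Q b (p ^ e)) G hG1 (fun γ hγ s v hv => hG2 γ hγ s.1 v hv) hG3'
    (fun t => t.1) (fun t => Ideal.Quotient.mk (Ideal.span {Q})
      (X (Sum.inl (lv ε t.2.1)) ^ t.1.1.1 * ∏ j, X (Sum.inr j) ^ t.1.1.2 j))
    (fun t => ⟨_, PP_mono (lv ε t.2.1) t.1.1.1 t.1.1.2, rfl⟩) ?_ ?_ B hB
    (fun s i => (w s i : ℝ)) (t * (p : ℝ) ^ e) ?_
  · rw [tup_sum F M R h (fun s => ∑ j, (w s j : ℝ))] at key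
    · refine le_trans (le_of_eq ?_) key
      rw [← Finset.sum_coe_sort F (fun s => ∑ n ∈ Finset.Icc 1 Nm,
        (Module.finrank K (innQ κ Q (Jc n) s) : ℝ))]
      congr 1
      refine Finset.sum_congr rfl fun s _ => ?_
      have := hsum s
      exact_mod_cast this.symm
    · intro s hs
      have : IsEmpty (Fin (h s.1.1)) := by
        rw [hs]
        infer_instance
      exact Finset.sum_of_isEmpty _
  · rintro t u ⟨u', hu', rfl⟩ hne
    have hdvd : ¬ Q ∣ u' := fun hd => hne (by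
      show Ideal.Quotient.mk (Ideal.span {Q}) u' = 0
      rw [Ideal.Quotient.eq_zero_iff_mem, Ideal.mem_span_singleton]
      exact hd)
    obtain ⟨v1, hv1, hv2⟩ := exists_v1 hr (lv ε t.2.1)
    have h1 := ext (K := K) (τ := Fin N) (iv : Sg M ε → Sg M ε) (fun v => iv_iv v) (two_ne p hp)
      (lv ε t.2.1) (iv_lv _) v1 hv1 hv2 t.1.1.1 t.1.1.2 u' hu' hdvd
    have h2 := Submodule.mem_map_of_mem
      (f := (Ideal.Quotient.mkₐ K (Ideal.span {Q})).toLinearMap) h1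
    rw [Submodule.map_span] at h2
    refine Submodule.span_mono ?_ h2
    rintro _ ⟨_, ⟨γ, hγ, rfl⟩, rfl⟩
    obtain ⟨γ', hγ', h3⟩ := hG4 γ hγ
    exact ⟨γ', hγ', (h3 u').symm⟩
  · rw [← map_prod, mem_qq, tup_prod F M R h (fun l => X (Sum.inl (lv ε l)))
      (fun j => X (Sum.inr j))]
    exact nv p hp M ε N hε hr b hb e _ _ hx hy
  · intro c hc
    have h1 : ∀ t : TT F M R h, ∃ u ∈ inn κ (Jc (w t.1 (c t))) t.1.1,
        Ideal.Quotient.mk (Ideal.span {Q}) u = B t.1 (c t) := by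
      intro t
      obtain ⟨u, hu, hu2⟩ := hBw t.1 (c t)
      exact ⟨u, hu, hu2⟩
    choose u hu hu2 using h1
    have h2 : ∏ t : TT F M R h, B t.1 (c t) = Ideal.Quotient.mk (Ideal.span {Q}) (∏ t, u t) := by
      rw [map_prod]
      exact Finset.prod_congr rfl fun t _ => (hu2 t).symm
    rw [h2, mem_qq]
    refine innIso κ hκ f Q hf1 hf2 b (p ^ e) (fun t : TT F M R h => t.1.1)
      (fun t => Jc (w t.1 (c t))) u hu ?_
    intro v hv
    refine hiso (∑ t : TT F M R h, w t.1 (c t)) ?_ v (prod_Jc Jc h0 hmul _ _ hv)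
    push_cast
    exact hc.le

end DP
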