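import Pool.Agent.Lib.MP_9e8926_ag_DP.SubP

/-!
# Diagonal quadratic forms over an algebraically closed field

`Fin r ≃ Sg M ε` (cardinality `M + (M + ε) = r`); write the diagonal form as
`∑_i (a_i x_i² + a'_i x'_i²) + ∑_e a''_e z_e²` (`x_i`, `x'_i`, `z_e` the variables of `Fin r`
corresponding to `inl i`, `inr (inl i)`, `inr (inr e)`).  Choose `c_i² = a_i`, `c'_i² = -a'_i`,
`c''_e² = a''_e` (all nonzero).  Then `a x² + a' x'² = (c x)² - (c' x')² = 2 X Y` with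
`X = c x - c' x'`, `Y = (c x + c' x')/2`, i.e. `x = (X + 2 Y)/(2 c)`, `x' = (2 Y - X)/(2 c')`.
`Λ` : `x ↦ (X + 2Y)/(2c)`, `x' ↦ (2Y - X)/(2c')`, `z ↦ Z/c''`, `y_j ↦ y_j`;
`Λ'`: `X ↦ c x - c' x'`, `Y ↦ (c x + c' x')/2`, `Z ↦ c'' z`.
`Qs K iv = 2 ∑ X_i Y_i + ∑ Z_e²`.
-/

set_option autoImplicit false

noncomputable section

namespace DP

open MvPolynomial

theorem exists_Lam {K : Type*} [Field K] [IsAlgClosed K] (h2 : (2 : K) ≠ 0) (M ε N r : ℕ)
    (hr : 2 * M + ε = r) (a : Fin r → K) (ha : ∀ i, a i ≠ 0) :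
    ∃ (Λ : MvPolynomial (Fin r ⊕ Fin N) K →ₐ[K] MvPolynomial (Sg M ε ⊕ Fin N) K)
      (Λ' : MvPolynomial (Sg M ε ⊕ Fin N) K →ₐ[K] MvPolynomial (Fin r ⊕ Fin N) K),
      (∀ v, Λ (X (Sum.inl v)) ∈ PP K (1, 0)) ∧ (∀ j, Λ (X (Sum.inr j)) = X (Sum.inr j)) ∧
      (∀ v, Λ' (X (Sum.inl v)) ∈ PP K (1, 0)) ∧ (∀ j, Λ' (X (Sum.inr j)) = X (Sum.inr j)) ∧
      (∀ u, Λ' (Λ u) = u) ∧ (∀ u, Λ (Λ' u) = u) ∧
      Λ (∑ i, C (a i) * X (Sum.inl i) ^ 2) = Qs K iv := by
  have hcard : Fintype.card (Fin r) = Fintype.card (Sg M ε) := by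
    simp only [Sg, Fintype.card_sum, Fintype.card_fin]
    omega
  let e : Fin r ≃ Sg M ε := Fintype.equivOfCardEq hcard
  have hc0 : ∀ i : Fin M, ∃ z : K, z ^ 2 = a (e.symm (Sum.inl i)) := fun i =>
    IsAlgClosed.exists_pow_nat_eq _ (by norm_num)
  have hc1 : ∀ i : Fin M, ∃ z : K, z ^ 2 = - a (e.symm (Sum.inr (Sum.inl i))) := fun i =>
    IsAlgClosed.exists_pow_nat_eq _ (by norm_num)
  have hc2 : ∀ i : Fin ε, ∃ z : K, z ^ 2 = a (e.symm (Sum.inr (Sum.inr i))) := fun i =>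
    IsAlgClosed.exists_pow_nat_eq _ (by norm_num)
  choose c hc using hc0
  choose c' hc' using hc1
  choose d hd using hc2
  have nc : ∀ i, c i ≠ 0 := fun i h => ha _ (by rw [← hc i, h]; norm_num)
  have nc' : ∀ i, c' i ≠ 0 := fun i h => ha (e.symm (Sum.inr (Sum.inl i))) (by
    have h3 := hc' i
    rw [h] at h3
    have h4 : (0 : K) ^ 2 = 0 := by norm_num
    rw [h4] at h3
    exact neg_eq_zero.1 h3.symm)
  have nd : ∀ i, d i ≠ 0 := fun i h => ha _ (by rw [← hd i, h]; norm_num)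
  let L : Sg M ε → MvPolynomial (Sg M ε ⊕ Fin N) K := Sum.elim
    (fun i => C (1 / (2 * c i)) *
      (X (Sum.inl (Sum.inl i)) + C 2 * X (Sum.inl (Sum.inr (Sum.inl i)))))
    (Sum.elim (fun i => C (1 / (2 * c' i)) *
      (C 2 * X (Sum.inl (Sum.inr (Sum.inl i))) - X (Sum.inl (Sum.inl i))))
    (fun j => C (1 / d j) * X (Sum.inl (Sum.inr (Sum.inr j)))))
  let L' : Sg M ε → MvPolynomial (Fin r ⊕ Fin N) K := Sum.elim
    (fun i => C (c i) * X (Sum.inl (e.symm (Sum.inl i))) -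
      C (c' i) * X (Sum.inl (e.symm (Sum.inr (Sum.inl i)))))
    (Sum.elim (fun i => C (1 / 2) * (C (c i) * X (Sum.inl (e.symm (Sum.inl i))) +
      C (c' i) * X (Sum.inl (e.symm (Sum.inr (Sum.inl i))))))
    (fun j => C (d j) * X (Sum.inl (e.symm (Sum.inr (Sum.inr j))))))
  have mC : ∀ {σ : Type} [Fintype σ] (x : K) {u : MvPolynomial (σ ⊕ Fin N) K},
      u ∈ PP K (1, 0) → C x * u ∈ PP K (1, 0) := by
    intro σ _ x u hu
    rw [← smul_eq_C_mul]
    exact Submodule.smul_mem _ _ hu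
  have hL : ∀ w, L w ∈ PP K (1, 0) := by
    rintro (i | i | j)
    · exact mC _ (Submodule.add_mem _ (PP_X _) (mC _ (PP_X _)))
    · exact mC _ (Submodule.sub_mem _ (mC _ (PP_X _)) (PP_X _))
    · exact mC _ (PP_X _)
  have hL' : ∀ w, L' w ∈ PP K (1, 0) := by
    rintro (i | i | j)
    · exact Submodule.sub_mem _ (mC _ (PP_X _)) (mC _ (PP_X _))
    · exact mC _ (Submodule.add_mem _ (mC _ (PP_X _)) (mC _ (PP_X _)))
    · exact mC _ (PP_X _)
  let Λ : MvPolynomial (Fin r ⊕ Fin N) K →ₐ[K] MvPolynomial (Sg M ε ⊕ Fin N) K :=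
    aeval (Sum.elim (fun v => L (e v)) (fun j => X (Sum.inr j)))
  let Λ' : MvPolynomial (Sg M ε ⊕ Fin N) K →ₐ[K] MvPolynomial (Fin r ⊕ Fin N) K :=
    aeval (Sum.elim L' (fun j => X (Sum.inr j)))
  have v1 : ∀ v, Λ (X (Sum.inl v)) = L (e v) := fun v => by
    change aeval _ _ = _
    rw [aeval_X]
    rfl
  have v1' : ∀ w, Λ (X (Sum.inl (e.symm w))) = L w := fun w => by
    rw [v1, e.apply_symm_apply]
  have v2 : ∀ j, Λ (X (Sum.inr j)) = X (Sum.inr j) := fun j => by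
    change aeval _ _ = _
    rw [aeval_X]
    rfl
  have v3 : ∀ v, Λ' (X (Sum.inl v)) = L' v := fun v => by
    change aeval _ _ = _
    rw [aeval_X]
    rfl
  have v4 : ∀ j, Λ' (X (Sum.inr j)) = X (Sum.inr j) := fun j => by
    change aeval _ _ = _
    rw [aeval_X]
    rfl
  have cc : ∀ x, Λ (C x) = C x := fun x => Λ.commutes x
  have cc' : ∀ x, Λ' (C x) = C x := fun x => Λ'.commutes x
  have f2 : ∀ {σ : Type}, (C 2 : MvPolynomial σ K) * C (1 / 2) = 1 := fun {σ} => by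
    rw [← C_mul, mul_one_div_cancel h2, C_1]
  have f3 : ∀ {σ : Type} (i), (C (c i) : MvPolynomial σ K) * C (1 / (2 * c i)) = C (1 / 2) :=
    fun {σ} i => by
      rw [← C_mul]
      congr 1
      have := nc i
      field_simp
  have f3' : ∀ {σ : Type} (i), (C (c' i) : MvPolynomial σ K) * C (1 / (2 * c' i)) = C (1 / 2) :=
    fun {σ} i => by
      rw [← C_mul]
      congr 1
      have := nc' i
      field_simp
  have f4 : ∀ {σ : Type} (i), (C (d i) : MvPolynomial σ K) * C (1 / d i) = 1 := fun {σ} i => by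
    rw [← C_mul, mul_one_div_cancel (nd i), C_1]
  have g2 : ∀ {σ : Type}, (C 2 : MvPolynomial σ K) = 2 := fun {σ} => map_ofNat C 2
  have f5 : ∀ {σ : Type}, (2 : MvPolynomial σ K) * C (1 / 2) = 1 := fun {σ} => by
    rw [← g2]
    exact f2
  refine ⟨Λ, Λ', fun v => ?_, v2, fun v => ?_, v4, fun u => ?_, fun u => ?_, ?_⟩
  · rw [v1]
    exact hL _
  · rw [v3]
    exact hL' _
  · have h : Λ'.comp Λ = AlgHom.id K _ := by
      refine algHom_ext ?_
      rintro (v | j)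
      · obtain ⟨w, rfl⟩ := e.symm.surjective v
        rw [AlgHom.comp_apply, v1', AlgHom.id_apply]
        rcases w with i | i | j
        · simp only [L, Sum.elim_inl, Sum.elim_inr, map_mul, map_add, cc', v3, L', g2, map_ofNat]
          linear_combination (2 * X (Sum.inl (e.symm (Sum.inl i)))) * f3 (σ := Fin r ⊕ Fin N) i +
            (C (1 / (2 * c i)) * (C (c i) * X (Sum.inl (e.symm (Sum.inl i))) +
              C (c' i) * X (Sum.inl (e.symm (Sum.inr (Sum.inl i))))) +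
              X (Sum.inl (e.symm (Sum.inl i)))) * f5 (σ := Fin r ⊕ Fin N)
        · simp only [L, Sum.elim_inl, Sum.elim_inr, map_mul, map_sub, cc', v3, L', g2, map_ofNat]
          linear_combination (2 * X (Sum.inl (e.symm (Sum.inr (Sum.inl i))))) *
            f3' (σ := Fin r ⊕ Fin N) i +
            (C (1 / (2 * c' i)) * (C (c i) * X (Sum.inl (e.symm (Sum.inl i))) +
              C (c' i) * X (Sum.inl (e.symm (Sum.inr (Sum.inl i))))) +
              X (Sum.inl (e.symm (Sum.inr (Sum.inl i))))) * f5 (σ := Fin r ⊕ Fin N)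
        · simp only [L, Sum.elim_inr, map_mul, cc', v3, L']
          linear_combination X (Sum.inl (e.symm (Sum.inr (Sum.inr j)))) *
            f4 (σ := Fin r ⊕ Fin N) j
      · rw [AlgHom.comp_apply, v2, v4, AlgHom.id_apply]
    exact AlgHom.congr_fun h u
  · have h : Λ.comp Λ' = AlgHom.id K _ := by
      refine algHom_ext ?_
      rintro (w | j)
      · rw [AlgHom.comp_apply, v3, AlgHom.id_apply]
        rcases w with i | i | j
        · simp only [L', Sum.elim_inl, map_mul, map_sub, cc, v1', L, Sum.elim_inr, g2]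
          linear_combination (X (Sum.inl (Sum.inl i)) + 2 * X (Sum.inl (Sum.inr (Sum.inl i)))) *
            f3 (σ := Sg M ε ⊕ Fin N) i - (2 * X (Sum.inl (Sum.inr (Sum.inl i))) -
            X (Sum.inl (Sum.inl i))) * f3' (σ := Sg M ε ⊕ Fin N) i +
            X (Sum.inl (Sum.inl i)) * f5 (σ := Sg M ε ⊕ Fin N)
        · simp only [L', Sum.elim_inl, map_mul, map_add, cc, v1', L, Sum.elim_inr, g2]
          linear_combination C (1 / 2) * (X (Sum.inl (Sum.inl i)) +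
            2 * X (Sum.inl (Sum.inr (Sum.inl i)))) *
            f3 (σ := Sg M ε ⊕ Fin N) i + C (1 / 2) * (2 * X (Sum.inl (Sum.inr (Sum.inl i))) -
            X (Sum.inl (Sum.inl i))) * f3' (σ := Sg M ε ⊕ Fin N) i +
            (2 * C (1 / 2) + 1) * X (Sum.inl (Sum.inr (Sum.inl i))) * f5 (σ := Sg M ε ⊕ Fin N)
        · simp only [L', Sum.elim_inr, map_mul, cc, v1', L]
          linear_combination X (Sum.inl (Sum.inr (Sum.inr j))) * f4 (σ := Sg M ε ⊕ Fin N) j
      · rw [AlgHom.comp_apply, v4, v2, AlgHom.id_apply]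
    exact AlgHom.congr_fun h u
  · have hs : (∑ i, C (a i) * X (Sum.inl i) ^ 2 : MvPolynomial (Fin r ⊕ Fin N) K) =
        ∑ w : Sg M ε, C (a (e.symm w)) * X (Sum.inl (e.symm w)) ^ 2 :=
      (e.symm.sum_comp (fun i => (C (a i) * X (Sum.inl i) ^ 2 :
        MvPolynomial (Fin r ⊕ Fin N) K))).symm
    rw [hs, map_sum, Fintype.sum_sum_type, Fintype.sum_sum_type, Qs, Fintype.sum_sum_type,
      Fintype.sum_sum_type, ← add_assoc, ← add_assoc, ← Finset.sum_add_distrib,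
      ← Finset.sum_add_distrib]
    refine congrArg₂ (· + ·) (Finset.sum_congr rfl fun i _ => ?_)
      (Finset.sum_congr rfl fun j _ => ?_)
    · have e1 : a (e.symm (Sum.inr (Sum.inl i))) = - c' i ^ 2 := by rw [hc' i, neg_neg]
      simp only [map_mul, map_pow, v1', cc, L, Sum.elim_inl, Sum.elim_inr, iv, g2, e1, ← hc,
        C_neg, map_neg]
      have e2 := f3 (σ := Sg M ε ⊕ Fin N) i
      have e3 := f3' (σ := Sg M ε ⊕ Fin N) i
      have e4 : (C (c i) : MvPolynomial (Sg M ε ⊕ Fin N) K) ^ 2 * (C (1 / (2 * c i)) *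
          (X (Sum.inl (Sum.inl i)) + 2 * X (Sum.inl (Sum.inr (Sum.inl i))))) ^ 2 =
          C (1 / 2) ^ 2 * (X (Sum.inl (Sum.inl i)) +
            2 * X (Sum.inl (Sum.inr (Sum.inl i)))) ^ 2 := by
        rw [← e2]
        ring
      have e5 : (C (c' i) : MvPolynomial (Sg M ε ⊕ Fin N) K) ^ 2 * (C (1 / (2 * c' i)) *
          (2 * X (Sum.inl (Sum.inr (Sum.inl i))) - X (Sum.inl (Sum.inl i)))) ^ 2 =
          C (1 / 2) ^ 2 * (2 * X (Sum.inl (Sum.inr (Sum.inl i))) -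
            X (Sum.inl (Sum.inl i))) ^ 2 := by
        rw [← e3]
        ring
      linear_combination e4 - e5 + 2 * X (Sum.inl (Sum.inl i)) *
        X (Sum.inl (Sum.inr (Sum.inl i))) * (2 * C (1 / 2) + 1) * f5 (σ := Sg M ε ⊕ Fin N)
    · simp only [map_mul, map_pow, v1', cc, L, Sum.elim_inr, iv, ← hd]
      have e2 := f4 (σ := Sg M ε ⊕ Fin N) j
      linear_combination X (Sum.inl (Sum.inr (Sum.inr j))) ^ 2 * (C (d j) * C (1 / d j) + 1) * e2

end DP
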