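import Pool.Agent.Lib.MP_9e8926_ag_DP.LuD

/-!
# The log canonical threshold of the weight ideals

Let `t` be in the set defining `lct f b (ak k)` (`k ≥ 2 ax`), with `Γ`, and suppose `t > κ n/k`,
`n = r - 1 + N`.  Choose `0 ≤ c < 1` with `k (1 - c) < k t - κ n`, and `ρ1` with the integral over
`ball 0 ρ1` finite.  Every `h ∈ Γ` has class in `ak k`, so `h = h1 + f h2` with `h1 ∈ Wt k`
(`Ideal.mem_map_iff_of_surjective`, `Ideal.Quotient.eq`, `mem_span_singleton`).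
Let `D_ρ` be the set in `tube`.  For `z ∈ D_ρ`, `ρ ≤ 1`: `‖h z‖ ≤ C ρ^k` (`wt_bound` for `h1` and for
`h2 ∈ Wt 0`), so `∑ ‖h‖² ≤ C2 ρ^{2k}`, `C2 ≥ 1`.
Outside the null set where `f = 0` or some `y_j = 0` or all `h ∈ Γ` vanish (`vol_zero`; some `h ∈ Γ`
is not zero, since otherwise `ak k = 0`, but `X_v^k` is not in `(f)`: `ak k ⊇ mX^k`, `mX` is not
nilpotent; simplest: `∑ h² = 0` for all `h ∈ Γ` means `Γ ⊆ {0}` and `ak k = ⊥`, so
`X (inr/inl v) ^ k ∈ (f)`; for `v ≠ v'` in `Fin r` this gives `f ∣ X_v^k` and `f ∣ X_{v'}^k`, so `f` is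
a constant times a power of a variable, impossible, or evaluate at a zero of `f` with `x_v ≠ 0`,
e.g. `root_est`) the integrand is at least
`ρ^{-2ck} ρ^{-2 ∑ ay_j b_j} C2^{-t} ρ^{-2kt}` (`Real.rpow_le_rpow_of_nonpos`, antitone in the base).
So the integral over `D_ρ` is at least `c' ρ^{2 E}` with
`E = r ax + ∑ ay_j + k - 2 ax - c k - ∑ ay_j b_j - k t = k (1-c) + κ n - k t < 0`
(`(r-2) ax = κ (r-1)`, `∑ ay_j (1-b_j) = κ N`).  For small `ρ`, `D_ρ ⊆ ball 0 ρ1`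
(`ρ^{w_v} ≤ ρ`), so the integral over the ball is at least `c' ρ^{2E} → ∞`: contradiction.
Models: `Pool/Agent/Lib/MP_9e8926_ag_CX/WtLct.lean`, `Pool/Agent/Lib/MP_9e8926_ag_LP/LctU.lean`.
-/

set_option autoImplicit false

noncomputable section

namespace DP

open MvPolynomial MeasureTheory

private theorem lctU_ne {r N : ℕ} (hr : 3 ≤ r) (ax : ℕ) (ay : Fin N → ℕ)
    (hax : 0 < ax) (hay : ∀ j, 0 < ay j) (a : Fin r → ℂ) (ha : ∀ i, a i ≠ 0)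
    (g : MvPolynomial (Fin r ⊕ Fin N) ℂ) (hg : Hyp ax ay g) : ff a g ≠ 0 := by
  intro h0
  have h01 : (⟨0, by omega⟩ : Fin r) ≠ ⟨1, by omega⟩ := by
    intro h
    simp at h
  obtain ⟨z0, δ0, C, c, hδ, hδ4, hC, hc, -, h⟩ := val_est ⟨0, by omega⟩ ⟨1, by omega⟩ h01 ax ay
    hax hay a ha g hg
  have h1 := (h δ0 δ0 hδ le_rfl le_rfl (fun v => (δ0 : ℂ) ^ wv ax ay v * z0 v) (fun v => by
    rw [sub_self, norm_zero]
    positivity)).2
  rw [h0, map_zero, map_zero, norm_zero] at h1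
  have h2 : 0 < c * δ0 ^ ax := by positivity
  linarith

/-- A zero of `f` with a nonzero coordinate. -/
private theorem lctU_pt {r N : ℕ} (hr : 3 ≤ r) (ax : ℕ) (ay : Fin N → ℕ)
    (hax : 0 < ax) (hay : ∀ j, 0 < ay j) (a : Fin r → ℂ) (ha : ∀ i, a i ≠ 0)
    (g : MvPolynomial (Fin r ⊕ Fin N) ℂ) (hg : Hyp ax ay g) :
    ∃ (z : Fin r ⊕ Fin N → ℂ) (v : Fin r ⊕ Fin N), eval z (ff a g) = 0 ∧ z v ≠ 0 := by
  have h01 : (⟨0, by omega⟩ : Fin r) ≠ ⟨1, by omega⟩ := by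
    intro h
    simp at h
  obtain ⟨z0, δ, C, ρ0, hδ, hC, hρ0, hρ1, -, h⟩ := root_est ⟨0, by omega⟩ ⟨1, by omega⟩ h01 ax ay
    hax hay a ha g hg
  set i0 : Fin r := ⟨0, by omega⟩ with hi0
  set i1 : Fin r := ⟨1, by omega⟩ with hi1
  obtain ⟨s, hs, hs'⟩ : ∃ s : ℂ, ‖s‖ ≤ δ ∧ z0 (Sum.inl i1) + s ≠ 0 := by
    by_cases h2 : z0 (Sum.inl i1) = 0
    · refine ⟨(δ : ℂ), ?_, ?_⟩
      · rw [Complex.norm_real, Real.norm_of_nonneg hδ.le]
      · rw [h2, zero_add]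
        exact_mod_cast hδ.ne'
    · exact ⟨0, by rw [norm_zero]; exact hδ.le, by rwa [add_zero]⟩
  have hρc : (ρ0 : ℂ) ≠ 0 := by exact_mod_cast hρ0.ne'
  obtain ⟨l, hl0, hl⟩ := h ρ0 hρ0 le_rfl (fun v => (ρ0 : ℂ) ^ wv ax ay v * (z0 v + s)) (fun v => by
    have e : (ρ0 : ℂ) ^ wv ax ay v * (z0 v + s) - (ρ0 : ℂ) ^ wv ax ay v * z0 v =
        (ρ0 : ℂ) ^ wv ax ay v * s := by ring
    rw [e, norm_mul, norm_pow, Complex.norm_real, Real.norm_of_nonneg hρ0.le, mul_comm]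
    gcongr)
  have h3 := hl l hl0
  rw [sub_self, norm_zero, mul_zero] at h3
  refine ⟨_, Sum.inl i1, norm_le_zero_iff.1 h3, ?_⟩
  rw [Pi.add_apply, Pi.single_eq_of_ne, add_zero]
  · exact mul_ne_zero (pow_ne_zero _ hρc) hs'
  · intro h4
    exact h01 (Sum.inl.inj h4).symm

/-- Some generator is not zero. -/
private theorem lctU_gen {r N : ℕ} (hr : 3 ≤ r) (ax : ℕ) (ay : Fin N → ℕ)
    (hax : 0 < ax) (hay : ∀ j, 0 < ay j) (a : Fin r → ℂ) (ha : ∀ i, a i ≠ 0)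
    (g : MvPolynomial (Fin r ⊕ Fin N) ℂ) (hg : Hyp ax ay g) (k : ℕ) (hk : 1 ≤ k)
    (Γ : Finset (MvPolynomial (Fin r ⊕ Fin N) ℂ))
    (hΓ : Ideal.span (Ideal.Quotient.mk (Ideal.span {ff a g}) ''
      (Γ : Set (MvPolynomial (Fin r ⊕ Fin N) ℂ))) = ak (ff a g) ax ay k) :
    ∃ h ∈ Γ, h ≠ 0 := by
  by_contra hcon
  push Not at hcon
  have h1 : ak (ff a g) ax ay k = ⊥ := by
    rw [← hΓ, Ideal.span_eq_bot]
    rintro _ ⟨h, hh, rfl⟩
    rw [hcon h hh, map_zero]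
  obtain ⟨-, M, hM⟩ := ak_prim (ff a g) ax ay hax hay k hk
  rw [h1] at hM
  obtain ⟨z, v, hz, hzv⟩ := lctU_pt hr ax ay hax hay a ha g hg
  have h2 : Ideal.Quotient.mk (Ideal.span {ff a g}) (X v) ∈ mX (ff a g) :=
    Ideal.subset_span ⟨v, rfl⟩
  have h3 := hM (Ideal.pow_mem_pow h2 M)
  rw [Ideal.mem_bot, ← map_pow, Ideal.Quotient.eq_zero_iff_mem, Ideal.mem_span_singleton] at h3
  obtain ⟨u, hu⟩ := h3
  have h4 := congrArg (eval z) hu
  rw [map_pow, eval_X, map_mul, hz, zero_mul] at h4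
  exact pow_ne_zero M hzv h4

/-- The bound for the generators. -/
private theorem lctU_bound {r N : ℕ} (ax : ℕ) (ay : Fin N → ℕ)
    (f : MvPolynomial (Fin r ⊕ Fin N) ℂ) (k : ℕ)
    (Γ : Finset (MvPolynomial (Fin r ⊕ Fin N) ℂ))
    (hΓ : Ideal.span (Ideal.Quotient.mk (Ideal.span {f}) ''
      (Γ : Set (MvPolynomial (Fin r ⊕ Fin N) ℂ))) = ak f ax ay k) :
    ∃ C : ℝ, 0 < C ∧ ∀ ρ : ℝ, 0 < ρ → ρ ≤ 1 → ∀ z : Fin r ⊕ Fin N → ℂ,
      (∀ v, ‖z v‖ ≤ ρ ^ wv (r := r) ax ay v) → ‖eval z f‖ ≤ ρ ^ k →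
      ∑ h ∈ Γ, ‖eval z h‖ ^ 2 ≤ C * (ρ ^ k) ^ 2 := by
  have h1 : ∀ h : MvPolynomial (Fin r ⊕ Fin N) ℂ, ∃ C : ℝ, 0 ≤ C ∧ (h ∈ Γ → ∀ ρ : ℝ, 0 < ρ →
      ρ ≤ 1 → ∀ z : Fin r ⊕ Fin N → ℂ, (∀ v, ‖z v‖ ≤ ρ ^ wv (r := r) ax ay v) →
      ‖eval z f‖ ≤ ρ ^ k → ‖eval z h‖ ≤ C * ρ ^ k) := by
    intro h
    by_cases hh : h ∈ Γ
    · have h2 : Ideal.Quotient.mk (Ideal.span {f}) h ∈ ak f ax ay k := by
        rw [← hΓ]
        exact Ideal.subset_span ⟨h, hh, rfl⟩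
      obtain ⟨h', hh', he⟩ := (Ideal.mem_map_iff_of_surjective _
        Ideal.Quotient.mk_surjective).1 h2
      rw [eq_comm, Ideal.Quotient.eq, Ideal.mem_span_singleton] at he
      obtain ⟨u, hu⟩ := he
      have hd : h = h' + f * u := by
        rw [← hu]
        ring
      obtain ⟨c1, hc1, hb1⟩ := wt_bound ax ay k h' hh'
      obtain ⟨c2, hc2, hb2⟩ := wt_bound ax ay 0 u (fun m _ => Nat.zero_le _)
      refine ⟨c1 + c2, by positivity, fun _ ρ hρ hρ1 z hz hf => ?_⟩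
      have e1 := hb1 ρ hρ.le hρ1 z hz
      have e2 := hb2 ρ hρ.le hρ1 z hz
      rw [pow_zero, mul_one] at e2
      rw [hd, map_add, map_mul]
      refine (norm_add_le _ _).trans ?_
      rw [norm_mul, add_mul]
      refine add_le_add e1 ?_
      rw [mul_comm c2]
      exact mul_le_mul hf e2 (norm_nonneg _) (by positivity)
    · exact ⟨0, le_rfl, fun h' => absurd h' hh⟩
  choose C hC h2 using h1
  refine ⟨∑ h ∈ Γ, C h ^ 2 + 1, ?_, fun ρ hρ hρ1 z hz hf => ?_⟩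
  · have := Finset.sum_nonneg fun h (_ : h ∈ Γ) => sq_nonneg (C h)
    linarith
  · have h3 : ∑ h ∈ Γ, ‖eval z h‖ ^ 2 ≤ ∑ h ∈ Γ, C h ^ 2 * (ρ ^ k) ^ 2 := by
      refine Finset.sum_le_sum fun h hh => ?_
      rw [← mul_pow]
      exact pow_le_pow_left₀ (norm_nonneg _) (h2 h hh ρ hρ hρ1 z hz hf) 2
    rw [← Finset.sum_mul] at h3
    have h5 : 0 ≤ (ρ ^ k) ^ 2 := by positivity
    nlinarith

theorem lct_ak {r N : ℕ} (hr : 3 ≤ r) (ax : ℕ) (ay : Fin N → ℕ)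
    (hax : 0 < ax) (hay : ∀ j, 0 < ay j) (a : Fin r → ℂ) (ha : ∀ i, a i ≠ 0)
    (g : MvPolynomial (Fin r ⊕ Fin N) ℂ) (hg : Hyp ax ay g) (b : Fin N → ℚ)
    (hb : ∀ j, 0 ≤ b j ∧ b j < 1) (κ : ℝ) (hκ : 0 < κ)
    (hκx : (ax : ℝ) * ((r : ℝ) - 2) = κ * ((r : ℝ) - 1))
    (hκy : ∀ j, (ay j : ℝ) * (1 - (b j : ℝ)) = κ) (k : ℕ) (hk : 2 * ax ≤ k) :
    lct (ff a g) b (ak (ff a g) ax ay k) ≤ κ * ((r - 1 + N : ℕ) : ℝ) / k := by
  have hax' : (0 : ℝ) < ax := by exact_mod_cast hax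
  have hk0 : 0 < k := by omega
  have hkR : (0 : ℝ) < k := by exact_mod_cast hk0
  have hr3 : (3 : ℝ) ≤ r := by exact_mod_cast hr
  have hn : ((r - 1 + N : ℕ) : ℝ) = (r : ℝ) - 1 + N := by
    rw [Nat.cast_add, Nat.cast_sub (by omega)]
    norm_num
  refine Real.sSup_le ?_ (by positivity)
  rintro t ⟨ht, Γ, hΓ, hint⟩
  by_contra hlt
  push Not at hlt
  rw [div_lt_iff₀ hkR] at hlt
  set f := ff a g with hf
  have hf0 : f ≠ 0 := lctU_ne hr ax ay hax hay a ha g hg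
  obtain ⟨h0, hh0, hh0ne⟩ := lctU_gen hr ax ay hax hay a ha g hg k hk0 Γ hΓ
  obtain ⟨C, hC, hCb⟩ := lctU_bound ax ay f k Γ hΓ
  -- the choice of `c`
  set ε : ℝ := t * k - κ * ((r - 1 + N : ℕ) : ℝ) with hε
  have hεpos : 0 < ε := by
    rw [hε]
    linarith
  obtain ⟨c, hc0, hc1, hcε⟩ : ∃ c : ℝ, 0 ≤ c ∧ c < 1 ∧ k * (1 - c) < ε := by
    refine ⟨max 0 (1 - ε / (2 * k)), le_max_left _ _, max_lt one_pos ?_, ?_⟩
    · have : 0 < ε / (2 * k) := by positivity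
      linarith
    · have h1 : 1 - ε / (2 * k) ≤ max 0 (1 - ε / (2 * k)) := le_max_right _ _
      have h2 : (k : ℝ) * (1 - max 0 (1 - ε / (2 * k))) ≤ k * (ε / (2 * k)) := by
        gcongr
        linarith
      have h3 : (k : ℝ) * (ε / (2 * k)) = ε / 2 := by
        field_simp
      linarith
  obtain ⟨ρ1, hρ1, hin⟩ := hint c hc0 hc1
  set G : (Fin r ⊕ Fin N → ℂ) → ℝ := fun z => ‖eval z f‖ ^ (-(2 * c)) *
    (∏ j, ‖z (Sum.inr j)‖ ^ (-(2 * (b j : ℝ)))) * (∑ h ∈ Γ, ‖eval z h‖ ^ 2) ^ (-t) with hG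
  have hfin : ∫⁻ z in Metric.ball (0 : Fin r ⊕ Fin N → ℂ) ρ1, ENNReal.ofReal (G z) < ⊤ :=
    hin.lintegral_lt_top
  obtain ⟨c', ρ0, hc', hρ0, hρ01, htube⟩ := tube hr ax ay hax hay a ha g hg
  -- the null set
  have hae : ∀ᵐ z : Fin r ⊕ Fin N → ℂ, eval z f ≠ 0 ∧ (∀ j, z (Sum.inr j) ≠ 0) ∧
      eval z h0 ≠ 0 := by
    have h1 : ∀ᵐ z : Fin r ⊕ Fin N → ℂ, eval z f ≠ 0 := by
      rw [ae_iff]
      simpa using vol_zero f hf0
    have h2 : ∀ j, ∀ᵐ z : Fin r ⊕ Fin N → ℂ, z (Sum.inr j) ≠ 0 := by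
      intro j
      rw [ae_iff]
      have h3 := vol_zero (X (Sum.inr j) : MvPolynomial (Fin r ⊕ Fin N) ℂ) (X_ne_zero _)
      simpa using h3
    have h3 : ∀ᵐ z : Fin r ⊕ Fin N → ℂ, eval z h0 ≠ 0 := by
      rw [ae_iff]
      simpa using vol_zero h0 hh0ne
    filter_upwards [h1, ae_all_iff.2 h2, h3] with z e1 e2 e3
    exact ⟨e1, e2, e3⟩
  -- the exponent
  set E2 : ℝ := 2 * (κ * ((r - 1 + N : ℕ) : ℝ) + k * (1 - c) - t * k) with hE2
  have hE2neg : E2 < 0 := by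
    rw [hE2]
    linarith
  have key : ∀ ρ : ℝ, 0 < ρ → ρ ≤ ρ0 → ρ < ρ1 → ENNReal.ofReal (c' * C ^ (-t) * ρ ^ E2) ≤
      ∫⁻ z in Metric.ball (0 : Fin r ⊕ Fin N → ℂ) ρ1, ENNReal.ofReal (G z) := by
    intro ρ hρ hρle hρlt
    have hρ11 : ρ ≤ 1 := hρle.trans hρ01
    set D : Set (Fin r ⊕ Fin N → ℂ) := {z | (∀ v, ‖z v‖ ≤ ρ ^ wv (r := r) ax ay v) ∧
      ‖eval z f‖ ≤ ρ ^ k} with hD
    have hwpos : ∀ v : Fin r ⊕ Fin N, 1 ≤ wv (r := r) ax ay v := by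
      rintro (i | j)
      · exact hax
      · exact hay j
    have hDm : MeasurableSet D := by
      have h1 : IsClosed D := by
        have h2 : D = (⋂ v, {z : Fin r ⊕ Fin N → ℂ | ‖z v‖ ≤ ρ ^ wv (r := r) ax ay v}) ∩
            {z | ‖eval z f‖ ≤ ρ ^ k} := by
          ext z
          simp [hD]
        rw [h2]
        refine (isClosed_iInter fun v => ?_).inter ?_
        · exact isClosed_le (continuous_apply v).norm continuous_const
        · exact isClosed_le (MvPolynomial.continuous_eval f).norm continuous_const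
      exact h1.measurableSet
    have hDsub : D ⊆ Metric.ball (0 : Fin r ⊕ Fin N → ℂ) ρ1 := by
      intro z hz
      rw [mem_ball_zero_iff]
      refine lt_of_le_of_lt ((pi_norm_le_iff_of_nonneg hρ.le).2 fun v => ?_) hρlt
      exact (hz.1 v).trans (by
        calc ρ ^ wv (r := r) ax ay v ≤ ρ ^ 1 := pow_le_pow_of_le_one hρ.le hρ11 (hwpos v)
          _ = ρ := pow_one ρ)
    set K : ℝ := (ρ ^ k) ^ (-(2 * c)) * (∏ j, (ρ ^ ay j) ^ (-(2 * (b j : ℝ)))) *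
      (C * (ρ ^ k) ^ 2) ^ (-t) with hK
    have hK0 : 0 ≤ K := by
      rw [hK]
      exact mul_nonneg (mul_nonneg (by positivity)
        (Finset.prod_nonneg fun j _ => by positivity)) (by positivity)
    have hpt : ∀ z ∈ D, eval z f ≠ 0 → (∀ j, z (Sum.inr j) ≠ 0) → eval z h0 ≠ 0 →
        K ≤ G z := by
      intro z hz e1 e2 e3
      have hS : 0 < ∑ h ∈ Γ, ‖eval z h‖ ^ 2 := by
        refine lt_of_lt_of_le ?_ (Finset.single_le_sum (f := fun h => ‖eval z h‖ ^ 2)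
          (fun h _ => by positivity) hh0)
        have : 0 < ‖eval z h0‖ := norm_pos_iff.2 e3
        positivity
      have hbnn : ∀ j, (0 : ℝ) ≤ b j := fun j => by exact_mod_cast (hb j).1
      have g1 : (ρ ^ k) ^ (-(2 * c)) ≤ ‖eval z f‖ ^ (-(2 * c)) :=
        Real.rpow_le_rpow_of_nonpos (norm_pos_iff.2 e1) hz.2 (by linarith)
      have g2 : ∏ j, (ρ ^ ay j) ^ (-(2 * (b j : ℝ))) ≤
          ∏ j, ‖z (Sum.inr j)‖ ^ (-(2 * (b j : ℝ))) := by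
        refine Finset.prod_le_prod (fun j _ => by positivity) fun j _ => ?_
        refine Real.rpow_le_rpow_of_nonpos (norm_pos_iff.2 (e2 j)) (hz.1 (Sum.inr j)) ?_
        have := hbnn j
        linarith
      have g3 : (C * (ρ ^ k) ^ 2) ^ (-t) ≤ (∑ h ∈ Γ, ‖eval z h‖ ^ 2) ^ (-t) :=
        Real.rpow_le_rpow_of_nonpos hS (hCb ρ hρ hρ11 z hz.1 hz.2) (by linarith)
      rw [hK, hG]
      refine mul_le_mul (mul_le_mul g1 g2 (Finset.prod_nonneg fun j _ => by positivity)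
        (by positivity)) g3 (by positivity) (mul_nonneg (by positivity)
        (Finset.prod_nonneg fun j _ => by positivity))
    have hval : c' * C ^ (-t) * ρ ^ E2 =
        K * (c' * ρ ^ (2 * (r * ax + ∑ j, ay j + (k - 2 * ax)))) := by
      have k1 : (ρ ^ k) ^ (-(2 * c)) = ρ ^ ((k : ℝ) * (-(2 * c))) := by
        rw [← Real.rpow_natCast ρ k, ← Real.rpow_mul hρ.le]
      have k2 : ∏ j, (ρ ^ ay j) ^ (-(2 * (b j : ℝ))) =
          ρ ^ (∑ j, (ay j : ℝ) * (-(2 * (b j : ℝ)))) := by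
        rw [Real.rpow_sum_of_pos hρ]
        refine Finset.prod_congr rfl fun j _ => ?_
        rw [← Real.rpow_natCast ρ (ay j), ← Real.rpow_mul hρ.le]
      have k3 : (C * (ρ ^ k) ^ 2) ^ (-t) = C ^ (-t) * ρ ^ ((k : ℝ) * 2 * (-t)) := by
        rw [Real.mul_rpow hC.le (by positivity), ← pow_mul, ← Real.rpow_natCast ρ (k * 2),
          ← Real.rpow_mul hρ.le]
        push_cast
        rfl
      have k4 : ρ ^ (2 * (r * ax + ∑ j, ay j + (k - 2 * ax))) =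
          ρ ^ ((2 : ℝ) * (r * ax + ∑ j, (ay j : ℝ) + (k - 2 * ax))) := by
        rw [← Real.rpow_natCast ρ]
        congr 1
        push_cast [Nat.cast_sub hk]
        ring
      rw [hK, k1, k2, k3, k4]
      have k5 : E2 = (k : ℝ) * (-(2 * c)) + ∑ j, (ay j : ℝ) * (-(2 * (b j : ℝ))) +
          (k : ℝ) * 2 * (-t) + (2 : ℝ) * (r * ax + ∑ j, (ay j : ℝ) + (k - 2 * ax)) := by
        have k6 : ∑ j, (ay j : ℝ) * (-(2 * (b j : ℝ))) + 2 * ∑ j, (ay j : ℝ) =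
            2 * (κ * N) := by
          have k7 : ∑ j, (ay j : ℝ) * (1 - (b j : ℝ)) = κ * N := by
            rw [Finset.sum_congr rfl fun j _ => hκy j, Finset.sum_const, Finset.card_univ,
              Fintype.card_fin, nsmul_eq_mul, mul_comm]
          rw [← k7, Finset.mul_sum, Finset.mul_sum, ← Finset.sum_add_distrib]
          exact Finset.sum_congr rfl fun j _ => by ring
        rw [hE2, hn]
        linear_combination -2 * hκx - k6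
      rw [k5, Real.rpow_add hρ, Real.rpow_add hρ, Real.rpow_add hρ]
      ring
    calc ENNReal.ofReal (c' * C ^ (-t) * ρ ^ E2)
        = ENNReal.ofReal K *
          ENNReal.ofReal (c' * ρ ^ (2 * (r * ax + ∑ j, ay j + (k - 2 * ax)))) := by
          rw [hval, ENNReal.ofReal_mul hK0]
      _ ≤ ENNReal.ofReal K * volume D := by
          gcongr
          exact htube k hk ρ hρ hρle
      _ = ∫⁻ _ in D, ENNReal.ofReal K := by rw [setLIntegral_const]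
      _ ≤ ∫⁻ z in D, ENNReal.ofReal (G z) := by
          refine lintegral_mono_ae ((ae_restrict_iff' hDm).2 ?_)
          filter_upwards [hae] with z hz hzD
          exact ENNReal.ofReal_le_ofReal (hpt z hzD hz.1 hz.2.1 hz.2.2)
      _ ≤ _ := lintegral_mono_set hDsub
  -- the contradiction
  set I := ∫⁻ z in Metric.ball (0 : Fin r ⊕ Fin N → ℂ) ρ1, ENNReal.ofReal (G z) with hI
  have hA : 0 < c' * C ^ (-t) := by positivity
  have ht1 := tendsto_rpow_atTop (show 0 < -E2 by linarith)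
  have e1 := ht1.eventually (Filter.eventually_gt_atTop (I.toReal / (c' * C ^ (-t))))
  have e2 := Filter.eventually_gt_atTop (max ρ0⁻¹ ρ1⁻¹)
  obtain ⟨x, hx1, hx2⟩ := (e1.and e2).exists
  have hx0 : 0 < x := lt_of_lt_of_le (inv_pos.2 hρ0) ((le_max_left _ _).trans hx2.le)
  have hxa : x⁻¹ < ρ0 := inv_lt_of_inv_lt₀ hρ0 (lt_of_le_of_lt (le_max_left _ _) hx2)
  have hxb : x⁻¹ < ρ1 := inv_lt_of_inv_lt₀ hρ1 (lt_of_le_of_lt (le_max_right _ _) hx2)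
  have h1 := key x⁻¹ (inv_pos.2 hx0) hxa.le hxb
  have h2 : (x⁻¹) ^ E2 = x ^ (-E2) := by
    rw [Real.inv_rpow hx0.le, Real.rpow_neg hx0.le]
  rw [h2] at h1
  rw [div_lt_iff₀ hA] at hx1
  have h3 := ENNReal.toReal_mono hfin.ne h1
  rw [ENNReal.toReal_ofReal (by positivity)] at h3
  linarith

end DP
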