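import Mathlib

/-!
# The limit

Hypotheses: `c (max 0 (W-A))^n ≤ S W`, `0 ≤ B W ≤ c (W+A)^(n+1)/((n+1) κ) + A (W+A)^n`,
`n! ℓ N ≤ (m + δ) N^n` for large `N`, and `η ∑_{N=1}^{Nm} (S W - ℓ N) ≤ t B W` for all `W, Nm`.
Conclusion: `(κ n)^n n! c η^n ≤ m t^n`.

Proof.  Fix `λ > 0`, `δ > 0`; take `Nm = ⌊λ W⌋`, divide by `W^{n+1}` and let `W → ∞`:
`∑_{N ≤ Nm} ℓ N ≤ const + (m+δ)/n! ∑_{N ≤ Nm} N^n ≤ const + (m+δ)/((n+1) n!) (Nm+1)^{n+1}`
(`(n+1) N^n ≤ (N+1)^{n+1} - N^{n+1}`; `m + δ ≥ 0` because `ℓ ≥ 0`), so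
`η (λ c - (m+δ) λ^{n+1}/(n+1)!) ≤ t c/((n+1) κ)`.  `δ → 0`:
`η (λ c - m λ^{n+1}/(n+1)!) ≤ t c/((n+1) κ)` for all `λ > 0`  (*).
If `m = 0` then `λ → ∞` is a contradiction (`m ≥ 0`).  So `m > 0`; let `λ^n = n! c/m`: then
`m λ^{n+1}/(n+1)! = λ c/(n+1)` and (*) gives `η λ n κ ≤ t`; so
`m t^n ≥ m (η λ n κ)^n = (η n κ)^n n! c`.
-/

set_option autoImplicit false

noncomputable section

namespace DP

theorem limW_pow_sum (n M : ℕ) :
    ((n : ℝ) + 1) * ∑ N ∈ Finset.Icc 1 M, (N : ℝ) ^ n ≤ ((M : ℝ) + 1) ^ (n + 1) := by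
  induction M with
  | zero => simp
  | succ M ih =>
    rw [Finset.sum_Icc_succ_top (by omega), mul_add]
    have h : ((M : ℝ) + 1) ^ (n + 1) + ((n : ℝ) + 1) * (((M + 1 : ℕ) : ℝ)) ^ n ≤
        (((M + 1 : ℕ) : ℝ) + 1) ^ (n + 1) := by
      have h1 := one_add_mul_le_pow (a := 1 / ((M : ℝ) + 1)) (by
        have : (0 : ℝ) ≤ 1 / ((M : ℝ) + 1) := by positivity
        linarith) (n + 1)
      have h2 : (0 : ℝ) < (M : ℝ) + 1 := by positivity
      have h3 : (((M + 1 : ℕ) : ℝ) + 1) = (1 + 1 / ((M : ℝ) + 1)) * ((M : ℝ) + 1) := by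
        push_cast
        field_simp
      rw [h3, mul_pow]
      have h4 := mul_le_mul_of_nonneg_right h1 (pow_pos h2 (n + 1)).le
      refine le_trans (le_of_eq ?_) h4
      push_cast
      rw [pow_succ]
      field_simp
    linarith

theorem limW_star (n : ℕ) (c κ η t A m : ℝ) (hc : 0 < c) (hκ : 0 < κ) (hη : 0 < η)
    (ht : 0 ≤ t) (hA : 0 ≤ A) (hm : 0 ≤ m) (S B ℓ : ℕ → ℝ) (hℓ0 : ∀ N, 0 ≤ ℓ N)
    (hℓ : ∀ δ : ℝ, 0 < δ → ∀ᶠ N : ℕ in Filter.atTop,
      (n.factorial : ℝ) * ℓ N ≤ (m + δ) * (N : ℝ) ^ n)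
    (hS : ∀ W : ℕ, c * max 0 ((W : ℝ) - A) ^ n ≤ S W)
    (hB : ∀ W : ℕ, B W ≤ c * ((W : ℝ) + A) ^ (n + 1) / ((n + 1) * κ) + A * ((W : ℝ) + A) ^ n)
    (h : ∀ W Nm : ℕ, η * ∑ N ∈ Finset.Icc 1 Nm, (S W - ℓ N) ≤ t * B W) (lam δ : ℝ)
    (hlam : 0 < lam) (hδ : 0 < δ) :
    η * (lam * c - (m + δ) * lam ^ (n + 1) / ((n + 1).factorial : ℝ)) ≤
      t * (c / ((n + 1) * κ)) := by
  obtain ⟨N0, hN0⟩ := Filter.eventually_atTop.1 (hℓ δ hδ)
  set K0 : ℝ := ∑ N ∈ Finset.range N0, ℓ N with hK0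
  have hK00 : 0 ≤ K0 := Finset.sum_nonneg fun N _ => hℓ0 N
  have hf : (0 : ℝ) < (n.factorial : ℝ) := by exact_mod_cast Nat.factorial_pos n
  have hf1 : (0 : ℝ) < ((n + 1).factorial : ℝ) := by exact_mod_cast Nat.factorial_pos (n + 1)
  have hfs : ((n + 1).factorial : ℝ) = ((n : ℝ) + 1) * (n.factorial : ℝ) := by
    rw [Nat.factorial_succ]; push_cast; ring
  have hmδ : 0 < m + δ := by linarith
  -- sums of ℓ
  have hsum : ∀ M : ℕ, ∑ N ∈ Finset.Icc 1 M, ℓ N ≤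
      K0 + (m + δ) / ((n + 1).factorial : ℝ) * ((M : ℝ) + 1) ^ (n + 1) := by
    intro M
    have h1 : ∀ N ∈ Finset.Icc 1 M, ℓ N ≤
        (if N < N0 then ℓ N else 0) + (m + δ) / (n.factorial : ℝ) * (N : ℝ) ^ n := by
      intro N _
      split_ifs with hN
      · have : 0 ≤ (m + δ) / (n.factorial : ℝ) * (N : ℝ) ^ n := by positivity
        linarith
      · rw [zero_add, div_mul_eq_mul_div, le_div_iff₀ hf, mul_comm]
        exact hN0 N (not_lt.1 hN)
    refine (Finset.sum_le_sum h1).trans ?_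
    rw [Finset.sum_add_distrib, ← Finset.mul_sum]
    apply add_le_add
    · rw [← Finset.sum_filter]
      apply Finset.sum_le_sum_of_subset_of_nonneg
      · intro N hN
        rw [Finset.mem_filter] at hN
        exact Finset.mem_range.2 hN.2
      · intro N _ _
        exact hℓ0 N
    · have h2 := limW_pow_sum n M
      rw [hfs, div_mul_eq_mul_div, div_mul_eq_mul_div, div_le_div_iff₀ hf (by positivity)]
      have h3 := mul_le_mul_of_nonneg_left h2 (mul_nonneg hmδ.le hf.le)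
      refine le_trans (le_of_eq ?_) (h3.trans (le_of_eq ?_)) <;> ring
  -- the two functions of x = 1 / W
  set fL : ℝ → ℝ := fun x => η * ((lam - x) * (c * (1 - A * x) ^ n) - K0 * x ^ (n + 1) -
    (m + δ) / ((n + 1).factorial : ℝ) * (lam + x) ^ (n + 1)) with hfL
  set fR : ℝ → ℝ := fun x => t * (c * (1 + A * x) ^ (n + 1) / ((n + 1) * κ) +
    A * x * (1 + A * x) ^ n) with hfR
  have hLc : Continuous fL := by rw [hfL]; fun_prop
  have hRc : Continuous fR := by rw [hfR]; fun_prop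
  have hx : Filter.Tendsto (fun W : ℕ => 1 / (W : ℝ)) Filter.atTop (nhds 0) :=
    tendsto_one_div_atTop_nhds_zero_nat
  have hL := (hLc.tendsto 0).comp hx
  have hR := (hRc.tendsto 0).comp hx
  have hev : ∀ᶠ W : ℕ in Filter.atTop, (fL ∘ fun W : ℕ => 1 / (W : ℝ)) W ≤
      (fR ∘ fun W : ℕ => 1 / (W : ℝ)) W := by
    filter_upwards [Filter.eventually_ge_atTop (max 1 (max ⌈A⌉₊ ⌈1 / lam⌉₊))] with W hW
    rw [max_le_iff, max_le_iff] at hW
    obtain ⟨hW1, hW2, hW3⟩ := hW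
    have hW0 : (0 : ℝ) < W := by exact_mod_cast hW1
    have hWA : A ≤ W := (Nat.le_ceil A).trans (by exact_mod_cast hW2)
    have hWl : 1 ≤ lam * W := by
      have h1 : 1 / lam ≤ W := (Nat.le_ceil _).trans (by exact_mod_cast hW3)
      rw [div_le_iff₀ hlam] at h1
      linarith
    set Nm : ℕ := ⌊lam * W⌋₊ with hNm
    have hNm1 : (Nm : ℝ) ≤ lam * W := Nat.floor_le (by positivity)
    have hNm2 : lam * W - 1 ≤ Nm := by
      have := Nat.lt_floor_add_one (lam * (W : ℝ))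
      linarith
    have h1 := h W Nm
    rw [Finset.sum_sub_distrib, Finset.sum_const, Nat.card_Icc, nsmul_eq_mul,
      Nat.add_sub_cancel] at h1
    have h2 := hS W
    rw [max_eq_right (by linarith)] at h2
    have h3 : (lam * W - 1) * (c * ((W : ℝ) - A) ^ n) ≤ Nm * S W := by
      have hp : 0 ≤ c * ((W : ℝ) - A) ^ n :=
        mul_nonneg hc.le (pow_nonneg (by linarith) n)
      exact mul_le_mul hNm2 h2 hp (Nat.cast_nonneg _)
    have h4 := hsum Nm
    have h5 : ((Nm : ℝ) + 1) ^ (n + 1) ≤ (lam * W + 1) ^ (n + 1) :=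
      pow_le_pow_left₀ (by positivity) (by linarith) _
    have h6 : η * ((lam * W - 1) * (c * ((W : ℝ) - A) ^ n) - K0 -
        (m + δ) / ((n + 1).factorial : ℝ) * (lam * W + 1) ^ (n + 1)) ≤
        t * (c * ((W : ℝ) + A) ^ (n + 1) / ((n + 1) * κ) + A * ((W : ℝ) + A) ^ n) := by
      have h7 := mul_le_mul_of_nonneg_left h5
        (show 0 ≤ (m + δ) / ((n + 1).factorial : ℝ) by positivity)
      have h8 := mul_le_mul_of_nonneg_left (hB W) ht
      have h9 := mul_le_mul_of_nonneg_left (show (lam * W - 1) * (c * ((W : ℝ) - A) ^ n) - K0 -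
        (m + δ) / ((n + 1).factorial : ℝ) * (lam * W + 1) ^ (n + 1) ≤
        Nm * S W - ∑ N ∈ Finset.Icc 1 Nm, ℓ N by linarith) hη.le
      linarith
    have hWp : (0 : ℝ) < (W : ℝ) ^ (n + 1) := by positivity
    have e1 : fL (1 / (W : ℝ)) = (η * ((lam * W - 1) * (c * ((W : ℝ) - A) ^ n) - K0 -
        (m + δ) / ((n + 1).factorial : ℝ) * (lam * W + 1) ^ (n + 1))) / (W : ℝ) ^ (n + 1) := by
      simp only [hfL]
      have a1 : (lam - 1 / (W : ℝ)) = (lam * W - 1) / W := by field_simp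
      have a2 : (1 - A * (1 / (W : ℝ))) = ((W : ℝ) - A) / W := by field_simp
      have a3 : (lam + 1 / (W : ℝ)) = (lam * W + 1) / W := by field_simp
      rw [a1, a2, a3, div_pow, div_pow, div_pow, one_pow, pow_succ (W : ℝ) n]
      field_simp
    have e2 : fR (1 / (W : ℝ)) =
        (t * (c * ((W : ℝ) + A) ^ (n + 1) / ((n + 1) * κ) + A * ((W : ℝ) + A) ^ n)) /
          (W : ℝ) ^ (n + 1) := by
      simp only [hfR]
      have a2 : (1 + A * (1 / (W : ℝ))) = ((W : ℝ) + A) / W := by field_simp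
      rw [a2, div_pow, div_pow, pow_succ (W : ℝ) n]
      field_simp
    simp only [Function.comp]
    rw [e1, e2]
    exact div_le_div_of_nonneg_right h6 hWp.le
  have hlim := le_of_tendsto_of_tendsto hL hR hev
  simp only [hfL, hfR] at hlim
  simp only [sub_zero, mul_zero, one_pow, mul_one, add_zero, ne_eq, Nat.add_eq_zero_iff,
    one_ne_zero, and_false, not_false_eq_true, zero_pow, zero_mul] at hlim
  refine le_trans (le_of_eq ?_) hlim
  ring

theorem limW (n : ℕ) (hn : 1 ≤ n) (c κ η t A m : ℝ) (hc : 0 < c) (hκ : 0 < κ) (hη : 0 < η)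
    (ht : 0 ≤ t) (hA : 0 ≤ A) (hm : 0 ≤ m) (S B ℓ : ℕ → ℝ) (hℓ0 : ∀ N, 0 ≤ ℓ N)
    (hℓ : ∀ δ : ℝ, 0 < δ → ∀ᶠ N : ℕ in Filter.atTop,
      (n.factorial : ℝ) * ℓ N ≤ (m + δ) * (N : ℝ) ^ n)
    (hS : ∀ W : ℕ, c * max 0 ((W : ℝ) - A) ^ n ≤ S W) (hB0 : ∀ W, 0 ≤ B W)
    (hB : ∀ W : ℕ, B W ≤ c * ((W : ℝ) + A) ^ (n + 1) / ((n + 1) * κ) + A * ((W : ℝ) + A) ^ n)
    (h : ∀ W Nm : ℕ, η * ∑ N ∈ Finset.Icc 1 Nm, (S W - ℓ N) ≤ t * B W) :
    (κ * n) ^ n * (n.factorial : ℝ) * c * η ^ n ≤ m * t ^ n := by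
  have hf : (0 : ℝ) < (n.factorial : ℝ) := by exact_mod_cast Nat.factorial_pos n
  have hf1 : (0 : ℝ) < ((n + 1).factorial : ℝ) := by exact_mod_cast Nat.factorial_pos (n + 1)
  have hfs : ((n + 1).factorial : ℝ) = ((n : ℝ) + 1) * (n.factorial : ℝ) := by
    rw [Nat.factorial_succ]; push_cast; ring
  have hn0 : (0 : ℝ) < n := by exact_mod_cast hn
  have star : ∀ lam : ℝ, 0 < lam →
      η * (lam * c - m * lam ^ (n + 1) / ((n + 1).factorial : ℝ)) ≤ t * (c / ((n + 1) * κ)) := by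
    intro lam hlam
    apply le_of_forall_pos_le_add
    intro ε hε
    set q : ℝ := η * (lam ^ (n + 1) / ((n + 1).factorial : ℝ)) with hq
    have hq0 : 0 < q := by positivity
    have h1 := limW_star n c κ η t A m hc hκ hη ht hA hm S B ℓ hℓ0 hℓ hS hB h lam (ε / q) hlam
      (by positivity)
    have h2 : η * (lam * c - (m + ε / q) * lam ^ (n + 1) / ((n + 1).factorial : ℝ)) =
        η * (lam * c - m * lam ^ (n + 1) / ((n + 1).factorial : ℝ)) - ε / q * q := by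
      rw [hq]; ring
    rw [h2, div_mul_cancel₀ _ hq0.ne'] at h1
    linarith
  rcases hm.eq_or_lt with h0 | hmp
  · exfalso
    have h1 := star (t * (c / ((n + 1) * κ)) / (η * c) + 1) (by positivity)
    rw [← h0, zero_mul, zero_div, sub_zero] at h1
    have h2 : η * ((t * (c / ((n + 1) * κ)) / (η * c) + 1) * c) =
        t * (c / ((n + 1) * κ)) + η * c := by
      field_simp
    rw [h2] at h1
    have h3 : 0 < η * c := by positivity
    linarith
  · set x : ℝ := (n.factorial : ℝ) * c / m with hx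
    have hx0 : 0 < x := by positivity
    set lam : ℝ := x ^ ((n : ℝ)⁻¹) with hlam
    have hlam0 : 0 < lam := Real.rpow_pos_of_pos hx0 _
    have hlamn : lam ^ n = x := Real.rpow_inv_natCast_pow hx0.le (by omega)
    have h1 := star lam hlam0
    have h2 : m * lam ^ (n + 1) / ((n + 1).factorial : ℝ) = lam * c / (n + 1) := by
      rw [pow_succ, hlamn, hx, hfs]
      field_simp
    rw [h2] at h1
    have h3 : η * (lam * c - lam * c / (n + 1)) = η * lam * n * c / (n + 1) := by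
      field_simp
      ring
    rw [h3] at h1
    have h4 : η * lam * n * κ ≤ t := by
      have h5 : t * (c / ((n + 1) * κ)) = (t / κ) * c / (n + 1) := by field_simp
      rw [h5, div_le_div_iff_of_pos_right (by positivity)] at h1
      have h6 := le_of_mul_le_mul_right h1 hc
      rwa [le_div_iff₀ hκ] at h6
    have h5 : (η * lam * n * κ) ^ n ≤ t ^ n := pow_le_pow_left₀ (by positivity) h4 n
    have h6 : m * (η * lam * n * κ) ^ n = (κ * n) ^ n * (n.factorial : ℝ) * c * η ^ n := by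
      have h7 : (η * lam * n * κ) ^ n = η ^ n * lam ^ n * (κ * n) ^ n := by
        rw [← mul_pow, ← mul_pow]; congr 1; ring
      rw [h7, hlamn, hx]
      field_simp
    rw [← h6]
    exact mul_le_mul_of_nonneg_left h5 hmp.le

end DP
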