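import Pool.Agent.Lib.MP_9e8926_ag_DP.UpE

/-!
# Multiplicities

`n = r - 1 + N`.  Model: `Pool/Agent/Lib/MP_9e8926_ag_CX/{LimX,WtE}.lean`.

* `finite_pow`: if `mX^M ≤ I` then `ak ((c+1) M s) ≤ mX^(M s) ≤ I^s` (`ak_le_mX`), so
  `Module.Finite k (R/I^s)` and `finrank (R/I^s) ≤ finrank (R/ak ..) ≤ S0 .. ≤ const s^n`
  (`finrank_ak`, `S0_up`).
* `emult_nonneg`, `emult_ev`: properties of the `limsup` of a bounded nonnegative sequence
  (`eventually_lt_of_limsup_lt`).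
* `emult_ak`: `ak C ^ s ≥ ak ((C + c) s)` (`ak_pow`), so
  `n! finrank (R/ak C ^ s)/s^n ≤ n! c0 ((C+c) s + sA)^n/s^n → n! c0 (C+c)^n`.
* `finrank_comap`: `P/comap mk I ≃ R/I`.
-/

set_option autoImplicit false

noncomputable section

namespace DP

open MvPolynomial

variable {k : Type*} [Field k] {r N : ℕ}

theorem finrank_comap {σ τ : Type*} (f : MvPolynomial (σ ⊕ τ) k) (I : Ideal (Rg f))
    [Module.Finite k (Rg f ⧸ I)] :
    Module.Finite k (MvPolynomial (σ ⊕ τ) k ⧸ I.comap (Ideal.Quotient.mk (Ideal.span {f}))) ∧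
    Module.finrank k (MvPolynomial (σ ⊕ τ) k ⧸ I.comap (Ideal.Quotient.mk (Ideal.span {f}))) =
      Module.finrank k (Rg f ⧸ I) := by
  obtain ⟨φ, hφ⟩ : ∃ φ : MvPolynomial (σ ⊕ τ) k →ₐ[k] (Rg f ⧸ I),
      φ = (Ideal.Quotient.mkₐ k I).comp (Ideal.Quotient.mkₐ k (Ideal.span {f})) := ⟨_, rfl⟩
  have hs : Function.Surjective φ := by
    rw [hφ]
    intro y
    obtain ⟨r, rfl⟩ := Ideal.Quotient.mk_surjective y
    obtain ⟨u, rfl⟩ := Ideal.Quotient.mk_surjective r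
    exact ⟨u, rfl⟩
  have hk : I.comap (Ideal.Quotient.mk (Ideal.span {f})) = RingHom.ker φ := by
    ext u
    rw [Ideal.mem_comap, RingHom.mem_ker, hφ]
    exact Ideal.Quotient.eq_zero_iff_mem.symm
  have e : (MvPolynomial (σ ⊕ τ) k ⧸ I.comap (Ideal.Quotient.mk (Ideal.span {f}))) ≃ₐ[k]
      (Rg f ⧸ I) :=
    (Ideal.quotientEquivAlgOfEq k hk).trans (Ideal.quotientKerAlgEquivOfSurjective hs)
  exact ⟨Module.Finite.equiv e.symm.toLinearEquiv, e.toLinearEquiv.finrank_eq⟩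

private theorem limX_finrank_mono {R : Type*} [CommRing R] [Algebra k R] {I J : Ideal R}
    (hIJ : I ≤ J) [Module.Finite k (R ⧸ I)] :
    Module.Finite k (R ⧸ J) ∧ Module.finrank k (R ⧸ J) ≤ Module.finrank k (R ⧸ I) := by
  have hs : Function.Surjective (Ideal.Quotient.factorₐ k hIJ).toLinearMap :=
    Ideal.Quotient.factor_surjective hIJ
  exact ⟨Module.Finite.of_surjective _ hs, LinearMap.finrank_le_finrank_of_surjective hs⟩

private theorem limX_pow_mul {R : Type*} [CommRing R] {I J : Ideal R} {i : ℕ} (h : I ^ i ≤ J)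
    (j : ℕ) : I ^ (i * j) ≤ J ^ j := by
  rw [pow_mul]
  exact Ideal.pow_right_mono h j

private theorem limX_le {f : MvPolynomial (Fin r ⊕ Fin N) k} (ax : ℕ) (ay : Fin N → ℕ)
    {I : Ideal (Rg f)} {M : ℕ} (hM : mX f ^ M ≤ I) (s : ℕ) :
    ak f ax ay ((ax + ∑ j, ay j + 1) * (M * s)) ≤ I ^ s := by
  exact (ak_le_mX f ax ay (M * s)).trans (limX_pow_mul hM s)

variable (hr : 3 ≤ r)
  (ax : ℕ) (ay : Fin N → ℕ) (hax : 0 < ax) (hay : ∀ j, 0 < ay j)
  (a : Fin r → k) (ha : ∀ i, a i ≠ 0) (g : MvPolynomial (Fin r ⊕ Fin N) k)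
  (hg : Hyp ax ay g)

include hr hax hay ha hg

theorem finite_pow (I : Ideal (Rg (ff a g))) (hI : IsPrim (mX (ff a g)) I) (s : ℕ) :
    Module.Finite k (Rg (ff a g) ⧸ I ^ s) := by
  obtain ⟨-, M, hM⟩ := hI
  have h1 := (finrank_ak hr ax ay hax hay a ha g hg ((ax + ∑ j, ay j + 1) * (M * s))).1
  exact (limX_finrank_mono (k := k) (limX_le ax ay hM s)).1

theorem finrank_bdd (I : Ideal (Rg (ff a g))) (hI : IsPrim (mX (ff a g)) I) :
    ∃ C : ℝ, ∀ s : ℕ, 1 ≤ s →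
      (Module.finrank k (Rg (ff a g) ⧸ I ^ s) : ℝ) ≤ C * (s : ℝ) ^ (r - 1 + N) := by
  obtain ⟨-, M, hM⟩ := hI
  refine ⟨c0 r ax ay * (((ax : ℝ) + ∑ j, (ay j : ℝ) + 1) * M + sA r ax ay) ^ (r - 1 + N),
    fun s hs => ?_⟩
  have h0 := c0_pos hr ax ay hax hay
  have hA : 0 ≤ sA r ax ay := by
    unfold sA
    positivity
  have hs' : (1 : ℝ) ≤ s := by exact_mod_cast hs
  obtain ⟨h1, h2⟩ := finrank_ak hr ax ay hax hay a ha g hg ((ax + ∑ j, ay j + 1) * (M * s))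
  have h3 := (limX_finrank_mono (k := k) (limX_le ax ay hM s)).2
  have h4 := S0_up hr ax ay hax hay ((ax + ∑ j, ay j + 1) * (M * s))
  have h5 : (Module.finrank k (Rg (ff a g) ⧸ I ^ s) : ℝ) ≤
      (S0 r ax ay ((ax + ∑ j, ay j + 1) * (M * s)) : ℝ) := by
    exact_mod_cast h3.trans h2
  refine (h5.trans h4).trans ?_
  rw [mul_assoc, ← mul_pow]
  refine mul_le_mul_of_nonneg_left ?_ h0.le
  refine pow_le_pow_left₀ (by positivity) ?_ _
  push_cast
  nlinarith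

private theorem limX_bdd (I : Ideal (Rg (ff a g))) (hI : IsPrim (mX (ff a g)) I) :
    Filter.IsBoundedUnder (· ≤ ·) Filter.atTop (fun s : ℕ => ((r - 1 + N).factorial : ℝ) *
      (Module.finrank k (Rg (ff a g) ⧸ I ^ s) : ℝ) / (s : ℝ) ^ (r - 1 + N)) := by
  obtain ⟨C0, hC⟩ := finrank_bdd hr ax ay hax hay a ha g hg I hI
  refine Filter.isBoundedUnder_of_eventually_le (a := ((r - 1 + N).factorial : ℝ) * C0) ?_
  filter_upwards [Filter.eventually_ge_atTop 1] with s hs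
  have h0 : (0 : ℝ) < (s : ℝ) := by exact_mod_cast hs
  rw [div_le_iff₀ (by positivity), mul_assoc]
  exact mul_le_mul_of_nonneg_left (hC s hs) (by positivity)

theorem emult_nonneg (I : Ideal (Rg (ff a g))) (hI : IsPrim (mX (ff a g)) I) :
    0 ≤ emult k (r - 1 + N) I := by
  unfold emult
  exact Filter.le_limsup_of_frequently_le
    (Filter.Eventually.frequently (Filter.Eventually.of_forall fun s => by positivity))
    (limX_bdd hr ax ay hax hay a ha g hg I hI)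

theorem emult_ev (I : Ideal (Rg (ff a g))) (hI : IsPrim (mX (ff a g)) I) (δ : ℝ) (hδ : 0 < δ) :
    ∀ᶠ s : ℕ in Filter.atTop, ((r - 1 + N).factorial : ℝ) *
      (Module.finrank k (Rg (ff a g) ⧸ I ^ s) : ℝ) ≤
        (emult k (r - 1 + N) I + δ) * (s : ℝ) ^ (r - 1 + N) := by
  have h1 : Filter.limsup (fun s : ℕ => ((r - 1 + N).factorial : ℝ) *
      (Module.finrank k (Rg (ff a g) ⧸ I ^ s) : ℝ) / (s : ℝ) ^ (r - 1 + N)) Filter.atTop <
      emult k (r - 1 + N) I + δ := by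
    have h2 : emult k (r - 1 + N) I = Filter.limsup (fun s : ℕ => ((r - 1 + N).factorial : ℝ) *
      (Module.finrank k (Rg (ff a g) ⧸ I ^ s) : ℝ) / (s : ℝ) ^ (r - 1 + N)) Filter.atTop := rfl
    rw [← h2]
    linarith
  have h3 := Filter.eventually_lt_of_limsup_lt h1 (limX_bdd hr ax ay hax hay a ha g hg I hI)
  filter_upwards [h3, Filter.eventually_ge_atTop 1] with s hs hs1
  have h0 : (0 : ℝ) < (s : ℝ) := by exact_mod_cast hs1
  exact ((div_lt_iff₀ (by positivity)).1 hs).le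

theorem emult_ak (C : ℕ) (hC : 1 ≤ C) : emult k (r - 1 + N) (ak (ff a g) ax ay C) ≤
    ((r - 1 + N).factorial : ℝ) * c0 r ax ay *
      ((C : ℝ) + (ax + ∑ j, (ay j : ℝ))) ^ (r - 1 + N) := by
  have h0 := c0_pos hr ax ay hax hay
  have hA : 0 ≤ sA r ax ay := by
    unfold sA
    positivity
  have hb : ∀ s : ℕ, 1 ≤ s → ((r - 1 + N).factorial : ℝ) *
      (Module.finrank k (Rg (ff a g) ⧸ ak (ff a g) ax ay C ^ s) : ℝ) / (s : ℝ) ^ (r - 1 + N) ≤
      ((r - 1 + N).factorial : ℝ) * c0 r ax ay *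
        (((C : ℝ) + (ax + ∑ j, (ay j : ℝ))) + sA r ax ay * (1 / (s : ℝ))) ^ (r - 1 + N) := by
    intro s hs
    have hs0 : (0 : ℝ) < s := by exact_mod_cast hs
    obtain ⟨h1, h2⟩ := finrank_ak hr ax ay hax hay a ha g hg ((C + (ax + ∑ j, ay j)) * s)
    have h3 := (limX_finrank_mono (k := k) (ak_pow (ff a g) ax ay C s)).2
    have h4 := S0_up hr ax ay hax hay ((C + (ax + ∑ j, ay j)) * s)
    have h5 : (Module.finrank k (Rg (ff a g) ⧸ ak (ff a g) ax ay C ^ s) : ℝ) ≤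
        (S0 r ax ay ((C + (ax + ∑ j, ay j)) * s) : ℝ) := by
      exact_mod_cast h3.trans h2
    rw [div_le_iff₀ (by positivity)]
    calc ((r - 1 + N).factorial : ℝ) *
          (Module.finrank k (Rg (ff a g) ⧸ ak (ff a g) ax ay C ^ s) : ℝ)
        ≤ ((r - 1 + N).factorial : ℝ) * (c0 r ax ay *
          ((((C + (ax + ∑ j, ay j)) * s : ℕ) : ℝ) + sA r ax ay) ^ (r - 1 + N)) :=
          mul_le_mul_of_nonneg_left (h5.trans h4) (by positivity)
      _ = _ := by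
          rw [mul_assoc, mul_assoc, ← mul_pow]
          congr 3
          push_cast
          field_simp
  have hlim : Filter.Tendsto (fun s : ℕ => ((r - 1 + N).factorial : ℝ) * c0 r ax ay *
        (((C : ℝ) + (ax + ∑ j, (ay j : ℝ))) + sA r ax ay * (1 / (s : ℝ))) ^ (r - 1 + N))
      Filter.atTop (nhds (((r - 1 + N).factorial : ℝ) * c0 r ax ay *
        ((C : ℝ) + (ax + ∑ j, (ay j : ℝ))) ^ (r - 1 + N))) := by
    have h1 : Filter.Tendsto (fun s : ℕ => (1 : ℝ) / (s : ℝ)) Filter.atTop (nhds 0) :=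
      tendsto_one_div_atTop_nhds_zero_nat
    have h2 := ((h1.const_mul (sA r ax ay)).const_add
      ((C : ℝ) + (ax + ∑ j, (ay j : ℝ)))).pow (r - 1 + N)
    rw [mul_zero, add_zero] at h2
    exact h2.const_mul _
  unfold emult
  rw [← hlim.limsup_eq]
  refine Filter.limsup_le_limsup ?_ ?_ hlim.isBoundedUnder_le
  · filter_upwards [Filter.eventually_ge_atTop 1] with s hs
    exact hb s hs
  · refine Filter.IsCoboundedUnder.of_frequently_ge (a := 0) ?_
    exact Filter.Frequently.of_forall fun s => by positivity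

end DP
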