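import Pool.Agent.Lib.MP_9e8926_ag_DP.LimX
import Pool.Agent.Lib.MP_9e8926_ag_DP.LimW

/-!
# The lower bound for Frobenius volumes

Let `I` be primary, `t > fpt I` (so `t > 0`), `Φ` as in `exists_transfer` (`K = AlgebraicClosure k`),
`Jc n = (comap mk (I^n)).map Φ`.
* `Jc 0 = ⊤`, antitone, `Jc i * Jc j ≤ Jc (i+j)`, `Φ f = Qs + g' ∈ Jc n` (`mk f = 0`); finite
  quotients (`finite_pow`, `finrank_comap`, `exists_transfer`).
* `hiso`: `{u | (Φ f)^{q-1} Y_q u ∈ J q}` is an ideal containing `Φ u` for `mk u ∈ I^n`, `n ≥ t q`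
  (`iso_of_lt` and `exists_transfer`), so it contains `Jc n`.
* `lowK` with `B = c0 (W + sA)^(n+1)/((n+1) κ) + c0 (W + sA)^n` (`n = r-1+N`, `2M+ε = r`):
  `hBx`: `Sx ≤ (r-1)/ax c0 (W+sA)^(n+1)/(n+1) + S0` (`Sx_up`), `(r-1)/ax = (r-2)/κ` (`hκx`),
  `S0 ≤ c0 (W+sA)^n ≤ (r-2) c0 (W+sA)^n`; `hBj`: `Sj ≤ c0 (W+sA)^(n+1)/((n+1) ay_j)` and
  `1/ay_j = (1-b_j)/κ` (`hκy`).  The colengths over `K` are at most `ℓ n = finrank (R/I^n)`.
* `limW` (`η = 1 - 2/(p-1)`, `c = c0`, `A = sA + ax + c0`, `m = emult I`, `emult_ev`,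
  `S0_low`): `(κ n)^n n! c0 η^n ≤ emult I t^n`; `t → fpt I` (continuity).
-/

set_option autoImplicit false

noncomputable section

namespace DP

open MvPolynomial

private theorem LowF_mul_mem {R : Type*} [CommRing R] {I : Ideal R} {x y : R} {i j : ℕ}
    (hx : x ∈ I ^ i) (hy : y ∈ I ^ j) : x * y ∈ I ^ (i + j) := by
  rw [pow_add]
  exact Ideal.mul_mem_mul hx hy

variable {k : Type*} [Field k] {r N : ℕ}
variable (p : ℕ) [Fact p.Prime] [CharP k p] [PerfectField k] (hp : 5 ≤ p) (hr : 3 ≤ r)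
  (ax : ℕ) (ay : Fin N → ℕ) (hax : 0 < ax) (hay : ∀ j, 0 < ay j)
  (a : Fin r → k) (ha : ∀ i, a i ≠ 0) (g : MvPolynomial (Fin r ⊕ Fin N) k)
  (hg : Hyp ax ay g) (b : Fin N → ℚ) (hb : ∀ j, 0 ≤ b j ∧ b j < 1)
  (κ : ℝ) (hκ : 0 < κ) (hκx : (ax : ℝ) * ((r : ℝ) - 2) = κ * ((r : ℝ) - 1))
  (hκy : ∀ j, (ay j : ℝ) * (1 - (b j : ℝ)) = κ)

include hp hr hax hay ha hg hb hκ hκx hκy

private theorem low_t (I : Ideal (Rg (ff a g))) (hI : IsPrim (mX (ff a g)) I) (t : ℝ)
    (ht : fpt p (ff a g) b I < t) :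
    (κ * ((r - 1 + N : ℕ) : ℝ)) ^ (r - 1 + N) * ((r - 1 + N).factorial : ℝ) * c0 r ax ay *
      (1 - 2 / ((p : ℝ) - 1)) ^ (r - 1 + N) ≤ emult k (r - 1 + N) I * t ^ (r - 1 + N) := by
  have ht0 : 0 ≤ t := (Real.sSup_nonneg fun s hs => hs.1).trans ht.le
  have hcharK : CharP (AlgebraicClosure k) p :=
    charP_of_injective_algebraMap (algebraMap k (AlgebraicClosure k)).injective p
  obtain ⟨M, ε, hε, hMε, g', Φ, hg', hΦf, hΦY, hΦJ, hΦfin, -, -⟩ :=
    exists_transfer p (by omega) r N ax ay a ha g hg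
  have hfinI : ∀ n, Module.Finite k (Rg (ff a g) ⧸ I ^ n) := fun n =>
    finite_pow hr ax ay hax hay a ha g hg I hI n
  have hp' : (5 : ℝ) ≤ p := by exact_mod_cast hp
  have hp1 : (0 : ℝ) < p - 1 := by linarith
  have hη : 0 < 1 - 2 / ((p : ℝ) - 1) := by
    rw [sub_pos, div_lt_one hp1]
    linarith
  have hr' : (3 : ℝ) ≤ r := by exact_mod_cast hr
  have hc0 := c0_pos hr ax ay hax hay
  have hax' : (0 : ℝ) < ax := by exact_mod_cast hax
  have hsA : 0 ≤ sA r ax ay := by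
    unfold sA
    positivity
  let Jc : ℕ → Ideal (MvPolynomial (Sg M ε ⊕ Fin N) (AlgebraicClosure k)) := fun n =>
    ((I ^ n).comap (Ideal.Quotient.mk (Ideal.span {ff a g}))).map Φ
  have hJ0 : Jc 0 = ⊤ := by
    show ((I ^ 0).comap (Ideal.Quotient.mk (Ideal.span {ff a g}))).map Φ = ⊤
    have e1 : I ^ 0 = ⊤ := (pow_zero I).trans Ideal.one_eq_top
    rw [e1, Ideal.comap_top, Ideal.map_top]
  have hJanti : Antitone Jc := fun i j hij =>
    Ideal.map_mono (Ideal.comap_mono (Ideal.pow_le_pow_right hij))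
  have hJmul : ∀ i j, Jc i * Jc j ≤ Jc (i + j) := by
    intro i j
    show ((I ^ i).comap (Ideal.Quotient.mk (Ideal.span {ff a g}))).map Φ *
      ((I ^ j).comap (Ideal.Quotient.mk (Ideal.span {ff a g}))).map Φ ≤ _
    rw [← Ideal.map_mul]
    refine Ideal.map_mono ?_
    rw [Ideal.mul_le]
    intro x hx y hy
    rw [Ideal.mem_comap] at hx hy ⊢
    rw [map_mul]
    exact LowF_mul_mem hx hy
  have hΦf' : Φ (ff a g) = Qs (AlgebraicClosure k) iv + g' := hΦf
  have hJf : ∀ n, Qs (AlgebraicClosure k) iv + g' ∈ Jc n := by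
    intro n
    rw [← hΦf']
    refine Ideal.mem_map_of_mem Φ ?_
    rw [Ideal.mem_comap]
    have e1 : Ideal.Quotient.mk (Ideal.span {ff a g}) (ff a g) = 0 :=
      Ideal.Quotient.eq_zero_iff_mem.2 (Ideal.mem_span_singleton_self _)
    rw [e1]
    exact Ideal.zero_mem _
  have hcom : ∀ n, Module.Finite k (MvPolynomial (Fin r ⊕ Fin N) k ⧸
      (I ^ n).comap (Ideal.Quotient.mk (Ideal.span {ff a g}))) ∧
      Module.finrank k (MvPolynomial (Fin r ⊕ Fin N) k ⧸
      (I ^ n).comap (Ideal.Quotient.mk (Ideal.span {ff a g}))) =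
      Module.finrank k (Rg (ff a g) ⧸ I ^ n) := fun n => by
    have := hfinI n
    exact finrank_comap (ff a g) (I ^ n)
  have hJfin := fun n => (hΦfin _ (hcom n).1).1
  have hJrk : ∀ n, Module.finrank (AlgebraicClosure k)
      (MvPolynomial (Sg M ε ⊕ Fin N) (AlgebraicClosure k) ⧸ Jc n) ≤
      Module.finrank k (Rg (ff a g) ⧸ I ^ n) := fun n => by
    rw [← (hcom n).2]
    exact (hΦfin _ (hcom n).1).2
  have hJiso : ∀ e n : ℕ, t * (p : ℝ) ^ e ≤ n → ∀ u ∈ Jc n,
      (Qs (AlgebraicClosure k) iv + g') ^ (p ^ e - 1) * Yq b (p ^ e) * u ∈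
        J (Sg M ε ⊕ Fin N) (AlgebraicClosure k) (p ^ e) := by
    intro e n hn u hu
    have h1 : Jc n ≤ jq (Qs (AlgebraicClosure k) iv + g') b (p ^ e) := by
      show ((I ^ n).comap (Ideal.Quotient.mk (Ideal.span {ff a g}))).map Φ ≤ _
      rw [Ideal.map_le_iff_le_comap]
      intro x hx
      rw [Ideal.mem_comap] at hx ⊢
      show (Qs (AlgebraicClosure k) iv + g') ^ (p ^ e - 1) * Yq b (p ^ e) * Φ x ∈
        J (Sg M ε ⊕ Fin N) (AlgebraicClosure k) (p ^ e)
      rw [← hΦf', ← hΦY b (p ^ e), ← map_pow, ← map_mul, ← map_mul]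
      exact hΦJ e _ (iso_of_lt p hp hr ax ay hax hay a ha g hg b hb I hI.1 t ht e n hn x hx)
    exact h1 hu
  have hcast : ((2 * M + ε : ℕ) : ℝ) = r := by rw [hMε]
  have key := limW (r - 1 + N) (by omega) (c0 r ax ay) κ (1 - 2 / ((p : ℝ) - 1)) t
    (sA r ax ay + ax + c0 r ax ay) (emult k (r - 1 + N) I) hc0 hκ hη ht0
    (by positivity) (emult_nonneg hr ax ay hax hay a ha g hg I hI)
    (fun W => (S0 r ax ay W : ℝ))
    (fun W => c0 r ax ay * ((W : ℝ) + sA r ax ay) ^ (r - 1 + N + 1) /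
      (((r - 1 + N : ℕ) + 1) * κ) + c0 r ax ay * ((W : ℝ) + sA r ax ay) ^ (r - 1 + N))
    (fun n => (Module.finrank k (Rg (ff a g) ⧸ I ^ n) : ℝ)) (fun n => Nat.cast_nonneg _)
    (fun δ hδ => emult_ev hr ax ay hax hay a ha g hg I hI δ hδ) ?_ ?_ ?_ ?_
  · exact key
  · intro W
    refine le_trans ?_ (S0_low hr ax ay hax hay W)
    refine mul_le_mul_of_nonneg_left ?_ hc0.le
    refine pow_le_pow_left₀ (le_max_left _ _) (max_le_max le_rfl ?_) _
    linarith
  · intro W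
    positivity
  · intro W
    have h1 : ((W : ℝ) + sA r ax ay) ≤ (W : ℝ) + (sA r ax ay + ax + c0 r ax ay) := by linarith
    have h2 : 0 ≤ (W : ℝ) + sA r ax ay := by positivity
    refine add_le_add ?_ ?_
    · refine div_le_div_of_nonneg_right ?_ (by positivity)
      exact mul_le_mul_of_nonneg_left (pow_le_pow_left₀ h2 h1 _) hc0.le
    · refine mul_le_mul ?_ (pow_le_pow_left₀ h2 h1 _) (by positivity) (by positivity)
      linarith
  · intro W Nm
    set T := c0 r ax ay * ((W : ℝ) + sA r ax ay) ^ (r - 1 + N + 1) /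
      (((r - 1 + N : ℕ) : ℝ) + 1) with hT
    set U := c0 r ax ay * ((W : ℝ) + sA r ax ay) ^ (r - 1 + N) with hU
    have hW : 0 < (W : ℝ) + sA r ax ay := by
      have h1 : (0 : ℝ) < sA r ax ay := by
        unfold sA
        have h2 : (0 : ℝ) < ((r - 1 : ℕ) : ℝ) := by
          have : 0 < r - 1 := by omega
          exact_mod_cast this
        have h3 : (0 : ℝ) ≤ ∑ j, (ay j : ℝ) := by positivity
        have h4 : 0 < ((r - 1 : ℕ) : ℝ) * ax := mul_pos h2 hax'
        linarith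
      have h2 : (0 : ℝ) ≤ W := Nat.cast_nonneg W
      linarith
    have hT0 : 0 < T := by
      rw [hT]
      positivity
    have hU0 : 0 < U := by
      rw [hU]
      positivity
    have hB : c0 r ax ay * ((W : ℝ) + sA r ax ay) ^ (r - 1 + N + 1) /
      (((r - 1 + N : ℕ) + 1) * κ) + U = T / κ + U := by
      rw [hT, div_div]
    have h1 := Sx_up hr ax ay hax hay W
    have h2 := fun j => Sj_up hr ax ay hax hay W j
    have h3 := S0_up hr ax ay hax hay W
    rw [← hT] at h1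
    rw [← hU] at h3
    have hr1 : ((r - 1 : ℕ) : ℝ) = r - 1 := by
      rw [Nat.cast_sub (by omega), Nat.cast_one]
    rw [hr1] at h1
    have h4 := lowK (K := AlgebraicClosure k) p hp M ε N hε (by omega) b hb ax ay hax hay g' hg' Jc
      hJ0 hJanti hJmul hJf hJfin t ht0 hJiso W Nm (T / κ + U) (by positivity) ?_ ?_
    · rw [hMε] at h4
      show _ ≤ t * (c0 r ax ay * ((W : ℝ) + sA r ax ay) ^ (r - 1 + N + 1) /
        (((r - 1 + N : ℕ) + 1) * κ) + U)
      rw [hB]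
      refine le_trans (mul_le_mul_of_nonneg_left (Finset.sum_le_sum fun n _ => ?_) hη.le) h4
      have h5 : (Module.finrank (AlgebraicClosure k)
        (MvPolynomial (Sg M ε ⊕ Fin N) (AlgebraicClosure k) ⧸ Jc n) : ℝ) ≤
        (Module.finrank k (Rg (ff a g) ⧸ I ^ n) : ℝ) := by exact_mod_cast hJrk n
      linarith
    · have hcast' : (2 * (M : ℝ) + ε - 2) = r - 2 := by
        rw [← hcast]
        push_cast
        ring
      rw [hMε, hcast']
      have h5 : (ax : ℝ) * (Sx r ax ay W : ℝ) ≤ ax * ((r - 2) * (T / κ + U)) := by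
        have h6 : (ax : ℝ) * ((r - 2) * (T / κ + U)) = (r - 1) * T + ax * (r - 2) * U := by
          have : (ax : ℝ) * ((r - 2) * (T / κ + U)) =
              (ax * (r - 2)) * (T / κ) + ax * (r - 2) * U := by ring
          rw [this, hκx]
          field_simp
        rw [h6]
        have h7 : (ax : ℝ) * (S0 r ax ay W : ℝ) ≤ ax * (r - 2) * U := by
          have h8 : (1 : ℝ) ≤ r - 2 := by linarith
          calc (ax : ℝ) * (S0 r ax ay W : ℝ) ≤ ax * U := mul_le_mul_of_nonneg_left h3 hax'.le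
            _ ≤ ax * ((r - 2) * U) := by
                refine mul_le_mul_of_nonneg_left ?_ hax'.le
                nlinarith
            _ = ax * (r - 2) * U := by ring
        linarith
      exact le_of_mul_le_mul_left h5 hax'
    · intro j
      rw [hMε]
      have hayj : (0 : ℝ) < ay j := by exact_mod_cast hay j
      have h5 : (ay j : ℝ) * (Sj r ax ay W j : ℝ) ≤ ay j * ((1 - b j) * (T / κ + U)) := by
        have h6 : (ay j : ℝ) * ((1 - b j) * (T / κ + U)) = T + κ * U := by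
          rw [← mul_assoc, hκy j]
          field_simp
        rw [h6]
        have h7 := h2 j
        rw [← hT] at h7
        have h8 : 0 < κ * U := mul_pos hκ hU0
        linarith
      exact le_of_mul_le_mul_left h5 hayj

theorem emult_low (I : Ideal (Rg (ff a g))) (hI : IsPrim (mX (ff a g)) I) :
    (κ * ((r - 1 + N : ℕ) : ℝ)) ^ (r - 1 + N) * ((r - 1 + N).factorial : ℝ) * c0 r ax ay *
      (1 - 2 / ((p : ℝ) - 1)) ^ (r - 1 + N) ≤
      emult k (r - 1 + N) I * fpt p (ff a g) b I ^ (r - 1 + N) := by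
  by_contra hcon
  push Not at hcon
  have hc : ContinuousAt (fun s : ℝ => emult k (r - 1 + N) I * s ^ (r - 1 + N))
      (fpt p (ff a g) b I) := (continuous_const.mul (continuous_pow _)).continuousAt
  have h1 := hc.eventually (gt_mem_nhds hcon)
  obtain ⟨ε, hε, h2⟩ := Metric.eventually_nhds_iff.1 h1
  have h3 : dist (fpt p (ff a g) b I + ε / 2) (fpt p (ff a g) b I) < ε := by
    rw [Real.dist_eq, abs_lt]
    constructor <;> linarith
  have h4 := h2 h3
  have h5 := low_t p hp hr ax ay hax hay a ha g hg b hb κ hκ hκx hκy I hI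
    (fpt p (ff a g) b I + ε / 2) (by linarith)
  exact absurd h5 (not_le.2 h4)

theorem fvol_low : (κ * ((r - 1 + N : ℕ) : ℝ)) ^ (r - 1 + N) * ((r - 1 + N).factorial : ℝ) *
    c0 r ax ay * (1 - 2 / ((p : ℝ) - 1)) ^ (r - 1 + N) ≤ Fvol p (r - 1 + N) (ff a g) b := by
  have hne : {v : ℝ | ∃ I : Ideal (Rg (ff a g)), IsPrim (mX (ff a g)) I ∧
      v = emult k (r - 1 + N) I * fpt p (ff a g) b I ^ (r - 1 + N)}.Nonempty :=
    ⟨_, mX (ff a g), ⟨le_rfl, 1, by rw [pow_one]⟩, rfl⟩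
  refine le_csInf hne ?_
  rintro _ ⟨I, hI, rfl⟩
  exact emult_low p hp hr ax ay hax hay a ha g hg b hb κ hκ hκx hκy I hI

end DP
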