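import Mathlib

/-!
# The nearest root of a polynomial

Proof: if `h(x0) = 0` take `ξ = x0`.  Otherwise `h = c ∏ (X - ξ_i)` (`IsAlgClosed.splits`) has a root
(`h' ≠ 0`), and `h'(x0) = h(x0) ∑ 1/(x0 - ξ_i)`
(`Polynomial.eval_derivative_eq_eval_mul_sum_of_splits`, or
`Polynomial.eval_derivative_div_eval_of_ne_zero_of_splits`), so with the nearest root `ξ`,
`|h'(x0)| ≤ |h(x0)| (natDegree h)/|x0 - ξ|`.
-/

set_option autoImplicit false

noncomputable section

namespace DP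

theorem exists_root_near (h : Polynomial ℂ) (D : ℕ) (hD : h.natDegree ≤ D) (x0 : ℂ)
    (hx : h.derivative.eval x0 ≠ 0) :
    ∃ ξ : ℂ, h.eval ξ = 0 ∧ ‖ξ - x0‖ * ‖h.derivative.eval x0‖ ≤ D * ‖h.eval x0‖ := by
  by_cases h0 : h.eval x0 = 0
  · exact ⟨x0, h0, by rw [sub_self, norm_zero, h0, norm_zero, zero_mul, mul_zero]⟩
  have hs : h.Splits := IsAlgClosed.splits h
  have e := hs.eval_derivative_eq_eval_mul_sum h0
  have hne : h.roots ≠ 0 := by
    intro h1
    rw [h1, Multiset.map_zero, Multiset.sum_zero, mul_zero] at e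
    exact hx e
  obtain ⟨ξ, hξ, hmin⟩ := Multiset.exists_min_image (fun z => ‖x0 - z‖) hne
  have hroot : h.eval ξ = 0 := by
    have := (Polynomial.mem_roots'.1 hξ).2
    exact this
  have hpos : 0 < ‖x0 - ξ‖ := by
    rw [norm_pos_iff, sub_ne_zero]
    rintro rfl
    exact h0 hroot
  refine ⟨ξ, hroot, ?_⟩
  have h1 : ‖(h.roots.map fun z => 1 / (x0 - z)).sum‖ ≤ D * (1 / ‖x0 - ξ‖) := by
    refine (norm_multiset_sum_le _).trans ?_
    rw [Multiset.map_map]
    have h2 : ∀ r ∈ h.roots.map (norm ∘ fun z => 1 / (x0 - z)), r ≤ 1 / ‖x0 - ξ‖ := by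
      intro r hr
      rw [Multiset.mem_map] at hr
      obtain ⟨z, hz, rfl⟩ := hr
      rw [Function.comp_apply, norm_div, norm_one]
      exact one_div_le_one_div_of_le hpos (hmin z hz)
    refine (Multiset.sum_le_card_nsmul _ _ h2).trans ?_
    rw [Multiset.card_map, nsmul_eq_mul]
    refine mul_le_mul_of_nonneg_right ?_ (by positivity)
    exact_mod_cast (Polynomial.card_roots' h).trans hD
  rw [e, norm_mul, norm_sub_rev]
  calc ‖x0 - ξ‖ * (‖h.eval x0‖ * ‖(h.roots.map fun z => 1 / (x0 - z)).sum‖) ≤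
      ‖x0 - ξ‖ * (‖h.eval x0‖ * (D * (1 / ‖x0 - ξ‖))) := by gcongr
    _ = D * ‖h.eval x0‖ := by
      field_simp

end DP
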