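import Pool.Agent.Lib.MP_9e8926_ag_DP.LuE

/-!
# Lipschitz bounds on scaled polydiscs

All monomials `m` of `f` have weight `≥ 2 ax` (`Hyp` for `g`).  For one monomial `m`, as a function
of
`x_{i0}` with the other variables fixed: `z^m = x_{i0}^{m_0} R`, `|R| ≤ ρ^{L1 m - m_0 ax}`, and
`|u^n - v^n| ≤ n max(|u|,|v|)^{n-1} |u - v|`, so the difference is at most
`m_0 ρ^{(m_0 - 1) ax} ρ^{L1 m - m_0 ax} |l' - l| = m_0 ρ^{L1 m - ax} |l' - l| ≤ m_0 ρ^{ax} |l' - l|`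
(`ρ ≤ 1`; if `m_0 = 0` it is 0).  `C = 1 + ∑_m |c_m| m_0`.
-/

set_option autoImplicit false

noncomputable section

namespace DP

open MvPolynomial

private theorem LuF_pow {x y : ℂ} {M : ℝ} (hx : ‖x‖ ≤ M) (hy : ‖y‖ ≤ M) (n : ℕ) :
    ‖x ^ n - y ^ n‖ ≤ n * M ^ (n - 1) * ‖x - y‖ := by
  have hM : 0 ≤ M := (norm_nonneg x).trans hx
  induction n with
  | zero => simp
  | succ n ih =>
    have h1 : x ^ (n + 1) - y ^ (n + 1) = x * (x ^ n - y ^ n) + (x - y) * y ^ n := by ring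
    have h2 : M * (n * M ^ (n - 1)) = n * M ^ n := by
      rcases Nat.eq_zero_or_pos n with rfl | hn
      · simp
      · obtain ⟨k, rfl⟩ := Nat.exists_eq_succ_of_ne_zero hn.ne'
        rw [Nat.succ_sub_one, pow_succ]
        ring
    rw [h1, Nat.add_sub_cancel]
    calc ‖x * (x ^ n - y ^ n) + (x - y) * y ^ n‖
        ≤ ‖x‖ * ‖x ^ n - y ^ n‖ + ‖x - y‖ * ‖y‖ ^ n := by
          refine (norm_add_le _ _).trans ?_
          rw [norm_mul, norm_mul, norm_pow]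
      _ ≤ M * (n * M ^ (n - 1) * ‖x - y‖) + ‖x - y‖ * M ^ n := by
          refine add_le_add (mul_le_mul hx ih (norm_nonneg _) hM) ?_
          exact mul_le_mul_of_nonneg_left (pow_le_pow_left₀ (norm_nonneg _) hy n) (norm_nonneg _)
      _ = (M * (n * M ^ (n - 1)) + M ^ n) * ‖x - y‖ := by ring
      _ = ((n + 1 : ℕ) : ℝ) * M ^ n * ‖x - y‖ := by
          rw [h2]
          push_cast
          ring

private theorem LuF_sum {r N : ℕ} (i0 : Fin r) (ax : ℕ) (ay : Fin N → ℕ)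
    (m : Fin r ⊕ Fin N →₀ ℕ) :
    ax * m (Sum.inl i0) + ∑ v ∈ Finset.univ.erase (Sum.inl i0), wv (r := r) ax ay v * m v =
      L1 ax ay (md m) := by
  have h := Finset.add_sum_erase Finset.univ (fun v => wv (r := r) ax ay v * m v)
    (Finset.mem_univ (Sum.inl i0 : Fin r ⊕ Fin N))
  refine h.trans ?_
  rw [Fintype.sum_sum_type]
  simp only [wv, Sum.elim_inl, Sum.elim_inr, L1, md, Finset.mul_sum]

private theorem LuF_mono {r N : ℕ} (i0 : Fin r) (ax : ℕ) (ay : Fin N → ℕ)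
    (m : Fin r ⊕ Fin N →₀ ℕ) (hm : 2 * ax ≤ L1 ax ay (md m)) {ρ : ℝ} (h0 : 0 < ρ) (h1 : ρ ≤ 1)
    (z : Fin r ⊕ Fin N → ℂ) (l l' : ℂ)
    (hl : ∀ v, ‖(z + Pi.single (Sum.inl i0) l : Fin r ⊕ Fin N → ℂ) v‖ ≤
      ρ ^ wv (r := r) ax ay v)
    (hl' : ∀ v, ‖(z + Pi.single (Sum.inl i0) l' : Fin r ⊕ Fin N → ℂ) v‖ ≤
      ρ ^ wv (r := r) ax ay v) :
    ‖∏ v, (z + Pi.single (Sum.inl i0) l' : Fin r ⊕ Fin N → ℂ) v ^ m v -
      ∏ v, (z + Pi.single (Sum.inl i0) l : Fin r ⊕ Fin N → ℂ) v ^ m v‖ ≤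
      m (Sum.inl i0) * ρ ^ ax * ‖l' - l‖ := by
  have e : ∀ a : ℂ, ∏ v, (z + Pi.single (Sum.inl i0) a : Fin r ⊕ Fin N → ℂ) v ^ m v =
      (z (Sum.inl i0) + a) ^ m (Sum.inl i0) *
        ∏ v ∈ Finset.univ.erase (Sum.inl i0), z v ^ m v := by
    intro a
    rw [← Finset.mul_prod_erase Finset.univ _ (Finset.mem_univ (Sum.inl i0 : Fin r ⊕ Fin N))]
    congr 1
    · rw [Pi.add_apply, Pi.single_eq_same]
    · refine Finset.prod_congr rfl fun v hv => ?_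
      rw [Pi.add_apply, Pi.single_eq_of_ne (Finset.ne_of_mem_erase hv), add_zero]
  have e1 : ∀ (a : ℂ), (∀ v, ‖(z + Pi.single (Sum.inl i0) a : Fin r ⊕ Fin N → ℂ) v‖ ≤
      ρ ^ wv (r := r) ax ay v) → ‖z (Sum.inl i0) + a‖ ≤ ρ ^ ax := by
    intro a ha
    have h2 := ha (Sum.inl i0)
    rwa [Pi.add_apply, Pi.single_eq_same] at h2
  have e2 : ‖∏ v ∈ Finset.univ.erase (Sum.inl i0), z v ^ m v‖ ≤
      ρ ^ ∑ v ∈ Finset.univ.erase (Sum.inl i0), wv (r := r) ax ay v * m v := by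
    rw [norm_prod, ← Finset.prod_pow_eq_pow_sum]
    refine Finset.prod_le_prod (fun _ _ => norm_nonneg _) fun v hv => ?_
    have h2 := hl v
    rw [Pi.add_apply, Pi.single_eq_of_ne (Finset.ne_of_mem_erase hv), add_zero] at h2
    rw [norm_pow, pow_mul]
    exact pow_le_pow_left₀ (norm_nonneg _) h2 _
  rw [e, e, ← sub_mul, norm_mul]
  have e3 := LuF_pow (e1 l' hl') (e1 l hl) (m (Sum.inl i0))
  rw [add_sub_add_left_eq_sub] at e3
  rcases Nat.eq_zero_or_pos (m (Sum.inl i0)) with hn | hn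
  · rw [hn]
    simp
  · have e4 : (ρ ^ ax) ^ (m (Sum.inl i0) - 1) *
        ρ ^ ∑ v ∈ Finset.univ.erase (Sum.inl i0), wv (r := r) ax ay v * m v ≤ ρ ^ ax := by
      rw [← pow_mul, ← pow_add]
      refine pow_le_pow_of_le_one h0.le h1 ?_
      have h3 := LuF_sum i0 ax ay m
      obtain ⟨n, hn'⟩ := Nat.exists_eq_succ_of_ne_zero hn.ne'
      rw [hn', Nat.succ_sub_one]
      rw [hn', Nat.mul_succ] at h3
      omega
    calc ‖(z (Sum.inl i0) + l') ^ m (Sum.inl i0) - (z (Sum.inl i0) + l) ^ m (Sum.inl i0)‖ *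
          ‖∏ v ∈ Finset.univ.erase (Sum.inl i0), z v ^ m v‖
        ≤ (m (Sum.inl i0) * (ρ ^ ax) ^ (m (Sum.inl i0) - 1) * ‖l' - l‖) *
          ρ ^ ∑ v ∈ Finset.univ.erase (Sum.inl i0), wv (r := r) ax ay v * m v :=
          mul_le_mul e3 e2 (norm_nonneg _) (by positivity)
      _ = m (Sum.inl i0) * ((ρ ^ ax) ^ (m (Sum.inl i0) - 1) *
          ρ ^ ∑ v ∈ Finset.univ.erase (Sum.inl i0), wv (r := r) ax ay v * m v) * ‖l' - l‖ := by
          ring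
      _ ≤ m (Sum.inl i0) * ρ ^ ax * ‖l' - l‖ := by
          refine mul_le_mul_of_nonneg_right ?_ (norm_nonneg _)
          exact mul_le_mul_of_nonneg_left e4 (Nat.cast_nonneg _)

private theorem LuF_wt {r N : ℕ} (ax : ℕ) (ay : Fin N → ℕ) (a : Fin r → ℂ)
    (g : MvPolynomial (Fin r ⊕ Fin N) ℂ) (hg : Hyp ax ay g) :
    ff a g ∈ Wt ℂ ax ay (2 * ax) := by
  classical
  unfold ff
  refine Ideal.add_mem _ (Ideal.sum_mem _ fun i _ => ?_) fun m hm => (hg m hm).1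
  refine Ideal.mul_mem_left _ _ fun m hm => ?_
  rw [X_pow_eq_monomial] at hm
  have h1 := support_monomial_subset hm
  rw [Finset.mem_singleton] at h1
  subst h1
  have h2 : ∑ i', (Finsupp.single (Sum.inl i : Fin r ⊕ Fin N) 2) (Sum.inl i') = 2 := by
    simp [Finsupp.single_apply]
  change 2 * ax ≤ ax * (∑ i', (Finsupp.single (Sum.inl i : Fin r ⊕ Fin N) 2) (Sum.inl i')) + _
  rw [h2]
  omega

theorem lip_est {r N : ℕ} (i0 : Fin r) (ax : ℕ) (ay : Fin N → ℕ)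
    (hax : 0 < ax) (a : Fin r → ℂ) (g : MvPolynomial (Fin r ⊕ Fin N) ℂ) (hg : Hyp ax ay g) :
    ∃ C : ℝ, 1 ≤ C ∧ ∀ ρ : ℝ, 0 < ρ → ρ ≤ 1 → ∀ (z : Fin r ⊕ Fin N → ℂ) (l l' : ℂ),
      (∀ v, ‖(z + Pi.single (Sum.inl i0) l : Fin r ⊕ Fin N → ℂ) v‖ ≤ ρ ^ wv (r := r) ax ay v) →
      (∀ v, ‖(z + Pi.single (Sum.inl i0) l' : Fin r ⊕ Fin N → ℂ) v‖ ≤ ρ ^ wv (r := r) ax ay v) →
      ‖eval (z + Pi.single (Sum.inl i0) l') (ff a g) - eval (z + Pi.single (Sum.inl i0) l) (ff a g)‖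
        ≤ C * ρ ^ ax * ‖l' - l‖ := by
  have hw := LuF_wt ax ay a g hg
  refine ⟨1 + ∑ m ∈ (ff a g).support, ‖(ff a g).coeff m‖ * m (Sum.inl i0), ?_, ?_⟩
  · have h : 0 ≤ ∑ m ∈ (ff a g).support, ‖(ff a g).coeff m‖ * (m (Sum.inl i0) : ℝ) :=
      Finset.sum_nonneg fun m _ => by positivity
    linarith
  · intro ρ h0 h1 z l l' hl hl'
    rw [eval_eq', eval_eq', ← Finset.sum_sub_distrib]
    have h2 : ‖∑ m ∈ (ff a g).support, ((ff a g).coeff m *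
        ∏ v, (z + Pi.single (Sum.inl i0) l' : Fin r ⊕ Fin N → ℂ) v ^ m v - (ff a g).coeff m *
        ∏ v, (z + Pi.single (Sum.inl i0) l : Fin r ⊕ Fin N → ℂ) v ^ m v)‖ ≤
        ∑ m ∈ (ff a g).support, ‖(ff a g).coeff m‖ * (m (Sum.inl i0) * ρ ^ ax * ‖l' - l‖) := by
      refine norm_sum_le_of_le _ fun m hm => ?_
      rw [← mul_sub, norm_mul]
      exact mul_le_mul_of_nonneg_left (LuF_mono i0 ax ay m (hw m hm) h0 h1 z l l' hl hl')
        (norm_nonneg _)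
    refine h2.trans ?_
    have h3 : ∑ m ∈ (ff a g).support, ‖(ff a g).coeff m‖ *
        ((m (Sum.inl i0) : ℝ) * ρ ^ ax * ‖l' - l‖) =
        (∑ m ∈ (ff a g).support, ‖(ff a g).coeff m‖ * (m (Sum.inl i0) : ℝ)) * ρ ^ ax *
          ‖l' - l‖ := by
      rw [Finset.sum_mul, Finset.sum_mul]
      exact Finset.sum_congr rfl fun m _ => by ring
    rw [h3]
    have h4 : 0 ≤ ρ ^ ax * ‖l' - l‖ := by positivity
    nlinarith

end DP
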