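import Pool.Agent.Lib.MP_9e8926_ag_DP.LuA
import Pool.Agent.Lib.MP_9e8926_ag_DP.LuF

/-!
# Zeros of `f` on small scaled polydiscs

Let `z0, δ0, C0, c` be as in `val_est` and `C` as in `lip_est`.  For `z` in the polydisc (radius `δ`)
let `h(T) = f(z + T e_{i0})`, a polynomial in `T` of degree at most `D = totalDegree f`
(`aeval (fun v => Polynomial.C (z v) + if v = inl i0 then Polynomial.X else 0)`), `h(0) = f(z)`,
`h'(0) = (∂f/∂x_{i0})(z) ≠ 0` (both by `MvPolynomial.induction_on`).  `exists_root_near` at 0 gives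
a root `l` with `|l| c ρ^{ax} ≤ D C0 δ ρ^{2 ax}`, so `|l| ≤ ρ^{ax}/2` if `2 D C0 δ ≤ c`; fix such a
`δ ≤ δ0` and `ρ0 = δ`.  For `|l'| ≤ ρ^{ax}/2` both `z + l e` and `z + l' e` have coordinates
`≤ ρ^{w_v}` (`‖z v‖ ≤ (1/4 + δ) ρ^{w_v} ≤ ρ^{w_v}/2`), so `lip_est` gives the bound.
-/

set_option autoImplicit false

noncomputable section

namespace DP

open MvPolynomial

private theorem LuB_eval {υ : Type*} [DecidableEq υ] (v0 : υ) (z : υ → ℂ) (T : ℂ)
    (f : MvPolynomial υ ℂ) :
    Polynomial.eval T (aeval (fun v => Polynomial.C (z v) +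
      (if v = v0 then (Polynomial.X : Polynomial ℂ) else 0)) f) =
      eval (z + Pi.single v0 T) f := by
  induction f using MvPolynomial.induction_on with
  | C c =>
    rw [eval_C, ← MvPolynomial.algebraMap_eq, AlgHom.commutes, Polynomial.algebraMap_apply,
      Algebra.algebraMap_self, RingHom.id_apply, Polynomial.eval_C]
  | add p q hp hq => rw [map_add, Polynomial.eval_add, hp, hq, map_add]
  | mul_X p v hp =>
    rw [map_mul, Polynomial.eval_mul, hp, map_mul, eval_X, aeval_X]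
    congr 1
    rw [Polynomial.eval_add, Polynomial.eval_C, Pi.add_apply, Pi.single_apply]
    split_ifs <;> simp

private theorem LuB_der {υ : Type*} [DecidableEq υ] (v0 : υ) (z : υ → ℂ)
    (f : MvPolynomial υ ℂ) :
    Polynomial.eval 0 (Polynomial.derivative (aeval (fun v => Polynomial.C (z v) +
      (if v = v0 then (Polynomial.X : Polynomial ℂ) else 0)) f)) =
      eval z (pderiv v0 f) := by
  induction f using MvPolynomial.induction_on with
  | C c =>
    rw [pderiv_C, map_zero, ← MvPolynomial.algebraMap_eq, AlgHom.commutes,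
      Polynomial.algebraMap_apply, Algebra.algebraMap_self, RingHom.id_apply,
      Polynomial.derivative_C, Polynomial.eval_zero]
  | add p q hp hq =>
    rw [map_add, Polynomial.derivative_add, Polynomial.eval_add, hp, hq, map_add, map_add]
  | mul_X p v hp =>
    have h0 := LuB_eval v0 z 0 p
    rw [Pi.single_zero, add_zero] at h0
    rw [map_mul, Polynomial.derivative_mul, Polynomial.eval_add, Polynomial.eval_mul,
      Polynomial.eval_mul, hp, h0, pderiv_mul, map_add, map_mul, map_mul, eval_X, aeval_X,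
      pderiv_X]
    congr 1
    · congr 1
      rw [Polynomial.eval_add, Polynomial.eval_C]
      split_ifs <;> simp
    · congr 1
      rw [Polynomial.derivative_add, Polynomial.derivative_C, zero_add, Pi.single_apply]
      split_ifs <;> simp

private theorem LuB_deg {υ : Type*} [DecidableEq υ] (v0 : υ) (z : υ → ℂ)
    (f : MvPolynomial υ ℂ) :
    (aeval (fun v => Polynomial.C (z v) +
      (if v = v0 then (Polynomial.X : Polynomial ℂ) else 0)) f).natDegree ≤ f.totalDegree := by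
  rw [aeval_def, eval₂_eq]
  refine Polynomial.natDegree_sum_le_of_forall_le _ _ fun m hm => ?_
  refine (Polynomial.natDegree_mul_le).trans ?_
  rw [Polynomial.algebraMap_apply, Polynomial.natDegree_C, zero_add]
  refine (Polynomial.natDegree_prod_le _ _).trans ?_
  refine le_trans (Finset.sum_le_sum (g := fun i => m i) fun i _ => ?_) (le_totalDegree hm)
  refine (Polynomial.natDegree_pow_le).trans ?_
  have h1 : (Polynomial.C (z i) + (if i = v0 then (Polynomial.X : Polynomial ℂ) else 0)).natDegree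
      ≤ 1 := by
    refine (Polynomial.natDegree_add_le _ _).trans (max_le ?_ ?_)
    · rw [Polynomial.natDegree_C]
      exact Nat.zero_le _
    · split_ifs
      · exact Polynomial.natDegree_X_le
      · rw [Polynomial.natDegree_zero]
        exact Nat.zero_le _
  calc m i * _ ≤ m i * 1 := Nat.mul_le_mul_left _ h1
    _ = m i := mul_one _

theorem root_est {r N : ℕ} (i0 i1 : Fin r) (h01 : i0 ≠ i1) (ax : ℕ) (ay : Fin N → ℕ)
    (hax : 0 < ax) (hay : ∀ j, 0 < ay j) (a : Fin r → ℂ) (ha : ∀ i, a i ≠ 0)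
    (g : MvPolynomial (Fin r ⊕ Fin N) ℂ) (hg : Hyp ax ay g) :
    ∃ (z0 : Fin r ⊕ Fin N → ℂ) (δ C ρ0 : ℝ), 0 < δ ∧ 1 ≤ C ∧ 0 < ρ0 ∧ ρ0 ≤ 1 ∧
      (∀ v, ‖z0 v‖ + δ ≤ 1 / 2) ∧ ∀ ρ : ℝ, 0 < ρ → ρ ≤ ρ0 → ∀ z : Fin r ⊕ Fin N → ℂ,
      (∀ v, ‖z v - (ρ : ℂ) ^ wv ax ay v * z0 v‖ ≤ δ * ρ ^ wv (r := r) ax ay v) →
      ∃ l : ℂ, ‖l‖ ≤ ρ ^ ax / 2 ∧ ∀ l' : ℂ, ‖l'‖ ≤ ρ ^ ax / 2 →
        ‖eval (z + Pi.single (Sum.inl i0) l') (ff a g)‖ ≤ C * ρ ^ ax * ‖l' - l‖ := by
  classical
  obtain ⟨z0, δ0, C0, c, hδ0, hδ4, hC0, hc, hz0, hval⟩ := val_est i0 i1 h01 ax ay hax hay a ha g hg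
  obtain ⟨C, hC1, hlip⟩ := lip_est i0 ax ay hax a g hg
  set D := (ff a g).totalDegree with hD
  have hDC : 0 < 2 * ((D : ℝ) + 1) * C0 := by positivity
  set δ := min δ0 (c / (2 * ((D : ℝ) + 1) * C0)) with hδ
  have hδpos : 0 < δ := lt_min hδ0 (by positivity)
  have hδle : δ ≤ δ0 := min_le_left _ _
  have hδle' : δ * (2 * ((D : ℝ) + 1) * C0) ≤ c := by
    have := min_le_right δ0 (c / (2 * ((D : ℝ) + 1) * C0))
    rwa [← hδ, le_div_iff₀ hDC] at this
  refine ⟨z0, δ, C, δ, hδpos, hC1, hδpos, by linarith, fun v => ?_, ?_⟩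
  · have := hz0 v
    linarith
  · intro ρ hρ hρδ z hz
    obtain ⟨h1, h2⟩ := hval δ ρ hρ hρδ hδle z hz
    have hρ1 : ρ ≤ 1 := by linarith
    have hρa : 0 < ρ ^ ax := pow_pos hρ ax
    set h : Polynomial ℂ := aeval (fun v => Polynomial.C (z v) +
      (if v = Sum.inl i0 then (Polynomial.X : Polynomial ℂ) else 0)) (ff a g) with hh
    have hev0 : h.eval 0 = eval z (ff a g) := by
      rw [hh, LuB_eval, Pi.single_zero, add_zero]
    have hder : h.derivative.eval 0 = eval z (pderiv (Sum.inl i0) (ff a g)) := by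
      rw [hh, LuB_der]
    have hne : h.derivative.eval 0 ≠ 0 := by
      rw [hder, ← norm_pos_iff]
      exact lt_of_lt_of_le (mul_pos hc hρa) h2
    obtain ⟨l, hl, hl2⟩ := exists_root_near h D (LuB_deg _ _ _) 0 hne
    rw [sub_zero, hder, hev0] at hl2
    have hl3 : ‖l‖ ≤ ρ ^ ax / 2 := by
      have h3 : ‖l‖ * (c * ρ ^ ax) ≤ (ρ ^ ax / 2) * (c * ρ ^ ax) := by
        calc ‖l‖ * (c * ρ ^ ax) ≤ ‖l‖ * ‖eval z (pderiv (Sum.inl i0) (ff a g))‖ :=
              mul_le_mul_of_nonneg_left h2 (norm_nonneg _)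
          _ ≤ D * ‖eval z (ff a g)‖ := hl2
          _ ≤ D * (C0 * δ * ρ ^ (2 * ax)) := mul_le_mul_of_nonneg_left h1 (Nat.cast_nonneg _)
          _ = (D * C0 * δ) * (ρ ^ ax * ρ ^ ax) := by
              rw [two_mul, pow_add]
              ring
          _ ≤ (c / 2) * (ρ ^ ax * ρ ^ ax) := by
              refine mul_le_mul_of_nonneg_right ?_ (by positivity)
              have h4 : 0 ≤ δ * (2 * C0) := by positivity
              nlinarith
          _ = (ρ ^ ax / 2) * (c * ρ ^ ax) := by ring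
      exact le_of_mul_le_mul_right h3 (mul_pos hc hρa)
    have hcoord : ∀ l'' : ℂ, ‖l''‖ ≤ ρ ^ ax / 2 → ∀ v,
        ‖(z + Pi.single (Sum.inl i0) l'' : Fin r ⊕ Fin N → ℂ) v‖ ≤ ρ ^ wv (r := r) ax ay v := by
      intro l'' hl'' v
      have hw : 0 < ρ ^ wv (r := r) ax ay v := pow_pos hρ _
      have h3 : ‖z v‖ ≤ ρ ^ wv (r := r) ax ay v / 2 := by
        have h4 : z v = (z v - (ρ : ℂ) ^ wv ax ay v * z0 v) + (ρ : ℂ) ^ wv ax ay v * z0 v := by
          ring
        rw [h4]
        refine (norm_add_le _ _).trans ?_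
        rw [norm_mul, norm_pow, Complex.norm_real, Real.norm_of_nonneg hρ.le]
        have h5 := hz v
        have h6 := mul_le_mul_of_nonneg_left (hz0 v) hw.le
        nlinarith
      rw [Pi.add_apply, Pi.single_apply]
      split_ifs with hv
      · have h7 : wv (r := r) ax ay v = ax := by
          rw [hv]
          rfl
        rw [h7] at h3 ⊢
        refine (norm_add_le _ _).trans ?_
        linarith
      · rw [add_zero]
        linarith
    refine ⟨l, hl3, fun l' hl' => ?_⟩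
    have h3 := hlip ρ hρ hρ1 z l l' (hcoord l hl3) (hcoord l' hl')
    have h4 : eval (z + Pi.single (Sum.inl i0) l) (ff a g) = 0 := by
      rw [← LuB_eval, ← hh]
      exact hl
    rwa [h4, sub_zero] at h3

end DP
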