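import Pool.Agent.Lib.MP_9e8926_ag_DP.Wta

/-!
# The weight ideals in the coordinate ring

* `Wt_split`: with `c = ax + ∑ ay_j`, a monomial of weight `≥ (C + c) n` is a product of `n` monomials
  of weight `≥ C`: induction on `n`; every monomial of weight `≥ C` is divisible by a monomial of
  weight `≥ C` and `≤ C + c` (a divisor of minimal total degree among those of weight `≥ C`: removing
  one variable gives weight `< C`, so its weight is `≤ C + c`).
* `ak_prim`: for `C ≥ 1`, `Wt C ≤ m0` (monomials of weight `≥ 1` are nonconstant) and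
  `m0^C ≤ Wt C` (`pow_le_Wt`); `mX f` is the image of `m0` (`m0_eq_span`, `Ideal.map_span`).
* `ak_pow`, `ak_le_mX`: images of `Wt_split`, `Wt_le_pow` (`Ideal.map_pow`, `Ideal.map_mono`).
-/

set_option autoImplicit false

noncomputable section

namespace DP

open MvPolynomial

variable {σ τ : Type*} [Fintype σ] [Fintype τ] {k : Type*} [Field k]

/-- The image of the weight ideal in the coordinate ring of `f = 0`. -/
def ak (f : MvPolynomial (σ ⊕ τ) k) (ax : ℕ) (ay : τ → ℕ) (C : ℕ) : Ideal (Rg f) :=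
  (Wt k ax ay C).map (Ideal.Quotient.mk (Ideal.span {f}))

private theorem Wtb_add (ax : ℕ) (ay : τ → ℕ) (m m' : σ ⊕ τ →₀ ℕ) :
    L1 ax ay (md (m + m')) = L1 ax ay (md m) + L1 ax ay (md m') := by
  rw [md_add]
  simp only [L1, Prod.fst_add, Prod.snd_add, Pi.add_apply, mul_add, Finset.sum_add_distrib]
  omega

private theorem Wtb_single (ax : ℕ) (ay : τ → ℕ) (v : σ ⊕ τ) :
    L1 ax ay (md (Finsupp.single v 1)) ≤ ax + ∑ j, ay j := by
  classical
  rcases v with i | j
  · have h1 : (md (Finsupp.single (Sum.inl i : σ ⊕ τ) 1)).1 = 1 := by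
      simp [md, Finsupp.single_apply]
    have h2 : (md (Finsupp.single (Sum.inl i : σ ⊕ τ) 1)).2 = 0 := by
      funext j
      simp [md]
    simp only [L1, h1, h2, Pi.zero_apply, mul_zero, mul_one, Finset.sum_const_zero, add_zero]
    omega
  · have h1 : (md (Finsupp.single (Sum.inr j : σ ⊕ τ) 1)).1 = 0 := by
      simp [md]
    have h2 : ∀ j', (md (Finsupp.single (Sum.inr j : σ ⊕ τ) 1)).2 j' ≤ 1 := by
      intro j'
      simp only [md, Finsupp.single_apply]
      split <;> omega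
    simp only [L1, h1, mul_zero, zero_add]
    refine (Finset.sum_le_sum fun j' _ => Nat.mul_le_mul_left (ay j') (h2 j')).trans ?_
    simp

/-- a divisor of bounded weight -/
private theorem Wtb_div (ax : ℕ) (ay : τ → ℕ) (C : ℕ) (m : σ ⊕ τ →₀ ℕ)
    (hm : C ≤ L1 ax ay (md m)) : ∃ m' m'' : σ ⊕ τ →₀ ℕ, m = m' + m'' ∧
      C ≤ L1 ax ay (md m') ∧ L1 ax ay (md m') ≤ C + (ax + ∑ j, ay j) := by
  classical
  have hex : ∃ d : ℕ, ∃ m' m'' : σ ⊕ τ →₀ ℕ, m = m' + m'' ∧ C ≤ L1 ax ay (md m') ∧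
      m'.degree = d := ⟨m.degree, m, 0, by rw [add_zero], hm, rfl⟩
  obtain ⟨m', m'', h1, h2, h3⟩ := Nat.find_spec hex
  refine ⟨m', m'', h1, h2, ?_⟩
  by_cases h0 : m' = 0
  · have h4 : L1 ax ay (md m') = 0 := by
      rw [h0]
      simp [L1, md]
    omega
  · obtain ⟨v, hv⟩ := Finsupp.support_nonempty_iff.2 h0
    have hv1 : Finsupp.single v 1 ≤ m' := by
      rw [Finsupp.single_le_iff]
      exact Nat.one_le_iff_ne_zero.2 (Finsupp.mem_support_iff.1 hv)
    have h5 : m' = (m' - Finsupp.single v 1) + Finsupp.single v 1 := (tsub_add_cancel_of_le hv1).symm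
    have h6 : L1 ax ay (md m') = L1 ax ay (md (m' - Finsupp.single v 1)) +
        L1 ax ay (md (Finsupp.single v 1)) := by
      conv_lhs => rw [h5]
      exact Wtb_add ax ay _ _
    have h7 : m'.degree = (m' - Finsupp.single v 1).degree + 1 := by
      conv_lhs => rw [h5]
      rw [map_add, Finsupp.degree_single]
    have h8 := Wtb_single (σ := σ) ax ay v
    by_contra hc
    push Not at hc
    have h9 : C ≤ L1 ax ay (md (m' - Finsupp.single v 1)) := by omega
    have h10 := Nat.find_min hex (m := (m' - Finsupp.single v 1).degree) (by omega)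
    apply h10
    refine ⟨m' - Finsupp.single v 1, m'' + Finsupp.single v 1, ?_, h9, rfl⟩
    rw [h1]
    conv_lhs => rw [h5]
    rw [add_assoc, add_comm (Finsupp.single v 1) m'']

private theorem Wtb_mono (ax : ℕ) (ay : τ → ℕ) (C n : ℕ) : ∀ m : σ ⊕ τ →₀ ℕ,
    (C + (ax + ∑ j, ay j)) * n ≤ L1 ax ay (md m) →
      ∀ a : k, (monomial m a : MvPolynomial (σ ⊕ τ) k) ∈ (Wt k ax ay C) ^ n := by
  classical
  induction n with
  | zero =>
    intro m _ a
    rw [pow_zero, Ideal.one_eq_top]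
    exact Submodule.mem_top
  | succ n ih =>
    intro m hm a
    have hC : C ≤ L1 ax ay (md m) := by
      refine le_trans ?_ hm
      rw [Nat.mul_succ]
      omega
    obtain ⟨m', m'', h1, h2, h3⟩ := Wtb_div ax ay C m hC
    have h4 : (C + (ax + ∑ j, ay j)) * n ≤ L1 ax ay (md m'') := by
      rw [h1, Wtb_add, Nat.mul_succ] at hm
      omega
    have h5 := ih m'' h4 a
    have h6 : (monomial m' (1 : k) : MvPolynomial (σ ⊕ τ) k) ∈ Wt k ax ay C := by
      intro x hx
      have := support_monomial_subset hx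
      rw [Finset.mem_singleton] at this
      rw [this]
      exact h2
    have h7 : (monomial m a : MvPolynomial (σ ⊕ τ) k) = monomial m'' a * monomial m' 1 := by
      rw [monomial_mul, mul_one, h1, add_comm]
    rw [h7, pow_succ]
    exact Ideal.mul_mem_mul h5 h6

theorem Wt_split (ax : ℕ) (ay : τ → ℕ) (C n : ℕ) :
    Wt k ax ay ((C + (ax + ∑ j, ay j)) * n) ≤
      (Wt k ax ay C : Ideal (MvPolynomial (σ ⊕ τ) k)) ^ n := by
  intro u hu
  rw [u.as_sum]
  exact Ideal.sum_mem _ fun m hm => Wtb_mono ax ay C n m (hu m hm) _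

private theorem Wtb_mX (f : MvPolynomial (σ ⊕ τ) k) :
    mX f = (m0 (σ ⊕ τ) k).map (Ideal.Quotient.mk (Ideal.span {f})) := by
  rw [m0_eq_span, Ideal.map_span, ← Set.range_comp]
  rfl

theorem ak_prim (f : MvPolynomial (σ ⊕ τ) k) (ax : ℕ) (ay : τ → ℕ) (hax : 0 < ax)
    (hay : ∀ j, 0 < ay j) (C : ℕ) (hC : 1 ≤ C) : IsPrim (mX f) (ak f ax ay C) := by
  rw [Wtb_mX]
  refine ⟨Ideal.map_mono ?_, C, ?_⟩
  · intro u hu
    rw [m0, RingHom.mem_ker]
    by_contra h
    have h1 : (0 : σ ⊕ τ →₀ ℕ) ∈ u.support := mem_support_iff.2 h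
    have h2 := hu 0 h1
    have h3 : L1 ax ay (md (0 : σ ⊕ τ →₀ ℕ)) = 0 := by simp [L1, md]
    omega
  · rw [← Ideal.map_pow]
    exact Ideal.map_mono (pow_le_Wt ax ay hax hay C)

theorem ak_pow (f : MvPolynomial (σ ⊕ τ) k) (ax : ℕ) (ay : τ → ℕ) (C n : ℕ) :
    ak f ax ay ((C + (ax + ∑ j, ay j)) * n) ≤ ak f ax ay C ^ n := by
  rw [ak, ak, ← Ideal.map_pow]
  exact Ideal.map_mono (Wt_split ax ay C n)

/-- Large weight ideals are in large powers of the maximal ideal. -/
theorem ak_le_mX (f : MvPolynomial (σ ⊕ τ) k) (ax : ℕ) (ay : τ → ℕ) (M : ℕ) :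
    ak f ax ay ((ax + ∑ j, ay j + 1) * M) ≤ mX f ^ M := by
  rw [Wtb_mX, ak, ← Ideal.map_pow]
  exact Ideal.map_mono (Wt_le_pow ax ay M)

end DP
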