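import Pool.Agent.Lib.MP_9e8926_ag_DP.LuB
import Pool.Agent.Lib.MP_9e8926_ag_DP.LuC
import Pool.Agent.Lib.MP_9e8926_ag_DP.LuV
import Pool.Agent.Lib.MP_9e8926_ag_DP.Wtb

/-!
# Volume of the tube around `f = 0` in a scaled polydisc

* `wt_bound`: each monomial of `u ∈ Wt C` is at most `ρ^{L1} ≤ ρ^C` in absolute value.
* `tube`: `cover` with `U = {z | ∀ v, ‖z v - ρ^{w_v} z0 v‖ ≤ δ ρ^{w_v}}`,
  `U' = {z | ∀ v, ‖z v‖ ≤ ρ^{w_v}}`, `F = ‖f‖`, `R = ρ^{ax}/2`, `L = C ρ^{ax}`,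
  `s = ρ^{k - ax}/(2 C)` (`≤ R` because `k ≥ 2 ax`, `ρ ≤ 1`, `C ≥ 1`), `2 L s = ρ^k`:
  `vol U = ∏ (π δ² ρ^{2 w_v})` (`vol_box`), `∑ w_v = r ax + ∑ ay_j`,
  `s²/(9 R²) = ρ^{2(k - 2 ax)}/(9 C²)`.
-/

set_option autoImplicit false

noncomputable section

namespace DP

open MvPolynomial MeasureTheory

variable {r N : ℕ}

private theorem sum_wv (ax : ℕ) (ay : Fin N → ℕ) (m : Fin r ⊕ Fin N →₀ ℕ) :
    ∑ v, wv (r := r) ax ay v * m v = L1 ax ay (md m) := by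
  rw [Fintype.sum_sum_type]
  simp only [wv, Sum.elim_inl, Sum.elim_inr, L1, md, Finset.mul_sum]

theorem wt_bound (ax : ℕ) (ay : Fin N → ℕ) (C : ℕ) (u : MvPolynomial (Fin r ⊕ Fin N) ℂ)
    (hu : u ∈ Wt ℂ ax ay C) : ∃ c : ℝ, 0 ≤ c ∧ ∀ ρ : ℝ, 0 ≤ ρ → ρ ≤ 1 → ∀ z : Fin r ⊕ Fin N → ℂ,
      (∀ v, ‖z v‖ ≤ ρ ^ wv (r := r) ax ay v) → ‖eval z u‖ ≤ c * ρ ^ C := by
  refine ⟨∑ m ∈ u.support, ‖u.coeff m‖, Finset.sum_nonneg fun _ _ => norm_nonneg _, ?_⟩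
  intro ρ h0 h1 z hz
  rw [eval_eq', Finset.sum_mul]
  refine norm_sum_le_of_le _ fun m hm => ?_
  rw [norm_mul, norm_prod]
  refine mul_le_mul_of_nonneg_left ?_ (norm_nonneg _)
  calc ∏ v, ‖z v ^ m v‖ ≤ ∏ v, ρ ^ (wv (r := r) ax ay v * m v) := by
        refine Finset.prod_le_prod (fun _ _ => norm_nonneg _) fun v _ => ?_
        rw [norm_pow, pow_mul]
        exact pow_le_pow_left₀ (norm_nonneg _) (hz v) _
    _ = ρ ^ L1 ax ay (md m) := by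
        rw [Finset.prod_pow_eq_pow_sum, sum_wv]
    _ ≤ ρ ^ C := pow_le_pow_of_le_one h0 h1 (hu m hm)

theorem tube (hr : 3 ≤ r) (ax : ℕ) (ay : Fin N → ℕ)
    (hax : 0 < ax) (hay : ∀ j, 0 < ay j) (a : Fin r → ℂ) (ha : ∀ i, a i ≠ 0)
    (g : MvPolynomial (Fin r ⊕ Fin N) ℂ) (hg : Hyp ax ay g) :
    ∃ (c ρ0 : ℝ), 0 < c ∧ 0 < ρ0 ∧ ρ0 ≤ 1 ∧ ∀ k : ℕ, 2 * ax ≤ k → ∀ ρ : ℝ, 0 < ρ → ρ ≤ ρ0 →
      ENNReal.ofReal (c * ρ ^ (2 * (r * ax + ∑ j, ay j + (k - 2 * ax)))) ≤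
        volume {z : Fin r ⊕ Fin N → ℂ | (∀ v, ‖z v‖ ≤ ρ ^ wv (r := r) ax ay v) ∧
          ‖eval z (ff a g)‖ ≤ ρ ^ k} := by
  set i0 : Fin r := ⟨0, by omega⟩ with hi0
  set i1 : Fin r := ⟨1, by omega⟩ with hi1
  have h01 : i0 ≠ i1 := by
    intro h
    have := congrArg Fin.val h
    simp [hi0, hi1] at this
  obtain ⟨z0, δ, C, ρ0, hδ, hC, hρ0, hρ1, hz0, hroot⟩ :=
    root_est i0 i1 h01 ax ay hax hay a ha g hg
  have hC0 : 0 < C := by linarith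
  refine ⟨(Real.pi * δ ^ 2) ^ (r + N) / (9 * C ^ 2), ρ0, by positivity, hρ0, hρ1, ?_⟩
  intro k hk ρ hρ hρle
  have hρ1' : ρ ≤ 1 := hρle.trans hρ1
  set w : Fin r ⊕ Fin N → ℕ := wv (r := r) ax ay with hw
  set U : Set (Fin r ⊕ Fin N → ℂ) :=
    {z | ∀ v, ‖z v - (ρ : ℂ) ^ w v * z0 v‖ ≤ δ * ρ ^ w v} with hU
  set U' : Set (Fin r ⊕ Fin N → ℂ) := {z | ∀ v, ‖z v‖ ≤ ρ ^ w v} with hU'
  set s : ℝ := ρ ^ (k - ax) / (2 * C) with hs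
  have hs0 : 0 < s := by positivity
  have hsR : s ≤ ρ ^ ax / 2 := by
    rw [hs, div_le_div_iff₀ (by positivity) (by norm_num)]
    have h1 : ρ ^ (k - ax) ≤ ρ ^ ax := pow_le_pow_of_le_one hρ.le hρ1' (by omega)
    have h2 : ρ ^ ax * 1 ≤ ρ ^ ax * C := mul_le_mul_of_nonneg_left hC (by positivity)
    nlinarith
  have hLs : 2 * (C * ρ ^ ax) * s = ρ ^ k := by
    have h1 : ρ ^ k = ρ ^ ax * ρ ^ (k - ax) := by
      rw [← pow_add]; congr 1; omega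
    rw [hs, h1]
    field_simp
  have hcov := cover (Sum.inl i0 : Fin r ⊕ Fin N) U U' (fun z => ‖eval z (ff a g)‖) (ρ ^ ax / 2)
    (C * ρ ^ ax) s hs0 hsR (by positivity) (by
      intro z hz
      obtain ⟨l, hl, hl'⟩ := hroot ρ hρ hρle z hz
      refine ⟨l, hl, fun l' hl1 => ⟨?_, hl' l' hl1⟩⟩
      intro v
      have h1 : ‖z v‖ ≤ ρ ^ w v / 2 := by
        have h2 := hz v
        have h3 : ‖(ρ : ℂ) ^ w v * z0 v‖ = ρ ^ w v * ‖z0 v‖ := by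
          rw [norm_mul, norm_pow, Complex.norm_real, Real.norm_of_nonneg hρ.le]
        have h4 : ‖z v‖ ≤ ‖z v - (ρ : ℂ) ^ w v * z0 v‖ + ‖(ρ : ℂ) ^ w v * z0 v‖ := by
          have := norm_add_le (z v - (ρ : ℂ) ^ w v * z0 v) ((ρ : ℂ) ^ w v * z0 v)
          simpa using this
        have h5 := hz0 v
        have h6 : 0 < ρ ^ w v := by positivity
        rw [h3] at h4
        nlinarith
      rw [Pi.add_apply]
      by_cases hv : v = Sum.inl i0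
      · subst hv
        rw [Pi.single_eq_same]
        have hwv : w (Sum.inl i0) = ax := rfl
        rw [hwv] at h1 ⊢
        refine (norm_add_le _ _).trans ?_
        linarith
      · rw [Pi.single_eq_of_ne hv, add_zero]
        have h6 : 0 < ρ ^ w v := by positivity
        linarith)
  have hset : {z ∈ U' | ‖eval z (ff a g)‖ ≤ 2 * (C * ρ ^ ax) * s} =
      {z : Fin r ⊕ Fin N → ℂ | (∀ v, ‖z v‖ ≤ ρ ^ w v) ∧ ‖eval z (ff a g)‖ ≤ ρ ^ k} := by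
    rw [hLs]
    rfl
  rw [hset] at hcov
  have hvolU : volume U = ENNReal.ofReal (∏ v, (Real.pi * (δ * ρ ^ w v) ^ 2)) :=
    vol_box (fun v => (ρ : ℂ) ^ w v * z0 v) (fun v => δ * ρ ^ w v) (fun v => by positivity)
  rw [hvolU] at hcov
  have hB : 0 < 9 * (ρ ^ ax / 2) ^ 2 / s ^ 2 := by positivity
  have hdiv := ENNReal.div_le_of_le_mul' hcov
  rw [← ENNReal.ofReal_div_of_pos hB] at hdiv
  refine le_trans (ENNReal.ofReal_le_ofReal (le_of_eq ?_)) hdiv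
  have hprod : ∏ v, (Real.pi * (δ * ρ ^ w v) ^ 2) =
      (Real.pi * δ ^ 2) ^ (r + N) * ρ ^ (2 * (r * ax + ∑ j, ay j)) := by
    have h1 : ∀ v, Real.pi * (δ * ρ ^ w v) ^ 2 = (Real.pi * δ ^ 2) * ρ ^ (2 * w v) := by
      intro v
      rw [mul_pow, ← pow_mul, mul_comm (w v) 2]
      ring
    rw [Finset.prod_congr rfl fun v _ => h1 v, Finset.prod_mul_distrib, Finset.prod_const,
      Finset.prod_pow_eq_pow_sum, Finset.card_univ, Fintype.card_sum, Fintype.card_fin,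
      Fintype.card_fin, ← Finset.mul_sum, Fintype.sum_sum_type]
    simp only [hw, wv, Sum.elim_inl, Sum.elim_inr, Finset.sum_const, Finset.card_univ,
      Fintype.card_fin, smul_eq_mul]
  rw [hprod, hs]
  have hk1 : ρ ^ (k - ax) = ρ ^ ax * ρ ^ (k - 2 * ax) := by
    rw [← pow_add]; congr 1; omega
  have hk2 : ρ ^ (2 * (r * ax + ∑ j, ay j + (k - 2 * ax))) =
      ρ ^ (2 * (r * ax + ∑ j, ay j)) * (ρ ^ (k - 2 * ax)) ^ 2 := by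
    rw [← pow_mul, ← pow_add]; congr 1; ring
  rw [hk1, hk2]
  have h3 : ρ ^ ax ≠ 0 := by positivity
  field_simp

end DP
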