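import Pool.Agent.Lib.MP_9e8926_ag_DP.RegR

/-!
# Values and derivatives of `f` on small scaled polydiscs

`w = (ax,…,ax; ay_1,…)`.  Let `ξ ∈ ℂ` with `a_{i0} + a_{i1} ξ² = 0` and `z0 = (x; 0)` with
`x_{i0} = c1`, `x_{i1} = ξ c1`, the other coordinates 0, `c1 > 0` so small that `‖z0 v‖ ≤ 1/4`.
Let `0 < ρ ≤ δ ≤ δ0 ≤ 1/4` and `|z_v - ρ^{w_v} z0_v| ≤ δ ρ^{w_v}`; so `|z_v| ≤ ρ^{w_v}/2`.
* `∑ a_i z_i²`: its value at `ρ^w z0` is 0, so it is at most `C' δ ρ^{2 ax}`.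
* every monomial `m` of `g` with `|z^m|`: if it contains some `y_j`, then `|z^m| ≤ δ ρ^{L1} ≤
  δ ρ^{2 ax}` (`|y_j| ≤ δ ρ^{ay_j}`); otherwise it is a monomial in the `x` of weight `≥ 2 ax` which
  is not quadratic, so of degree `≥ 3` and `|z^m| ≤ ρ^{3 ax} ≤ δ ρ^{2 ax}`.  So
  `|f(z)| ≤ C' δ ρ^{2 ax}`.
* `∂f/∂x_{i0} = 2 a_{i0} x_{i0} + ∂g/∂x_{i0}`, `|2 a_{i0} z_{i0}| ≥ 2 |a_{i0}| (c1 - δ) ρ^{ax}`, and
  every monomial `m` of `g` with `m_{i0} ≥ 1` contributes at most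
  `|c_m| m_{i0} δ ρ^{ax}` (as before: `|z^m/z_{i0}| ≤ δ ρ^{L1 - ax}` if `m` contains some `y_j`,
  otherwise the degree of `m` is `≥ 3` and it is `≤ ρ^{2 ax}`).  So it is at least
  `|a_{i0}| c1 ρ^{ax}` for `δ ≤ δ0` small.
-/

set_option autoImplicit false

noncomputable section

namespace DP

open MvPolynomial

/-- The weights of the variables. -/
def wv {r N : ℕ} (ax : ℕ) (ay : Fin N → ℕ) : Fin r ⊕ Fin N → ℕ := Sum.elim (fun _ => ax) ay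

section aux

variable {r N : ℕ} {ax : ℕ} {ay : Fin N → ℕ} {z : Fin r ⊕ Fin N → ℂ} {δ ρ : ℝ}

private theorem luE_split (n : Fin r ⊕ Fin N →₀ ℕ) : ‖n.prod fun v e => z v ^ e‖ =
    (∏ i, ‖z (Sum.inl i)‖ ^ n (Sum.inl i)) * ∏ j, ‖z (Sum.inr j)‖ ^ n (Sum.inr j) := by
  rw [Finsupp.prod_fintype _ _ (fun v => pow_zero _), norm_prod, Fintype.prod_sum_type]
  simp only [norm_pow]

private theorem luE_rho (n : Fin r ⊕ Fin N →₀ ℕ) : ρ ^ L1 ax ay (md n) =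
    (∏ i, (ρ ^ ax) ^ n (Sum.inl i)) * ∏ j, (ρ ^ ay j) ^ n (Sum.inr j) := by
  rw [L1, md, pow_add, Finset.prod_pow_eq_pow_sum, ← pow_mul]
  congr 1
  rw [← Finset.prod_pow_eq_pow_sum]
  exact Finset.prod_congr rfl fun j _ => pow_mul _ _ _

private theorem luE_mon1 (hρ : 0 < ρ) (hx : ∀ i, ‖z (Sum.inl i)‖ ≤ ρ ^ ax)
    (hy : ∀ j, ‖z (Sum.inr j)‖ ≤ ρ ^ ay j) (n : Fin r ⊕ Fin N →₀ ℕ) :
    ‖n.prod fun v e => z v ^ e‖ ≤ ρ ^ L1 ax ay (md n) := by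
  rw [luE_split, luE_rho]
  refine mul_le_mul (Finset.prod_le_prod (fun i _ => by positivity) fun i _ =>
    pow_le_pow_left₀ (norm_nonneg _) (hx i) _) (Finset.prod_le_prod (fun i _ => by positivity)
    fun i _ => pow_le_pow_left₀ (norm_nonneg _) (hy i) _) (Finset.prod_nonneg fun i _ =>
    by positivity) (Finset.prod_nonneg fun i _ => by positivity)

private theorem luE_mon2 (hρ : 0 < ρ) (hδ : 0 < δ) (hδ1 : δ ≤ 1)
    (hx : ∀ i, ‖z (Sum.inl i)‖ ≤ ρ ^ ax)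
    (hy : ∀ j, ‖z (Sum.inr j)‖ ≤ δ * ρ ^ ay j) (n : Fin r ⊕ Fin N →₀ ℕ) (j0 : Fin N)
    (hj : n (Sum.inr j0) ≠ 0) :
    ‖n.prod fun v e => z v ^ e‖ ≤ δ * ρ ^ L1 ax ay (md n) := by
  classical
  rw [luE_split, luE_rho]
  have h1 : ∏ i, ‖z (Sum.inl i)‖ ^ n (Sum.inl i) ≤ ∏ i, (ρ ^ ax) ^ n (Sum.inl i) :=
    Finset.prod_le_prod (fun i _ => by positivity) fun i _ =>
      pow_le_pow_left₀ (norm_nonneg _) (hx i) _
  have h2 : ∏ j, ‖z (Sum.inr j)‖ ^ n (Sum.inr j) ≤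
      ∏ j, ((if j = j0 then δ else 1) * (ρ ^ ay j) ^ n (Sum.inr j)) := by
    refine Finset.prod_le_prod (fun i _ => by positivity) fun j _ => ?_
    have h3 : ‖z (Sum.inr j)‖ ^ n (Sum.inr j) ≤ δ ^ n (Sum.inr j) * (ρ ^ ay j) ^ n (Sum.inr j) := by
      rw [← mul_pow]
      exact pow_le_pow_left₀ (norm_nonneg _) (hy j) _
    refine h3.trans (mul_le_mul_of_nonneg_right ?_ (by positivity))
    split_ifs with hjj
    · subst hjj
      exact pow_le_of_le_one hδ.le hδ1 hj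
    · exact pow_le_one₀ hδ.le hδ1
  rw [Finset.prod_mul_distrib, Finset.prod_ite_eq' Finset.univ j0 (fun _ => δ),
    if_pos (Finset.mem_univ _)] at h2
  calc _ ≤ (∏ i, (ρ ^ ax) ^ n (Sum.inl i)) * (δ * ∏ j, (ρ ^ ay j) ^ n (Sum.inr j)) :=
        mul_le_mul h1 h2 (Finset.prod_nonneg fun i _ => by positivity)
          (Finset.prod_nonneg fun i _ => by positivity)
    _ = _ := by ring

/-- The bound of the monomials of weight at least `W + W'`. -/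
private theorem luE_mon (hax : 0 < ax) (hρ : 0 < ρ) (hρδ : ρ ≤ δ) (hδ1 : δ ≤ 1)
    (hx : ∀ i, ‖z (Sum.inl i)‖ ≤ ρ ^ ax)
    (hy : ∀ j, ‖z (Sum.inr j)‖ ≤ δ * ρ ^ ay j) (n : Fin r ⊕ Fin N →₀ ℕ) (W : ℕ)
    (hW : W ≤ L1 ax ay (md n)) (h : (∀ j, n (Sum.inr j) = 0) → W + ax ≤ L1 ax ay (md n)) :
    ‖n.prod fun v e => z v ^ e‖ ≤ δ * ρ ^ W := by
  have hδ : 0 < δ := hρ.trans_le hρδ
  have hρ1 : ρ ≤ 1 := hρδ.trans hδ1
  by_cases hn : ∀ j, n (Sum.inr j) = 0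
  · have hy' : ∀ j, ‖z (Sum.inr j)‖ ≤ ρ ^ ay j := fun j =>
      (hy j).trans (mul_le_of_le_one_left (by positivity) hδ1)
    refine (luE_mon1 hρ hx hy' n).trans ((pow_le_pow_of_le_one hρ.le hρ1 (h hn)).trans ?_)
    rw [pow_add, mul_comm]
    refine mul_le_mul_of_nonneg_right ?_ (by positivity)
    exact (pow_le_of_le_one hρ.le hρ1 hax.ne').trans hρδ
  · push Not at hn
    obtain ⟨j0, hj0⟩ := hn
    refine (luE_mon2 hρ hδ hδ1 hx hy n j0 hj0).trans ?_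
    exact mul_le_mul_of_nonneg_left (pow_le_pow_of_le_one hρ.le hρ1 hW) hδ.le

private theorem luE_case {ax : ℕ} (hax : 0 < ax) {m : Fin r ⊕ Fin N →₀ ℕ}
    (h : 2 * ax ≤ L1 ax ay (md m) ∧ md m ≠ (2, 0)) (hm : ∀ j, m (Sum.inr j) = 0) :
    2 * ax + ax ≤ L1 ax ay (md m) := by
  obtain ⟨h1, h2⟩ := h
  have e1 : md m = (∑ i, m (Sum.inl i), 0) := by
    refine Prod.ext rfl (funext fun j => ?_)
    exact hm j
  rw [e1] at h1 h2 ⊢
  have e2 : L1 ax ay ((∑ i, m (Sum.inl i), 0) : ℕ × (Fin N → ℕ)) =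
      ax * ∑ i, m (Sum.inl i) := by
    simp [L1]
  rw [e2] at h1 ⊢
  have h3 : (∑ i, m (Sum.inl i)) ≠ 2 := fun h3 => h2 (by rw [h3])
  have h4 : 2 ≤ ∑ i, m (Sum.inl i) := by
    rw [mul_comm] at h1
    exact Nat.le_of_mul_le_mul_left h1 hax
  have h5 : 3 ≤ ∑ i, m (Sum.inl i) := by omega
  have h6 := Nat.mul_le_mul_left ax h5
  linarith

private theorem luE_L1 {m : Fin r ⊕ Fin N →₀ ℕ} {i0 : Fin r} (h : m (Sum.inl i0) ≠ 0) :
    L1 ax ay (md (m - Finsupp.single (Sum.inl i0) 1)) + ax = L1 ax ay (md m) := by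
  classical
  have e : m = (m - Finsupp.single (Sum.inl i0) 1) + Finsupp.single (Sum.inl i0) 1 := by
    rw [tsub_add_cancel_of_le]
    rw [Finsupp.single_le_iff]
    omega
  conv_rhs => rw [e]
  simp only [L1, md, Finsupp.coe_add, Pi.add_apply, Finset.sum_add_distrib, mul_add]
  have h1 : ∑ x, (Finsupp.single (Sum.inl i0 : Fin r ⊕ Fin N) 1 : Fin r ⊕ Fin N →₀ ℕ)
      (Sum.inl x) = 1 := by
    rw [Finset.sum_eq_single i0]
    · exact Finsupp.single_eq_same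
    · intro b _ hb
      exact Finsupp.single_eq_of_ne fun h => hb (Sum.inl_injective h)
    · intro h
      exact absurd (Finset.mem_univ _) h
  have h2 : ∑ x, ay x * (Finsupp.single (Sum.inl i0 : Fin r ⊕ Fin N) 1 : Fin r ⊕ Fin N →₀ ℕ)
      (Sum.inr x) = 0 := by
    refine Finset.sum_eq_zero fun j _ => ?_
    rw [Finsupp.single_eq_of_ne (by simp), mul_zero]
  rw [h1, h2]
  ring

end aux

theorem val_est {r N : ℕ} (i0 i1 : Fin r) (h01 : i0 ≠ i1) (ax : ℕ) (ay : Fin N → ℕ)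
    (hax : 0 < ax) (hay : ∀ j, 0 < ay j) (a : Fin r → ℂ) (ha : ∀ i, a i ≠ 0)
    (g : MvPolynomial (Fin r ⊕ Fin N) ℂ) (hg : Hyp ax ay g) :
    ∃ (z0 : Fin r ⊕ Fin N → ℂ) (δ0 C c : ℝ), 0 < δ0 ∧ δ0 ≤ 1 / 4 ∧ 0 < C ∧ 0 < c ∧
      (∀ v, ‖z0 v‖ ≤ 1 / 4) ∧ ∀ δ ρ : ℝ, 0 < ρ → ρ ≤ δ → δ ≤ δ0 → ∀ z : Fin r ⊕ Fin N → ℂ,
      (∀ v, ‖z v - (ρ : ℂ) ^ wv ax ay v * z0 v‖ ≤ δ * ρ ^ wv (r := r) ax ay v) →
      ‖eval z (ff a g)‖ ≤ C * δ * ρ ^ (2 * ax) ∧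
      c * ρ ^ ax ≤ ‖eval z (pderiv (Sum.inl i0) (ff a g))‖ := by
  classical
  -- the point
  obtain ⟨ξ, hξ⟩ : ∃ ξ : ℂ, a i0 + a i1 * ξ ^ 2 = 0 := by
    obtain ⟨ξ, hξ⟩ := IsAlgClosed.exists_pow_nat_eq (-(a i0) / a i1) (n := 2) (by norm_num)
    refine ⟨ξ, ?_⟩
    rw [hξ]
    have := ha i1
    field_simp
    ring
  obtain ⟨c1, hc1, hc14, hξc⟩ : ∃ c1 : ℝ, 0 < c1 ∧ c1 ≤ 1 / 4 ∧ ‖ξ‖ * c1 ≤ 1 / 4 := by
    refine ⟨1 / (4 * (1 + ‖ξ‖)), by positivity, ?_, ?_⟩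
    · rw [div_le_div_iff₀ (by positivity) (by norm_num)]
      have := norm_nonneg ξ
      linarith
    · have := norm_nonneg ξ
      rw [mul_one_div, div_le_div_iff₀ (by positivity) (by norm_num)]
      linarith
  set z0 : Fin r ⊕ Fin N → ℂ := Sum.elim
    (fun i => if i = i0 then (c1 : ℂ) else if i = i1 then ξ * c1 else 0) (fun _ => 0) with hz0
  have hz0i : z0 (Sum.inl i0) = c1 := by simp [hz0]
  have hz04 : ∀ v, ‖z0 v‖ ≤ 1 / 4 := by
    rintro (i | j)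
    · simp only [hz0, Sum.elim_inl]
      split_ifs
      · rw [Complex.norm_real, Real.norm_eq_abs, abs_of_pos hc1]
        exact hc14
      · rw [norm_mul, Complex.norm_real, Real.norm_eq_abs, abs_of_pos hc1]
        exact hξc
      · rw [norm_zero]
        norm_num
    · simp [hz0]
  have hq0 : ∑ i, a i * z0 (Sum.inl i) ^ 2 = 0 := by
    rw [← Finset.sum_subset (Finset.subset_univ {i0, i1})]
    · rw [Finset.sum_pair h01]
      simp only [hz0, Sum.elim_inl, if_true, if_neg h01.symm]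
      linear_combination (c1 : ℂ) ^ 2 * hξ
    · intro i _ hi
      rw [Finset.mem_insert, Finset.mem_singleton, not_or] at hi
      simp [hz0, hi.1, hi.2]
  set A : ℝ := ∑ i, ‖a i‖ with hA
  set G : ℝ := ∑ m ∈ g.support, ‖coeff m g‖ with hG
  set D : ℝ := ∑ m ∈ g.support, ‖coeff m g‖ * m (Sum.inl i0) with hD
  have hA0 : 0 ≤ A := Finset.sum_nonneg fun _ _ => norm_nonneg _
  have hG0 : 0 ≤ G := Finset.sum_nonneg fun _ _ => norm_nonneg _
  have hD0 : 0 ≤ D := Finset.sum_nonneg fun _ _ => by positivity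
  have ha0 : 0 < ‖a i0‖ := norm_pos_iff.mpr (ha i0)
  refine ⟨z0, min (1 / 4) (‖a i0‖ * c1 / (2 * ‖a i0‖ + D)), A + G + 1, ‖a i0‖ * c1,
    lt_min (by norm_num) (by positivity), min_le_left _ _, by positivity, by positivity, hz04, ?_⟩
  intro δ ρ hρ hρδ hδ z hz
  have hδ4 : δ ≤ 1 / 4 := hδ.trans (min_le_left _ _)
  have hδD : δ * (2 * ‖a i0‖ + D) ≤ ‖a i0‖ * c1 := by
    have h1 := hδ.trans (min_le_right _ _)
    rwa [le_div_iff₀ (by positivity)] at h1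
  have hδ0 : 0 < δ := hρ.trans_le hρδ
  have hnρ : ∀ n : ℕ, ‖(ρ : ℂ) ^ n‖ = ρ ^ n := fun n => by
    rw [norm_pow, Complex.norm_real, Real.norm_eq_abs, abs_of_pos hρ]
  have hx' : ∀ i, ‖z (Sum.inl i)‖ ≤ ρ ^ ax / 2 := by
    intro i
    have h1 : ‖z (Sum.inl i) - (ρ : ℂ) ^ ax * z0 (Sum.inl i)‖ ≤ δ * ρ ^ ax := hz (Sum.inl i)
    have h2 : ‖(ρ : ℂ) ^ ax * z0 (Sum.inl i)‖ ≤ ρ ^ ax * (1 / 4) := by
      rw [norm_mul, hnρ]
      exact mul_le_mul_of_nonneg_left (hz04 _) (by positivity)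
    have h3 := norm_add_le (z (Sum.inl i) - (ρ : ℂ) ^ ax * z0 (Sum.inl i))
      ((ρ : ℂ) ^ ax * z0 (Sum.inl i))
    rw [sub_add_cancel] at h3
    have h4 : δ * ρ ^ ax ≤ 1 / 4 * ρ ^ ax := mul_le_mul_of_nonneg_right hδ4 (by positivity)
    linarith
  have hx : ∀ i, ‖z (Sum.inl i)‖ ≤ ρ ^ ax := fun i => by
    have h1 := hx' i
    have h2 : 0 < ρ ^ ax := by positivity
    linarith
  have hy : ∀ j, ‖z (Sum.inr j)‖ ≤ δ * ρ ^ ay j := by
    intro j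
    have h1 : ‖z (Sum.inr j) - (ρ : ℂ) ^ ay j * z0 (Sum.inr j)‖ ≤ δ * ρ ^ ay j := hz (Sum.inr j)
    have h2 : z0 (Sum.inr j) = 0 := by simp [hz0]
    rwa [h2, mul_zero, sub_zero] at h1
  have hδ1 : δ ≤ 1 := by linarith
  constructor
  · -- the value
    have e1 : eval z (ff a g) = ∑ i, a i * (z (Sum.inl i) ^ 2 -
        ((ρ : ℂ) ^ ax * z0 (Sum.inl i)) ^ 2) + eval z g := by
      have e2 : ∑ i, a i * ((ρ : ℂ) ^ ax * z0 (Sum.inl i)) ^ 2 = 0 := by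
        have e3 : ∀ i, a i * ((ρ : ℂ) ^ ax * z0 (Sum.inl i)) ^ 2 =
            ((ρ : ℂ) ^ ax) ^ 2 * (a i * z0 (Sum.inl i) ^ 2) := fun i => by ring
        simp only [e3]
        rw [← Finset.mul_sum, hq0, mul_zero]
      simp only [mul_sub, Finset.sum_sub_distrib]
      rw [e2, sub_zero, ff, map_add, map_sum]
      simp
    have h1 : ‖∑ i, a i * (z (Sum.inl i) ^ 2 - ((ρ : ℂ) ^ ax * z0 (Sum.inl i)) ^ 2)‖ ≤
        A * (δ * ρ ^ (2 * ax)) := by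
      rw [hA, Finset.sum_mul]
      refine (norm_sum_le _ _).trans (Finset.sum_le_sum fun i _ => ?_)
      rw [norm_mul]
      refine mul_le_mul_of_nonneg_left ?_ (norm_nonneg _)
      rw [sq_sub_sq, norm_mul, mul_comm]
      have h2 : ‖z (Sum.inl i) - (ρ : ℂ) ^ ax * z0 (Sum.inl i)‖ ≤ δ * ρ ^ ax := hz (Sum.inl i)
      have h3 : ‖z (Sum.inl i) + (ρ : ℂ) ^ ax * z0 (Sum.inl i)‖ ≤ ρ ^ ax := by
        have h4 : ‖(ρ : ℂ) ^ ax * z0 (Sum.inl i)‖ ≤ ρ ^ ax * (1 / 4) := by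
          rw [norm_mul, hnρ]
          exact mul_le_mul_of_nonneg_left (hz04 _) (by positivity)
        have h5 := norm_add_le (z (Sum.inl i)) ((ρ : ℂ) ^ ax * z0 (Sum.inl i))
        have h6 := hx' i
        have h7 : 0 < ρ ^ ax := by positivity
        linarith
      refine (mul_le_mul h2 h3 (norm_nonneg _) (by positivity)).trans (le_of_eq ?_)
      rw [two_mul, pow_add]
      ring
    have h2 : ‖eval z g‖ ≤ G * (δ * ρ ^ (2 * ax)) := by
      rw [eval_eq, hG, Finset.sum_mul]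
      refine (norm_sum_le _ _).trans (Finset.sum_le_sum fun m hm => ?_)
      rw [norm_mul]
      refine mul_le_mul_of_nonneg_left ?_ (norm_nonneg _)
      exact luE_mon hax hρ hρδ hδ1 hx hy m (2 * ax) (hg m hm).1 (luE_case hax (hg m hm))
    rw [e1]
    refine (norm_add_le _ _).trans ((add_le_add h1 h2).trans ?_)
    have h3 : 0 ≤ δ * ρ ^ (2 * ax) := by positivity
    nlinarith
  · -- the derivative
    have e1 : eval z (pderiv (Sum.inl i0) (ff a g)) =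
        2 * a i0 * z (Sum.inl i0) + eval z (pderiv (Sum.inl i0) g) := by
      rw [ff, map_add, map_add, map_sum]
      congr 1
      rw [Finset.sum_eq_single i0]
      · rw [pderiv_C_mul, pderiv_pow, pderiv_X_self]
        simp
        ring
      · intro i _ hi
        rw [pderiv_C_mul, pderiv_pow, pderiv_X_of_ne (fun h => hi (Sum.inl_injective h))]
        simp
      · intro h
        exact absurd (Finset.mem_univ _) h
    have h1 : ‖eval z (pderiv (Sum.inl i0) g)‖ ≤ D * (δ * ρ ^ ax) := by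
      have e2 : pderiv (Sum.inl i0) g = ∑ m ∈ g.support,
          monomial (m - Finsupp.single (Sum.inl i0) 1) (coeff m g * (m (Sum.inl i0) : ℂ)) := by
        conv_lhs => rw [g.as_sum, map_sum]
        exact Finset.sum_congr rfl fun m _ => pderiv_monomial
      rw [e2, map_sum, hD, Finset.sum_mul]
      refine (norm_sum_le _ _).trans (Finset.sum_le_sum fun m hm => ?_)
      rw [eval_monomial, norm_mul, norm_mul, Complex.norm_natCast]
      by_cases h0 : m (Sum.inl i0) = 0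
      · rw [h0]
        simp
      refine mul_le_mul_of_nonneg_left ?_ (by positivity)
      have h2 := luE_L1 (ax := ax) (ay := ay) h0
      have h3 := (hg m hm).1
      refine luE_mon hax hρ hρδ hδ1 hx hy _ ax (by omega) ?_
      intro h4
      have h5 := luE_case (ay := ay) hax (hg m hm) (fun j => by
        have h6 := h4 j
        rw [Finsupp.tsub_apply, Finsupp.single_eq_of_ne (by simp), Nat.sub_zero] at h6
        exact h6)
      omega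
    have h2 : 2 * ‖a i0‖ * (c1 - δ) * ρ ^ ax ≤ ‖2 * a i0 * z (Sum.inl i0)‖ := by
      have h3 : ‖z (Sum.inl i0) - (ρ : ℂ) ^ ax * z0 (Sum.inl i0)‖ ≤ δ * ρ ^ ax :=
        hz (Sum.inl i0)
      rw [hz0i] at h3
      have h4 : ‖(ρ : ℂ) ^ ax * (c1 : ℂ)‖ = ρ ^ ax * c1 := by
        rw [norm_mul, hnρ, Complex.norm_real, Real.norm_eq_abs, abs_of_pos hc1]
      have h5 := norm_sub_norm_le ((ρ : ℂ) ^ ax * (c1 : ℂ)) (z (Sum.inl i0))
      rw [norm_sub_rev, h4] at h5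
      have h6 : (c1 - δ) * ρ ^ ax ≤ ‖z (Sum.inl i0)‖ := by linarith
      rw [norm_mul, norm_mul, RCLike.norm_ofNat, mul_assoc]
      exact mul_le_mul_of_nonneg_left h6 (by positivity)
    rw [e1]
    have h3 := norm_sub_norm_le (2 * a i0 * z (Sum.inl i0)) (-(eval z (pderiv (Sum.inl i0) g)))
    rw [sub_neg_eq_add, norm_neg] at h3
    have h4 : 0 < ρ ^ ax := by positivity
    have h5 := mul_le_mul_of_nonneg_right hδD h4.le
    nlinarith

end DP
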