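import Pool.Agent.Lib.MP_9e8926_ag_DP.LimX

/-!
# The upper bound for Frobenius volumes

* `fpt_ak`: let `SFR (ak C) t`; take `d = 1` (`s 1 = 0` gives `s = 0 ∈ mX`): `e ≥ 1`, `q = p^e`,
  `T = ⌈t (q-1)⌉`, `a ∈ (ak C)^T`, `a = mk a'` with `a' ∈ Wt (C T)` (`Wt_pow`; `map` of a power); by
  `fed_up`, `f^{q-1} Y_q a' ∉ J q`, so it has a monomial with all exponents `≤ q - 1`, of weight at
  most `(q-1)(r ax + ∑ ay_j)`, and at least `2 ax (q-1) + ∑ ay_j ⌈b_j (q-1)⌉ + C T`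
  (`f ∈ Wt (2 ax)`, `Wt_pow`, `Wt_mul`).  As `⌈b_j (q-1)⌉ ≥ b_j (q-1)`, `T ≥ t (q-1)`:
  `C t ≤ (r-2) ax + ∑ ay_j (1-b_j) = κ (r-1) + κ N = κ n`.
* `fvol_up`: for all `C ≥ 1`: `Fvol ≤ emult (ak C) fpt (ak C)^n ≤ n! c0 (C+c)^n (κ n/C)^n`
  (`emult_ak`, `ak_prim`; the set is bounded below by 0), and `C → ∞`.
  Model: `Pool/Agent/Lib/MP_9e8926_ag_CX/UpX.lean`.
-/

set_option autoImplicit false

noncomputable section

namespace DP

open MvPolynomial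

private theorem upF_X {k : Type*} [Field k] {r N : ℕ} (ax : ℕ) (ay : Fin N → ℕ) (j : Fin N) :
    (X (Sum.inr j) : MvPolynomial (Fin r ⊕ Fin N) k) ∈ Wt k ax ay (ay j) := by
  classical
  intro m hm
  rw [support_X, Finset.mem_singleton] at hm
  subst hm
  refine le_trans (le_trans ?_ (Finset.single_le_sum
    (f := fun j' => ay j' * (md (Finsupp.single (Sum.inr j : Fin r ⊕ Fin N) 1)).2 j')
    (fun _ _ => Nat.zero_le _) (Finset.mem_univ j))) (Nat.le_add_left _ _)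
  simp [md]

private theorem upF_ff {k : Type*} [Field k] {r N : ℕ} (ax : ℕ) (ay : Fin N → ℕ) (a : Fin r → k)
    (g : MvPolynomial (Fin r ⊕ Fin N) k) (hg : Hyp ax ay g) :
    ff a g ∈ Wt k ax ay (2 * ax) := by
  classical
  refine Ideal.add_mem _ (Ideal.sum_mem _ fun i _ => Ideal.mul_mem_left _ _ ?_)
    (fun m hm => (hg m hm).1)
  intro m hm
  rw [X_pow_eq_monomial] at hm
  have h1 := support_monomial_subset hm
  rw [Finset.mem_singleton] at h1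
  subst h1
  have h2 : (md (Finsupp.single (Sum.inl i : Fin r ⊕ Fin N) 2)).1 = 2 := by
    simp [md, Finsupp.single_apply]
  change 2 * ax ≤ ax * (md (Finsupp.single (Sum.inl i : Fin r ⊕ Fin N) 2)).1 + _
  rw [h2]
  omega

private theorem upF_Y {k : Type*} [Field k] {r N : ℕ} (ax : ℕ) (ay : Fin N → ℕ) (c : Fin N → ℕ) :
    (∏ j, X (Sum.inr j) ^ c j : MvPolynomial (Fin r ⊕ Fin N) k) ∈
      Wt k ax ay (∑ j, ay j * c j) := by
  classical
  have key : ∀ s : Finset (Fin N), (∏ j ∈ s, X (Sum.inr j) ^ c j :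
      MvPolynomial (Fin r ⊕ Fin N) k) ∈ Wt k ax ay (∑ j ∈ s, ay j * c j) := by
    intro s
    induction s using Finset.induction_on with
    | empty => exact fun m _ => Nat.zero_le _
    | insert j s hj ih =>
      rw [Finset.prod_insert hj, Finset.sum_insert hj]
      exact Wt_mul ax ay _ _ (Ideal.mul_mem_mul
        (Wt_pow ax ay _ _ (Ideal.pow_mem_pow (upF_X ax ay j) _)) ih)
  exact key Finset.univ

private theorem upF_wt {r N : ℕ} (ax : ℕ) (ay : Fin N → ℕ) (m : Fin r ⊕ Fin N →₀ ℕ) (q : ℕ)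
    (h : ∀ v, m v < q) : L1 ax ay (md m) ≤ (ax * r + ∑ j, ay j) * (q - 1) := by
  have h1 : ∑ i, m (Sum.inl i) ≤ r * (q - 1) := by
    calc ∑ i, m (Sum.inl i) ≤ ∑ _i : Fin r, (q - 1) :=
          Finset.sum_le_sum fun i _ => by have := h (Sum.inl i); omega
      _ = r * (q - 1) := by rw [Finset.sum_const, Finset.card_univ, Fintype.card_fin, smul_eq_mul]
  have h2 : ∑ j, ay j * m (Sum.inr j) ≤ (∑ j, ay j) * (q - 1) := by
    rw [Finset.sum_mul]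
    exact Finset.sum_le_sum fun j _ => Nat.mul_le_mul_left _ (by have := h (Sum.inr j); omega)
  change ax * ∑ i, m (Sum.inl i) + ∑ j, ay j * m (Sum.inr j) ≤ _
  calc ax * ∑ i, m (Sum.inl i) + ∑ j, ay j * m (Sum.inr j)
      ≤ ax * (r * (q - 1)) + (∑ j, ay j) * (q - 1) :=
        add_le_add (Nat.mul_le_mul_left _ h1) h2
    _ = _ := by ring

private theorem upF_real {r N : ℕ} (hr : 3 ≤ r) (ax : ℕ) (ay : Fin N → ℕ) (b : Fin N → ℚ)
    (κ : ℝ) (hκx : (ax : ℝ) * ((r : ℝ) - 2) = κ * ((r : ℝ) - 1))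
    (hκy : ∀ j, (ay j : ℝ) * (1 - (b j : ℝ)) = κ) (C q T : ℕ) (t : ℝ) (hq : 2 ≤ q) (hC : 1 ≤ C)
    (hT : t * ((q : ℝ) - 1) ≤ T)
    (h : 2 * ax * (q - 1) + (∑ j, ay j * ⌈(b j : ℝ) * ((q : ℝ) - 1)⌉₊ + C * T) ≤
      (ax * r + ∑ j, ay j) * (q - 1)) : t ≤ κ * ((r - 1 + N : ℕ) : ℝ) / C := by
  have hC0 : (0 : ℝ) < C := by exact_mod_cast hC
  have hq0 : (0 : ℝ) < (q : ℝ) - 1 := by
    have : (2 : ℝ) ≤ q := by exact_mod_cast hq
    linarith
  have hn : ((r - 1 + N : ℕ) : ℝ) = (r : ℝ) - 1 + N := by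
    rw [Nat.cast_add, Nat.cast_sub (by omega)]
    simp
  have h1 := (Nat.cast_le (α := ℝ)).2 h
  push_cast [Nat.cast_sub (show 1 ≤ q by omega)] at h1
  have h2 : (∑ j, (ay j : ℝ) * (b j : ℝ)) * ((q : ℝ) - 1) ≤
      ∑ j, (ay j : ℝ) * (⌈(b j : ℝ) * ((q : ℝ) - 1)⌉₊ : ℝ) := by
    rw [Finset.sum_mul]
    refine Finset.sum_le_sum fun j _ => ?_
    rw [mul_assoc]
    exact mul_le_mul_of_nonneg_left (Nat.le_ceil _) (Nat.cast_nonneg _)
  have h3 : ∑ j, (ay j : ℝ) - ∑ j, (ay j : ℝ) * (b j : ℝ) = κ * N := by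
    rw [← Finset.sum_sub_distrib]
    calc ∑ j, ((ay j : ℝ) - (ay j : ℝ) * (b j : ℝ)) = ∑ _j : Fin N, κ :=
          Finset.sum_congr rfl fun j _ => by rw [← hκy j]; ring
      _ = κ * N := by
        rw [Finset.sum_const, Finset.card_univ, Fintype.card_fin, nsmul_eq_mul, mul_comm]
  have h4 : (C : ℝ) * (t * ((q : ℝ) - 1)) ≤ C * T := mul_le_mul_of_nonneg_left hT hC0.le
  rw [le_div_iff₀ hC0, hn]
  have h5 : t * C * ((q : ℝ) - 1) ≤ κ * ((r : ℝ) - 1 + N) * ((q : ℝ) - 1) := by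
    have h6 : κ * ((r : ℝ) - 1 + N) = (ax : ℝ) * ((r : ℝ) - 2) +
        (∑ j, (ay j : ℝ) - ∑ j, (ay j : ℝ) * (b j : ℝ)) := by
      rw [h3, hκx]
      ring
    rw [h6]
    nlinarith
  exact le_of_mul_le_mul_right h5 hq0

private theorem upF_lim (A c κn : ℝ) (n : ℕ) :
    Filter.Tendsto (fun C : ℕ => A * ((C : ℝ) + c) ^ n * (κn / (C : ℝ)) ^ n) Filter.atTop
      (nhds (A * κn ^ n)) := by
  have h1 : Filter.Tendsto (fun C : ℕ => κn * c / (C : ℝ)) Filter.atTop (nhds 0) :=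
    tendsto_const_div_atTop_nhds_zero_nat _
  have h2 := ((h1.const_add κn).pow n).const_mul A
  rw [add_zero] at h2
  refine h2.congr' ?_
  filter_upwards [Filter.eventually_gt_atTop 0] with C hC
  have hC0 : (C : ℝ) ≠ 0 := by exact_mod_cast hC.ne'
  rw [mul_assoc, ← mul_pow]
  congr 2
  field_simp

variable {k : Type*} [Field k] {r N : ℕ}
variable (p : ℕ) [Fact p.Prime] [CharP k p] [PerfectField k] (hr : 3 ≤ r)
  (ax : ℕ) (ay : Fin N → ℕ) (hax : 0 < ax) (hay : ∀ j, 0 < ay j)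
  (a : Fin r → k) (ha : ∀ i, a i ≠ 0) (g : MvPolynomial (Fin r ⊕ Fin N) k)
  (hg : Hyp ax ay g) (b : Fin N → ℚ) (hb : ∀ j, 0 ≤ b j ∧ b j < 1)
  (κ : ℝ) (hκ : 0 < κ) (hκx : (ax : ℝ) * ((r : ℝ) - 2) = κ * ((r : ℝ) - 1))
  (hκy : ∀ j, (ay j : ℝ) * (1 - (b j : ℝ)) = κ)

include hr hax hay ha hg hb hκ hκx hκy

theorem fpt_ak (C : ℕ) (hC : 1 ≤ C) :
    fpt p (ff a g) b (ak (ff a g) ax ay C) ≤ κ * ((r - 1 + N : ℕ) : ℝ) / C := by
  refine Real.sSup_le (fun t ht => ?_) (by positivity)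
  obtain ⟨e, he, φ, hφ, a', ha', hφa⟩ := ht.2 1 (fun s hs h0 => hs (by
    rw [mul_one] at h0
    rw [h0]
    exact Ideal.zero_mem _))
  set T := ⌈t * ((p ^ e : ℕ) - 1 : ℝ)⌉₊ with hT
  rw [ak, ← Ideal.map_pow] at ha'
  obtain ⟨a'', ha'', rfl⟩ := (Ideal.mem_map_iff_of_surjective _
    Ideal.Quotient.mk_surjective).1 ha'
  have hw := Wt_pow ax ay C T ha''
  rw [one_mul, ← map_mul] at hφa
  have h1 := fed_up p (ff a g) (ff_ne hr ax ay a ha g hg) (ff_const ax ay hax a g hg) e φ hφ _ hφa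
  rw [mem_J] at h1
  push Not at h1
  obtain ⟨m, hm, hlt⟩ := h1
  have hq2 : 2 ≤ p ^ e := by
    have hp := (Fact.out : p.Prime).two_le
    calc 2 ≤ p := hp
      _ = p ^ 1 := (pow_one p).symm
      _ ≤ p ^ e := Nat.pow_le_pow_right (by omega) he
  have h2 : ff a g ^ (p ^ e - 1) * (Yq b (p ^ e) * a'') ∈ Wt k ax ay
      (2 * ax * (p ^ e - 1) + (∑ j, ay j * ⌈(b j : ℝ) * (((p ^ e : ℕ) : ℝ) - 1)⌉₊ + C * T)) :=
    Wt_mul ax ay _ _ (Ideal.mul_mem_mul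
      (Wt_pow ax ay _ _ (Ideal.pow_mem_pow (upF_ff ax ay a g hg) _))
      (Wt_mul ax ay _ _ (Ideal.mul_mem_mul (upF_Y ax ay _) hw)))
  exact upF_real hr ax ay b κ hκx hκy C (p ^ e) T t hq2 hC (Nat.le_ceil _)
    ((h2 m hm).trans (upF_wt ax ay m (p ^ e) hlt))

theorem fvol_up : Fvol p (r - 1 + N) (ff a g) b ≤
    (κ * ((r - 1 + N : ℕ) : ℝ)) ^ (r - 1 + N) * ((r - 1 + N).factorial : ℝ) * c0 r ax ay := by
  have hlim := upF_lim (((r - 1 + N).factorial : ℝ) * c0 r ax ay) ((ax : ℝ) + ∑ j, (ay j : ℝ))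
    (κ * ((r - 1 + N : ℕ) : ℝ)) (r - 1 + N)
  have heq : ((r - 1 + N).factorial : ℝ) * c0 r ax ay *
      (κ * ((r - 1 + N : ℕ) : ℝ)) ^ (r - 1 + N) =
      (κ * ((r - 1 + N : ℕ) : ℝ)) ^ (r - 1 + N) * ((r - 1 + N).factorial : ℝ) * c0 r ax ay := by
    ring
  rw [heq] at hlim
  have hfn : ∀ I : Ideal (Rg (ff a g)), 0 ≤ fpt p (ff a g) b I :=
    fun I => Real.sSup_nonneg fun t ht => ht.1
  refine ge_of_tendsto hlim ?_
  filter_upwards [Filter.eventually_ge_atTop 1] with C hC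
  have hbdd : BddBelow {v : ℝ | ∃ I : Ideal (Rg (ff a g)), IsPrim (mX (ff a g)) I ∧
      v = emult k (r - 1 + N) I * fpt p (ff a g) b I ^ (r - 1 + N)} := by
    refine ⟨0, ?_⟩
    rintro _ ⟨I, hI, rfl⟩
    exact mul_nonneg (emult_nonneg hr ax ay hax hay a ha g hg I hI) (pow_nonneg (hfn I) _)
  have hprim := ak_prim (ff a g) ax ay hax hay C hC
  have h1 : Fvol p (r - 1 + N) (ff a g) b ≤
      emult k (r - 1 + N) (ak (ff a g) ax ay C) *
        fpt p (ff a g) b (ak (ff a g) ax ay C) ^ (r - 1 + N) :=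
    csInf_le hbdd ⟨_, hprim, rfl⟩
  refine h1.trans ?_
  have h2 := emult_ak hr ax ay hax hay a ha g hg C hC
  have h3 := fpt_ak p hr ax ay hax hay a ha g hg b hb κ hκ hκx hκy C hC
  have h4 := hfn (ak (ff a g) ax ay C)
  exact mul_le_mul h2 (pow_le_pow_left₀ h4 h3 _) (pow_nonneg h4 _)
    ((emult_nonneg hr ax ay hax hay a ha g hg _ hprim).trans h2)

end DP
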