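import Pool.Agent.Lib.MP_9e8926_ag_DP.LctU
import Pool.Agent.Lib.MP_9e8926_ag_DP.LimX

/-!
# The upper bound for the normalized volume

For all `k ≥ 2 ax`: `volhat ≤ emult (ak k) lct (ak k)^n ≤ n! c0 (k + c)^n (κ n/k)^n` (`emult_ak`,
`lct_ak`, `ak_prim`; the set is bounded below by 0: `emult_nonneg`, `lct ≥ 0` by
`Real.sSup_nonneg`), and `k → ∞`.  Model: `Pool/Agent/Lib/MP_9e8926_ag_CX/VolX.lean`.
-/

set_option autoImplicit false

noncomputable section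

namespace DP

open MvPolynomial

theorem volhat_up {r N : ℕ} (hr : 3 ≤ r) (ax : ℕ) (ay : Fin N → ℕ)
    (hax : 0 < ax) (hay : ∀ j, 0 < ay j) (a : Fin r → ℂ) (ha : ∀ i, a i ≠ 0)
    (g : MvPolynomial (Fin r ⊕ Fin N) ℂ) (hg : Hyp ax ay g) (b : Fin N → ℚ)
    (hb : ∀ j, 0 ≤ b j ∧ b j < 1) (κ : ℝ) (hκ : 0 < κ)
    (hκx : (ax : ℝ) * ((r : ℝ) - 2) = κ * ((r : ℝ) - 1))
    (hκy : ∀ j, (ay j : ℝ) * (1 - (b j : ℝ)) = κ) :
    volhat (r - 1 + N) (ff a g) b ≤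
      (κ * ((r - 1 + N : ℕ) : ℝ)) ^ (r - 1 + N) * ((r - 1 + N).factorial : ℝ) * c0 r ax ay := by
  set n : ℕ := r - 1 + N with hn
  set S : ℝ := ax + ∑ j, (ay j : ℝ) with hS
  have hlct0 : ∀ I : Ideal (Rg (ff a g)), 0 ≤ lct (ff a g) b I := fun I =>
    Real.sSup_nonneg fun t ht => ht.1
  have key : ∀ k : ℕ, 2 * ax ≤ k → volhat n (ff a g) b ≤
      ((n.factorial : ℝ) * c0 r ax ay) * (κ * (n : ℝ) * (1 + S / (k : ℝ))) ^ n := by
    intro k hk
    have hk1 : 1 ≤ k := by omega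
    have hk0 : (0 : ℝ) < k := by exact_mod_cast hk1
    have hprim : IsPrim (mX (ff a g)) (ak (ff a g) ax ay k) := ak_prim (ff a g) ax ay hax hay k hk1
    have h1 : volhat n (ff a g) b ≤ emult ℂ n (ak (ff a g) ax ay k) *
        lct (ff a g) b (ak (ff a g) ax ay k) ^ n := by
      unfold volhat
      refine csInf_le ⟨0, ?_⟩ ⟨ak (ff a g) ax ay k, hprim, rfl⟩
      rintro v ⟨I, hI, rfl⟩
      exact mul_nonneg (emult_nonneg hr ax ay hax hay a ha g hg I hI) (pow_nonneg (hlct0 I) _)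
    have h2 := emult_ak hr ax ay hax hay a ha g hg k hk1
    have h3 := lct_ak hr ax ay hax hay a ha g hg b hb κ hκ hκx hκy k hk
    have h4 := hlct0 (ak (ff a g) ax ay k)
    have h5 := emult_nonneg hr ax ay hax hay a ha g hg _ hprim
    refine h1.trans ((mul_le_mul h2 (pow_le_pow_left₀ h4 h3 _) (pow_nonneg h4 _)
      (h5.trans h2)).trans (le_of_eq ?_))
    rw [mul_assoc, ← mul_pow]
    congr 2
    field_simp
    rw [mul_comm]
  have h1 : Filter.Tendsto (fun k : ℕ => ((n.factorial : ℝ) * c0 r ax ay) *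
      (κ * (n : ℝ) * (1 + S / (k : ℝ))) ^ n) Filter.atTop
      (nhds (((n.factorial : ℝ) * c0 r ax ay) * (κ * (n : ℝ) * (1 + 0)) ^ n)) :=
    (((tendsto_const_div_atTop_nhds_zero_nat _).const_add 1).const_mul (κ * (n : ℝ)) |>.pow
      n).const_mul _
  have h2 : ((n.factorial : ℝ) * c0 r ax ay) * (κ * (n : ℝ) * (1 + 0)) ^ n =
      (κ * (n : ℝ)) ^ n * (n.factorial : ℝ) * c0 r ax ay := by
    rw [add_zero, mul_one]
    ring
  rw [h2] at h1
  refine ge_of_tendsto h1 ?_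
  filter_upwards [Filter.eventually_ge_atTop (2 * ax)] with k hk
  exact key k hk

end DP
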