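import Pool.Agent.Lib.MP_9e8926_ag_DP.CntE

/-!
# The integer weights

Write `1 - b_j = u_j/v_j` with positive natural numbers; `κ = (r-2) ∏ u_j`, `ax = (r-1) ∏ u_j`,
`ay_j = (r-2) v_j ∏_{i ≠ j} u_i`.  `weight_iff`: multiply by `(r-2)/κ`: `ax = κ (r-1)/(r-2)`,
`ay_j = κ/(1-b_j)`.  `value`: `n! c0 = 2/(ax^(r-1) ∏ ay_j)`, `κ/ax = (r-2)/(r-1)`,
`κ/ay_j = 1 - b_j`, `κ^n = κ^(r-1) κ^N`.
-/

set_option autoImplicit false

noncomputable section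

namespace DP

theorem exists_weights {r N : ℕ} (hr : 3 ≤ r) (b : Fin N → ℚ) (hb : ∀ j, 0 ≤ b j ∧ b j < 1) :
    ∃ (ax : ℕ) (ay : Fin N → ℕ) (κ : ℕ), 0 < ax ∧ (∀ j, 0 < ay j) ∧ 0 < κ ∧
      (ax : ℝ) * ((r : ℝ) - 2) = (κ : ℝ) * ((r : ℝ) - 1) ∧
      ∀ j, (ay j : ℝ) * (1 - (b j : ℝ)) = (κ : ℝ) := by
  have h1 : ∀ j, ∃ u v : ℕ, 0 < u ∧ 0 < v ∧ (v : ℝ) * (1 - (b j : ℝ)) = u := by
    intro j
    have h2 : 0 < 1 - b j := by linarith [(hb j).2]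
    refine ⟨(1 - b j).num.toNat, (1 - b j).den, ?_, (1 - b j).pos, ?_⟩
    · have h3 : 0 < (1 - b j).num := Rat.num_pos.2 h2
      omega
    · have h3 : 0 < (1 - b j).num := Rat.num_pos.2 h2
      have h4 : ((1 - b j).num.toNat : ℤ) = (1 - b j).num := Int.toNat_of_nonneg h3.le
      have h5 : ((1 - b j).den : ℚ) * (1 - b j) = ((1 - b j).num.toNat : ℚ) := by
        rw [Rat.den_mul_eq_num]
        exact_mod_cast h4.symm
      have h6 := congrArg (fun q : ℚ => (q : ℝ)) h5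
      push_cast at h6
      exact h6
  choose u v hu hv huv using h1
  have hP : 0 < ∏ j, u j := Finset.prod_pos fun j _ => hu j
  have hr2 : ((r - 2 : ℕ) : ℝ) = (r : ℝ) - 2 := by
    rw [Nat.cast_sub (by omega)]
    norm_num
  have hr1 : ((r - 1 : ℕ) : ℝ) = (r : ℝ) - 1 := by
    rw [Nat.cast_sub (by omega)]
    norm_num
  refine ⟨(r - 1) * ∏ j, u j, fun j => (r - 2) * (v j * ∏ i ∈ Finset.univ.erase j, u i),
    (r - 2) * ∏ j, u j, ?_, ?_, ?_, ?_, ?_⟩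
  · exact Nat.mul_pos (by omega) hP
  · intro j
    exact Nat.mul_pos (by omega) (Nat.mul_pos (hv j) (Finset.prod_pos fun i _ => hu i))
  · exact Nat.mul_pos (by omega) hP
  · push_cast [hr1, hr2]
    ring
  · intro j
    have h2 : (u j : ℝ) * ∏ i ∈ Finset.univ.erase j, (u i : ℝ) = ∏ i, (u i : ℝ) :=
      Finset.mul_prod_erase _ (fun i => (u i : ℝ)) (Finset.mem_univ j)
    push_cast [hr2]
    rw [← h2, ← huv j]
    ring

theorem weight_iff {r N : ℕ} (hr : 3 ≤ r) (b : Fin N → ℚ) (hb : ∀ j, 0 ≤ b j ∧ b j < 1)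
    (ax : ℕ) (ay : Fin N → ℕ) (κ : ℝ) (hκ : 0 < κ)
    (hκx : (ax : ℝ) * ((r : ℝ) - 2) = κ * ((r : ℝ) - 1))
    (hκy : ∀ j, (ay j : ℝ) * (1 - (b j : ℝ)) = κ) (s : ℕ × (Fin N → ℕ))
    (h : 2 * ((r : ℝ) - 1) ≤ ((r : ℝ) - 1) * s.1 +
      ((r : ℝ) - 2) * ∑ j, (s.2 j : ℝ) / (1 - (b j : ℝ))) : 2 * ax ≤ L1 ax ay s := by
  have hr3 : (3 : ℝ) ≤ r := by exact_mod_cast hr
  have hb1 : ∀ j, (0 : ℝ) < 1 - (b j : ℝ) := fun j => by
    have : ((b j : ℚ) : ℝ) < 1 := by exact_mod_cast (hb j).2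
    linarith
  have h1 : (((2 * ax : ℕ)) : ℝ) * ((r : ℝ) - 2) ≤ ((L1 ax ay s : ℕ) : ℝ) * ((r : ℝ) - 2) := by
    have h2 : ∀ j, (ay j : ℝ) * (s.2 j : ℝ) = κ * ((s.2 j : ℝ) / (1 - (b j : ℝ))) := fun j => by
      have h3 := (hb1 j).ne'
      rw [← hκy j]
      field_simp
    have h4 : ((L1 ax ay s : ℕ) : ℝ) = (ax : ℝ) * s.1 + ∑ j, (ay j : ℝ) * (s.2 j : ℝ) := by
      unfold L1
      push_cast
      rfl
    rw [h4, Finset.sum_congr rfl fun j _ => h2 j, ← Finset.mul_sum]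
    have h5 := mul_le_mul_of_nonneg_left h hκ.le
    push_cast
    have h6 : 2 * (ax : ℝ) * ((r : ℝ) - 2) = κ * (2 * ((r : ℝ) - 1)) := by
      linear_combination 2 * hκx
    rw [h6]
    refine h5.trans (le_of_eq ?_)
    linear_combination -(s.1 : ℝ) * hκx
  have h7 := le_of_mul_le_mul_right h1 (by linarith)
  exact_mod_cast h7

theorem value {r N : ℕ} (hr : 3 ≤ r) (b : Fin N → ℚ) (hb : ∀ j, 0 ≤ b j ∧ b j < 1)
    (ax : ℕ) (ay : Fin N → ℕ) (hax : 0 < ax) (hay : ∀ j, 0 < ay j) (κ : ℝ) (hκ : 0 < κ)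
    (hκx : (ax : ℝ) * ((r : ℝ) - 2) = κ * ((r : ℝ) - 1))
    (hκy : ∀ j, (ay j : ℝ) * (1 - (b j : ℝ)) = κ) :
    (κ * ((r - 1 + N : ℕ) : ℝ)) ^ (r - 1 + N) * ((r - 1 + N).factorial : ℝ) * c0 r ax ay =
      2 * ((r - 1 + N : ℕ) : ℝ) ^ (r - 1 + N) * (((r : ℝ) - 2) / ((r : ℝ) - 1)) ^ (r - 1) *
        ∏ j, (1 - (b j : ℝ)) := by
  have hr3 : (3 : ℝ) ≤ r := by exact_mod_cast hr
  have hax' : (0 : ℝ) < ax := by exact_mod_cast hax
  have hay' : ∀ j, (0 : ℝ) < ay j := fun j => by exact_mod_cast hay j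
  have hf : (0 : ℝ) < ((r - 1 + N).factorial : ℝ) := by exact_mod_cast Nat.factorial_pos _
  have hpr : (0 : ℝ) < ∏ j, (ay j : ℝ) := Finset.prod_pos fun j _ => hay' j
  have h1 : ((r : ℝ) - 2) / ((r : ℝ) - 1) = κ / ax := by
    rw [div_eq_div_iff (by linarith) hax'.ne']
    linear_combination hκx
  have h2 : ∏ j, (1 - (b j : ℝ)) = κ ^ N / ∏ j, (ay j : ℝ) := by
    have h3 : ∀ j, 1 - (b j : ℝ) = κ / (ay j : ℝ) := fun j => by
      rw [eq_div_iff (hay' j).ne', mul_comm]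
      exact hκy j
    rw [Finset.prod_congr rfl fun j _ => h3 j, Finset.prod_div_distrib, Finset.prod_const,
      Finset.card_univ, Fintype.card_fin]
  rw [h1, h2]
  unfold c0
  rw [mul_pow, div_pow, pow_add κ (r - 1) N]
  field_simp

end DP
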