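import Pool.Agent.Lib.MP_9e8926_ag_DP.LowF
import Pool.Agent.Lib.MP_9e8926_ag_DP.UpF
import Pool.Agent.Lib.MP_9e8926_ag_DP.VolU
import Pool.Agent.Lib.MP_9e8926_ag_DP.WtX
import Pool.Agent.Lib.MP_9e8926_ag_FV.ResF

/-!
# The main theorem
-/

set_option autoImplicit false

noncomputable section

namespace DP

open MvPolynomial

private theorem map_ff {A B : Type*} [CommRing A] [CommRing B] (θ : A →+* B) {r N : ℕ}
    (a : Fin r → A) (g : MvPolynomial (Fin r ⊕ Fin N) A) :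
    map θ (ff a g) = ff (fun i => θ (a i)) (map θ g) := by
  simp only [ff, map_add, map_sum, map_mul, map_pow, map_C, map_X]

private theorem hyp_map {A B : Type*} [CommRing A] [CommRing B] (θ : A →+* B) {r N : ℕ}
    {ax : ℕ} {ay : Fin N → ℕ} {g : MvPolynomial (Fin r ⊕ Fin N) A} (hg : Hyp ax ay g) :
    Hyp ax ay (map θ g) := fun m hm => hg m (support_map_subset θ g hm)

/-- Bernoulli's inequality for the error term. -/
private theorem bern (V : ℝ) (hV : 0 ≤ V) (n p : ℕ) (hp : 5 ≤ p) :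
    V - V * (1 - 2 / ((p : ℝ) - 1)) ^ n ≤ 4 * n * V / p := by
  have hp' : (5 : ℝ) ≤ p := by exact_mod_cast hp
  have h1 : -2 ≤ -(2 / ((p : ℝ) - 1)) := by
    have : 2 / ((p : ℝ) - 1) ≤ 2 := by
      rw [div_le_iff₀ (by linarith)]
      linarith
    linarith
  have h2 := one_add_mul_le_pow h1 n
  have h3 : 2 / ((p : ℝ) - 1) ≤ 4 / p := by
    rw [div_le_div_iff₀ (by linarith) (by linarith)]
    linarith
  have h4 : (n : ℝ) * (2 / ((p : ℝ) - 1)) ≤ n * (4 / p) :=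
    mul_le_mul_of_nonneg_left h3 (Nat.cast_nonneg n)
  have h5 : 1 - (n : ℝ) * (4 / p) ≤ (1 - 2 / ((p : ℝ) - 1)) ^ n := by
    have : (1 - 2 / ((p : ℝ) - 1)) ^ n = (1 + -(2 / ((p : ℝ) - 1))) ^ n := by ring
    rw [this]
    linarith
  have h6 := mul_le_mul_of_nonneg_left h5 hV
  have h7 : 4 * n * V / p = V * (n * (4 / p)) := by ring
  rw [h7]
  linarith

theorem main (A : Type) [CommRing A] [IsDomain A] [Algebra.FiniteType ℤ A] (ι : A →+* ℂ)
    (hι : Function.Injective ι) {r N : ℕ} (hr : 3 ≤ r) (a : Fin r → A) (ha : ∀ i, a i ≠ 0)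
    (b : Fin N → ℚ) (hb : ∀ j, 0 ≤ b j ∧ b j < 1) (g : MvPolynomial (Fin r ⊕ Fin N) A)
    (hg : ∀ m ∈ g.support, md m ≠ (2, 0) ∧ 2 * ((r : ℝ) - 1) ≤ ((r : ℝ) - 1) * (md m).1 +
      ((r : ℝ) - 2) * ∑ j, ((md m).2 j : ℝ) / (1 - (b j : ℝ))) :
    volhat (r - 1 + N) (map ι (ff a g)) b ≤
      2 * ((r - 1 + N : ℕ) : ℝ) ^ (r - 1 + N) * (((r : ℝ) - 2) / ((r : ℝ) - 1)) ^ (r - 1) *
        ∏ j, (1 - (b j : ℝ)) ∧
    ∃ C : ℝ, ∃ c : A, c ≠ 0 ∧ ∀ μ : Ideal A, μ.IsMaximal → c ∉ μ → ∀ p : ℕ, CharP (A ⧸ μ) p →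
      |Fvol p (r - 1 + N) (map (Ideal.Quotient.mk μ) (ff a g)) b -
        2 * ((r - 1 + N : ℕ) : ℝ) ^ (r - 1 + N) * (((r : ℝ) - 2) / ((r : ℝ) - 1)) ^ (r - 1) *
          ∏ j, (1 - (b j : ℝ))| ≤ C / p := by
  obtain ⟨ax, ay, κ, hax, hay, hκ, hκx, hκy⟩ := exists_weights hr b hb
  have hκ' : (0 : ℝ) < κ := by exact_mod_cast hκ
  have hH : Hyp ax ay g := fun m hm =>
    ⟨weight_iff hr b hb ax ay κ hκ' hκx hκy _ (hg m hm).2, (hg m hm).1⟩
  have hval := value hr b hb ax ay hax hay κ hκ' hκx hκy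
  set V := 2 * ((r - 1 + N : ℕ) : ℝ) ^ (r - 1 + N) *
    (((r : ℝ) - 2) / ((r : ℝ) - 1)) ^ (r - 1) * ∏ j, (1 - (b j : ℝ)) with hV
  have hr' : (3 : ℝ) ≤ r := by exact_mod_cast hr
  have hV0 : 0 ≤ V := by
    rw [hV]
    refine mul_nonneg (mul_nonneg (by positivity) (pow_nonneg (div_nonneg ?_ ?_) _))
      (Finset.prod_nonneg fun j _ => ?_)
    · linarith
    · linarith
    · have : (b j : ℝ) < 1 := by exact_mod_cast (hb j).2
      linarith
  refine ⟨?_, 4 * ((r - 1 + N : ℕ) : ℝ) * V, 6 * ∏ i, a i, ?_, ?_⟩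
  · rw [map_ff, ← hval]
    exact volhat_up hr ax ay hax hay _
      (fun i => (map_ne_zero_iff ι hι).2 (ha i)) _ (hyp_map ι hH) b hb κ hκ' hκx hκy
  · have hc : CharZero A := by
      refine ⟨fun m n h => ?_⟩
      have h1 : ι (m : A) = ι (n : A) := by rw [h]
      rw [map_natCast, map_natCast] at h1
      exact_mod_cast h1
    refine mul_ne_zero (by norm_num) (Finset.prod_ne_zero_iff.2 fun i _ => ha i)
  · intro μ hμ hcμ p hp
    let _ : Field (A ⧸ μ) := Ideal.Quotient.field μ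
    have : Finite (A ⧸ μ) := FV.finite_of_surj A (A ⧸ μ) (Ideal.Quotient.mk μ)
      Ideal.Quotient.mk_surjective
    have hpr : Fact p.Prime := by
      have := hp
      exact ⟨CharP.char_is_prime (A ⧸ μ) p⟩
    have h6 : (6 : A ⧸ μ) ≠ 0 ∧ ∀ i, Ideal.Quotient.mk μ (a i) ≠ 0 := by
      have h1 : Ideal.Quotient.mk μ (6 * ∏ i, a i) ≠ 0 := fun h =>
        hcμ (Ideal.Quotient.eq_zero_iff_mem.1 h)
      rw [map_mul, map_prod] at h1
      refine ⟨?_, fun i => ?_⟩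
      · have h2 := left_ne_zero_of_mul h1
        rwa [map_ofNat] at h2
      · exact Finset.prod_ne_zero_iff.1 (right_ne_zero_of_mul h1) i (Finset.mem_univ i)
    have hp5 : 5 ≤ p := by
      have h2 : p ≠ 2 := by
        rintro rfl
        apply h6.1
        have h3 : ((2 : ℕ) : A ⧸ μ) = 0 := CharP.cast_eq_zero _ 2
        have h4 : (6 : A ⧸ μ) = 3 * ((2 : ℕ) : A ⧸ μ) := by
          push_cast
          norm_num
        rw [h4, h3, mul_zero]
      have h3 : p ≠ 3 := by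
        rintro rfl
        apply h6.1
        have h3 : ((3 : ℕ) : A ⧸ μ) = 0 := CharP.cast_eq_zero _ 3
        have h4 : (6 : A ⧸ μ) = 2 * ((3 : ℕ) : A ⧸ μ) := by
          push_cast
          norm_num
        rw [h4, h3, mul_zero]
      have h4 : p ≠ 4 := by
        rintro rfl
        exact absurd hpr.out (by decide)
      have h5 := hpr.out.two_le
      omega
    rw [map_ff]
    have h1 := fvol_low p hp5 hr ax ay hax hay (fun i => Ideal.Quotient.mk μ (a i)) h6.2 _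
      (hyp_map (Ideal.Quotient.mk μ) hH) b hb κ hκ' hκx hκy
    have h2 := fvol_up p hr ax ay hax hay (fun i => Ideal.Quotient.mk μ (a i)) h6.2 _
      (hyp_map (Ideal.Quotient.mk μ) hH) b hb κ hκ' hκx hκy
    rw [hval] at h1 h2
    rw [abs_sub_comm, abs_of_nonneg (by linarith)]
    have h3 := bern V hV0 (r - 1 + N) p hp5
    linarith

end DP
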