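import Pool.Agent.Lib.MP_9e8926_ag_DP.Frb

/-!
# A coefficient of a power of the split quadratic form

`Qs iv = 2 ∑_i x_i y_i + ∑_e z_e²` (variables `x_i = inl (inl i)`, `y_i = inl (inr (inl i))`,
`z_e = inl (inr (inr e))`).  For `∑ c_i + ∑ c'_e = n` the coefficient of
`∏ (x_i y_i)^{c_i} ∏ z_e^{2 c'_e}` in `(Qs iv)^n` is `2^{∑ c_i} n!/(∏ c_i! ∏ c'_e!)`
(`Finset.sum_pow_of_commute` / `Finset.sum_pow` with `Nat.multinomial`; the monomials
`∏ (x_i y_i)^{c_i} ∏ z_e^{2 c'_e}` are different for different `(c, c')`; alternative: induction).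
For `n = p - 1` it is nonzero in characteristic `p` (`Nat.multinomial` divides `(p-1)!`:
`Nat.multinomial_spec`; `p ∤ (p-1)!`; `2 ≠ 0` for `p ≠ 2`).

`nv1`: multiply by `∏ (x_i y_i)^{p-1-c_i} ∏ z_e^{p-1-2c'_e} ∏ y_j^{p-1}`: the coefficient of the
monomial all of whose exponents are `p - 1` is nonzero, so the product is not in `J p` (`mem_J`).
-/

set_option autoImplicit false

noncomputable section

namespace DP

open MvPolynomial

variable {K : Type*} [Field K] (p : ℕ) [Fact p.Prime] [CharP K p]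

/-- the exponents of the monomials `x_i y_i` and `z_e^2` -/
private def NVa_mon (M ε N : ℕ) : Fin M ⊕ Fin ε → (Sg M ε ⊕ Fin N →₀ ℕ) :=
  Sum.elim (fun i => Finsupp.single (Sum.inl (Sum.inl i)) 1 +
      Finsupp.single (Sum.inl (Sum.inr (Sum.inl i))) 1)
    fun e => Finsupp.single (Sum.inl (Sum.inr (Sum.inr e))) 2

/-- the coefficients -/
private def NVa_co (K : Type*) [Field K] (M ε : ℕ) : Fin M ⊕ Fin ε → K :=
  Sum.elim (fun _ => 2) fun _ => 1

private theorem NVa_Q (M ε N : ℕ) : (Qs K iv : MvPolynomial (Sg M ε ⊕ Fin N) K) =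
    ∑ t, monomial (NVa_mon M ε N t) (NVa_co K M ε t) := by
  unfold Qs
  rw [Fintype.sum_sum_type, Fintype.sum_sum_type, Fintype.sum_sum_type, ← add_assoc,
    ← Finset.sum_add_distrib]
  congr 1
  · refine Finset.sum_congr rfl fun i _ => ?_
    show X (Sum.inl (Sum.inl i)) * X (Sum.inl (Sum.inr (Sum.inl i))) +
      X (Sum.inl (Sum.inr (Sum.inl i))) * X (Sum.inl (Sum.inl i)) =
      monomial (Finsupp.single (Sum.inl (Sum.inl i)) 1 +
        Finsupp.single (Sum.inl (Sum.inr (Sum.inl i))) 1) (2 : K)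
    rw [mul_comm (X (Sum.inl (Sum.inr (Sum.inl i)))), X, X, monomial_mul, one_mul, ← map_add]
    norm_num
  · refine Finset.sum_congr rfl fun i _ => ?_
    show X (Sum.inl (Sum.inr (Sum.inr i))) * X (Sum.inl (Sum.inr (Sum.inr i))) =
      monomial (Finsupp.single (Sum.inl (Sum.inr (Sum.inr i))) 2) (1 : K)
    rw [← pow_two, X_pow_eq_monomial]

private theorem NVa_prod {T σ : Type*} (s : Finset T) (m : T → σ →₀ ℕ) (a : T → K) :
    ∏ t ∈ s, monomial (m t) (a t) = monomial (∑ t ∈ s, m t) (∏ t ∈ s, a t) := by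
  classical
  induction s using Finset.induction with
  | empty =>
    rw [Finset.prod_empty, Finset.sum_empty, Finset.prod_empty]
    rfl
  | insert t s ht ih =>
    rw [Finset.prod_insert ht, Finset.sum_insert ht, Finset.prod_insert ht, ih, monomial_mul]

private theorem NVa_e1 (M ε N : ℕ) (k : Fin M ⊕ Fin ε → ℕ) (i : Fin M) :
    (∑ t, k t • NVa_mon M ε N t) (Sum.inl (Sum.inl i)) = k (Sum.inl i) := by
  rw [Fintype.sum_sum_type, Finsupp.add_apply, Finsupp.finsetSum_apply, Finsupp.finsetSum_apply]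
  simp [NVa_mon, Finsupp.single_apply]

private theorem NVa_e2 (M ε N : ℕ) (k : Fin M ⊕ Fin ε → ℕ) (i : Fin M) :
    (∑ t, k t • NVa_mon M ε N t) (Sum.inl (Sum.inr (Sum.inl i))) = k (Sum.inl i) := by
  rw [Fintype.sum_sum_type, Finsupp.add_apply, Finsupp.finsetSum_apply, Finsupp.finsetSum_apply]
  simp [NVa_mon, Finsupp.single_apply]

private theorem NVa_e3 (M ε N : ℕ) (k : Fin M ⊕ Fin ε → ℕ) (e : Fin ε) :
    (∑ t, k t • NVa_mon M ε N t) (Sum.inl (Sum.inr (Sum.inr e))) = k (Sum.inr e) * 2 := by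
  rw [Fintype.sum_sum_type, Finsupp.add_apply, Finsupp.finsetSum_apply, Finsupp.finsetSum_apply]
  simp [NVa_mon, Finsupp.single_apply]

private theorem NVa_e4 (M ε N : ℕ) (k : Fin M ⊕ Fin ε → ℕ) (j : Fin N) :
    (∑ t, k t • NVa_mon M ε N t) (Sum.inr j) = 0 := by
  rw [Fintype.sum_sum_type, Finsupp.add_apply, Finsupp.finsetSum_apply, Finsupp.finsetSum_apply]
  simp [NVa_mon]

private theorem NVa_inj (M ε N : ℕ) {k k' : Fin M ⊕ Fin ε → ℕ}
    (h : ∑ t, k t • NVa_mon M ε N t = ∑ t, k' t • NVa_mon M ε N t) : k = k' := by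
  funext t
  rcases t with i | e
  · have h1 := NVa_e1 M ε N k i
    rw [h, NVa_e1] at h1
    exact h1.symm
  · have h1 := NVa_e3 M ε N k e
    rw [h, NVa_e3] at h1
    omega

private theorem NVa_coeff (M ε N n : ℕ) (k : Fin M ⊕ Fin ε → ℕ) (hk : ∑ t, k t = n) :
    coeff (∑ t, k t • NVa_mon M ε N t) ((Qs K iv : MvPolynomial (Sg M ε ⊕ Fin N) K) ^ n) =
      (Nat.multinomial Finset.univ k : K) * ∏ t, NVa_co K M ε t ^ k t := by
  classical
  rw [NVa_Q, Finset.sum_pow_eq_sum_piAntidiag, coeff_sum, Finset.sum_eq_single k]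
  · simp only [monomial_pow]
    rw [NVa_prod, ← C_eq_coe_nat, coeff_C_mul, coeff_monomial, if_pos rfl]
  · intro k' _ hk'
    simp only [monomial_pow]
    rw [NVa_prod, ← C_eq_coe_nat, coeff_C_mul, coeff_monomial, if_neg, mul_zero]
    exact fun h => hk' (NVa_inj M ε N h)
  · intro h
    exfalso
    apply h
    rw [Finset.mem_piAntidiag]
    exact ⟨hk, fun _ _ => Finset.mem_univ _⟩

include p in
private theorem NVa_ne (hp : 3 ≤ p) (M ε : ℕ) (k : Fin M ⊕ Fin ε → ℕ) (hk : ∑ t, k t = p - 1) :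
    (Nat.multinomial Finset.univ k : K) * ∏ t, NVa_co K M ε t ^ k t ≠ 0 := by
  have hpp : p.Prime := Fact.out
  refine mul_ne_zero ?_ (Finset.prod_ne_zero_iff.2 fun t _ => pow_ne_zero _ ?_)
  · intro h
    rw [CharP.cast_eq_zero_iff K p] at h
    have h1 := Nat.multinomial_spec Finset.univ k
    rw [hk] at h1
    have h2 : p ∣ (p - 1).factorial := by
      rw [← h1]
      exact Dvd.dvd.mul_left h _
    rw [hpp.dvd_factorial] at h2
    omega
  · rcases t with i | e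
    · show (2 : K) ≠ 0
      intro h
      have h1 : ((2 : ℕ) : K) = 0 := by exact_mod_cast h
      rw [CharP.cast_eq_zero_iff K p] at h1
      have := Nat.le_of_dvd (by norm_num) h1
      omega
    · show (1 : K) ≠ 0
      exact one_ne_zero

/-- the exponents of the second factor -/
private def NVa_om (M ε N : ℕ) (a : Fin M → ℕ) (b : Fin ε → ℕ) (q : ℕ) :
    Sg M ε ⊕ Fin N →₀ ℕ :=
  ∑ i, a i • (Finsupp.single (Sum.inl (Sum.inl i)) 1 +
      Finsupp.single (Sum.inl (Sum.inr (Sum.inl i))) 1) +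
    ∑ e, Finsupp.single (Sum.inl (Sum.inr (Sum.inr e))) (b e) +
    ∑ j, Finsupp.single (Sum.inr j) q

private theorem NVa_o1 (M ε N : ℕ) (a : Fin M → ℕ) (b : Fin ε → ℕ) (q : ℕ) (i : Fin M) :
    NVa_om M ε N a b q (Sum.inl (Sum.inl i)) = a i := by
  unfold NVa_om
  rw [Finsupp.add_apply, Finsupp.add_apply, Finsupp.finsetSum_apply,
    Finsupp.finsetSum_apply, Finsupp.finsetSum_apply]
  simp [Finsupp.single_apply]

private theorem NVa_o2 (M ε N : ℕ) (a : Fin M → ℕ) (b : Fin ε → ℕ) (q : ℕ) (i : Fin M) :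
    NVa_om M ε N a b q (Sum.inl (Sum.inr (Sum.inl i))) = a i := by
  unfold NVa_om
  rw [Finsupp.add_apply, Finsupp.add_apply, Finsupp.finsetSum_apply,
    Finsupp.finsetSum_apply, Finsupp.finsetSum_apply]
  simp [Finsupp.single_apply]

private theorem NVa_o3 (M ε N : ℕ) (a : Fin M → ℕ) (b : Fin ε → ℕ) (q : ℕ) (e : Fin ε) :
    NVa_om M ε N a b q (Sum.inl (Sum.inr (Sum.inr e))) = b e := by
  unfold NVa_om
  rw [Finsupp.add_apply, Finsupp.add_apply, Finsupp.finsetSum_apply,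
    Finsupp.finsetSum_apply, Finsupp.finsetSum_apply]
  simp [Finsupp.single_apply]

private theorem NVa_o4 (M ε N : ℕ) (a : Fin M → ℕ) (b : Fin ε → ℕ) (q : ℕ) (j : Fin N) :
    NVa_om M ε N a b q (Sum.inr j) = q := by
  unfold NVa_om
  rw [Finsupp.add_apply, Finsupp.add_apply, Finsupp.finsetSum_apply,
    Finsupp.finsetSum_apply, Finsupp.finsetSum_apply]
  simp [Finsupp.single_apply]

private theorem NVa_W (M ε N : ℕ) (a : Fin M → ℕ) (b : Fin ε → ℕ) (q : ℕ) :
    ((∏ i : Fin M, (X (Sum.inl (Sum.inl i)) *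
        X (Sum.inl (Sum.inr (Sum.inl i)))) ^ a i) *
      (∏ i : Fin ε, X (Sum.inl (Sum.inr (Sum.inr i))) ^ b i) *
      ∏ j : Fin N, X (Sum.inr j) ^ q : MvPolynomial (Sg M ε ⊕ Fin N) K) =
      monomial (NVa_om M ε N a b q) 1 := by
  have h1 : ∀ i : Fin M, ((X (Sum.inl (Sum.inl i)) *
      X (Sum.inl (Sum.inr (Sum.inl i)))) ^ a i : MvPolynomial (Sg M ε ⊕ Fin N) K) =
      monomial (a i • (Finsupp.single (Sum.inl (Sum.inl i)) 1 +
      Finsupp.single (Sum.inl (Sum.inr (Sum.inl i))) 1)) 1 := by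
    intro i
    rw [X, X, monomial_mul, monomial_pow, one_mul, one_pow]
  simp only [h1, X_pow_eq_monomial]
  rw [NVa_prod, NVa_prod, NVa_prod, monomial_mul, monomial_mul]
  simp only [Finset.prod_const_one, mul_one]
  rfl

theorem nv1 (hp : 3 ≤ p) (M ε N : ℕ) (c : Fin M → ℕ) (c' : Fin ε → ℕ) (hc : ∀ i, c i ≤ p - 1)
    (hc' : ∀ i, 2 * c' i ≤ p - 1) (hsum : ∑ i, c i + ∑ i, c' i = p - 1) :
    (Qs K iv ^ (p - 1) * ((∏ i : Fin M, (X (Sum.inl (Sum.inl i)) *
        X (Sum.inl (Sum.inr (Sum.inl i)))) ^ (p - 1 - c i)) *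
      (∏ i : Fin ε, X (Sum.inl (Sum.inr (Sum.inr i))) ^ (p - 1 - 2 * c' i)) *
      ∏ j : Fin N, X (Sum.inr j) ^ (p - 1)) : MvPolynomial (Sg M ε ⊕ Fin N) K) ∉
      J (Sg M ε ⊕ Fin N) K p := by
  have hpp : p.Prime := Fact.out
  intro hmem
  rw [NVa_W, mem_J] at hmem
  set k : Fin M ⊕ Fin ε → ℕ := Sum.elim c c' with hk
  set ω := NVa_om M ε N (fun i => p - 1 - c i) (fun i => p - 1 - 2 * c' i) (p - 1) with hω
  have hksum : ∑ t, k t = p - 1 := by
    rw [Fintype.sum_sum_type]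
    exact hsum
  have hco : coeff (∑ t, k t • NVa_mon M ε N t + ω)
      ((Qs K iv : MvPolynomial (Sg M ε ⊕ Fin N) K) ^ (p - 1) * monomial ω 1) ≠ 0 := by
    rw [coeff_mul_monomial, mul_one, NVa_coeff M ε N (p - 1) k hksum]
    exact NVa_ne p hp M ε k hksum
  obtain ⟨v, hv⟩ := hmem _ (mem_support_iff.2 hco)
  have hlt : (∑ t, k t • NVa_mon M ε N t + ω) v = p - 1 := by
    rw [Finsupp.add_apply]
    rcases v with (i | i | e) | j
    · rw [NVa_e1, hω, NVa_o1]
      have := hc i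
      show c i + (p - 1 - c i) = p - 1
      omega
    · rw [NVa_e2, hω, NVa_o2]
      have := hc i
      show c i + (p - 1 - c i) = p - 1
      omega
    · rw [NVa_e3, hω, NVa_o3]
      have := hc' e
      show c' e * 2 + (p - 1 - 2 * c' e) = p - 1
      omega
    · rw [NVa_e4, hω, NVa_o4]
      omega
  rw [hlt] at hv
  have := hpp.pos
  omega

end DP
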