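import Pool.Agent.Lib.MP_9e8926_ag_DP.Defs

/-!
# Auxiliary definitions
-/

set_option autoImplicit false

noncomputable section

namespace DP

open MvPolynomial

variable {σ τ : Type*}

/-! ## Split quadratic forms -/

/-- The quadratic form `∑ X_v X_{ι v}` in the first group of variables. -/
def Qs (k : Type*) [CommRing k] [Fintype σ] (ι : σ → σ) : MvPolynomial (σ ⊕ τ) k :=
  ∑ v, X (Sum.inl v) * X (Sum.inl (ι v))

/-- The coordinates `x_i`, `y_i` (`i < M`) and `z_e` (`e < ε`). -/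
abbrev Sg (M ε : ℕ) : Type := Fin M ⊕ Fin M ⊕ Fin ε

/-- The involution exchanging `x_i` and `y_i`, so that `Qs iv = 2 ∑ x_i y_i + ∑ z_e^2`. -/
def iv {M ε : ℕ} : Sg M ε → Sg M ε :=
  Sum.elim (fun i => Sum.inr (Sum.inl i)) (Sum.elim (fun i => Sum.inl i) fun e => Sum.inr (Sum.inr e))

/-- The coordinates `x_i`, `y_i`. -/
def lv {M : ℕ} (ε : ℕ) : Fin M ⊕ Fin M → Sg M ε := Sum.elim Sum.inl fun i => Sum.inr (Sum.inl i)

theorem iv_iv {M ε : ℕ} (v : Sg M ε) : iv (iv v) = v := by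
  rcases v with i | i | e <;> rfl

/-- A substitution which is linear in the variables `σ`, fixes the variables `τ` and the quadratic
form `Qs ι`. -/
def IsGs {k : Type*} [Field k] [Fintype σ] (ι : σ → σ)
    (γ : MvPolynomial (σ ⊕ τ) k →ₐ[k] MvPolynomial (σ ⊕ τ) k) : Prop :=
  (∀ v, γ (X (Sum.inl v)) ∈ PP k (1, 0)) ∧ (∀ j, γ (X (Sum.inr j)) = X (Sum.inr j)) ∧
    γ (Qs k ι) = Qs k ι

/-- The isometries of `Qs ι`. -/
def Gs (k : Type*) [Field k] [Fintype σ] (τ : Type*) (ι : σ → σ) :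
    Set (MvPolynomial (σ ⊕ τ) k →ₐ[k] MvPolynomial (σ ⊕ τ) k) :=
  {γ | IsGs ι γ ∧ ∃ γ', IsGs ι γ' ∧ ∀ u, γ' (γ u) = u}

/-- The classes modulo `Q` of the polynomials of bidegree `s`. -/
def VV {k : Type*} [Field k] [Fintype σ] (Q : MvPolynomial (σ ⊕ τ) k) (s : ℕ × (τ → ℕ)) :
    Submodule k (Rg Q) :=
  (PP k s).map (Ideal.Quotient.mkₐ k (Ideal.span {Q})).toLinearMap

/-- The polynomials `u` with `Q^{q-1} Y_q u ∈ J q`. -/
def jq {k : Type*} [Field k] [Fintype τ] (Q : MvPolynomial (σ ⊕ τ) k) (b : τ → ℚ) (q : ℕ) :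
    Ideal (MvPolynomial (σ ⊕ τ) k) where
  carrier := {u | Q ^ (q - 1) * Yq b q * u ∈ J (σ ⊕ τ) k q}
  zero_mem' := by simp
  add_mem' := by
    intro u v hu hv
    simp only [Set.mem_ofPred_eq] at hu hv ⊢
    rw [mul_add]
    exact Ideal.add_mem _ hu hv
  smul_mem' := by
    intro c u hu
    simp only [Set.mem_ofPred_eq, smul_eq_mul] at hu ⊢
    rw [mul_left_comm]
    exact Ideal.mul_mem_left _ _ hu

/-- The image of `jq` modulo `Q`. -/
def qq {k : Type*} [Field k] [Fintype τ] (Q : MvPolynomial (σ ⊕ τ) k) (b : τ → ℚ) (q : ℕ) :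
    Ideal (Rg Q) := (jq Q b q).map (Ideal.Quotient.mk (Ideal.span {Q}))

/-! ## Weights -/

/-- The ideal of the polynomials all of whose monomials have weight at least `C`. -/
def Wt (k : Type*) [CommRing k] [Fintype σ] [Fintype τ] (ax : ℕ) (ay : τ → ℕ) (C : ℕ) :
    Ideal (MvPolynomial (σ ⊕ τ) k) where
  carrier := {u | ∀ m ∈ u.support, C ≤ L1 ax ay (md m)}
  zero_mem' := by simp
  add_mem' := by
    classical
    intro a b ha hb m hm
    rcases Finset.mem_union.1 (support_add hm) with h | h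
    · exact ha m h
    · exact hb m h
  smul_mem' := by
    classical
    intro c u hu m hm
    rw [smul_eq_mul] at hm
    obtain ⟨m1, -, m2, hm2, rfl⟩ := Finset.mem_add.1 (support_mul c u hm)
    refine (hu m2 hm2).trans ?_
    simp only [L1, md, Finsupp.coe_add, Pi.add_apply, Finset.sum_add_distrib, mul_add]
    omega

/-- The bidegrees of weight less than `W`. -/
def FW {N : ℕ} (ax : ℕ) (ay : Fin N → ℕ) (W : ℕ) : Finset (ℕ × (Fin N → ℕ)) :=
  (Finset.range W ×ˢ Fintype.piFinset fun _ => Finset.range W).filter fun s => L1 ax ay s < W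

/-- `∑ hh r d` over the bidegrees `(d, β)` of weight less than `W`. -/
def S0 (r : ℕ) {N : ℕ} (ax : ℕ) (ay : Fin N → ℕ) (W : ℕ) : ℕ := ∑ s ∈ FW ax ay W, hh r s.1

/-- `∑ d hh r d` over the bidegrees `(d, β)` of weight less than `W`. -/
def Sx (r : ℕ) {N : ℕ} (ax : ℕ) (ay : Fin N → ℕ) (W : ℕ) : ℕ :=
  ∑ s ∈ FW ax ay W, s.1 * hh r s.1

/-- `∑ β_j hh r d` over the bidegrees `(d, β)` of weight less than `W`. -/
def Sj (r : ℕ) {N : ℕ} (ax : ℕ) (ay : Fin N → ℕ) (W : ℕ) (j : Fin N) : ℕ :=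
  ∑ s ∈ FW ax ay W, s.2 j * hh r s.1

theorem mem_FW {N : ℕ} {ax : ℕ} {ay : Fin N → ℕ} (hax : 0 < ax) (hay : ∀ j, 0 < ay j) {W : ℕ}
    {s : ℕ × (Fin N → ℕ)} : s ∈ FW ax ay W ↔ L1 ax ay s < W := by
  rw [FW, Finset.mem_filter, Finset.mem_product, Fintype.mem_piFinset, Finset.mem_range]
  refine ⟨fun h => h.2, fun h => ⟨⟨?_, fun j => ?_⟩, h⟩⟩
  · refine lt_of_le_of_lt ?_ h
    refine (Nat.le_mul_of_pos_left _ hax).trans (Nat.le_add_right _ _)
  · rw [Finset.mem_range]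
    refine lt_of_le_of_lt ?_ h
    refine (Nat.le_mul_of_pos_left _ (hay j)).trans ?_
    refine (Finset.single_le_sum (f := fun j => ay j * s.2 j) (fun _ _ => Nat.zero_le _)
      (Finset.mem_univ j)).trans (Nat.le_add_left _ _)

/-! ## Weighted bases -/

/-- `B` is a basis of the subspace `V`. -/
def IsBas {K A : Type*} [Field K] [AddCommGroup A] [Module K A] (V : Submodule K A) {D : ℕ}
    (B : Fin D → A) : Prop :=
  LinearIndependent K B ∧ Submodule.span K (Set.range B) = V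

/-- The subspace generated by the basis vectors of weight at least `x`. -/
def lev (K : Type*) {A : Type*} [Field K] [AddCommGroup A] [Module K A] {D : ℕ} (B : Fin D → A)
    (w : Fin D → ℝ) (x : ℝ) : Submodule K A :=
  Submodule.span K (B '' {i | x ≤ w i})

/-! ## Lattice points in simplices -/

/-- The vectors `γ` of natural numbers with `∑ a_v γ_v < W` and `γ_v < W`. -/
def sx {υ : Type*} [Fintype υ] (a : υ → ℕ) (W : ℕ) : Finset (υ → ℕ) := by
  classical exact (Fintype.piFinset fun _ => Finset.range W).filter fun γ => ∑ v, a v * γ v < W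

end DP
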