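import Pool.Agent.Lib.MP_9e8926_ag_DP.RedA
import Pool.Agent.Lib.MP_9e8926_ag_DP.Vdim

/-!
# Colength of the weight ideals in the coordinate ring of `f = 0`

For every `s` let `C s ≤ PP k s` be a complement of `{Q v}` (`v ∈ PP k s'`, `s = s' + (2,0)`), i.e. of
the kernel of `PP k s → VV Q s` (`exists_of_dvd`): `dim C s = dim VV Q s = hh r s.1` (`finrank_VV`).
Apply `red` with `S = ⊤` and `E = (∑_{s ∈ FW C} C s) + (f)`: for `u` with `Ge κ s u`, `L1 s < C`,
write `comp s u = c + Q v` with `c ∈ C s` and take `c + f v`: `comp s (f v) = Q v` (`comp_mul`).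
So `P/((f) + Wt C)` is spanned by the images of the `C s`, `s ∈ FW C`.
-/

set_option autoImplicit false

noncomputable section

namespace DP

open MvPolynomial

variable {σ : Type*} [Fintype σ] {N : ℕ} {k : Type*} [Field k]
  {Γ : Type*} [AddCommGroup Γ] [LinearOrder Γ] [IsOrderedAddMonoid Γ]
  (κ : ℕ × (Fin N → ℕ) →+ Γ)

omit κ in
/-- a complement of the multiples of `Q` in `PP k s`. -/
private theorem RedB_compl {r : ℕ} (hr : 3 ≤ r) (hcard : Fintype.card σ = r)
    (Q : MvPolynomial (σ ⊕ Fin N) k) (hQ : Q ∈ PP k (2, 0)) (hQ0 : Q ≠ 0)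
    (s : ℕ × (Fin N → ℕ)) :
    ∃ W : Submodule k (MvPolynomial (σ ⊕ Fin N) k), W ≤ PP k s ∧
      Module.finrank k W = hh r s.1 ∧ ∀ u ∈ PP k s, ∃ c ∈ W, Q ∣ u - c := by
  let φ : MvPolynomial (σ ⊕ Fin N) k →ₗ[k] Rg Q :=
    (Ideal.Quotient.mkₐ k (Ideal.span {Q})).toLinearMap
  let φs := φ.domRestrict (PP k s)
  obtain ⟨W, hW⟩ := Submodule.exists_isCompl (LinearMap.ker φs)
  refine ⟨W.map (PP k s).subtype, Submodule.map_subtype_le _ _, ?_, ?_⟩
  · have h1 : Module.finrank k (W.map (PP k s).subtype) = Module.finrank k W :=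
      LinearEquiv.finrank_eq (Submodule.equivMapOfInjective _ (PP k s).injective_subtype W).symm
    have h2 : Module.finrank k W = Module.finrank k (LinearMap.range φs) :=
      LinearEquiv.finrank_eq
        ((Submodule.quotientEquivOfIsCompl _ _ hW).symm.trans φs.quotKerEquivRange)
    have h3 : LinearMap.range φs = VV Q s := by
      rw [LinearMap.range_domRestrict]
      rfl
    rw [h1, h2, h3, finrank_VV hr hcard Q hQ hQ0 s]
  · intro u hu
    have h1 : (⟨u, hu⟩ : PP k s) ∈ LinearMap.ker φs ⊔ W := by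
      rw [hW.sup_eq_top]
      exact Submodule.mem_top
    obtain ⟨a, ha, c, hc, hac⟩ := Submodule.mem_sup.1 h1
    refine ⟨c.1, ⟨c, hc, rfl⟩, ?_⟩
    have h2 : u - c.1 = a.1 := by
      have h3 : a.1 + c.1 = u := congrArg Subtype.val hac
      rw [← h3, add_sub_cancel_right]
    rw [h2, ← Ideal.mem_span_singleton, ← Ideal.Quotient.eq_zero_iff_mem]
    exact ha

theorem finrank_Wt (hκ : Function.Injective κ) (ax : ℕ) (ay : Fin N → ℕ) (hax : 0 < ax)
    (hay : ∀ j, 0 < ay j) (hL : ∀ s s', L1 ax ay s < L1 ax ay s' → κ s < κ s') {r : ℕ}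
    (hr : 3 ≤ r) (hcard : Fintype.card σ = r) (f Q : MvPolynomial (σ ⊕ Fin N) k)
    (hQ : Q ∈ PP k (2, 0)) (hQ0 : Q ≠ 0) (hf1 : Ge κ (2, 0) f) (hf2 : comp (2, 0) f = Q) (C : ℕ) :
    Module.Finite k (MvPolynomial (σ ⊕ Fin N) k ⧸ (Ideal.span {f} ⊔ Wt k ax ay C)) ∧
    Module.finrank k (MvPolynomial (σ ⊕ Fin N) k ⧸ (Ideal.span {f} ⊔ Wt k ax ay C)) ≤
      S0 r ax ay C := by
  classical
  choose W hWle hWdim hWQ using RedB_compl (k := k) hr hcard Q hQ hQ0
  have hWfin : ∀ s, Module.Finite k (W s) := fun s => by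
    have := PP_finite (k := k) (σ := σ) s
    exact Submodule.finiteDimensional_of_le (hWle s)
  let F := FW ax ay C
  let T : Type _ := ∀ s : {s // s ∈ F}, W s.1
  let S : T →ₗ[k] MvPolynomial (σ ⊕ Fin N) k :=
    ∑ s : {s // s ∈ F}, (W s.1).subtype ∘ₗ LinearMap.proj s
  have hS : ∀ (s : {s // s ∈ F}) (c : W s.1), S (Pi.single s c) = c.1 := by
    intro s c
    have h1 : S (Pi.single s c) =
        ∑ s' : {s // s ∈ F}, ((Pi.single s c : T) s' : MvPolynomial (σ ⊕ Fin N) k) := by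
      rw [LinearMap.sum_apply]
      rfl
    rw [h1, Finset.sum_eq_single s]
    · rw [Pi.single_eq_same]
    · intro s' _ hs'
      rw [Pi.single_eq_of_ne hs']
      rfl
    · intro h
      exact absurd (Finset.mem_univ s) h
  let E : Submodule k (MvPolynomial (σ ⊕ Fin N) k) :=
    LinearMap.range S ⊔ (Ideal.span {f}).restrictScalars k
  have hred := red κ hκ ax ay hax hay hL ⊤ E C (fun s hs u _ hu => by
    obtain ⟨c, hc, hQc⟩ := hWQ s (comp s u) (comp_mem s u)
    have hcPP : c ∈ PP k s := hWle s hc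
    have hcE : c ∈ E := by
      refine Submodule.mem_sup_left ⟨Pi.single ⟨s, (mem_FW hax hay).2 hs⟩ ⟨c, hc⟩, ?_⟩
      exact hS ⟨s, (mem_FW hax hay).2 hs⟩ ⟨c, hc⟩
    have hGsub : ∀ a b : MvPolynomial (σ ⊕ Fin N) k, Ge κ s a → Ge κ s b → Ge κ s (a - b) := by
      intro a b ha hb m hm
      rcases Finset.mem_union.1 (support_sub _ a b hm) with h | h
      · exact ha m h
      · exact hb m h
    by_cases h0 : comp s u - c = 0
    · refine ⟨c, hcE, Submodule.mem_top, hGsub _ _ hu (ge_of_mem κ hcPP), ?_⟩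
      rw [map_sub, comp_of_mem hcPP, h0]
    · obtain ⟨s', w, rfl, hw, hw2⟩ := exists_of_dvd hQ ((PP k s).sub_mem (comp_mem s u) hcPP)
        hQc h0
      have h1 : Ge κ (s' + (2, 0)) (f * w) := by
        rw [add_comm]
        exact ge_mul κ hf1 (ge_of_mem κ hw)
      have h2 : comp (s' + (2, 0)) (f * w) = Q * w := by
        rw [add_comm, comp_mul κ hκ hf1 (ge_of_mem κ hw), hf2, comp_of_mem hw]
      refine ⟨c + f * w, E.add_mem hcE (Submodule.mem_sup_right ?_), Submodule.mem_top, ?_, ?_⟩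
      · exact Ideal.mul_mem_right _ _ (Ideal.mem_span_singleton_self f)
      · rw [← sub_sub]
        exact hGsub _ _ (hGsub _ _ hu (ge_of_mem κ hcPP)) h1
      · rw [map_sub, map_add, h2, comp_of_mem hcPP, ← hw2]
        ring)
  -- the surjection
  let ψ : T →ₗ[k] (MvPolynomial (σ ⊕ Fin N) k ⧸ (Ideal.span {f} ⊔ Wt k ax ay C)) :=
    (Ideal.Quotient.mkₐ k (Ideal.span {f} ⊔ Wt k ax ay C)).toLinearMap ∘ₗ S
  have hψ : Function.Surjective ψ := by
    intro x
    obtain ⟨u, rfl⟩ := Ideal.Quotient.mk_surjective x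
    obtain ⟨v, hv, huv⟩ := hred u Submodule.mem_top
    obtain ⟨_, ⟨t, rfl⟩, e, he, rfl⟩ := Submodule.mem_sup.1 hv
    refine ⟨t, ?_⟩
    change Ideal.Quotient.mk _ (S t) = Ideal.Quotient.mk _ u
    rw [eq_comm, Ideal.Quotient.eq]
    have h1 : u - S t = (u - (S t + e)) + e := by ring
    rw [h1]
    exact Ideal.add_mem _ (Ideal.mem_sup_right huv) (Ideal.mem_sup_left he)
  have hTfin : Module.Finite k T := Module.Finite.pi
  refine ⟨Module.Finite.of_surjective ψ hψ, ?_⟩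
  have h1 := LinearMap.finrank_range_le ψ
  rw [LinearMap.range_eq_top.2 hψ, finrank_top] at h1
  refine h1.trans (le_of_eq ?_)
  have h2 : Module.finrank k T = ∑ s : {s // s ∈ F}, Module.finrank k (W s.1) :=
    Module.finrank_pi_fintype k
  rw [h2]
  have h3 : ∑ s : {s // s ∈ F}, Module.finrank k (W s.1) = ∑ s : {s // s ∈ F}, hh r s.1.1 :=
    Finset.sum_congr rfl fun s _ => hWdim s.1
  rw [h3]
  exact Finset.sum_coe_sort F (fun s => hh r s.1)

end DP
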