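import Pool.Agent.Lib.MP_9e8926_ag_DP.Ext
import Pool.Agent.Lib.MP_9e8926_ag_DP.NV

/-!
# Forms killed by all Frobenius powers are multiples of the quadratic form

Suppose `¬ Q ∣ u`, `Q = Qs K iv`, `s = (d, β)`.  Let `x0 = lv ε l` for some `l` (`M ≥ 1`); there is
`v1 ≠ x0, iv x0` because `card (Sg M ε) ≥ 3`.  By `ext`, `X_{x0}^d y^β ∈ span {γ u : γ ∈ Gs}`; by
`jq_gs` all `γ u` are in `jq`, so `X_{x0}^d y^β ∈ jq Q b (p^e)` and its multiple
`∏_l X_{lv l}^d ∏ y^β` is, for all `e ≥ 1`.  But for large `e` this contradicts `nv` with `D = d`,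
`B = β`: `(2M+ε-2) - 2M/(p-1) > 0` for `p ≥ 5` and `1 - b_j > 0`.
-/

set_option autoImplicit false

noncomputable section

namespace DP

open MvPolynomial

theorem regL {K : Type*} [Field K] [Infinite K] [PerfectField K] (p : ℕ) [Fact p.Prime]
    [CharP K p] (hp : 5 ≤ p) (M ε N : ℕ) (hε : ε ≤ 1) (hr : 3 ≤ 2 * M + ε) (b : Fin N → ℚ)
    (hb : ∀ j, 0 ≤ b j ∧ b j < 1) (s : ℕ × (Fin N → ℕ)) (u : MvPolynomial (Sg M ε ⊕ Fin N) K)
    (hu : u ∈ PP K s) (h : ∀ e : ℕ, 1 ≤ e → u ∈ jq (Qs K iv) b (p ^ e)) : Qs K iv ∣ u := by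
  classical
  by_contra hQ
  obtain ⟨d, β⟩ := s
  have hM : 1 ≤ M := by omega
  have h2 : (2 : K) ≠ 0 := by
    intro h0
    have h1 : ((2 : ℕ) : K) = 0 := by exact_mod_cast h0
    rw [CharP.cast_eq_zero_iff K p] at h1
    have := Nat.le_of_dvd (by norm_num) h1
    omega
  obtain ⟨v1, hv1, hv2⟩ : ∃ v1 : Sg M ε, v1 ≠ lv ε (Sum.inl ⟨0, hM⟩) ∧
      v1 ≠ iv (lv ε (Sum.inl ⟨0, hM⟩)) := by
    rcases Nat.lt_or_ge 1 M with h1 | h1
    · refine ⟨Sum.inl ⟨1, h1⟩, ?_, ?_⟩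
      · intro h0
        have := congrArg Fin.val (Sum.inl.inj h0)
        simp at this
      · intro h0
        exact Sum.inl_ne_inr h0
    · refine ⟨Sum.inr (Sum.inr ⟨0, by omega⟩), ?_, ?_⟩
      · intro h0
        exact Sum.inr_ne_inl h0
      · intro h0
        exact Sum.inr_ne_inl (Sum.inr.inj h0)
  have hx0 : iv (lv ε (Sum.inl ⟨0, hM⟩) : Sg M ε) ≠ lv ε (Sum.inl ⟨0, hM⟩) :=
    fun h0 => Sum.inr_ne_inl h0
  have key := ext iv (fun v => iv_iv v) h2 (lv ε (Sum.inl ⟨0, hM⟩)) hx0 v1 hv1 hv2 d β u hu hQ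
  -- the monomial lies in all `jq`
  have hmon : ∀ e : ℕ, 1 ≤ e → (X (Sum.inl (lv ε (Sum.inl ⟨0, hM⟩))) ^ d *
      ∏ j, X (Sum.inr j) ^ β j : MvPolynomial (Sg M ε ⊕ Fin N) K) ∈ jq (Qs K iv) b (p ^ e) := by
    intro e he
    have hle : Submodule.span K {v | ∃ γ ∈ Gs K (Fin N) (iv : Sg M ε → Sg M ε), v = γ u} ≤
        (jq (Qs K iv) b (p ^ e)).restrictScalars K := by
      refine Submodule.span_le.2 ?_
      rintro v ⟨γ, hγ, rfl⟩
      exact jq_gs p iv γ hγ.1 b e (h e he)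
    exact hle key
  -- large exponents
  have hp1 : (1 : ℝ) < p := by
    have : (5 : ℝ) ≤ p := by exact_mod_cast hp
    linarith
  have hc1 : (0 : ℝ) < (2 * M + ε - 2 : ℝ) - 2 * M / (p - 1) := by
    have h5 : (5 : ℝ) ≤ p := by exact_mod_cast hp
    have hM0 : (0 : ℝ) ≤ M := Nat.cast_nonneg M
    have h3 : 2 * (M : ℝ) / (p - 1) ≤ M / 2 := by
      rw [div_le_div_iff₀ (by linarith) (by norm_num)]
      nlinarith
    rcases Nat.lt_or_ge 1 M with h1 | h1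
    · have h4 : (2 : ℝ) ≤ M := by exact_mod_cast h1
      have h6 : (0 : ℝ) ≤ ε := Nat.cast_nonneg ε
      linarith
    · have h4 : (1 : ℝ) ≤ M := by exact_mod_cast hM
      have h6 : (1 : ℝ) ≤ ε := by
        have : 1 ≤ ε := by omega
        exact_mod_cast this
      linarith
  have hlim : ∀ c : ℝ, 0 < c → Filter.Tendsto (fun e : ℕ => c * ((p : ℝ) ^ e - 1)) Filter.atTop
      Filter.atTop := by
    intro c hc
    refine Filter.Tendsto.const_mul_atTop hc ?_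
    have := Filter.tendsto_atTop_add_const_right Filter.atTop (-1 : ℝ)
      (tendsto_pow_atTop_atTop_of_one_lt hp1)
    simpa [sub_eq_add_neg] using this
  have hev : ∀ᶠ e : ℕ in Filter.atTop, (2 * (M : ℝ) * d ≤
      ((2 * M + ε - 2 : ℝ) - 2 * M / (p - 1)) * ((p : ℝ) ^ e - 1)) ∧
      (∀ j, (β j : ℝ) ≤ (1 - b j) * ((p : ℝ) ^ e - 1)) ∧ 1 ≤ e := by
    refine ((hlim _ hc1).eventually_ge_atTop _).and (Filter.Eventually.and ?_
      (Filter.eventually_ge_atTop 1))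
    refine Filter.eventually_all.2 fun j => ?_
    have hbj : (0 : ℝ) < 1 - (b j : ℝ) := by
      have : ((b j : ℚ) : ℝ) < ((1 : ℚ) : ℝ) := by exact_mod_cast (hb j).2
      simpa using this
    exact (hlim _ hbj).eventually_ge_atTop _
  obtain ⟨e, he1, he2, he3⟩ := hev.exists
  refine nv (K := K) p hp M ε N hε hr b hb e d β he1 he2 ?_
  have hsplit : (∏ l : Fin M ⊕ Fin M, X (Sum.inl (lv ε l)) ^ d :
      MvPolynomial (Sg M ε ⊕ Fin N) K) = X (Sum.inl (lv ε (Sum.inl ⟨0, hM⟩))) ^ d *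
      ∏ l ∈ Finset.univ.erase (Sum.inl ⟨0, hM⟩), X (Sum.inl (lv ε l)) ^ d :=
    (Finset.mul_prod_erase _ _ (Finset.mem_univ _)).symm
  have hfin : Qs K iv ^ (p ^ e - 1) * Yq b (p ^ e) * ((∏ l : Fin M ⊕ Fin M,
      X (Sum.inl (lv ε l)) ^ d) * ∏ j, X (Sum.inr j) ^ β j) =
      (∏ l ∈ Finset.univ.erase (Sum.inl ⟨0, hM⟩), X (Sum.inl (lv ε l)) ^ d) *
      (Qs K iv ^ (p ^ e - 1) * Yq b (p ^ e) * (X (Sum.inl (lv ε (Sum.inl ⟨0, hM⟩))) ^ d *
        ∏ j, X (Sum.inr j) ^ β j) : MvPolynomial (Sg M ε ⊕ Fin N) K) := by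
    rw [hsplit]
    ring
  rw [hfin]
  exact Ideal.mul_mem_left _ _ (hmon e he3)

end DP
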