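import Pool.Agent.Lib.MP_9e8926_ag_DP.BCa
import Pool.Agent.Lib.MP_9e8926_ag_DP.Lam
import Pool.Agent.Lib.MP_9e8926_ag_DP.Frb

/-!
# Transfer to the split form over the algebraic closure

`M = r / 2`, `ε = r % 2`, `K = AlgebraicClosure k`, `Φ = Λ ∘ map (algebraMap k K)`, `Λ` of
`exists_Lam` for the images of the `a i`, `g' = Λ (map g)`.
* `Hyp ax ay g'`: `map g` has the same bidegrees as `g`; decompose `map g` into its monomials
  `c x^α y^β`; by `sub_mem` `Λ` maps each to an element of `PP` of the same bidegree, so every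
  monomial of `Λ (map g)` has the bidegree of a monomial of `g`.
* `Φ (Yq) = Yq` (`sub_Yq`; `map` fixes the variables).
* `J (p^e)`: `map` maps `X_v^{p^e}` to itself; `Λ`: `map_J_le` with `mem_m0_of_PP`.
* finrank: `finrank_map`, and `Λ` is an isomorphism (`I.map Φ = (I.map map).map Λ`;
  `Ideal.quotientEquivAlg` / linear equivalence of the quotients).
* contraction: apply `Λ'` and `mem_of_map_mem`.
* `Wt K C ≤ (Wt k C).map Φ`: if `u ∈ Wt K C` then `Λ' u ∈ Wt K C` (as for `Hyp`, bidegrees are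
  preserved), so `Λ' u` is a `K`-combination of monomials of weight `≥ C`, which are in
  `(Wt k C).map map`; apply `Λ`.
-/

set_option autoImplicit false

noncomputable section

namespace DP

open MvPolynomial

private theorem Trf_support {σ σ' τ K : Type*} [Fintype σ] [Fintype σ'] [Fintype τ] [Field K]
    (γ : MvPolynomial (σ ⊕ τ) K →ₐ[K] MvPolynomial (σ' ⊕ τ) K)
    (h1 : ∀ v, γ (X (Sum.inl v)) ∈ PP K (1, 0)) (h2 : ∀ j, γ (X (Sum.inr j)) = X (Sum.inr j))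
    {u : MvPolynomial (σ ⊕ τ) K} {m : σ' ⊕ τ →₀ ℕ} (hm : m ∈ (γ u).support) :
    ∃ m' ∈ u.support, md m' = md m := by
  classical
  rw [← support_sum_monomial_coeff u, map_sum] at hm
  obtain ⟨m', hm', hmm⟩ := Finset.mem_biUnion.1 (support_sum hm)
  refine ⟨m', hm', ?_⟩
  have h3 : (monomial m' (coeff m' u) : MvPolynomial (σ ⊕ τ) K) ∈ PP K (md m') := by
    intro m'' hm''
    have h4 := support_monomial_subset hm''
    rw [Finset.mem_singleton] at h4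
    rw [h4]
  exact (sub_mem γ h1 h2 h3 m hmm).symm

private theorem Trf_fin {A B K : Type*} [Field K] [CommRing A] [CommRing B] [Algebra K A]
    [Algebra K B] (Λ : A →ₐ[K] B) (Λ' : B →ₐ[K] A) (hl : ∀ u, Λ' (Λ u) = u)
    (hr : ∀ u, Λ (Λ' u) = u) (I : Ideal A) (h : Module.Finite K (A ⧸ I)) :
    Module.Finite K (B ⧸ I.map Λ.toRingHom) ∧
      Module.finrank K (B ⧸ I.map Λ.toRingHom) = Module.finrank K (A ⧸ I) := by
  let e : A ≃ₐ[K] B := AlgEquiv.ofAlgHom Λ Λ' (AlgHom.ext hr) (AlgHom.ext hl)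
  have E := Ideal.quotientEquivAlg I (I.map Λ.toRingHom) e rfl
  exact ⟨Module.Finite.equiv E.toLinearEquiv, E.toLinearEquiv.finrank_eq.symm⟩

private theorem Trf_con {A₀ A B : Type*} [CommRing A₀] [CommRing A] [CommRing B] (φ : A₀ →+* A)
    (L : A →+* B) (L' : B →+* A) (hl : ∀ u, L' (L u) = u) (I : Ideal A₀) (u : A₀)
    (h : (L.comp φ) u ∈ I.map (L.comp φ)) : φ u ∈ I.map φ := by
  rw [← Ideal.map_map] at h
  have h3 := Ideal.mem_map_of_mem L' h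
  have h4 : L'.comp L = RingHom.id _ := RingHom.ext hl
  rw [Ideal.map_map, h4, Ideal.map_id] at h3
  have h5 : L' ((L.comp φ) u) = φ u := hl (φ u)
  rwa [h5] at h3

private theorem Trf_J {σ k K : Type*} [Field k] [Field K] [Algebra k K] (q : ℕ)
    {u : MvPolynomial σ k} (hu : u ∈ J σ k q) :
    MvPolynomial.map (algebraMap k K) u ∈ J σ K q := by
  have h3 : J σ k q ≤ (J σ K q).comap (MvPolynomial.map (algebraMap k K)) := by
    unfold J
    rw [Ideal.span_le]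
    rintro _ ⟨v, rfl⟩
    rw [SetLike.mem_coe, Ideal.mem_comap, map_pow, map_X]
    exact Ideal.subset_span ⟨v, rfl⟩
  exact h3 hu

private theorem Trf_Yq {σ τ k K : Type*} [Fintype τ] [Field k] [Field K] [Algebra k K]
    (b : τ → ℚ) (q : ℕ) : MvPolynomial.map (algebraMap k K)
      (Yq b q : MvPolynomial (σ ⊕ τ) k) = Yq b q := by
  unfold Yq
  rw [map_prod]
  refine Finset.prod_congr rfl fun j _ => ?_
  rw [map_pow, map_X]

private theorem Trf_Wt {σ τ k K : Type*} [Fintype σ] [Fintype τ] [Field k] [Field K]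
    [Algebra k K] (ax : ℕ) (ay : τ → ℕ) (C' : ℕ) {v : MvPolynomial (σ ⊕ τ) K}
    (hv : v ∈ Wt K ax ay C') :
    v ∈ (Wt k ax ay C').map (MvPolynomial.map (algebraMap k K)) := by
  rw [← support_sum_monomial_coeff v]
  refine Ideal.sum_mem _ fun m hm => ?_
  have e1 : (monomial m (coeff m v) : MvPolynomial (σ ⊕ τ) K) =
      C (coeff m v) * MvPolynomial.map (algebraMap k K) (monomial m 1) := by
    rw [map_monomial, map_one, C_mul_monomial, mul_one]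
  rw [e1]
  refine Ideal.mul_mem_left _ _ (Ideal.mem_map_of_mem _ ?_)
  intro m' hm'
  have h5 := support_monomial_subset hm'
  rw [Finset.mem_singleton] at h5
  rw [h5]
  exact hv m hm

/-- The transfer along an extension `K` and substitutions `Λ`, `Λ'` inverse to each other. -/
private theorem Trf_main {σ σ' τ k K : Type*} [Fintype σ] [Fintype σ'] [Fintype τ] [Field k]
    [Field K] [Algebra k K] (p : ℕ) [Fact p.Prime] [CharP K p] (ax : ℕ) (ay : τ → ℕ)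
    (g : MvPolynomial (σ ⊕ τ) k) (hg : Hyp ax ay g)
    (Λ : MvPolynomial (σ ⊕ τ) K →ₐ[K] MvPolynomial (σ' ⊕ τ) K)
    (Λ' : MvPolynomial (σ' ⊕ τ) K →ₐ[K] MvPolynomial (σ ⊕ τ) K)
    (h1 : ∀ v, Λ (X (Sum.inl v)) ∈ PP K (1, 0)) (h2 : ∀ j, Λ (X (Sum.inr j)) = X (Sum.inr j))
    (h1' : ∀ v, Λ' (X (Sum.inl v)) ∈ PP K (1, 0)) (h2' : ∀ j, Λ' (X (Sum.inr j)) = X (Sum.inr j))
    (hl : ∀ u, Λ' (Λ u) = u) (hr : ∀ u, Λ (Λ' u) = u)
    (φ : MvPolynomial (σ ⊕ τ) k →+* MvPolynomial (σ ⊕ τ) K)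
    (hφ : φ = MvPolynomial.map (algebraMap k K)) :
    Hyp ax ay (Λ (φ g)) ∧
      (∀ (b : τ → ℚ) (q : ℕ), (Λ.toRingHom.comp φ) (Yq b q) = Yq b q) ∧
      (∀ (e : ℕ), ∀ u ∈ J (σ ⊕ τ) k (p ^ e),
        (Λ.toRingHom.comp φ) u ∈ J (σ' ⊕ τ) K (p ^ e)) ∧
      (∀ I : Ideal (MvPolynomial (σ ⊕ τ) k), Module.Finite k (MvPolynomial (σ ⊕ τ) k ⧸ I) →
        Module.Finite K (MvPolynomial (σ' ⊕ τ) K ⧸ I.map (Λ.toRingHom.comp φ)) ∧
        Module.finrank K (MvPolynomial (σ' ⊕ τ) K ⧸ I.map (Λ.toRingHom.comp φ)) ≤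
          Module.finrank k (MvPolynomial (σ ⊕ τ) k ⧸ I)) ∧
      (∀ (I : Ideal (MvPolynomial (σ ⊕ τ) k)) (u : MvPolynomial (σ ⊕ τ) k),
        (Λ.toRingHom.comp φ) u ∈ I.map (Λ.toRingHom.comp φ) → u ∈ I) ∧
      (∀ C' : ℕ, Wt K ax ay C' ≤ (Wt k ax ay C').map (Λ.toRingHom.comp φ)) := by
  refine ⟨?_, ?_, ?_, ?_, ?_, ?_⟩
  · intro m hm
    obtain ⟨m', hm', he⟩ := Trf_support Λ h1 h2 hm
    rw [hφ] at hm'
    rw [← he]
    exact hg m' (support_map_subset _ _ hm')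
  · intro b q
    change Λ (φ (Yq b q)) = _
    rw [hφ, Trf_Yq, sub_Yq Λ h2]
  · intro e u hu
    change Λ (φ u) ∈ _
    refine map_J_le p Λ ?_ e ?_
    · rintro (v | j)
      · exact mem_m0_of_PP (h1 v)
      · rw [h2, mem_m0]
        exact constantCoeff_X _ _
    · rw [hφ]
      exact Trf_J _ hu
  · intro I hI
    obtain ⟨h3, h4⟩ := finrank_map (K := K) I
    rw [← hφ] at h3 h4
    obtain ⟨h5, h6⟩ := Trf_fin Λ Λ' hl hr (I.map φ) h3
    rw [Ideal.map_map] at h5 h6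
    exact ⟨h5, h6.le.trans h4⟩
  · intro I u hu
    have h3 := Trf_con φ Λ.toRingHom Λ'.toRingHom hl I u hu
    rw [hφ] at h3
    exact mem_of_map_mem I u h3
  · intro C' u hu
    rw [← Ideal.map_map]
    have h3 : Λ' u ∈ Wt K ax ay C' := by
      intro m hm
      obtain ⟨m', hm', he⟩ := Trf_support Λ' h1' h2' hm
      rw [← he]
      exact hu m' hm'
    have h4 : Λ' u ∈ (Wt k ax ay C').map φ := by
      rw [hφ]
      exact Trf_Wt ax ay C' h3
    have h5 := Ideal.mem_map_of_mem Λ.toRingHom h4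
    have h6 : Λ.toRingHom (Λ' u) = u := hr u
    rwa [h6] at h5

theorem exists_transfer {k : Type*} [Field k] (p : ℕ) [Fact p.Prime] [CharP k p]
    [CharP (AlgebraicClosure k) p] (hp : 3 ≤ p)
    (r N : ℕ) (ax : ℕ) (ay : Fin N → ℕ) (a : Fin r → k) (ha : ∀ i, a i ≠ 0)
    (g : MvPolynomial (Fin r ⊕ Fin N) k) (hg : Hyp ax ay g) :
    ∃ (M ε : ℕ) (_ : ε ≤ 1) (_ : 2 * M + ε = r)
      (g' : MvPolynomial (Sg M ε ⊕ Fin N) (AlgebraicClosure k))
      (Φ : MvPolynomial (Fin r ⊕ Fin N) k →+*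
        MvPolynomial (Sg M ε ⊕ Fin N) (AlgebraicClosure k)),
      Hyp ax ay g' ∧
      Φ (∑ i, C (a i) * X (Sum.inl i) ^ 2 + g) = Qs (AlgebraicClosure k) iv + g' ∧
      (∀ (b : Fin N → ℚ) (q : ℕ), Φ (Yq b q) = Yq b q) ∧
      (∀ (e : ℕ), ∀ u ∈ J (Fin r ⊕ Fin N) k (p ^ e),
        Φ u ∈ J (Sg M ε ⊕ Fin N) (AlgebraicClosure k) (p ^ e)) ∧
      (∀ I : Ideal (MvPolynomial (Fin r ⊕ Fin N) k),
        Module.Finite k (MvPolynomial (Fin r ⊕ Fin N) k ⧸ I) →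
        Module.Finite (AlgebraicClosure k)
          (MvPolynomial (Sg M ε ⊕ Fin N) (AlgebraicClosure k) ⧸ I.map Φ) ∧
        Module.finrank (AlgebraicClosure k)
          (MvPolynomial (Sg M ε ⊕ Fin N) (AlgebraicClosure k) ⧸ I.map Φ) ≤
          Module.finrank k (MvPolynomial (Fin r ⊕ Fin N) k ⧸ I)) ∧
      (∀ (I : Ideal (MvPolynomial (Fin r ⊕ Fin N) k)) (u : MvPolynomial (Fin r ⊕ Fin N) k),
        Φ u ∈ I.map Φ → u ∈ I) ∧
      (∀ C : ℕ, Wt (AlgebraicClosure k) ax ay C ≤ (Wt k ax ay C).map Φ) := by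
  have h2 : (2 : AlgebraicClosure k) ≠ 0 := by
    intro h
    have h3 : ((2 : ℕ) : AlgebraicClosure k) = 0 := by exact_mod_cast h
    rw [CharP.cast_eq_zero_iff (AlgebraicClosure k) p] at h3
    have := Nat.le_of_dvd (by norm_num) h3
    omega
  have hr : 2 * (r / 2) + r % 2 = r := Nat.div_add_mod r 2
  have ha' : ∀ i, algebraMap k (AlgebraicClosure k) (a i) ≠ 0 := fun i h =>
    ha i ((map_eq_zero _).1 h)
  obtain ⟨Λ, Λ', hΛ1, hΛ2, hΛ'1, hΛ'2, hl, hrr, hQ⟩ := exists_Lam h2 (r / 2) (r % 2) N r hr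
    (fun i => algebraMap k (AlgebraicClosure k) (a i)) ha'
  obtain ⟨φ, hφ⟩ : ∃ φ : MvPolynomial (Fin r ⊕ Fin N) k →+*
      MvPolynomial (Fin r ⊕ Fin N) (AlgebraicClosure k),
      φ = MvPolynomial.map (algebraMap k (AlgebraicClosure k)) := ⟨_, rfl⟩
  obtain ⟨c1, c2, c3, c4, c5, c6⟩ := Trf_main p ax ay g hg Λ Λ' hΛ1 hΛ2 hΛ'1 hΛ'2 hl hrr φ hφ
  refine ⟨r / 2, r % 2, by omega, hr, Λ (φ g), Λ.toRingHom.comp φ, c1, ?_, c2, c3, c4, c5, c6⟩
  have h3 : φ (∑ i, C (a i) * X (Sum.inl i) ^ 2 + g) =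
      ∑ i, C (algebraMap k (AlgebraicClosure k) (a i)) * X (Sum.inl i) ^ 2 + φ g := by
    rw [map_add, hφ, map_sum]
    refine congrArg (· + _) (Finset.sum_congr rfl fun i _ => ?_)
    rw [map_mul, map_pow, map_C, map_X]
  change Λ (φ (∑ i, C (a i) * X (Sum.inl i) ^ 2 + g)) = _
  rw [h3, map_add, hQ]

end DP
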