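import Pool.Agent.Lib.MP_9e8926_ag_DP.Gr
import Pool.Agent.Lib.MP_9e8926_ag_DP.Fed

/-!
# The weight ideals

`Wt C` is spanned over `k` by the monomials of weight at least `C` (`L1 ∘ md` is additive).
* `Wt_pow`: induction with `Wt_mul`.
* `Wt_le_pow`: `c = ax + ∑ ay_j` is at least every weight; a monomial of weight `≥ (c + 1) M` has
  total degree `≥ M`, so it is in `m0^M` (a product of at least `M` variables, each in `m0`).
* `pow_le_Wt`: all weights are `≥ 1`, so `m0 ≤ Wt 1` (no constant term), and `Wt_pow`.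
-/

set_option autoImplicit false

noncomputable section

namespace DP

open MvPolynomial

variable {σ τ : Type*} [Fintype σ] [Fintype τ] {k : Type*} [Field k]

private theorem Wta_add (ax : ℕ) (ay : τ → ℕ) (s s' : ℕ × (τ → ℕ)) :
    L1 ax ay (s + s') = L1 ax ay s + L1 ax ay s' := by
  simp only [L1, Prod.fst_add, Prod.snd_add, Pi.add_apply, mul_add, Finset.sum_add_distrib]
  omega

private theorem Wta_deg (m : σ ⊕ τ →₀ ℕ) :
    Finsupp.degree m = (md m).1 + ∑ j, (md m).2 j := by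
  rw [Finsupp.degree_eq_sum, Fintype.sum_sum_type]
  rfl

theorem Wt_mul (ax : ℕ) (ay : τ → ℕ) (i j : ℕ) :
    Wt k ax ay i * Wt k ax ay j ≤ (Wt k ax ay (i + j) : Ideal (MvPolynomial (σ ⊕ τ) k)) := by
  classical
  refine Ideal.mul_le.2 fun u hu v hv m hm => ?_
  obtain ⟨m1, hm1, m2, hm2, rfl⟩ := Finset.mem_add.1 (support_mul u v hm)
  have h1 : i ≤ L1 ax ay (md m1) := hu m1 hm1
  have h2 : j ≤ L1 ax ay (md m2) := hv m2 hm2
  rw [md_add, Wta_add]
  omega

theorem Wt_pow (ax : ℕ) (ay : τ → ℕ) (i n : ℕ) :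
    Wt k ax ay i ^ n ≤ (Wt k ax ay (i * n) : Ideal (MvPolynomial (σ ⊕ τ) k)) := by
  induction n with
  | zero =>
    intro u _ m _
    rw [mul_zero]
    exact Nat.zero_le _
  | succ n ih =>
    rw [pow_succ, mul_add, mul_one]
    exact (Ideal.mul_mono_left ih).trans (Wt_mul ax ay (i * n) i)

theorem Wt_le_pow (ax : ℕ) (ay : τ → ℕ) (M : ℕ) :
    Wt k ax ay ((ax + ∑ j, ay j + 1) * M) ≤ m0 (σ ⊕ τ) k ^ M := by
  intro u hu
  rw [m0_eq_span]
  refine (MvPolynomial.mem_pow_idealOfVars_iff M u).2 fun m hm => ?_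
  have h1 : (ax + ∑ j, ay j + 1) * M ≤ L1 ax ay (md m) := hu m hm
  rw [Wta_deg]
  have h2 : L1 ax ay (md m) ≤ (ax + ∑ j, ay j + 1) * ((md m).1 + ∑ j, (md m).2 j) := by
    have h3 : ∑ j, ay j * (md m).2 j ≤ (∑ j, ay j) * ∑ j, (md m).2 j := by
      rw [Finset.mul_sum]
      refine Finset.sum_le_sum fun j _ => Nat.mul_le_mul_right _ ?_
      exact Finset.single_le_sum (f := ay) (fun _ _ => Nat.zero_le _) (Finset.mem_univ j)
    unfold L1
    nlinarith [Nat.zero_le (ax * ∑ j, (md m).2 j), Nat.zero_le ((∑ j, ay j) * (md m).1),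
      Nat.zero_le ((md m).1), Nat.zero_le (∑ j, (md m).2 j)]
  exact Nat.le_of_mul_le_mul_left (h1.trans h2) (Nat.succ_pos _)

theorem pow_le_Wt (ax : ℕ) (ay : τ → ℕ) (hax : 0 < ax) (hay : ∀ j, 0 < ay j) (C : ℕ) :
    m0 (σ ⊕ τ) k ^ C ≤ Wt k ax ay C := by
  intro u hu
  rw [m0_eq_span] at hu
  intro m hm
  have h1 := (MvPolynomial.mem_pow_idealOfVars_iff C u).1 hu m hm
  rw [Wta_deg] at h1
  refine h1.trans ?_
  unfold L1
  refine Nat.add_le_add (Nat.le_mul_of_pos_left _ hax) (Finset.sum_le_sum fun j _ => ?_)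
  exact Nat.le_mul_of_pos_left _ (hay j)

end DP
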