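import Pool.Agent.Lib.MP_9e8926_ag_DP.RegK
import Pool.Agent.Lib.MP_9e8926_ag_DP.Trf
import Pool.Agent.Lib.MP_9e8926_ag_DP.Wta

/-!
# Strong `F`-regularity of the base

Suppose `f^{q-1} Y_q d ∈ J q` for all `e ≥ 1` and let `Φ` be as in `exists_transfer`.  Applying `Φ`,
`regK` gives `Φ d ∈ span {Φ f} ⊔ Wt K C ≤ (span {f} ⊔ Wt k C).map Φ` for all `C`, so
`d ∈ span {f} ⊔ Wt k C`; take `C = (ax + ∑ ay_j + 1) M` (`Wt_le_pow`).
-/

set_option autoImplicit false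

noncomputable section

namespace DP

open MvPolynomial

/-- The polynomial `∑ a_i x_i² + g`. -/
def ff {k : Type*} [CommRing k] {r N : ℕ} (a : Fin r → k) (g : MvPolynomial (Fin r ⊕ Fin N) k) :
    MvPolynomial (Fin r ⊕ Fin N) k := ∑ i, C (a i) * X (Sum.inl i) ^ 2 + g

theorem regR {k : Type*} [Field k] (p : ℕ) [Fact p.Prime] [CharP k p] (hp : 5 ≤ p) {r N : ℕ}
    (hr : 3 ≤ r) (ax : ℕ) (ay : Fin N → ℕ) (hax : 0 < ax) (hay : ∀ j, 0 < ay j)
    (a : Fin r → k) (ha : ∀ i, a i ≠ 0) (g : MvPolynomial (Fin r ⊕ Fin N) k)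
    (hg : Hyp ax ay g) (b : Fin N → ℚ) (hb : ∀ j, 0 ≤ b j ∧ b j < 1)
    (d : MvPolynomial (Fin r ⊕ Fin N) k) (M : ℕ)
    (hd : d ∉ Ideal.span {ff a g} ⊔ m0 (Fin r ⊕ Fin N) k ^ M) :
    ∃ e : ℕ, 1 ≤ e ∧ ff a g ^ (p ^ e - 1) * Yq b (p ^ e) * d ∉
      J (Fin r ⊕ Fin N) k (p ^ e) := by
  by_contra hc
  push Not at hc
  have hK : CharP (AlgebraicClosure k) p :=
    charP_of_injective_algebraMap (algebraMap k (AlgebraicClosure k)).injective p
  obtain ⟨M', ε, hε, hMr, g', Φ, hg', hΦf, hΦY, hΦJ, -, hcontr, hWt⟩ :=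
    exists_transfer p (by omega) r N ax ay a ha g hg
  have hf : Φ (ff a g) = Qs (AlgebraicClosure k) iv + g' := hΦf
  have h1 := regK p hp M' ε N hε (by omega) b hb ax ay hax hay g' hg' (Φ d) (fun e he => by
    rw [← hf, ← hΦY, ← map_pow, ← map_mul, ← map_mul]
    exact hΦJ e _ (hc e he)) ((ax + ∑ j, ay j + 1) * M)
  have h2 : Ideal.span {Qs (AlgebraicClosure k) iv + g'} ⊔
      Wt (AlgebraicClosure k) ax ay ((ax + ∑ j, ay j + 1) * M) ≤
      (Ideal.span {ff a g} ⊔ Wt k ax ay ((ax + ∑ j, ay j + 1) * M)).map Φ := by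
    refine sup_le ?_ ((hWt _).trans (Ideal.map_mono le_sup_right))
    rw [Ideal.span_le, Set.singleton_subset_iff, ← hf]
    exact Ideal.mem_map_of_mem Φ (Ideal.mem_sup_left (Ideal.subset_span rfl))
  have h3 := hcontr _ d (h2 h1)
  exact hd (sup_le_sup_left (Wt_le_pow ax ay M) _ h3)

end DP
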