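import Pool.Agent.Lib.MP_9e8926_ag_DP.Pre

/-!
# Elementary facts about weighted bases

* `lev_le`: `lev B w x ≤ V`, decreasing in `x`.
* `mem_lev_iff`: for a basis, `v = ∑ c i • B i` is in `lev B w x` iff `c i ≠ 0 → x ≤ w i` (by linear
  independence, e.g. `LinearIndependent.mem_span_image...` or `Finsupp.mem_span_image_iff_linearCombination`,
  `LinearIndependent.notMem_span_image`).
* `finrank_lev`: the dimension of `lev B w x` is the number of `i` with `x ≤ w i`
  (`finrank_span_set_eq_card`, `finrank_span_finset_eq_card`, linear independence of a subfamily).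
* `exists_sorted`: composition with a permutation `π` sorting `w` (`Tuple.sort`,
  `Tuple.monotone_sort`).
-/

set_option autoImplicit false

noncomputable section

namespace DP

variable {K A : Type*} [Field K] [AddCommGroup A] [Module K A] {V : Submodule K A} {D : ℕ}

theorem lev_anti (B : Fin D → A) (w : Fin D → ℝ) {x y : ℝ} (h : x ≤ y) :
    lev K B w y ≤ lev K B w x := by
  refine Submodule.span_mono (Set.image_mono fun i hi => ?_)
  exact h.trans hi

theorem lev_le {B : Fin D → A} (hB : IsBas V B) (w : Fin D → ℝ) (x : ℝ) : lev K B w x ≤ V := by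
  rw [← hB.2]
  exact Submodule.span_mono (Set.image_subset_range _ _)

theorem exists_coeff {B : Fin D → A} (hB : IsBas V B) {v : A} (hv : v ∈ V) :
    ∃ c : Fin D → K, v = ∑ i, c i • B i := by
  rw [← hB.2, Submodule.mem_span_range_iff_exists_fun] at hv
  obtain ⟨c, hc⟩ := hv
  exact ⟨c, hc.symm⟩

theorem mem_lev_iff {B : Fin D → A} (hB : IsBas V B) (w : Fin D → ℝ) (x : ℝ) (c : Fin D → K) :
    ∑ i, c i • B i ∈ lev K B w x ↔ ∀ i, c i ≠ 0 → x ≤ w i := by
  constructor
  · intro h i hi
    obtain ⟨l, hl, hle⟩ := (Finsupp.mem_span_image_iff_linearCombination K).1 h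
    have h1 : ∑ j, l j • B j = ∑ j, c j • B j := by
      rw [← hle, Finsupp.linearCombination_apply, Finsupp.sum_fintype]
      intro j
      exact zero_smul K _
    have h2 : ∑ j, (l j - c j) • B j = 0 := by
      simp only [sub_smul, Finset.sum_sub_distrib]
      rw [h1, sub_self]
    have h3 := Fintype.linearIndependent_iff.1 hB.1 (fun j => l j - c j) h2 i
    have h4 : l i ≠ 0 := by
      rw [sub_eq_zero.1 h3]
      exact hi
    exact (Finsupp.mem_supported K l).1 hl (Finsupp.mem_support_iff.2 h4)
  · intro h
    refine Submodule.sum_mem _ fun i _ => ?_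
    by_cases hi : c i = 0
    · rw [hi, zero_smul]
      exact Submodule.zero_mem _
    · exact Submodule.smul_mem _ _ (Submodule.subset_span ⟨i, h i hi, rfl⟩)

theorem finrank_bas {B : Fin D → A} (hB : IsBas V B) : Module.finrank K V = D := by
  have h := finrank_span_eq_card hB.1
  rw [hB.2, Fintype.card_fin] at h
  exact h

theorem finrank_lev {B : Fin D → A} (hB : IsBas V B) (w : Fin D → ℝ) (x : ℝ) :
    Module.finrank K (lev K B w x) = (Finset.univ.filter fun i => x ≤ w i).card := by
  classical
  have h1 : lev K B w x = Submodule.span K (Set.range fun i : {i // x ≤ w i} => B i) := by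
    unfold lev
    congr 1
    ext v
    constructor
    · rintro ⟨i, hi, rfl⟩
      exact ⟨⟨i, hi⟩, rfl⟩
    · rintro ⟨⟨i, hi⟩, rfl⟩
      exact ⟨i, hi, rfl⟩
  have h2 := finrank_span_eq_card (hB.1.comp (Subtype.val : {i // x ≤ w i} → Fin D)
    Subtype.val_injective)
  rw [h1]
  refine h2.trans ?_
  rw [Fintype.card_subtype]

theorem exists_sorted {B : Fin D → A} (hB : IsBas V B) (w : Fin D → ℝ) :
    ∃ (B1 : Fin D → A) (w1 : Fin D → ℝ), IsBas V B1 ∧ Monotone w1 ∧
      ∀ x, lev K B1 w1 x = lev K B w x := by
  refine ⟨B ∘ Tuple.sort w, w ∘ Tuple.sort w,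
    ⟨hB.1.comp _ (Tuple.sort w).injective, ?_⟩, Tuple.monotone_sort w, fun x => ?_⟩
  · rw [Set.range_comp, (Tuple.sort w).surjective.range_eq, Set.image_univ]
    exact hB.2
  · unfold lev
    congr 1
    rw [Set.image_comp]
    congr 1
    ext i
    constructor
    · rintro ⟨j, hj, rfl⟩
      exact hj
    · intro hi
      obtain ⟨j, rfl⟩ := (Tuple.sort w).surjective i
      exact ⟨j, hi, rfl⟩

/-- A basis of a finite-dimensional space. -/
theorem exists_isBas (V : Submodule K A) [Module.Finite K V] (hD : Module.finrank K V = D) :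
    ∃ B : Fin D → A, IsBas V B := by
  subst hD
  refine ⟨fun i => (Module.finBasis K V i : A), ?_, ?_⟩
  · exact (Module.finBasis K V).linearIndependent.map' V.subtype (Submodule.ker_subtype V)
  · have h1 : (Set.range fun i => (Module.finBasis K V i : A)) =
        V.subtype '' Set.range (Module.finBasis K V) := by
      rw [← Set.range_comp]
      rfl
    rw [h1, Submodule.span_image, (Module.finBasis K V).span_eq, Submodule.map_top,
      Submodule.range_subtype]

end DP
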