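import Pool.Agent.Lib.MP_9e8926_ag_DP.Gr

/-!
# Substitutions preserving the bigrading

`sub_mem`: a monomial `X^α y^β` with `|α| = d` is mapped to a product of `d` elements of
`PP k (1,0)` and `y^β`, so by `PP_mul`, `PP_pow` to an element of `PP k (d, β)`; linearity.
-/

set_option autoImplicit false

noncomputable section

namespace DP

open MvPolynomial

variable {σ σ' τ : Type*} [Fintype σ] [Fintype σ'] [Fintype τ] {k : Type*} [Field k]

private theorem SubP_prod {ι : Type*} (S : Finset ι) (t : ι → ℕ × (τ → ℕ))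
    (f : ι → MvPolynomial (σ ⊕ τ) k) (h : ∀ i ∈ S, f i ∈ PP k (t i)) :
    ∏ i ∈ S, f i ∈ PP k (∑ i ∈ S, t i) := by
  classical
  induction S using Finset.induction_on with
  | empty =>
    rw [Finset.prod_empty, Finset.sum_empty]
    exact PP_one
  | insert a S ha ih =>
    rw [Finset.prod_insert ha, Finset.sum_insert ha]
    exact PP_mul (h a (Finset.mem_insert_self _ _))
      (ih fun i hi => h i (Finset.mem_insert_of_mem hi))

private theorem SubP_X (j : τ) : (X (Sum.inr j) : MvPolynomial (σ ⊕ τ) k) ∈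
    PP k (0, fun j' => open Classical in if j' = j then 1 else 0) := by
  classical
  intro m hm
  rw [support_X, Finset.mem_singleton] at hm
  subst hm
  refine Prod.ext ?_ (funext fun j' => ?_)
  · show ∑ i, (Finsupp.single (Sum.inr j : σ ⊕ τ) 1) (Sum.inl i) = 0
    simp
  · show (Finsupp.single (Sum.inr j : σ ⊕ τ) 1) (Sum.inr j') = if j' = j then 1 else 0
    rw [Finsupp.single_apply]
    by_cases h : j' = j
    · subst h
      rw [if_pos rfl, if_pos rfl]
    · rw [if_neg h, if_neg]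
      intro h2
      exact h (Sum.inr_injective h2).symm

theorem sub_mem (γ : MvPolynomial (σ ⊕ τ) k →ₐ[k] MvPolynomial (σ' ⊕ τ) k)
    (h1 : ∀ v, γ (X (Sum.inl v)) ∈ PP k (1, 0)) (h2 : ∀ j, γ (X (Sum.inr j)) = X (Sum.inr j))
    {s : ℕ × (τ → ℕ)} {u : MvPolynomial (σ ⊕ τ) k} (hu : u ∈ PP k s) : γ u ∈ PP k s := by
  classical
  rw [← support_sum_monomial_coeff u, map_sum]
  refine Submodule.sum_mem _ fun m hm => ?_
  have e1 : monomial m (coeff m u) = coeff m u • (∏ i : σ ⊕ τ, X i ^ m i) := by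
    rw [monomial_eq, Finsupp.prod_fintype _ _ (fun i => pow_zero _), C_mul']
  rw [e1, map_smul]
  refine Submodule.smul_mem _ _ ?_
  rw [map_prod, Fintype.prod_sum_type, ← hu m hm]
  have e2 : md m = (∑ i, m (Sum.inl i) • ((1, 0) : ℕ × (τ → ℕ))) +
      ∑ j, m (Sum.inr j) • ((0, fun j' => if j' = j then 1 else 0) : ℕ × (τ → ℕ)) := by
    refine Prod.ext ?_ (funext fun j' => ?_)
    · rw [Prod.fst_add, Prod.fst_sum, Prod.fst_sum]
      simp [md]
    · rw [Prod.snd_add, Prod.snd_sum, Prod.snd_sum, Pi.add_apply, Finset.sum_apply,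
        Finset.sum_apply]
      simp [md]
  rw [e2]
  refine PP_mul (SubP_prod _ _ _ fun i _ => ?_) (SubP_prod _ _ _ fun j _ => ?_)
  · rw [map_pow]
    exact PP_pow (h1 i) _
  · rw [map_pow, h2]
    have h3 := PP_pow (SubP_X (σ := σ') (k := k) j) (m (Sum.inr j))
    convert h3

/-- Linear forms have no constant term. -/
theorem mem_m0_of_PP {u : MvPolynomial (σ ⊕ τ) k} (hu : u ∈ PP k (1, 0)) :
    u ∈ m0 (σ ⊕ τ) k := by
  change constantCoeff u = 0
  rw [constantCoeff_eq]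
  by_contra h
  have h1 := hu 0 (mem_support_iff.2 h)
  have h2 : (md (0 : σ ⊕ τ →₀ ℕ)).1 = 0 := by
    show ∑ i, (0 : σ ⊕ τ →₀ ℕ) (Sum.inl i) = 0
    simp
  rw [h1] at h2
  exact one_ne_zero h2

theorem sub_Yq (γ : MvPolynomial (σ ⊕ τ) k →ₐ[k] MvPolynomial (σ' ⊕ τ) k)
    (h2 : ∀ j, γ (X (Sum.inr j)) = X (Sum.inr j)) (b : τ → ℚ) (q : ℕ) :
    γ (Yq b q) = Yq b q := by
  unfold Yq
  rw [map_prod]
  refine Finset.prod_congr rfl fun j _ => ?_
  rw [map_pow, h2]

theorem Qs_mem (ι : σ → σ) : (Qs k ι : MvPolynomial (σ ⊕ τ) k) ∈ PP k (2, 0) := by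
  unfold Qs
  refine Submodule.sum_mem _ fun v _ => ?_
  have h := PP_mul (PP_X (σ := σ) (τ := τ) (k := k) v) (PP_X (ι v))
  rwa [Prod.mk_add_mk, add_zero] at h

end DP
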