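import Pool.Agent.Lib.MP_9e8926_ag_DP.SubP

/-!
# A one-parameter family of isometries

Write `⟨x, y⟩ = ∑ x_v y_{ι v}`, so that `Qs ι = ⟨x, x⟩`.  Let `a` be isotropic, `a_{x0} = 1` and
`y0 = ι x0 ≠ x0`.  The substitution
`ts ι a x0 s : X_v ↦ X_v + (s - 1) a_v X_{x0} + [v = y0] (s⁻¹ - 1) B`, `B = ∑_w a_{ι w} X_w`,
is the isometry `x ↦ x + (s-1) x_{x0} a + (s⁻¹-1) ⟨x, a⟩ e_{y0}`: with `E = X_{x0}`,
`⟨x + (s-1) E a + (s⁻¹-1) B e_{y0}, same⟩ = ⟨x,x⟩ + 2 (s-1) E B + 2 (s⁻¹-1) B E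
+ 2 (s-1)(s⁻¹-1) E B`, as `⟨x, a⟩ = B`, `⟨a,a⟩ = 0`, `⟨x, e_{y0}⟩ = E`, `⟨a, e_{y0}⟩ = a_{x0} = 1`,
`⟨e_{y0}, e_{y0}⟩ = 0` (`ι y0 = x0 ≠ y0`), and `(s-1) + (s⁻¹-1) + (s-1)(s⁻¹-1) = 0`.
Its inverse is the one for `s⁻¹`: `ts s (E) = s E` (`x0 ≠ y0`, `a_{x0} = 1`),
`ts s (B) = B + (s-1) ⟨a,a⟩ E + (s⁻¹-1) a_{x0} B = s⁻¹ B` (the coefficient of `X_{y0}` in `B` is
`a_{ι y0} = a_{x0} = 1`), so
`ts s (ts t X_v) = X_v + (s-1) a_v E + [v=y0] (s⁻¹-1) B + (t-1) a_v s E + [v=y0] (t⁻¹-1) s⁻¹ B`,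
which is `X_v` for `t = s⁻¹`.
-/

set_option autoImplicit false

noncomputable section

namespace DP

open MvPolynomial

variable {σ : Type*} [Fintype σ] [DecidableEq σ] {τ : Type*} [Fintype τ] {K : Type*} [Field K]

/-- The substitution `x ↦ x + (s-1) x_{x0} a + (s⁻¹-1) ⟨x, a⟩ e_{ι x0}`. -/
def ts (τ : Type*) (ι : σ → σ) (a : σ → K) (x0 : σ) (s : K) :
    MvPolynomial (σ ⊕ τ) K →ₐ[K] MvPolynomial (σ ⊕ τ) K :=
  aeval (Sum.elim (fun v => X (Sum.inl v) + C ((s - 1) * a v) * X (Sum.inl x0) +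
    (if v = ι x0 then C (s⁻¹ - 1) * ∑ w, C (a (ι w)) * X (Sum.inl w) else 0))
    fun j => X (Sum.inr j))

private lemma TSa_d1 {R : Type*} [CommRing R] (y : σ) (f : σ → R) :
    ∑ v, (if v = y then (1 : R) else 0) * f v = f y := by
  simp

private lemma TSa_quad {R : Type*} [CommRing R] (ι : σ → σ) (hι : Function.Involutive ι)
    (x0 : σ) (hx0 : ι x0 ≠ x0) (x A : σ → R) (c1 c2 E B : R) (hE : E = x x0)
    (hB : B = ∑ w, A (ι w) * x w) (hA : ∑ v, A v * A (ι v) = 0) (hA0 : A x0 = 1)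
    (hc : c1 + c2 + c1 * c2 = 0) :
    ∑ v, (x v + c1 * A v * E + (if v = ι x0 then 1 else 0) * (c2 * B)) *
      (x (ι v) + c1 * A (ι v) * E + (if ι v = ι x0 then 1 else 0) * (c2 * B)) =
      ∑ v, x v * x (ι v) := by
  have S1 : ∑ v, x v * A (ι v) = B := by
    rw [hB]
    exact Finset.sum_congr rfl fun v _ => mul_comm _ _
  have S2 : ∑ v, A v * x (ι v) = B := by
    rw [hB, ← Equiv.sum_comp (Function.Involutive.toPerm ι hι) (fun w => A (ι w) * x w)]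
    refine Finset.sum_congr rfl fun v _ => ?_
    rw [Function.Involutive.coe_toPerm, hι v]
  have hδ : ∀ v : σ, (if ι v = ι x0 then (1 : R) else 0) = if v = x0 then 1 else 0 := by
    intro v
    by_cases h : v = x0
    · rw [h, if_pos rfl, if_pos rfl]
    · rw [if_neg h, if_neg fun h1 => h (hι.injective h1)]
  have hδδ : ∀ v : σ, (if v = ι x0 then (1 : R) else 0) * (if v = x0 then 1 else 0) = 0 := by
    intro v
    by_cases h : v = x0
    · rw [if_neg, zero_mul]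
      rw [h]
      exact hx0.symm
    · rw [if_neg h, mul_zero]
  have hp : ∀ v, (x v + c1 * A v * E + (if v = ι x0 then 1 else 0) * (c2 * B)) *
      (x (ι v) + c1 * A (ι v) * E + (if ι v = ι x0 then 1 else 0) * (c2 * B)) =
      x v * x (ι v) + c1 * E * (x v * A (ι v)) + c1 * E * (A v * x (ι v)) +
        c1 ^ 2 * E ^ 2 * (A v * A (ι v)) +
        (if v = x0 then 1 else 0) * (c2 * B * (x v + c1 * A v * E)) +
        (if v = ι x0 then 1 else 0) * (c2 * B * (x (ι v) + c1 * A (ι v) * E)) := by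
    intro v
    rw [hδ]
    linear_combination (c2 * B) ^ 2 * hδδ v
  rw [Finset.sum_congr rfl fun v _ => hp v]
  simp only [Finset.sum_add_distrib]
  rw [TSa_d1 x0 (fun v => c2 * B * (x v + c1 * A v * E)),
    TSa_d1 (ι x0) (fun v => c2 * B * (x (ι v) + c1 * A (ι v) * E)),
    ← Finset.mul_sum, ← Finset.mul_sum, ← Finset.mul_sum, S1, S2, hA, hι x0, hA0, ← hE]
  linear_combination 2 * E * B * hc

omit [Fintype τ] in
private lemma TSa_X (ι : σ → σ) (a : σ → K) (x0 : σ) (s : K) (v : σ) :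
    ts τ ι a x0 s (X (Sum.inl v)) = X (Sum.inl v) + C (s - 1) * C (a v) * X (Sum.inl x0) +
      (if v = ι x0 then 1 else 0) * (C (s⁻¹ - 1) * ∑ w, C (a (ι w)) * X (Sum.inl w)) := by
  unfold ts
  rw [aeval_X, Sum.elim_inl, C_mul]
  split_ifs
  · rw [one_mul]
  · rw [zero_mul]

omit [Fintype τ] in
private lemma TSa_Y (ι : σ → σ) (a : σ → K) (x0 : σ) (s : K) (j : τ) :
    ts τ ι a x0 s (X (Sum.inr j)) = X (Sum.inr j) := by
  unfold ts
  rw [aeval_X, Sum.elim_inr]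

omit [DecidableEq σ] [Fintype τ] in
private lemma TSa_memX (v : σ) : (X (Sum.inl v) : MvPolynomial (σ ⊕ τ) K) ∈ PP K (1, 0) := by
  intro m hm
  rw [support_X, Finset.mem_singleton] at hm
  rw [hm]
  refine Prod.ext ?_ (funext fun j => ?_)
  · change ∑ i, (Finsupp.single (Sum.inl v) 1 : σ ⊕ τ →₀ ℕ) (Sum.inl i) = 1
    rw [Finset.sum_eq_single v]
    · exact Finsupp.single_eq_same
    · intro w _ hw
      exact Finsupp.single_eq_of_ne fun h => hw (Sum.inl_injective h)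
    · intro h
      exact absurd (Finset.mem_univ v) h
  · change (Finsupp.single (Sum.inl v) 1 : σ ⊕ τ →₀ ℕ) (Sum.inr j) = 0
    exact Finsupp.single_eq_of_ne Sum.inr_ne_inl

private lemma TSa_isGs (ι : σ → σ) (hι : Function.Involutive ι) (a : σ → K)
    (ha : ∑ v, a v * a (ι v) = 0) (x0 : σ) (hx0 : ι x0 ≠ x0) (hax : a x0 = 1) (s : K)
    (hs : s ≠ 0) : IsGs ι (ts τ ι a x0 s) := by
  refine ⟨fun v => ?_, fun j => TSa_Y ι a x0 s j, ?_⟩
  · have hC : ∀ (c : K) (u : MvPolynomial (σ ⊕ τ) K), u ∈ PP K (1, 0) → C c * u ∈ PP K (1, 0) := by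
      intro c u hu
      rw [← smul_eq_C_mul]
      exact Submodule.smul_mem _ c hu
    rw [TSa_X]
    refine Submodule.add_mem _ (Submodule.add_mem _ (TSa_memX v) ?_) ?_
    · rw [mul_assoc]
      exact hC _ _ (hC _ _ (TSa_memX x0))
    · split_ifs
      · rw [one_mul]
        refine hC _ _ (Submodule.sum_mem _ fun w _ => hC _ _ (TSa_memX w))
      · rw [zero_mul]
        exact Submodule.zero_mem _
  · unfold Qs
    rw [map_sum]
    have h1 : ∀ v, (ts τ ι a x0 s) (X (Sum.inl v) * X (Sum.inl (ι v))) =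
        (X (Sum.inl v) + C (s - 1) * C (a v) * X (Sum.inl x0) +
          (if v = ι x0 then 1 else 0) * (C (s⁻¹ - 1) * ∑ w, C (a (ι w)) * X (Sum.inl w))) *
        (X (Sum.inl (ι v)) + C (s - 1) * C (a (ι v)) * X (Sum.inl x0) +
          (if ι v = ι x0 then 1 else 0) * (C (s⁻¹ - 1) * ∑ w, C (a (ι w)) * X (Sum.inl w))) := by
      intro v
      rw [map_mul, TSa_X, TSa_X]
    rw [Finset.sum_congr rfl fun v _ => h1 v]
    refine TSa_quad ι hι x0 hx0 (fun v => (X (Sum.inl v) : MvPolynomial (σ ⊕ τ) K))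
      (fun v => C (a v)) (C (s - 1)) (C (s⁻¹ - 1)) _ _ rfl rfl ?_ ?_ ?_
    · have h2 : ∑ v, (C (a v) * C (a (ι v)) : MvPolynomial (σ ⊕ τ) K) =
          C (∑ v, a v * a (ι v)) := by
        rw [map_sum]
        exact Finset.sum_congr rfl fun v _ => (C_mul).symm
      refine h2.trans ?_
      rw [ha, C_0]
    · change C (a x0) = 1
      rw [hax, C_1]
    · rw [← C_mul, ← C_add, ← C_add]
      have h3 : s - 1 + (s⁻¹ - 1) + (s - 1) * (s⁻¹ - 1) = 0 := by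
        field_simp
        ring
      rw [h3, C_0]

private lemma TSa_inv (ι : σ → σ) (hι : Function.Involutive ι) (a : σ → K)
    (ha : ∑ v, a v * a (ι v) = 0) (x0 : σ) (hx0 : ι x0 ≠ x0) (hax : a x0 = 1) (s : K)
    (hs : s ≠ 0) (u : MvPolynomial (σ ⊕ τ) K) :
    ts τ ι a x0 s⁻¹ (ts τ ι a x0 s u) = u := by
  have hE : ts τ ι a x0 s⁻¹ (X (Sum.inl x0)) = C s⁻¹ * X (Sum.inl x0) := by
    rw [TSa_X, if_neg hx0.symm, zero_mul, add_zero, hax, C_1, mul_one, C_sub, C_1]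
    ring
  have hB : ts τ ι a x0 s⁻¹ (∑ w, C (a (ι w)) * X (Sum.inl w)) =
      C s * ∑ w, C (a (ι w)) * X (Sum.inl w) := by
    rw [map_sum]
    have h1 : ∀ w, (ts τ ι a x0 s⁻¹) (C (a (ι w)) * X (Sum.inl w)) =
        C (a (ι w)) * X (Sum.inl w) + C (s⁻¹ - 1) * X (Sum.inl x0) * C (a w * a (ι w)) +
          (if w = ι x0 then 1 else 0) * (C (a (ι w)) *
            (C (s - 1) * ∑ w, C (a (ι w)) * X (Sum.inl w))) := by
      intro w
      have h2 : (ts τ ι a x0 s⁻¹) (C (a (ι w))) = C (a (ι w)) :=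
        (ts τ ι a x0 s⁻¹).commutes (a (ι w))
      rw [map_mul, h2, TSa_X, inv_inv, C_mul]
      ring
    rw [Finset.sum_congr rfl fun w _ => h1 w, Finset.sum_add_distrib, Finset.sum_add_distrib,
      TSa_d1 (ι x0) (fun w => C (a (ι w)) *
            (C (s - 1) * ∑ w, C (a (ι w)) * X (Sum.inl w))), hι x0, hax, ← Finset.mul_sum,
      ← map_sum, ha, C_0, C_1]
    simp only [C_sub, C_1]
    ring
  have h : (ts τ ι a x0 s⁻¹).comp (ts τ ι a x0 s) = AlgHom.id K _ := by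
    refine algHom_ext fun w => ?_
    rw [AlgHom.comp_apply, AlgHom.id_apply]
    rcases w with v | j
    · rw [TSa_X ι a x0 s v, map_add, map_add, map_mul, map_mul, map_mul, map_mul, hE, hB, TSa_X,
        inv_inv]
      have h1 : ∀ c : K, (ts τ ι a x0 s⁻¹) (C c) = C c := fun c => (ts τ ι a x0 s⁻¹).commutes c
      have h2 : (ts τ ι a x0 s⁻¹) (if v = ι x0 then 1 else 0) = if v = ι x0 then 1 else 0 := by
        split_ifs
        · exact map_one _
        · exact map_zero _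
      rw [h1, h1, h1, h2]
      have h3 : (C s * C s⁻¹ : MvPolynomial (σ ⊕ τ) K) = 1 := by
        rw [← C_mul, mul_inv_cancel₀ hs, C_1]
      simp only [C_sub, C_1]
      linear_combination (C (a v) * X (Sum.inl x0) + (if v = ι x0 then 1 else 0) *
        ∑ w, C (a (ι w)) * X (Sum.inl w)) * h3
    · rw [TSa_Y, TSa_Y]
  exact DFunLike.congr_fun h u

theorem ts_mem (ι : σ → σ) (hι : Function.Involutive ι) (a : σ → K)
    (ha : ∑ v, a v * a (ι v) = 0) (x0 : σ) (hx0 : ι x0 ≠ x0) (hax : a x0 = 1) (s : K)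
    (hs : s ≠ 0) : ts τ ι a x0 s ∈ Gs K τ ι :=
  ⟨TSa_isGs ι hι a ha x0 hx0 hax s hs, ts τ ι a x0 s⁻¹,
    TSa_isGs ι hι a ha x0 hx0 hax s⁻¹ (inv_ne_zero hs), TSa_inv ι hι a ha x0 hx0 hax s hs⟩

end DP
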