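import Mathlib

/-!
# Coefficients of vector valued polynomials

Proof: it suffices to treat linear functionals `φ` on the vector space vanishing on `U`
(`Submodule.exists_le_ker_of_notMem` or `Submodule.mkQ` and a dual separating points,
`Module.forall_dual_apply_eq_zero_iff`).  The polynomial `∑ φ (c i) T^i` over the infinite field `K`
vanishes at all `s ≠ 0`, so it is 0 (`Polynomial.eq_zero_of_infinite_isRoot`).
-/

set_option autoImplicit false

noncomputable section

namespace DP

theorem coeff_mem {K V : Type*} [Field K] [Infinite K] [AddCommGroup V] [Module K V]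
    (U : Submodule K V) (n : ℕ) (c : ℕ → V)
    (h : ∀ s : K, s ≠ 0 → ∑ i ∈ Finset.range (n + 1), s ^ i • c i ∈ U) (i : ℕ) (hi : i ≤ n) :
    c i ∈ U := by
  by_contra hc
  obtain ⟨φ, hφ, hU⟩ := Submodule.exists_le_ker_of_notMem hc
  obtain ⟨P, hP⟩ : ∃ P : Polynomial K, P = ∑ j ∈ Finset.range (n + 1),
      Polynomial.C (φ (c j)) * Polynomial.X ^ j := ⟨_, rfl⟩
  have hroot : ∀ s : K, s ≠ 0 → P.IsRoot s := by
    intro s hs
    rw [Polynomial.IsRoot.def, hP, Polynomial.eval_finsetSum]
    have h1 : φ (∑ i ∈ Finset.range (n + 1), s ^ i • c i) = 0 := hU (h s hs)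
    rw [map_sum] at h1
    rw [← h1]
    refine Finset.sum_congr rfl fun j _ => ?_
    rw [Polynomial.eval_mul, Polynomial.eval_C, Polynomial.eval_pow, Polynomial.eval_X, map_smul,
      smul_eq_mul, mul_comm]
  have hinf : {s : K | P.IsRoot s}.Infinite := by
    refine Set.Infinite.mono (s := {0}ᶜ) (fun s hs => hroot s hs) ?_
    exact (Set.finite_singleton (0 : K)).infinite_compl
  have hP0 := Polynomial.eq_zero_of_infinite_isRoot P hinf
  have h2 : P.coeff i = φ (c i) := by
    rw [hP, Polynomial.finsetSum_coeff, Finset.sum_eq_single i]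
    · rw [Polynomial.coeff_C_mul, Polynomial.coeff_X_pow_self, mul_one]
    · intro j _ hj
      rw [Polynomial.coeff_C_mul, Polynomial.coeff_X_pow, if_neg (Ne.symm hj), mul_zero]
    · intro h3
      exact absurd (Finset.mem_range.2 (Nat.lt_succ_of_le hi)) h3
  rw [hP0, Polynomial.coeff_zero] at h2
  exact hφ h2.symm

end DP
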