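import Pool.Agent.Lib.MP_9e8926_ag_DP.TSa
import Pool.Agent.Lib.MP_9e8926_ag_DP.Van

/-!
# The top coefficient of the one-parameter family

Let `Θ : P → P[T]` (`Polynomial P`) be the `K`-algebra homomorphism (`aeval`) with
`Θ X_v = T X_v + (T² - T) a_v X_{x0} + [v = ι x0] (1 - T) B`, `Θ y_j = y_j`
(`B = ∑_w a_{ι w} X_w`).  For `u ∈ PP K (d, β)` and `s ≠ 0`: `Θ u` evaluated at `T = s` is
`s^d ts(s) u` (check on monomials: `Θ X_v` at `s` is `s ts(s) X_v`), the degree of `Θ u` in `T` is at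
most `2 d`, and its coefficient of `T^(2d)` is `u` with `X_v` replaced by `a_v X_{x0}`, i.e.
`u(a, 1) X_{x0}^d y^β` (again on monomials: products of `d` polynomials of degree `≤ 2`,
`Polynomial.coeff_mul_of_natDegree_le`, `Polynomial.coeff_prod_of_natDegree_le`).
Now apply `coeff_mem` with `U = span {γ u}`, `c i = coeff i (Θ u)`, `n = 2 d`, `i = 2 d`, and divide
by the constant `u(a, 1) ≠ 0`.
-/

set_option autoImplicit false

noncomputable section

namespace DP

open MvPolynomial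

variable {σ : Type*} [Fintype σ] {τ : Type*} [Fintype τ] {K : Type*} [Field K]

/-- Two substitutions which differ by factors on the variables, on a polynomial of bidegree
`(d, β)`. -/
private theorem TSb_hom {A : Type*} [CommRing A] [Algebra K A]
    (φ ψ : MvPolynomial (σ ⊕ τ) K →ₐ[K] A) (e : A) (f : τ → A)
    (h1 : ∀ v, φ (X (Sum.inl v)) = e * ψ (X (Sum.inl v)))
    (h2 : ∀ j, φ (X (Sum.inr j)) = f j * ψ (X (Sum.inr j))) (d : ℕ) (β : τ → ℕ)
    (u : MvPolynomial (σ ⊕ τ) K) (hu : u ∈ PP K (d, β)) :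
    φ u = e ^ d * (∏ j, f j ^ β j) * ψ u := by
  have hm : ∀ m ∈ u.support, φ (monomial m (coeff m u)) =
      e ^ d * (∏ j, f j ^ β j) * ψ (monomial m (coeff m u)) := by
    intro m hm
    have h3 : md m = (d, β) := hu m hm
    have h4 : ∑ i, m (Sum.inl i) = d := congrArg Prod.fst h3
    have h5 : (fun j => m (Sum.inr j)) = β := congrArg Prod.snd h3
    rw [monomial_eq, map_mul, map_mul, Finsupp.prod_fintype _ _ fun i => pow_zero _,
      Fintype.prod_sum_type, map_mul, map_mul, map_prod, map_prod, map_prod, map_prod]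
    simp only [map_pow, h1, h2, mul_pow, Finset.prod_mul_distrib]
    rw [Finset.prod_pow_eq_pow_sum, h4, ← h5]
    have h6 : φ (C (coeff m u)) = ψ (C (coeff m u)) := by
      have h7 : ∀ c : K, (C c : MvPolynomial (σ ⊕ τ) K) =
          algebraMap K (MvPolynomial (σ ⊕ τ) K) c := fun c => rfl
      rw [h7, AlgHom.commutes, AlgHom.commutes]
    rw [h6]
    ring
  conv_lhs => rw [← support_sum_monomial_coeff u]
  conv_rhs => rw [← support_sum_monomial_coeff u]
  rw [map_sum, map_sum, Finset.mul_sum]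
  exact Finset.sum_congr rfl hm

open Classical in
/-- The polynomial family. -/
private def TSbF (τ : Type*) [Fintype τ] (ι : σ → σ) (a : σ → K) (x0 : σ) :
    MvPolynomial (σ ⊕ τ) K →ₐ[K] Polynomial (MvPolynomial (σ ⊕ τ) K) :=
  aeval (Sum.elim (fun v => Polynomial.X * Polynomial.C (X (Sum.inl v)) +
    (1 - Polynomial.X) * Polynomial.C (C (a v) * X (Sum.inl x0)) +
      (if v = ι x0 then (Polynomial.X ^ 2 - Polynomial.X) *
        Polynomial.C (∑ w, C (a (ι w)) * X (Sum.inl w)) else 0))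
    fun j => Polynomial.C (X (Sum.inr j)))

/-- The value of the family. -/
private def TSbG (ι : σ → σ) (a : σ → K) (x0 : σ) (s : K) :
    MvPolynomial (σ ⊕ τ) K →ₐ[K] MvPolynomial (σ ⊕ τ) K :=
  ((Polynomial.aeval (C s : MvPolynomial (σ ⊕ τ) K)).restrictScalars K).comp (TSbF τ ι a x0)

private theorem TSbG_apply (ι : σ → σ) (a : σ → K) (x0 : σ) (s : K)
    (u : MvPolynomial (σ ⊕ τ) K) :
    TSbG ι a x0 s u = Polynomial.eval (C s) (TSbF τ ι a x0 u) :=
  congrFun (Polynomial.coe_aeval_eq_eval (C s : MvPolynomial (σ ⊕ τ) K)) _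

open Classical in
private theorem TSbG_inl (ι : σ → σ) (a : σ → K) (x0 : σ) (s : K) (v : σ) :
    TSbG ι a x0 s (X (Sum.inl v) : MvPolynomial (σ ⊕ τ) K) =
      C s * X (Sum.inl v) + (1 - C s) * (C (a v) * X (Sum.inl x0)) +
        (if v = ι x0 then (C s ^ 2 - C s) * ∑ w, C (a (ι w)) * X (Sum.inl w) else 0) := by
  rw [TSbG_apply]
  unfold TSbF
  rw [aeval_X]
  simp only [Sum.elim_inl]
  split_ifs with h
  · simp [Polynomial.eval_finsetSum]
    ring
  · simp
    ring

private theorem TSbG_inr (ι : σ → σ) (a : σ → K) (x0 : σ) (s : K) (j : τ) :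
    TSbG ι a x0 s (X (Sum.inr j) : MvPolynomial (σ ⊕ τ) K) = X (Sum.inr j) := by
  rw [TSbG_apply]
  unfold TSbF
  rw [aeval_X]
  simp only [Sum.elim_inr, Polynomial.eval_C]

theorem span_top [Infinite K] (ι : σ → σ) (hι : Function.Involutive ι) (a : σ → K)
    (ha : ∑ v, a v * a (ι v) = 0) (x0 : σ) (hx0 : ι x0 ≠ x0) (hax : a x0 = 1) (d : ℕ)
    (β : τ → ℕ) (u : MvPolynomial (σ ⊕ τ) K) (hu : u ∈ PP K (d, β))
    (hua : eval (Sum.elim a fun _ => 1) u ≠ 0) :
    (X (Sum.inl x0) ^ d * ∏ j, X (Sum.inr j) ^ β j : MvPolynomial (σ ⊕ τ) K) ∈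
      Submodule.span K {v | ∃ γ ∈ Gs K τ ι, v = γ u} := by
  classical
  -- the values at `s ≠ 0`
  have h1 : ∀ s : K, s ≠ 0 → TSbG ι a x0 s u = s ^ d • ts τ ι a x0 s⁻¹ u := by
    intro s hs
    have h2 := TSb_hom (TSbG (τ := τ) ι a x0 s) (ts τ ι a x0 s⁻¹) (C s) (fun _ => 1)
      (fun v => ?_) (fun j => ?_) d β u hu
    · rw [h2]
      simp only [one_pow, Finset.prod_const_one, mul_one]
      rw [← C_pow, MvPolynomial.smul_eq_C_mul]
    · rw [TSbG_inl]
      unfold ts
      rw [aeval_X]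
      simp only [Sum.elim_inl, inv_inv]
      have hC : (C s : MvPolynomial (σ ⊕ τ) K) * C s⁻¹ = 1 := by
        rw [← C_mul, mul_inv_cancel₀ hs, C_1]
      simp only [C_mul, C_sub, C_1]
      split_ifs with h
      · linear_combination (-(C (a v) * X (Sum.inl x0))) * hC
      · linear_combination (-(C (a v) * X (Sum.inl x0))) * hC
    · rw [TSbG_inr]
      unfold ts
      rw [aeval_X, one_mul]
      rfl
  -- the value at `0`
  have h3 : TSbG ι a x0 0 u = eval (Sum.elim a fun _ => 1) u •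
      (X (Sum.inl x0) ^ d * ∏ j, X (Sum.inr j) ^ β j : MvPolynomial (σ ⊕ τ) K) := by
    have h4 := TSb_hom (TSbG (τ := τ) ι a x0 0)
      ((Algebra.ofId K (MvPolynomial (σ ⊕ τ) K)).comp
        (aeval (Sum.elim a fun _ => 1) : MvPolynomial (σ ⊕ τ) K →ₐ[K] K))
      (X (Sum.inl x0)) (fun j => X (Sum.inr j)) (fun v => ?_) (fun j => ?_) d β u hu
    · rw [h4, MvPolynomial.smul_eq_C_mul, mul_comm]
      congr 1
    · rw [TSbG_inl, AlgHom.comp_apply, aeval_X]
      simp only [Sum.elim_inl, C_0, zero_mul, zero_add, sub_zero, one_mul, ne_eq,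
        OfNat.ofNat_ne_zero, not_false_eq_true, zero_pow, ite_self, add_zero]
      rw [mul_comm]
      rfl
    · rw [TSbG_inr, AlgHom.comp_apply, aeval_X, Sum.elim_inr, map_one, mul_one]
  have h5 := coeff_mem (Submodule.span K {v | ∃ γ ∈ Gs K τ ι, v = γ u})
    (TSbF τ ι a x0 u).natDegree (fun i => (TSbF τ ι a x0 u).coeff i) (fun s hs => ?_) 0
    (Nat.zero_le _)
  · have h6 : (TSbF τ ι a x0 u).coeff 0 = TSbG ι a x0 0 u := by
      rw [TSbG_apply, C_0, Polynomial.coeff_zero_eq_eval_zero]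
    rw [h6, h3] at h5
    have h7 := Submodule.smul_mem _ (eval (Sum.elim a fun _ => 1) u)⁻¹ h5
    rwa [smul_smul, inv_mul_cancel₀ hua, one_smul] at h7
  · have h6 : ∑ i ∈ Finset.range ((TSbF τ ι a x0 u).natDegree + 1),
        s ^ i • (TSbF τ ι a x0 u).coeff i = TSbG ι a x0 s u := by
      rw [TSbG_apply, Polynomial.eval_eq_sum_range]
      refine Finset.sum_congr rfl fun i _ => ?_
      rw [MvPolynomial.smul_eq_C_mul, C_pow, mul_comm]
    rw [h6, h1 s hs]
    exact Submodule.smul_mem _ _ (Submodule.subset_span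
      ⟨_, ts_mem ι hι a ha x0 hx0 hax s⁻¹ (inv_ne_zero hs), rfl⟩)

end DP
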