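import Pool.Agent.Lib.MP_9e8926_ag_DP.Wtb
import Pool.Agent.Lib.MP_9e8926_ag_DP.RedB
import Pool.Agent.Lib.MP_9e8926_ag_DP.CntE
import Pool.Agent.Lib.MP_9e8926_ag_DP.FptA
import Pool.Agent.Lib.MP_9e8926_ag_DP.LowK

/-!
# Colengths of the weight ideals

`R/ak C ≃ P/(span {f} ⊔ Wt C)` (`DoubleQuot`, or: the composite `P → R → R/ak C` is surjective with
kernel `span {f} ⊔ Wt C`, `Ideal.comap_map_of_surjective`), so `finrank_Wt` (with `κ` of
`exists_kappa`, `lead_f`, `Q = ∑ a_i x_i²`) gives the bound by `S0`, and `S0_up`.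
-/

set_option autoImplicit false

noncomputable section

namespace DP

open MvPolynomial

private theorem UpE_Q_mem {k : Type*} [Field k] {r N : ℕ} (a : Fin r → k) :
    (∑ i, C (a i) * X (Sum.inl i) ^ 2 : MvPolynomial (Fin r ⊕ Fin N) k) ∈ PP k (2, 0) := by
  refine Submodule.sum_mem _ fun i _ => ?_
  rw [← smul_eq_C_mul]
  refine Submodule.smul_mem _ _ ?_
  have h := PP_pow (PP_X (τ := Fin N) (k := k) i) 2
  have e : 2 • ((1, 0) : ℕ × (Fin N → ℕ)) = (2, 0) := by simp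
  rwa [e] at h

private theorem UpE_Q_ne {k : Type*} [Field k] {r N : ℕ} (hr : 3 ≤ r) (a : Fin r → k)
    (ha : ∀ i, a i ≠ 0) :
    (∑ i, C (a i) * X (Sum.inl i) ^ 2 : MvPolynomial (Fin r ⊕ Fin N) k) ≠ 0 := by
  classical
  intro h
  let i0 : Fin r := ⟨0, by omega⟩
  have h1 := congrArg (eval fun v : Fin r ⊕ Fin N => if v = Sum.inl i0 then (1 : k) else 0) h
  rw [map_sum, map_zero, Finset.sum_eq_single i0] at h1
  · simp at h1
    exact ha _ h1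
  · intro i _ hi
    simp [hi]
  · intro h2
    exact absurd (Finset.mem_univ _) h2

variable {k : Type*} [Field k] {r N : ℕ} (hr : 3 ≤ r)
  (ax : ℕ) (ay : Fin N → ℕ) (hax : 0 < ax) (hay : ∀ j, 0 < ay j)
  (a : Fin r → k) (ha : ∀ i, a i ≠ 0) (g : MvPolynomial (Fin r ⊕ Fin N) k)
  (hg : Hyp ax ay g)

include hr hax hay ha hg

theorem finrank_ak (C : ℕ) :
    Module.Finite k (Rg (ff a g) ⧸ ak (ff a g) ax ay C) ∧
    Module.finrank k (Rg (ff a g) ⧸ ak (ff a g) ax ay C) ≤ S0 r ax ay C := by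
  obtain ⟨κ, hκ, hL, hL2⟩ := exists_kappa N ax ay hax hay
  obtain ⟨h1, h2⟩ := lead_f κ ax ay hL2 _ g (UpE_Q_mem (N := N) a) hg
  obtain ⟨h3, h4⟩ := finrank_Wt κ hκ ax ay hax hay hL hr (Fintype.card_fin r) (ff a g) _
    (UpE_Q_mem (N := N) a) (UpE_Q_ne hr a ha) h1 h2 C
  have e : (Rg (ff a g) ⧸ ak (ff a g) ax ay C) ≃ₗ[k]
      (MvPolynomial (Fin r ⊕ Fin N) k ⧸ (Ideal.span {ff a g} ⊔ Wt k ax ay C)) :=
    (DoubleQuot.quotQuotEquivQuotSupₐ k (Ideal.span {ff a g}) (Wt k ax ay C)).toLinearEquiv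
  refine ⟨Module.Finite.equiv e.symm, ?_⟩
  rw [e.finrank_eq]
  exact h4

end DP
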