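import Pool.Agent.Lib.MP_9e8926_ag_DP.Gr

/-!
# The dimension of the space of polynomials of a given bidegree

`PP k (d, β)` has as basis the monomials `X^α y^β` with `|α| = d`; their number is the number of
`α : σ → ℕ` with sum `d`, which is `(d + r - 1).choose d` by stars and bars (`Sym.card_sym_eq_choose`,
`Finset.card_piAntidiag`, `Sym.card_sym_fin_eq_multichoose`, or `Nat.choose` recursion).
-/

set_option autoImplicit false

noncomputable section

namespace DP

open MvPolynomial

variable {σ τ : Type*} [Fintype σ] [Fintype τ] {k : Type*} [Field k]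

theorem finrank_PP {r : ℕ} (hr : 1 ≤ r) (hcard : Fintype.card σ = r) (s : ℕ × (τ → ℕ)) :
    Module.finrank k (PP k s : Submodule k (MvPolynomial (σ ⊕ τ) k)) =
      (s.1 + r - 1).choose (r - 1) := by
  classical
  have h1 : (PP k s : Submodule k (MvPolynomial (σ ⊕ τ) k)) =
      restrictSupport k {m : σ ⊕ τ →₀ ℕ | md m = s} := by
    ext u
    rw [mem_restrictSupport_iff]
    exact ⟨fun h m hm => h m hm, fun h m hm => h hm⟩
  rw [h1, Module.finrank_eq_nat_card_basis (basisRestrictSupport k _)]
  -- the equivalence
  have e : {m : σ ⊕ τ →₀ ℕ | md m = s} ≃ {P : σ → ℕ // ∑ i, P i = s.1} :=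
    { toFun := fun m => ⟨fun i => m.1 (Sum.inl i), congrArg Prod.fst m.2⟩
      invFun := fun P => ⟨Finsupp.equivFunOnFinite.symm (Sum.elim P.1 s.2), by
        show md _ = s
        unfold md
        refine Prod.ext ?_ ?_
        · simpa using P.2
        · funext j
          simp⟩
      left_inv := fun m => by
        apply Subtype.ext
        ext v
        rcases v with i | j
        · simp
        · have := congrFun (congrArg Prod.snd m.2) j
          simp only [md] at this
          simp [this]
      right_inv := fun P => by
        apply Subtype.ext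
        funext i
        simp }
  rw [Nat.card_congr e, Nat.card_congr (Sym.equivNatSumOfFintype σ s.1).symm,
    Nat.card_eq_fintype_card, Sym.card_sym_eq_choose, hcard,
    show r + s.1 - 1 = s.1 + (r - 1) by omega, show s.1 + r - 1 = s.1 + (r - 1) by omega]
  exact Nat.choose_symm_add

end DP
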